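import Mathlib

-- part Pool.Agent.Lib.MP_34a149_al.RG.Obj
section

/-! The groups of the counterexample. -/

set_option autoImplicit false

namespace Pool.Agent.Lib.MP_34a149_al.RG

open HNNExtension

/-- `K` with a new letter `t` that centralises `C`. -/
abbrev Cen (K : Type) [Group K] (C : Subgroup K) : Type := HNNExtension K C C (MulEquiv.refl C)

section cen
variable {K : Type} [Group K] {C : Subgroup K}

/-- The universal property of `Cen`. -/
def Cen.lift {M : Type} [Group M] (f : K →* M) (s : M) (h : ∀ c ∈ C, s * f c = f c * s) :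
    Cen K C →* M := HNNExtension.lift f s fun c => h c.1 c.2

@[simp] theorem Cen.lift_of {M : Type} [Group M] (f : K →* M) (s : M)
    (h : ∀ c ∈ C, s * f c = f c * s) (g : K) : Cen.lift f s h (of g) = f g :=
  HNNExtension.lift_of _ _ _ _

@[simp] theorem Cen.lift_t {M : Type} [Group M] (f : K →* M) (s : M)
    (h : ∀ c ∈ C, s * f c = f c * s) : Cen.lift f s h t = s :=
  HNNExtension.lift_t _ _ _

theorem Cen.comm {c : K} (hc : c ∈ C) : Commute (t : Cen K C) (of c) :=
  HNNExtension.t_mul_of (φ := MulEquiv.refl C) ⟨c, hc⟩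

theorem Cen.gen (U : Subgroup (Cen K C)) (h1 : ∀ g, of g ∈ U) (h2 : t ∈ U) : U = ⊤ :=
  eq_top_iff.2 fun g _ => HNNExtension.induction_on g h1 h2 (fun _ _ => U.mul_mem)
    fun _ => U.inv_mem

theorem Cen.closure_eq : Subgroup.closure (Set.range (of : K →* Cen K C) ∪ {t}) = ⊤ :=
  Cen.gen _ (fun g => Subgroup.subset_closure (Or.inl ⟨g, rfl⟩))
    (Subgroup.subset_closure (Or.inr rfl))

/-- The retraction that kills `t`. -/
def Cen.ret (K : Type) [Group K] (C : Subgroup K) : Cen K C →* K :=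
  Cen.lift (MonoidHom.id K) 1 fun _ _ => by simp

@[simp] theorem Cen.ret_of (g : K) : Cen.ret K C (of g) = g := Cen.lift_of _ _ _ _

@[simp] theorem Cen.ret_t : Cen.ret K C t = 1 := Cen.lift_t _ _ _

/-- The exponent sum of `t`. -/
def Cen.ex (K : Type) [Group K] (C : Subgroup K) : Cen K C →* Multiplicative ℤ :=
  Cen.lift 1 (Multiplicative.ofAdd 1) fun _ _ => by simp

@[simp] theorem Cen.ex_of (g : K) : Cen.ex K C (of g) = 1 := Cen.lift_of _ _ _ _

@[simp] theorem Cen.ex_t : Cen.ex K C t = Multiplicative.ofAdd 1 := Cen.lift_t _ _ _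

/-- `Cen K C` is finitely presented when `K` is and `C` is finitely generated. -/
theorem Cen.fp [Group.IsFinitelyPresented K] (S : Set K) (hS : S.Finite)
    (hC : Subgroup.closure S = C) : Group.IsFinitelyPresented (Cen K C) := by
  let F := Monoid.Coprod K (Multiplicative ℤ)
  let τ : F := Monoid.Coprod.inr (Multiplicative.ofAdd 1)
  let R : Set F := (fun c => τ * Monoid.Coprod.inl c * τ⁻¹ * (Monoid.Coprod.inl c)⁻¹) '' S
  let N := Subgroup.normalClosure R
  let p : F →* Cen K C := Monoid.Coprod.lift of (zpowersHom _ t)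
  have p1 : ∀ g, p (Monoid.Coprod.inl g) = of g := fun g => Monoid.Coprod.lift_apply_inl _ _ _
  have p2 : p τ = t := (Monoid.Coprod.lift_apply_inr _ _ _).trans (by simp)
  have hN : ∀ z ∈ N, p z = 1 := fun z hz => by
    refine (Subgroup.normalClosure_le_normal (N := p.ker) ?_) hz
    rintro _ ⟨c, hc, rfl⟩
    have := (Cen.comm (C := C) (hC ▸ Subgroup.subset_closure hc)).eq
    simp [p1, p2, this]
  have hq : ∀ c ∈ C, (τ : F ⧸ N) * ((QuotientGroup.mk' N).comp Monoid.Coprod.inl) c =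
      ((QuotientGroup.mk' N).comp Monoid.Coprod.inl) c * (τ : F ⧸ N) := fun c hc => by
    subst hC
    refine Subgroup.closure_induction (p := fun c _ => Commute (τ : F ⧸ N)
      (((QuotientGroup.mk' N).comp Monoid.Coprod.inl) c)) (fun c hc => ?_) (by simp)
      (fun a b _ _ ha hb => by rw [map_mul]; exact ha.mul_right hb)
      (fun a _ ha => by rw [map_inv]; exact ha.inv_right) hc
    have h : ((τ * Monoid.Coprod.inl c * τ⁻¹ * (Monoid.Coprod.inl c)⁻¹ : F) : F ⧸ N) = 1 :=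
      (QuotientGroup.eq_one_iff _).2 (Subgroup.subset_normalClosure ⟨c, hc, rfl⟩)
    exact commutatorElement_eq_one_iff_commute.1 h
  have := Group.IsFinitelyPresented.quotient N ⟨R, hS.image _, rfl⟩
  refine Group.IsFinitelyPresented.equiv (G := F ⧸ N) (MonoidHom.toMulEquiv
    (QuotientGroup.lift N p hN) (Cen.lift _ _ hq) ?_ ?_)
  · refine QuotientGroup.monoidHom_ext _ (Monoid.Coprod.hom_ext ?_ ?_)
    · ext g; simp [p1]
    · ext
      change Cen.lift _ _ hq (p τ) = (τ : F ⧸ N)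
      simp [p2]
  · refine HNNExtension.hom_ext ?_ ?_
    · ext g; simp [p1]
    · simp [p2]

end cen

/-- The free product of `L` and an infinite cyclic group generated by `a = t`. -/
abbrev Phi (L : Type) [Group L] : Type := Cen L ⊥

variable {L : Type} [Group L]

/-- The subgroup generated by `a` and `x a y`. -/
def CC (x y : L) : Subgroup (Phi L) := Subgroup.closure {t, of x * t * of y}

theorem a_mem (x y : L) : (t : Phi L) ∈ CC x y := Subgroup.subset_closure (by simp)

theorem b_mem (x y : L) : (of x * t * of y : Phi L) ∈ CC x y := Subgroup.subset_closure (by simp)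

/-- The group of the counterexample. -/
abbrev GG (x y : L) : Type := Cen (Phi L) (CC x y)

/-- The exponent sum of `a`. -/
def psi (x y : L) : GG x y →* Multiplicative ℤ := (Cen.ex L ⊥).comp (Cen.ret _ _)

@[simp] theorem psi_a (x y : L) : psi x y (of t) = Multiplicative.ofAdd 1 := by simp [psi]

@[simp] theorem psi_L (x y γ : L) : psi x y (of (of γ)) = 1 := by simp [psi]

@[simp] theorem psi_t (x y : L) : psi x y t = 1 := by simp [psi]

theorem GG.fp [Group.IsFinitelyPresented L] (x y : L) : Group.IsFinitelyPresented (GG x y) := by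
  have : Group.IsFinitelyPresented (Phi L) := Cen.fp ∅ Set.finite_empty Subgroup.closure_empty
  exact Cen.fp _ (Set.toFinite _) rfl

/-- `SL₃(R)`. -/
abbrev SL3 (R : Type) [CommRing R] : Type := Matrix.SpecialLinearGroup (Fin 3) R

/-- Reduction of integer matrices. -/
def red (R : Type) [CommRing R] : SL3 ℤ →* SL3 R :=
  Matrix.SpecialLinearGroup.map (Int.castRingHom R)

/-- The inverse of `xx`. -/
def zz : SL3 ℤ := ⟨!![-1, 0, 0; -1, 1, 0; 0, -1, -1], by decide⟩

/-- The element `x`. -/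
def xx : SL3 ℤ := zz⁻¹

/-- The element `y`. -/
def yy : SL3 ℤ := ⟨!![-1, 1, 0; 0, 1, 1; 0, 0, -1], by decide⟩

/-- The number of points of `J` that leave `J` under right multiplication by `g`. -/
noncomputable def bd {A : Type} [Group A] (J : Finset A) (g : A) : ℕ :=
  open Classical in (J.filter fun z => z * g ∉ J).card

end Pool.Agent.Lib.MP_34a149_al.RG
end

-- part Pool.Agent.Lib.MP_34a149_al.RG.PDeg
section

/-! Leading coefficients of polynomial vectors, generic points, normal forms. -/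

set_option autoImplicit false

namespace Pool.Agent.Lib.MP_34a149_al.RG

section top
open Polynomial Matrix
variable {R : Type} [CommRing R] {n : Type} [Fintype n]

/-- The vector `w` has degree at most `r` and coefficient `u` in degree `r`. -/
def Top (r : ℕ) (w : n → R[X]) (u : n → R) : Prop :=
  ∀ i, (w i).natDegree ≤ r ∧ (w i).coeff r = u i

omit [Fintype n] in
theorem Top.const (u : n → R) : Top 0 (fun i => C (u i)) u := fun i => by simp

theorem Top.map {r : ℕ} {w : n → R[X]} {u : n → R} (h : Top r w u) (B : Matrix n n R) :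
    Top r (B.map C *ᵥ w) (B *ᵥ u) := fun i => by
  simp only [mulVec, dotProduct, map_apply]
  refine ⟨natDegree_sum_le_of_forall_le _ _ fun j _ => (natDegree_C_mul_le _ _).trans (h j).1, ?_⟩
  rw [finsetSum_coeff]
  exact Finset.sum_congr rfl fun j _ => by rw [coeff_C_mul, (h j).2]

theorem Top.step {r : ℕ} {w : n → R[X]} {u : n → R} (h : Top r w u) (B B' : Matrix n n R) :
    Top (r + 1) ((B.map C + (X : R[X]) • B'.map C) *ᵥ w) (B' *ᵥ u) := fun i => by
  have h0 := h.map B i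
  have h1 := h.map B' i
  rw [add_mulVec, smul_mulVec, Pi.add_apply, Pi.smul_apply, smul_eq_mul]
  refine ⟨(natDegree_add_le _ _).trans (max_le (h0.1.trans r.le_succ) ?_), ?_⟩
  · refine natDegree_mul_le.trans ?_
    have := natDegree_X_le (R := R)
    omega
  · rw [coeff_add, coeff_eq_zero_of_natDegree_lt (Nat.lt_succ_of_le h0.1), zero_add, coeff_X_mul,
      h1.2]

omit [Fintype n] in
theorem Top.ne {r : ℕ} {w : n → R[X]} {u : n → R} (h : Top (r + 1) w u) {i : n} (hu : u i ≠ 0)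
    (c : R) : w i ≠ C c := fun e => hu (by rw [← (h i).2, e, coeff_C_succ])

end top

instance : Uncountable ℤ_[2] := by
  refine ⟨fun hc => ?_⟩
  obtain ⟨x, y, hy⟩ := nonempty_interior_of_iUnion_of_closed (f := fun x : ℤ_[2] => ({x} : Set ℤ_[2]))
    (fun _ => isClosed_singleton) (Set.iUnion_of_singleton _)
  have hx : IsOpen ({x} : Set ℤ_[2]) := by
    have e : y = x := Set.mem_singleton_iff.1 (interior_subset hy)
    subst e
    exact isOpen_singleton_iff_punctured_nhds y |>.2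
      (by simpa [nhdsWithin, Filter.inf_principal_eq_bot] using mem_interior_iff_mem_nhds.1 hy)
  have h0 : IsOpen ({0} : Set ℤ_[2]) := by
    have := hx.preimage (continuous_add_const x)
    rwa [show (fun a : ℤ_[2] => a + x) ⁻¹' {x} = {0} by ext a; simp] at this
  have := discreteTopology_of_isOpen_singleton_zero h0
  have := finite_of_compact_of_discrete (X := ℤ_[2])
  exact not_finite ℤ_[2]

theorem avoid {R ι : Type} [Uncountable R] [Countable ι] (bad : ι → Set R)
    (h : ∀ i, (bad i).Finite) : ∃ x, ∀ i, x ∉ bad i := by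
  by_contra hn
  refine Set.not_countable_univ (α := R) ((Set.countable_iUnion fun i => (h i).countable).mono ?_)
  intro x _
  by_contra hx
  exact hn ⟨x, fun i hi => hx (Set.mem_iUnion.2 ⟨i, hi⟩)⟩

/-- A common non-root of countably many nonzero polynomials. -/
theorem avoid_poly {R ι : Type} [CommRing R] [IsDomain R] [Uncountable R] [Countable ι]
    (p : ι → Polynomial R) : ∃ x, ∀ i, p i ≠ 0 → (p i).eval x ≠ 0 := by
  obtain ⟨x, hx⟩ := avoid (fun i => {x | p i ≠ 0 ∧ (p i).eval x = 0}) fun i => by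
    by_cases h : p i = 0
    · simp [h]
    · exact (Polynomial.finite_setOfPred_isRoot h).subset fun x hx => hx.2
  exact ⟨x, fun i h e => hx i ⟨h, e⟩⟩

section nf
open HNNExtension
variable {K : Type} [Group K] {C : Subgroup K}

instance [Countable K] : Countable (Cen K C) := by
  refine Function.Surjective.countable
    (f := FreeGroup.lift fun o : Option K => o.elim (t : Cen K C) of) ?_
  exact MonoidHom.range_eq_top.1 (Cen.gen _ (fun g => ⟨FreeGroup.of (some g), by simp⟩)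
    ⟨FreeGroup.of none, by simp⟩)

theorem Cen.ind (p : Cen K C → Prop) (h1 : p 1) (h2 : ∀ k g, p g → p (of k * g))
    (h3 : ∀ g, p g → p (t * g)) (h4 : ∀ g, p g → p (t⁻¹ * g)) (g : Cen K C) : p g := by
  have hg : g ∈ Subgroup.closure (Set.range (of : K →* Cen K C) ∪ {t}) := by
    rw [Cen.closure_eq]; trivial
  induction hg using Subgroup.closure_induction_left with
  | one => exact h1
  | mul_left x hx y _ ih =>
    rcases hx with ⟨k, rfl⟩ | rfl
    · exact h2 k y ih
    · exact h3 y ih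
  | inv_mul_cancel x hx y _ ih =>
    rcases hx with ⟨k, rfl⟩ | rfl
    · rw [← map_inv]; exact h2 _ y ih
    · exact h4 y ih

/-- Reduced words in powers of `t`. -/
inductive WG (C : Subgroup K) : ℕ → Cen K C → Prop
  | base (k : ℤ) (f : K) : k ≠ 0 → WG C 0 (t ^ k * of f)
  | step (k : ℤ) (f : K) (n : ℕ) (g : Cen K C) : k ≠ 0 → f ∉ C → WG C n g →
      WG C (n + 1) (t ^ k * of f * g)

theorem nfG (g : Cen K C) : (∃ f, g = of f) ∨ ∃ f n g', WG C n g' ∧ g = of f * g' := by
  have key : ∀ (e : ℤ) (g : Cen K C), e ≠ 0 →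
      ((∃ f, g = of f) ∨ ∃ f n g', WG C n g' ∧ g = of f * g') →
      ((∃ f, t ^ e * g = of f) ∨ ∃ f n g', WG C n g' ∧ t ^ e * g = of f * g') := by
    rintro e g he (⟨f, rfl⟩ | ⟨f, n, g', hw, rfl⟩)
    · exact Or.inr ⟨1, 0, _, WG.base e f he, by simp⟩
    · by_cases hf : f ∈ C
      · have hc := ((Cen.comm hf).zpow_left e).eq
        cases hw with
        | base k f' hk =>
          by_cases h0 : e + k = 0
          · refine Or.inl ⟨f * f', ?_⟩
            rw [← mul_assoc, hc, mul_assoc, ← mul_assoc (t ^ e), ← zpow_add, h0]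
            simp
          · refine Or.inr ⟨f, 0, _, WG.base (e + k) f' h0, ?_⟩
            rw [← mul_assoc, hc, zpow_add]
            simp only [mul_assoc]
        | step k f' n g hk hf' hw =>
          by_cases h0 : e + k = 0
          · refine Or.inr ⟨f * f', n, g, hw, ?_⟩
            rw [← mul_assoc, hc, mul_assoc, mul_assoc (t ^ k), ← mul_assoc (t ^ e), ← zpow_add, h0]
            simp [mul_assoc]
          · refine Or.inr ⟨f, n + 1, _, WG.step (e + k) f' n g h0 hf' hw, ?_⟩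
            rw [← mul_assoc, hc, zpow_add]
            simp only [mul_assoc]
      · exact Or.inr ⟨1, n + 1, _, WG.step e f n g' he hf hw, by simp [mul_assoc]⟩
  refine Cen.ind (fun g => (∃ f, g = of f) ∨ ∃ f n g', WG C n g' ∧ g = of f * g')
    (Or.inl ⟨1, by simp⟩) ?_ (fun g h => by simpa using key 1 g (by decide) h)
    (fun g h => by simpa using key (-1) g (by decide) h) g
  rintro k g (⟨f, rfl⟩ | ⟨f, n, g', hw, rfl⟩)
  · exact Or.inl ⟨k * f, by simp⟩
  · exact Or.inr ⟨k * f, n, g', hw, by simp [mul_assoc]⟩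

/-- The letters `a` and `a⁻¹`. -/
def let1 (K : Type) [Group K] : Bool → Phi K
  | true => t
  | false => t⁻¹

theorem let1_mul {ε ε' : Bool} (h : ε ≠ ε') : let1 K ε * let1 K ε' = 1 := by
  cases ε <;> cases ε' <;> simp_all [let1]

/-- Reduced words in the free product, with a tail in `D` and a condition on the last letter. -/
inductive WF (D : Subgroup (Phi K)) (B : Bool → K → Prop) : Bool → ℕ → Phi K → Prop
  | base (ε : Bool) (l : K) (c : Phi K) : c ∈ D → B ε l → WF D B ε 0 (let1 K ε * of l * c)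
  | step (ε ε' : Bool) (l : K) (n : ℕ) (f : Phi K) : WF D B ε' n f → (ε = ε' ∨ l ≠ 1) →
      WF D B ε (n + 1) (let1 K ε * of l * f)

theorem nfF (D : Subgroup (Phi K)) (B : Bool → K → Prop)
    (hB : ∀ ε l, ¬ B ε l → ∃ l', ∃ c ∈ D, let1 K ε * of l = of l' * c) (f : Phi K) :
    (∃ l, ∃ c ∈ D, f = of l * c) ∨ ∃ l ε n f', WF D B ε n f' ∧ f = of l * f' := by
  have key : ∀ (ε : Bool) (f : Phi K),
      ((∃ l, ∃ c ∈ D, f = of l * c) ∨ ∃ l ε n f', WF D B ε n f' ∧ f = of l * f') →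
      ((∃ l, ∃ c ∈ D, let1 K ε * f = of l * c) ∨
        ∃ l ε' n f', WF D B ε' n f' ∧ let1 K ε * f = of l * f') := by
    rintro ε f (⟨l, c, hc, rfl⟩ | ⟨l, ε', n, f', hw, rfl⟩)
    · by_cases hl : B ε l
      · exact Or.inr ⟨1, ε, 0, _, WF.base ε l c hc hl, by simp [mul_assoc]⟩
      · obtain ⟨l', c', hc', e⟩ := hB ε l hl
        exact Or.inl ⟨l', c' * c, D.mul_mem hc' hc, by rw [← mul_assoc, e, mul_assoc]⟩
    · by_cases hl : ε = ε' ∨ l ≠ 1
      · exact Or.inr ⟨1, ε, n + 1, _, WF.step ε ε' l n f' hw hl, by simp [mul_assoc]⟩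
      · obtain ⟨h1, h2⟩ := not_or.1 hl
        obtain rfl : l = 1 := not_not.1 h2
        have e := let1_mul (K := K) h1
        cases hw with
        | base _ l c hc _ =>
          exact Or.inl ⟨l, c, hc, by rw [map_one, one_mul, mul_assoc, ← mul_assoc, e, one_mul]⟩
        | step _ ε₂ l n f hw _ =>
          exact Or.inr ⟨l, ε₂, n, f, hw, by
            rw [map_one, one_mul, mul_assoc, ← mul_assoc, e, one_mul]⟩
  refine Cen.ind
    (fun f => (∃ l, ∃ c ∈ D, f = of l * c) ∨ ∃ l ε n f', WF D B ε n f' ∧ f = of l * f')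
    (Or.inl ⟨1, 1, D.one_mem, by simp⟩) ?_ (key true) (key false) f
  rintro k g (⟨l, c, hc, rfl⟩ | ⟨l, ε, n, f', hw, rfl⟩)
  · exact Or.inl ⟨k * l, c, hc, by simp [mul_assoc]⟩
  · exact Or.inr ⟨k * l, ε, n, f', hw, by simp [mul_assoc]⟩

end nf

end Pool.Agent.Lib.MP_34a149_al.RG
end

-- part Pool.Agent.Lib.MP_34a149_al.RG.PRep
section

/-! A faithful representation of the free product in which `CC` is the stabiliser of a vector. -/

set_option autoImplicit false

namespace Pool.Agent.Lib.MP_34a149_al.RG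

open Polynomial
open scoped Matrix

section gen
variable {S S' : Type} [CommRing S] [CommRing S']

theorem red_apply (l : SL3 ℤ) (i j : Fin 3) : (red S l).1 i j = (l.1 i j : S) := rfl

theorem map_red (φ : S →+* S') (l : SL3 ℤ) :
    Matrix.SpecialLinearGroup.map φ (red S l) = red S' l := by
  ext i j
  exact map_intCast φ _

/-- A point of a cubic curve. -/
def vv (U : S) : Fin 3 → S := ![U, 1, U ^ 3]

/-- The matrix with three given columns. -/
def col3 (a b c : Fin 3 → S) : Matrix (Fin 3) (Fin 3) S := Matrix.of fun i => ![a i, b i, c i]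

/-- The determinant of `v`, `m v`, `l v`. -/
def Dt (m l : SL3 ℤ) (U : S) : S :=
  (col3 (vv U) ((red S m).1 *ᵥ vv U) ((red S l).1 *ᵥ vv U)).det

theorem map_Dt (φ : S →+* S') (m l : SL3 ℤ) (U : S) : φ (Dt m l U) = Dt m l (φ U) := by
  simp [Dt, col3, vv, Matrix.det_fin_three, Matrix.mulVec, dotProduct, Fin.sum_univ_three,
    red_apply]

theorem gen_y (l : SL3 ℤ) (h : ∀ U : ℤ, Dt yy l U = 0) : l = 1 ∨ l = yy := by
  obtain ⟨m, hm⟩ := l
  obtain ⟨a, b, c, d, e, f, p, q, r, rfl⟩ :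
      ∃ a b c d e f p q r, m = !![a, b, c; d, e, f; p, q, r] :=
    ⟨_, _, _, _, _, _, _, _, _, Matrix.eta_fin_three m⟩
  simp [Dt, col3, vv, Matrix.det_fin_three, Matrix.mulVec, dotProduct, Fin.sum_univ_three,
    red_apply, yy] at h
  have h0 := h 0
  have h1 := h 1
  have h2 := h 2
  have h3 := h 3
  have h4 := h 4
  have h5 := h 5
  have g1 := h (-1)
  have g2 := h (-2)
  have g3 := h (-3)
  have g4 := h (-4)
  obtain rfl : c = 0 := by linarith
  obtain rfl : d = 0 := by linarith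
  obtain rfl : p = 0 := by linarith
  obtain rfl : q = 0 := by linarith
  obtain rfl : f = b := by linarith
  obtain rfl : r = a := by linarith
  obtain rfl : e = r + 2 * f := by linarith
  have hd : r * (r * (r + 2 * f)) = 1 := by
    have := hm
    rw [Matrix.det_fin_three] at this
    simp at this
    linarith
  rcases Int.eq_one_or_neg_one_of_mul_eq_one hd with rfl | rfl
  · obtain rfl : f = 0 := by linarith
    exact Or.inl (Subtype.ext (by dsimp only; decide))
  · obtain rfl : f = 1 := by linarith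
    exact Or.inr (Subtype.ext (by dsimp only; decide))

theorem gen_z (l : SL3 ℤ) (h : ∀ U : ℤ, Dt zz l U = 0) : l = 1 ∨ l = zz := by
  obtain ⟨m, hm⟩ := l
  obtain ⟨a, b, c, d, e, f, p, q, r, rfl⟩ :
      ∃ a b c d e f p q r, m = !![a, b, c; d, e, f; p, q, r] :=
    ⟨_, _, _, _, _, _, _, _, _, Matrix.eta_fin_three m⟩
  simp [Dt, col3, vv, Matrix.det_fin_three, Matrix.mulVec, dotProduct, Fin.sum_univ_three,
    red_apply, zz] at h
  have h0 := h 0
  have h1 := h 1
  have h2 := h 2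
  have h3 := h 3
  have h4 := h 4
  have h5 := h 5
  have g1 := h (-1)
  have g2 := h (-2)
  have g3 := h (-3)
  have g4 := h (-4)
  obtain rfl : b = 0 := by linarith
  obtain rfl : c = 0 := by linarith
  obtain rfl : f = 0 := by linarith
  obtain rfl : p = 0 := by linarith
  obtain rfl : q = d := by linarith
  obtain rfl : r = a := by linarith
  obtain rfl : e = r - 2 * q := by linarith
  have hd : r * (r * (r - 2 * q)) = 1 := by
    have := hm
    rw [Matrix.det_fin_three] at this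
    simp at this
    linarith
  rcases Int.eq_one_or_neg_one_of_mul_eq_one hd with rfl | rfl
  · obtain rfl : q = 0 := by linarith
    exact Or.inl (Subtype.ext (by dsimp only; decide))
  · obtain rfl : q = -1 := by linarith
    exact Or.inr (Subtype.ext (by dsimp only; decide))

/-- The exceptional last letters. -/
def exc : Bool → SL3 ℤ
  | true => yy
  | false => zz

/-- The coordinate read by the leading term of a letter. -/
def idx : Bool → Fin 3
  | true => 2
  | false => 1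

theorem Dt_ne [CharZero S] (ε : Bool) (l : SL3 ℤ) (h1 : l ≠ 1) (h2 : l ≠ exc ε) :
    Dt (exc ε) l (X : S[X]) ≠ 0 := fun h => by
  have key : ∀ U : ℤ, Dt (exc ε) l U = 0 := fun U => by
    have a := map_Dt (evalRingHom (U : S)) (exc ε) l X
    have b := map_Dt (Int.castRingHom S) (exc ε) l U
    rw [h, map_zero, coe_evalRingHom, eval_X] at a
    rw [eq_intCast, eq_intCast, ← a] at b
    exact_mod_cast b
  cases ε
  · exact (gen_z l key).elim h1 h2
  · exact (gen_y l key).elim h1 h2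

/-- The base change matrix. -/
def PPm (U : S) : Matrix (Fin 3) (Fin 3) S :=
  col3 (vv U) ((red S yy).1 *ᵥ vv U) ((red S zz).1 *ᵥ vv U)

theorem det_PP (U : S) : (PPm U).det = 1 - (U - U ^ 3 + U ^ 4) * 2 := by
  simp [PPm, col3, vv, Matrix.det_fin_three, Matrix.mulVec, dotProduct, Fin.sum_univ_three,
    red_apply, yy, zz]
  ring

/-- The first basis vector. -/
def e0 : Fin 3 → S := ![1, 0, 0]

/-- The direction of the leading term of a letter. -/
def dir (β : S) : Bool → Fin 3 → S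
  | true => ![1, 0, β]
  | false => ![1, β, 0]

theorem col3_mulVec (a b c w : Fin 3 → S) : col3 a b c *ᵥ w = w 0 • a + w 1 • b + w 2 • c := by
  ext i
  simp [col3, Matrix.mulVec, dotProduct, Fin.sum_univ_three, mul_comm]

theorem PP_e0 (U : S) : PPm U *ᵥ e0 = vv U := by simp [PPm, col3_mulVec, e0]

/-- An integer matrix in the new basis. -/
def lam (U : S) (Q : Matrix (Fin 3) (Fin 3) S) (l : SL3 ℤ) : Matrix (Fin 3) (Fin 3) S :=
  Q * (red S l).1 * PPm U

variable {U : S} {Q : Matrix (Fin 3) (Fin 3) S}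

theorem lam_e0 (l : SL3 ℤ) : lam U Q l *ᵥ e0 = Q *ᵥ ((red S l).1 *ᵥ vv U) := by
  rw [lam, ← Matrix.mulVec_mulVec, PP_e0, ← Matrix.mulVec_mulVec]

theorem Dt_zero (hPQ : PPm U * Q = 1) (ε : Bool) (l : SL3 ℤ) (h : (lam U Q l *ᵥ e0) (idx ε) = 0) :
    Dt (exc ε) l U = 0 := by
  have e : PPm U *ᵥ (lam U Q l *ᵥ e0) = (red S l).1 *ᵥ vv U := by
    rw [lam_e0, Matrix.mulVec_mulVec, hPQ, Matrix.one_mulVec]
  rw [Dt, ← e, PPm, col3_mulVec]
  cases ε
  · rw [show (lam U Q l *ᵥ e0) 1 = 0 from h]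
    simp [col3, Matrix.det_fin_three, exc]
    ring
  · rw [show (lam U Q l *ᵥ e0) 2 = 0 from h]
    simp [col3, Matrix.det_fin_three, exc]
    ring

theorem lam_dir (l : SL3 ℤ) (β : S) (ε : Bool) :
    lam U Q l *ᵥ dir β ε = lam U Q l *ᵥ e0 + β • lam U Q (l * exc (!ε)) *ᵥ e0 := by
  have e : PPm U *ᵥ dir β ε = vv U + β • (red S (exc (!ε))).1 *ᵥ vv U := by
    cases ε <;> simp [PPm, col3_mulVec, dir, exc]
  rw [lam_e0, lam_e0, lam, ← Matrix.mulVec_mulVec, e, ← Matrix.mulVec_mulVec, map_mul,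
    Matrix.SpecialLinearGroup.coe_mul, ← Matrix.mulVec_mulVec]
  simp only [Matrix.mulVec_add, Matrix.mulVec_smul]

theorem lam_one (hQP : Q * PPm U = 1) : lam U Q 1 = 1 := by simp [lam, hQP]

theorem lam_exc (hQP : Q * PPm U = 1) (ε : Bool) : (lam U Q (exc (!ε)) *ᵥ e0) (idx ε) = 1 := by
  have e : ∀ w, Q *ᵥ (PPm U *ᵥ w) = w := fun w => by
    rw [Matrix.mulVec_mulVec, hQP, Matrix.one_mulVec]
  rw [lam_e0]
  cases ε
  · have := e ![0, 1, 0]
    rw [PPm, col3_mulVec] at this
    simp only [Matrix.cons_val, zero_smul, one_smul, zero_add, add_zero] at this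
    exact congrFun this 1
  · have := e ![0, 0, 1]
    rw [PPm, col3_mulVec] at this
    simp only [Matrix.cons_val, zero_smul, one_smul, zero_add, add_zero] at this
    exact congrFun this 2

/-- Generic parameters. -/
structure GenD (U β : S) (Q : Matrix (Fin 3) (Fin 3) S) : Prop where
  PQ : PPm U * Q = 1
  QP : Q * PPm U = 1
  H1 : ∀ ε ε' l, (ε = ε' ∨ l ≠ 1) → (lam U Q l *ᵥ dir β ε') (idx ε) ≠ 0
  H2 : ∀ ε l, l ≠ 1 → l ≠ exc ε → (lam U Q l *ᵥ e0) (idx ε) ≠ 0

instance : Countable (SL3 ℤ) :=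
  inferInstanceAs (Countable {A : Fin 3 → Fin 3 → ℤ // Matrix.det (Matrix.of A) = 1})

theorem exists_genD : ∃ (U β : ℤ_[2]) (Q : Matrix (Fin 3) (Fin 3) ℤ_[2]), GenD U β Q := by
  obtain ⟨U, hU⟩ := avoid_poly fun p : Bool × SL3 ℤ => Dt (exc p.1) p.2 (X : ℤ_[2][X])
  have hdet : IsUnit (PPm U).det := by
    rw [det_PP]
    exact IsLocalRing.isUnit_one_sub_self_of_mem_nonunits _
      (mul_mem_nonunits_right (PadicInt.p_nonunit (p := 2)))
  have hPQ := Matrix.mul_nonsing_inv _ hdet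
  have hQP := Matrix.nonsing_inv_mul _ hdet
  have H2 : ∀ ε l, l ≠ 1 → l ≠ exc ε → (lam U (PPm U)⁻¹ l *ᵥ e0) (idx ε) ≠ 0 := fun ε l h1 h2 h => by
    have a := map_Dt (evalRingHom U) (exc ε) l X
    rw [coe_evalRingHom, eval_X, Dt_zero hPQ ε l h] at a
    exact hU (ε, l) (Dt_ne ε l h1 h2) a
  obtain ⟨β, hβ⟩ := avoid_poly fun p : Bool × Bool × SL3 ℤ =>
    (C ((lam U (PPm U)⁻¹ (p.2.2 * exc (!p.2.1)) *ᵥ e0) (idx p.1)) * X +
      C ((lam U (PPm U)⁻¹ p.2.2 *ᵥ e0) (idx p.1)) : ℤ_[2][X])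
  refine ⟨U, β, _, hPQ, hQP, fun ε ε' l h => ?_, H2⟩
  have := hβ (ε, ε', l) fun h0 => by
    have c0 := congrArg (coeff · 0) h0
    have c1 := congrArg (coeff · 1) h0
    simp only [coeff_add, coeff_C_mul, coeff_X_zero, coeff_C_zero, mul_zero, zero_add, coeff_zero,
      coeff_X_one, mul_one, coeff_C_succ, add_zero] at c0 c1
    by_cases h1 : l = 1
    · subst h1
      obtain rfl := h.resolve_right (not_not.2 rfl)
      rw [one_mul, lam_exc hQP] at c1
      exact one_ne_zero c1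
    · by_cases h2 : l = exc ε
      · subst h2
        refine H2 ε _ ?_ ?_ c1
        · cases ε <;> cases ε' <;> decide
        · cases ε <;> cases ε' <;> decide
      · exact H2 ε l h1 h2 c0
  rw [lam_dir, Pi.add_apply, Pi.smul_apply, smul_eq_mul]
  simp only [eval_add, eval_mul, eval_C, eval_X] at this
  exact fun e => this (by linear_combination e)

end gen

section rep
open HNNExtension hiding of
variable {R : Type} [CommRing R] {U β : R} {Q : Matrix (Fin 3) (Fin 3) R}

/-- Constant term of a letter. -/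
def B0 (R : Type) [CommRing R] : Bool → Matrix (Fin 3) (Fin 3) R
  | true => !![1, 0, 0; 0, 0, -1; 0, 1, 0]
  | false => !![1, 0, 0; 0, 0, 1; 0, -1, 0]

/-- Linear term of a letter. -/
def B1 (β : R) : Bool → Matrix (Fin 3) (Fin 3) R
  | true => !![0, 0, 1; 0, 0, 0; 0, 0, β]
  | false => !![0, 1, 0; 0, β, 0; 0, 0, 0]

theorem B1_mulVec (ε : Bool) (u : Fin 3 → R) : B1 β ε *ᵥ u = u (idx ε) • dir β ε := by
  ext i
  cases ε <;> fin_cases i <;>
    simp [B1, idx, dir, Matrix.mulVec, dotProduct, Fin.sum_univ_three, mul_comm]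

/-- The matrix of a letter. -/
noncomputable def aX (β : R) (ε : Bool) : Matrix (Fin 3) (Fin 3) R[X] :=
  (B0 R ε).map C + (X : R[X]) • (B1 β ε).map C

theorem aX_true : aX β true = !![1, 0, X; 0, 0, -1; 0, 1, X * C β] := by
  ext i j : 2
  fin_cases i <;> fin_cases j <;> simp [aX, B0, B1]

theorem aX_false : aX β false = !![1, X, 0; 0, X * C β, 1; 0, -1, 0] := by
  ext i j : 2
  fin_cases i <;> fin_cases j <;> simp [aX, B0, B1]

theorem aX_mul : aX β false * aX β true = 1 := by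
  rw [aX_true, aX_false]
  ext i j : 2
  fin_cases i <;> fin_cases j <;> simp [Matrix.mul_apply, Fin.sum_univ_three]

theorem GenD.PQ' (g : GenD U β Q) : (PPm U).map C * Q.map C = 1 := by
  rw [← Matrix.map_mul, g.PQ, Matrix.map_one _ C_0 C_1]

theorem GenD.QP' (g : GenD U β Q) : Q.map C * (PPm U).map C = 1 := by
  rw [← Matrix.map_mul, g.QP, Matrix.map_one _ C_0 C_1]

/-- The representation over the polynomial ring. -/
noncomputable def rhoX (g : GenD U β Q) : Phi (SL3 ℤ) →* SL3 R[X] :=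
  Cen.lift (red R[X]) ⟨(PPm U).map C * aX β true * Q.map C, by
    rw [Matrix.det_mul_comm, ← mul_assoc, g.QP', one_mul, aX_true]
    simp [Matrix.det_fin_three]⟩ fun c hc => by simp [Subgroup.mem_bot.1 hc]

/-- The representation in the new basis. -/
noncomputable def MX (g : GenD U β Q) : Phi (SL3 ℤ) →* Matrix (Fin 3) (Fin 3) R[X] where
  toFun f := Q.map C * (rhoX g f).1 * (PPm U).map C
  map_one' := by simp [g.QP']
  map_mul' f f' := by
    rw [map_mul, Matrix.SpecialLinearGroup.coe_mul]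
    simp only [mul_assoc]
    rw [← mul_assoc ((PPm U).map C), g.PQ', one_mul]

theorem MX_apply (g : GenD U β Q) (f : Phi (SL3 ℤ)) :
    MX g f = Q.map C * (rhoX g f).1 * (PPm U).map C := rfl

theorem MX_of (g : GenD U β Q) (l : SL3 ℤ) : MX g (HNNExtension.of l) = (lam U Q l).map C := by
  rw [MX_apply, rhoX, Cen.lift_of, lam, Matrix.map_mul, Matrix.map_mul, ← map_red C]
  rfl

theorem MX_t (g : GenD U β Q) : MX g t = aX β true := by
  rw [MX_apply, rhoX, Cen.lift_t]
  simp only [mul_assoc]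
  rw [g.QP', mul_one, ← mul_assoc, g.QP', one_mul]

theorem MX_let (g : GenD U β Q) (ε : Bool) : MX g (let1 _ ε) = aX β ε := by
  cases ε
  · calc MX g (let1 _ false) = (aX β false * MX g t) * MX g t⁻¹ := by
          rw [MX_t, aX_mul, one_mul]; rfl
      _ = aX β false := by rw [mul_assoc, ← map_mul, mul_inv_cancel, map_one, mul_one]
  · exact MX_t g

theorem map_mulVec_C (B : Matrix (Fin 3) (Fin 3) R) (w : Fin 3 → R) :
    B.map C *ᵥ (fun i => C (w i)) = fun i => C ((B *ᵥ w) i) := by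
  funext i
  simp [Matrix.mulVec, dotProduct]

theorem core [IsDomain R] (g : GenD U β Q) (D : Subgroup (Phi (SL3 ℤ))) (B : Bool → SL3 ℤ → Prop)
    (W : Set (Fin 3 → R)) (h0 : e0 ∈ W)
    (hB : ∀ ε l, ¬ B ε l → ∃ l', ∃ c ∈ D,
      let1 _ ε * HNNExtension.of l = HNNExtension.of l' * c)
    (hD : ∀ c ∈ D, ∀ w ∈ W, MX g c *ᵥ (fun i => C (w i)) = fun i => C (w i))
    (hb : ∀ ε l, B ε l → ∃ w ∈ W, (lam U Q l *ᵥ w) (idx ε) ≠ 0) (f : Phi (SL3 ℤ))
    (hf : ∀ w ∈ W, MX g f *ᵥ (fun i => C (w i)) = fun i => C (w i)) : f ∈ D := by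
  have key : ∀ ε n f, WF D B ε n f → ∃ w ∈ W, ∃ κ : R, κ ≠ 0 ∧
      Top (n + 1) (MX g f *ᵥ fun i => C (w i)) (κ • dir β ε) := by
    intro ε n f h
    induction h with
    | base ε l c hc hl =>
      obtain ⟨w, hw, h⟩ := hb ε l hl
      refine ⟨w, hw, _, h, ?_⟩
      rw [map_mul, map_mul, ← Matrix.mulVec_mulVec, ← Matrix.mulVec_mulVec, hD c hc w hw, MX_of,
        MX_let, ← B1_mulVec]
      exact ((Top.const w).map _).step _ _
    | step ε ε' l n f _ hl ih =>
      obtain ⟨w, hw, κ, hκ, h⟩ := ih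
      refine ⟨w, hw, (lam U Q l *ᵥ κ • dir β ε') (idx ε), ?_, ?_⟩
      · rw [Matrix.mulVec_smul, Pi.smul_apply, smul_eq_mul]
        exact mul_ne_zero hκ (g.H1 ε ε' l hl)
      · rw [map_mul, map_mul, ← Matrix.mulVec_mulVec, ← Matrix.mulVec_mulVec, MX_of,
          MX_let, ← B1_mulVec]
        exact (h.map _).step _ _
  rcases nfF D B hB f with ⟨l, c, hc, rfl⟩ | ⟨l, ε, n, f', hw, rfl⟩
  · have h := hf _ h0
    rw [map_mul, ← Matrix.mulVec_mulVec, hD c hc _ h0, MX_of, map_mulVec_C] at h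
    have h' : ∀ ε, (lam U Q l *ᵥ e0) (idx ε) = 0 := fun ε => by
      rw [C_injective (congrFun h (idx ε))]
      cases ε <;> rfl
    by_cases h1 : l = 1
    · simpa [h1] using hc
    · by_cases h2 : l = exc true
      · exact (g.H2 false l h1 (by rw [h2]; decide) (h' _)).elim
      · exact (g.H2 true l h1 h2 (h' _)).elim
  · obtain ⟨w, hw, κ, hκ, h⟩ := key ε n f' hw
    have h1 := hf w hw
    rw [map_mul, ← Matrix.mulVec_mulVec, MX_of] at h1
    refine ((h.map (lam U Q l)).ne (i := idx ε) ?_ _ (congrFun h1 _)).elim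
    rw [Matrix.mulVec_smul, Pi.smul_apply, smul_eq_mul]
    exact mul_ne_zero hκ (g.H1 ε ε l (Or.inl rfl))

theorem fix_iff (g : GenD U β Q) (f : Phi (SL3 ℤ)) :
    (rhoX g f).1 *ᵥ (fun i => C (vv U i)) = (fun i => C (vv U i)) ↔
      MX g f *ᵥ (fun i => C (e0 i)) = fun i => C (e0 i) := by
  have e : (PPm U).map C *ᵥ (fun i => C (e0 i)) = fun i => C (vv U i) := by
    rw [map_mulVec_C, PP_e0]
  rw [MX_apply, ← Matrix.mulVec_mulVec, ← Matrix.mulVec_mulVec, e]
  constructor
  · intro h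
    rw [h, ← e, Matrix.mulVec_mulVec, g.QP', Matrix.one_mulVec]
  · intro h
    have := congrArg ((PPm U).map C *ᵥ ·) h
    simp only [Matrix.mulVec_mulVec] at this
    rwa [← mul_assoc, g.PQ', one_mul, e] at this

theorem fix_of_mem (g : GenD U β Q) {c : Phi (SL3 ℤ)} (hc : c ∈ CC xx yy) :
    MX g c *ᵥ (fun i => C (e0 i)) = fun i => C (e0 i) := by
  have hl : ∀ (ε : Bool), lam U Q (exc (!ε)) *ᵥ e0 = dir 1 ε - e0 := fun ε => by
    have e : PPm U *ᵥ (dir 1 ε - e0) = (red R (exc (!ε))).1 *ᵥ vv U := by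
      cases ε <;> simp [PPm, col3_mulVec, dir, exc, e0]
    rw [lam_e0, ← e, Matrix.mulVec_mulVec, g.QP, Matrix.one_mulVec]
  induction hc using Subgroup.closure_induction with
  | mem c hc =>
    rcases hc with rfl | rfl
    · rw [MX_t, aX_true]
      funext i
      fin_cases i <;> simp [Matrix.mulVec, dotProduct, Fin.sum_univ_three, e0]
    · have h1 : MX g (HNNExtension.of yy) *ᵥ (fun i => C (e0 i)) = ![0, 1, 0] := by
        rw [MX_of, map_mulVec_C, show yy = exc (!false) from rfl, hl]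
        funext i
        fin_cases i <;> simp [dir, e0]
      have h2 : MX g (HNNExtension.of zz) *ᵥ (fun i => C (e0 i)) = ![0, 0, 1] := by
        rw [MX_of, map_mulVec_C, show zz = exc (!true) from rfl, hl]
        funext i
        fin_cases i <;> simp [dir, e0]
      have h3 : MX g t *ᵥ ![0, 1, 0] = ![0, 0, 1] := by
        rw [MX_t, aX_true]
        funext i
        fin_cases i <;> simp [Matrix.mulVec, dotProduct, Fin.sum_univ_three]
      rw [map_mul, map_mul, ← Matrix.mulVec_mulVec, ← Matrix.mulVec_mulVec, h1, h3, ← h2,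
        Matrix.mulVec_mulVec, ← map_mul, ← map_mul, xx, inv_mul_cancel, map_one, map_one,
        Matrix.one_mulVec]
  | one => simp
  | mul a b _ _ ha hb => rw [map_mul, ← Matrix.mulVec_mulVec, hb, ha]
  | inv a _ ha =>
    conv_lhs => rw [← ha]
    rw [Matrix.mulVec_mulVec, ← map_mul, inv_mul_cancel, map_one, Matrix.one_mulVec]

theorem mem_of_fix [IsDomain R] (g : GenD U β Q) (f : Phi (SL3 ℤ))
    (h : MX g f *ᵥ (fun i => C (e0 i)) = fun i => C (e0 i)) : f ∈ CC xx yy := by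
  refine core g _ (fun ε l => l ≠ 1 ∧ l ≠ exc ε) {e0} rfl (fun ε l hl => ?_)
    (fun c hc w hw => by rw [Set.mem_singleton_iff.1 hw]; exact fix_of_mem g hc)
    (fun ε l hl => ⟨_, rfl, g.H2 ε l hl.1 hl.2⟩) f
    (fun w hw => by rw [Set.mem_singleton_iff.1 hw]; exact h)
  by_cases h1 : l = 1
  · refine ⟨1, let1 _ ε, ?_, by simp [h1]⟩
    cases ε
    · exact (CC xx yy).inv_mem (a_mem _ _)
    · exact a_mem _ _
  · obtain rfl : l = exc ε := by
      by_contra h2
      exact hl ⟨h1, h2⟩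
    cases ε
    · exact ⟨yy, _, (CC xx yy).inv_mem (b_mem _ _), by simp [let1, exc, xx, mul_assoc]⟩
    · exact ⟨zz, _, b_mem _ _, by simp [let1, exc, xx, mul_assoc]⟩

theorem rhoX_inj [IsDomain R] (g : GenD U β Q) (f : Phi (SL3 ℤ)) (h : rhoX g f = 1) : f = 1 := by
  refine Subgroup.mem_bot.1 (core g ⊥ (fun _ _ => True) Set.univ trivial
    (fun _ _ h => (h trivial).elim) (fun c hc w _ => by simp [Subgroup.mem_bot.1 hc])
    (fun ε l _ => ⟨_, trivial, g.H1 ε ε l (Or.inl rfl)⟩) f fun w _ => ?_)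
  rw [MX_apply, h]
  simp [g.QP']

theorem exists_rep : ∃ (ρ : Phi (SL3 ℤ) →* SL3 ℤ_[2]) (v : Fin 3 → ℤ_[2]),
    (∀ f, ρ f = 1 → f = 1) ∧ (∀ l, ρ (HNNExtension.of l) = red _ l) ∧
      ∀ f, (ρ f).1 *ᵥ v = v ↔ f ∈ CC xx yy := by
  obtain ⟨U, β, Q, g⟩ := exists_genD
  obtain ⟨s, hs⟩ := avoid_poly fun p : Phi (SL3 ℤ) × Fin 3 × Option (Fin 3) =>
    p.2.2.elim (((rhoX g p.1).1 *ᵥ fun i => C (vv U i)) p.2.1 - C (vv U p.2.1))
      fun j => (rhoX g p.1).1 p.2.1 j - C ((1 : Matrix (Fin 3) (Fin 3) ℤ_[2]) p.2.1 j)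
  let ρ := (Matrix.SpecialLinearGroup.map (evalRingHom s)).comp (rhoX g)
  have h1 : ∀ f i j, (ρ f).1 i j = ((rhoX g f).1 i j).eval s := fun _ _ _ => rfl
  have h2 : ∀ f i, ((ρ f).1 *ᵥ vv U) i = (((rhoX g f).1 *ᵥ fun i => C (vv U i)) i).eval s :=
    fun f i => by simp [Matrix.mulVec, dotProduct, h1, eval_finsetSum]
  refine ⟨ρ, vv U, fun f hf => rhoX_inj g f ?_, fun l => ?_, fun f => ⟨fun h => ?_, fun h => ?_⟩⟩
  · ext i j : 1
    by_contra hn
    refine hs (f, i, some j) (fun e => hn ?_) ?_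
    · rw [sub_eq_zero.1 e]
      by_cases hij : i = j <;> simp [Matrix.one_apply, hij]
    · simp only [Option.elim, eval_sub, eval_C, ← h1, hf]
      simp
  · exact (congrArg _ (Cen.lift_of _ _ _ l)).trans (map_red _ l)
  · refine mem_of_fix g f ((fix_iff g f).1 (funext fun i => ?_))
    by_contra hn
    refine hs (f, i, none) (sub_ne_zero.2 hn) ?_
    simp only [Option.elim, eval_sub, eval_C, ← h2, h, sub_self]
  · funext i
    rw [h2, (fix_iff g f).2 (fix_of_mem g h), eval_C]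

end rep

end Pool.Agent.Lib.MP_34a149_al.RG
end

-- part Pool.Agent.Lib.MP_34a149_al.RG.PAct
section

/-! An action of `Cen K C` built from a representation of `K` and a vector fixed by `C`. -/

set_option autoImplicit false

namespace Pool.Agent.Lib.MP_34a149_al.RG

open Polynomial HNNExtension
open scoped Matrix

variable {S S' : Type} [CommRing S] [CommRing S'] {K : Type} [Group K] {D : Subgroup K}

/-- The set on which the group acts. -/
abbrev XS (S : Type) : Type := (Fin 3 → S) × S × (Fin 2 → S)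

/-- A family of nilpotent matrices. -/
def Nm (u : S) : Matrix (Fin 2) (Fin 2) S := !![u, -1; u ^ 2, -u]

theorem Nm_mulVec (u : S) (w : Fin 2 → S) : Nm u *ᵥ w = (u * w 0 - w 1) • ![1, u] := by
  funext i
  fin_cases i <;> simp [Nm, Matrix.mulVec, dotProduct, Fin.sum_univ_two] <;> ring

/-- The action of the powers of `t`. -/
def tm (v : Fin 3 → S) (k : ℤ) (x : XS S) : XS S :=
  (x.1, x.2.1, x.2.2 + (x.2.1 * k * ((x.1 ⬝ᵥ v) * x.2.2 0 - x.2.2 1)) • ![1, x.1 ⬝ᵥ v])

/-- The action of the infinite cyclic group. -/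
def tE (v : Fin 3 → S) : Multiplicative ℤ →* Function.End (XS S) where
  toFun k := tm v k.toAdd
  map_one' := by
    funext x
    simp [tm, Function.End.one_def]
  map_mul' k l := by
    funext x
    change tm v (k.toAdd + l.toAdd) x = tm v k.toAdd (tm v l.toAdd x)
    refine Prod.ext rfl (Prod.ext rfl (funext fun i => ?_))
    fin_cases i <;> simp [tm, Matrix.vecHead, Matrix.vecTail] <;> ring

/-- The action of `K`. -/
def fE (ρ : K →* SL3 S) : K →* Function.End (XS S) where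
  toFun f x := (x.1 ᵥ* (ρ f⁻¹).1, x.2)
  map_one' := by
    funext x
    simp [Function.End.one_def]
  map_mul' f g := by
    funext x
    change (x.1 ᵥ* (ρ (f * g)⁻¹).1, x.2) = ((x.1 ᵥ* (ρ g⁻¹).1) ᵥ* (ρ f⁻¹).1, x.2)
    rw [mul_inv_rev, map_mul, Matrix.SpecialLinearGroup.coe_mul, Matrix.vecMul_vecMul]

/-- The action of `Cen K D`. -/
def theta (ρ : K →* SL3 S) (v : Fin 3 → S) (h : ∀ c ∈ D, (ρ c).1 *ᵥ v = v) :
    Cen K D →* Equiv.Perm (XS S) :=
  Cen.lift (fE ρ).toHomPerm ((tE v).toHomPerm (Multiplicative.ofAdd 1)) fun c hc => by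
    ext1 x
    change tm v 1 (x.1 ᵥ* (ρ c⁻¹).1, x.2) = ((tm v 1 x).1 ᵥ* (ρ c⁻¹).1, (tm v 1 x).2)
    simp only [tm, ← Matrix.dotProduct_mulVec, h _ (D.inv_mem hc)]

variable {ρ : K →* SL3 S} {v : Fin 3 → S} {h : ∀ c ∈ D, (ρ c).1 *ᵥ v = v}

theorem theta_of (f : K) (x : XS S) : theta ρ v h (of f) x = (x.1 ᵥ* (ρ f⁻¹).1, x.2) := by
  rw [theta, Cen.lift_of]
  rfl

theorem theta_t (k : ℤ) (x : XS S) : theta ρ v h (t ^ k) x = tm v k x := by
  rw [map_zpow, theta, Cen.lift_t, ← map_zpow, ← ofAdd_zsmul, smul_eq_mul, mul_one]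
  rfl

/-- Change of rings. -/
def pi (φ : S →+* S') (x : XS S) : XS S' := (fun i => φ (x.1 i), φ x.2.1, fun i => φ (x.2.2 i))

theorem pi_surj {φ : S →+* S'} (hφ : Function.Surjective φ) : Function.Surjective (pi φ) := by
  rintro ⟨a, b, c⟩
  choose σ hσ using hφ
  exact ⟨(fun i => σ (a i), σ b, fun i => σ (c i)), by simp [pi, hσ]⟩

theorem theta_nat (φ : S →+* S') {ρ' : K →* SL3 S'} {v' : Fin 3 → S'}
    {h' : ∀ c ∈ D, (ρ' c).1 *ᵥ v' = v'} (hρ : ∀ f i j, (ρ' f).1 i j = φ ((ρ f).1 i j))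
    (hv : ∀ i, v' i = φ (v i)) (g : Cen K D) (x : XS S) :
    theta ρ' v' h' g (pi φ x) = pi φ (theta ρ v h g x) := by
  have ht : ∀ k x, tm v' k (pi φ x) = pi φ (tm v k x) := fun k x => by
    refine Prod.ext rfl (Prod.ext rfl (funext fun i => ?_))
    fin_cases i <;> simp [tm, pi, dotProduct, hv, Matrix.vecHead, Matrix.vecTail]
  refine Cen.ind (fun g => theta ρ' v' h' g (pi φ x) = pi φ (theta ρ v h g x)) (by simp)
    (fun f g ih => ?_) (fun g ih => ?_) (fun g ih => ?_) g
  · rw [map_mul, map_mul, Equiv.Perm.mul_apply, Equiv.Perm.mul_apply, ih, theta_of, theta_of]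
    refine Prod.ext (funext fun i => ?_) rfl
    simp only [pi, Matrix.vecMul, dotProduct, hρ, map_sum, map_mul]
  · rw [map_mul, map_mul, Equiv.Perm.mul_apply, Equiv.Perm.mul_apply, ih, ← zpow_one t, theta_t,
      theta_t, ht]
  · rw [map_mul, map_mul, Equiv.Perm.mul_apply, Equiv.Perm.mul_apply, ih, ← zpow_neg_one t,
      theta_t, theta_t, ht]

theorem fix_map (φ : S →+* S') (h : ∀ c ∈ D, (ρ c).1 *ᵥ v = v) : ∀ c ∈ D,
    ((Matrix.SpecialLinearGroup.map φ).comp ρ c).1 *ᵥ (fun i => φ (v i)) = fun i => φ (v i) :=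
  fun c hc => funext fun i => by
    conv_rhs => rw [← h c hc]
    simp only [Matrix.mulVec, dotProduct, map_sum, map_mul]
    rfl

theorem theta_of_eq_one (f : K) : theta ρ v h (of f) = 1 ↔ ρ f = 1 := by
  constructor
  · intro e
    rw [← inv_eq_one, ← map_inv]
    ext i j
    have := congrArg (fun p : Equiv.Perm (XS S) => (p (Pi.single i 1, 0, 0)).1 j) e
    simp only [theta_of, Matrix.single_one_vecMul, Equiv.Perm.one_apply] at this
    rw [show (ρ f⁻¹) i j = _ from this, Matrix.SpecialLinearGroup.coe_one, Matrix.one_apply,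
      Pi.single_apply]
    exact if_congr eq_comm rfl rfl
  · intro e
    ext1 x
    rw [theta_of, map_inv, e]
    simp

theorem theta_inj [IsDomain S] [CharZero S] [Uncountable S] [Countable K]
    (hρ : ∀ f, ρ f = 1 → f = 1) (hv : ∀ f, (ρ f).1 *ᵥ v = v → f ∈ D) (g : Cen K D)
    (e : theta ρ v h g = 1) : g = 1 := by
  obtain ⟨s, hs⟩ := avoid_poly fun p : K × K =>
    (![1, X, X ^ 2] ⬝ᵥ fun i => C (((ρ p.1).1 *ᵥ ((ρ p.2).1 *ᵥ v - v)) i) : S[X])
  let μ : Fin 3 → S := ![1, s, s ^ 2]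
  have hμ : ∀ a f, f ∉ D → (μ ᵥ* (ρ (a * f)).1) ⬝ᵥ v - (μ ᵥ* (ρ a).1) ⬝ᵥ v ≠ 0 := fun a f hf => by
    have := hs (a, f) fun h0 => hf (hv f ?_)
    · refine fun e => this ?_
      rw [map_mul, Matrix.SpecialLinearGroup.coe_mul, ← Matrix.dotProduct_mulVec,
        ← Matrix.dotProduct_mulVec, ← dotProduct_sub, ← Matrix.mulVec_mulVec,
        ← Matrix.mulVec_sub] at e
      rw [← e]
      generalize (ρ a).1 *ᵥ ((ρ f).1 *ᵥ v - v) = d
      simp [μ, dotProduct, Fin.sum_univ_three]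
      ring
    · have z : (ρ a).1 *ᵥ ((ρ f).1 *ᵥ v - v) = 0 := by
        generalize (ρ a).1 *ᵥ ((ρ f).1 *ᵥ v - v) = d at h0
        simp only [dotProduct, Fin.sum_univ_three, Matrix.cons_val] at h0
        funext i
        fin_cases i
        · simpa using congrArg (coeff · 0) h0
        · simpa [coeff_one, coeff_X, coeff_C] using congrArg (coeff · 1) h0
        · simpa [coeff_one, coeff_X, coeff_C] using congrArg (coeff · 2) h0
      have := congrArg ((ρ a⁻¹).1 *ᵥ ·) z
      simp only [Matrix.mulVec_mulVec, Matrix.mulVec_zero] at this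
      rw [← Matrix.SpecialLinearGroup.coe_mul, ← map_mul, inv_mul_cancel, map_one,
        Matrix.SpecialLinearGroup.coe_one, Matrix.one_mulVec] at this
      exact sub_eq_zero.1 this
  let θ := theta _ _ (fix_map (C : S →+* S[X]) h)
  let x₀ : XS S[X] := (fun i => C (μ i), X, fun i => C (![0, 1] i))
  have step : ∀ (k : ℤ) (f a : K) (n : ℕ) (w : Fin 2 → S[X]) (u : Fin 2 → S), Top n w u →
      ∃ w', θ (t ^ k * of f) (fun i => C ((μ ᵥ* (ρ a).1) i), X, w) =
        (fun i => C ((μ ᵥ* (ρ (a * f⁻¹)).1) i), X, w') ∧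
        Top (n + 1) w' ((k * ((μ ᵥ* (ρ (a * f⁻¹)).1) ⬝ᵥ v * u 0 - u 1)) •
          ![1, (μ ᵥ* (ρ (a * f⁻¹)).1) ⬝ᵥ v]) := by
    intro k f a n w u hw
    have := hw.step 1 ((k : S) • Nm ((μ ᵥ* (ρ (a * f⁻¹)).1) ⬝ᵥ v))
    rw [Matrix.smul_mulVec, Nm_mulVec, smul_smul] at this
    refine ⟨_, ?_, this⟩
    have e1 : (fun i => C ((μ ᵥ* (ρ a).1) i)) ᵥ*
        ((Matrix.SpecialLinearGroup.map (C : S →+* S[X])).comp ρ f⁻¹).1 =
        fun i => C ((μ ᵥ* (ρ (a * f⁻¹)).1) i) := by
      rw [map_mul, Matrix.SpecialLinearGroup.coe_mul, ← Matrix.vecMul_vecMul]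
      generalize μ ᵥ* (ρ a).1 = ν
      funext i
      simp only [Matrix.vecMul, dotProduct, map_sum, map_mul]
      rfl
    rw [map_mul, Equiv.Perm.mul_apply, theta_of, theta_t, e1]
    generalize μ ᵥ* (ρ (a * f⁻¹)).1 = ν
    have e2 : ((fun i => C (ν i)) ⬝ᵥ fun i => C (v i)) = C (ν ⬝ᵥ v) := by simp [dotProduct]
    refine Prod.ext rfl (Prod.ext rfl (funext fun i => ?_))
    simp only [tm, e2]
    generalize ν ⬝ᵥ v = u
    fin_cases i <;> simp [Nm, Matrix.mulVec, dotProduct, Fin.sum_univ_two] <;> ring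
  have key : ∀ n g, WG D n g → ∃ (a : K) (κ : S) (w : Fin 2 → S[X]), κ ≠ 0 ∧
      θ g x₀ = (fun i => C ((μ ᵥ* (ρ a).1) i), X, w) ∧
      Top (n + 1) w (κ • ![1, (μ ᵥ* (ρ a).1) ⬝ᵥ v]) := by
    intro n g hw
    induction hw with
    | base k f hk =>
      obtain ⟨w, h1, h2⟩ := step k f 1 0 _ _ (Top.const ![0, 1])
      refine ⟨_, _, w, ?_, ?_, h2⟩
      · simpa using hk
      · rw [← h1]
        simp [x₀]
    | step k f n g hk hf _ ih =>
      obtain ⟨a, κ, w, hκ, h1, h2⟩ := ih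
      obtain ⟨w', h3, h4⟩ := step k f a _ _ _ h2
      refine ⟨_, _, w', ?_, by rw [map_mul, Equiv.Perm.mul_apply, h1, h3], h4⟩
      have := mul_ne_zero (mul_ne_zero (Int.cast_ne_zero.2 hk) hκ)
        (hμ a f⁻¹ fun hi => hf (D.inv_mem_iff.1 hi))
      refine fun e => this ?_
      rw [← e]
      simp only [Pi.smul_apply, Matrix.cons_val, smul_eq_mul]
      ring
  rcases nfG g with ⟨f, rfl⟩ | ⟨f, n, g', hw, rfl⟩
  · rw [hρ f ((theta_of_eq_one f).1 e), map_one]
  · obtain ⟨a, κ, w, hκ, h1, h2⟩ := key n g' hw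
    refine (h2.ne (i := 0) (by simpa using hκ) 0 ?_).elim
    refine Polynomial.funext fun r => ?_
    have := theta_nat (h := fix_map (C : S →+* S[X]) h) (evalRingHom r) (h' := h)
      (fun f i j => (eval_C (x := r)).symm) (fun i => (eval_C (x := r)).symm) (of f * g') x₀
    rw [e, map_mul, Equiv.Perm.mul_apply, h1, theta_of] at this
    simpa [pi, x₀] using (congrArg (fun x : XS S => x.2.2 0) this).symm

end Pool.Agent.Lib.MP_34a149_al.RG
end

-- part Pool.Agent.Lib.MP_34a149_al.RG.PChain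
section

/-! A residual chain of the group whose trace on the vertex group is a congruence chain. -/

set_option autoImplicit false

namespace Pool.Agent.Lib.MP_34a149_al.RG

theorem exists_chain : ∃ (K : ℕ → Subgroup (GG xx yy))
    (ρ : ∀ k : ℕ, Phi (SL3 ℤ) →* SL3 (ZMod (2 ^ k))),
    Antitone K ∧ (∀ k, (K k).Normal) ∧ (∀ k, (K k).FiniteIndex) ∧ ⨅ k, K k = ⊥ ∧
    (∀ k, (K k).comap HNNExtension.of = (ρ k).ker) ∧
    ∀ k l, ρ k (HNNExtension.of l) = red (ZMod (2 ^ k)) l := by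
  obtain ⟨ρ, v, h1, h2, h3⟩ := exists_rep
  have h : ∀ c ∈ CC xx yy, Matrix.mulVec (ρ c).1 v = v := fun c hc => (h3 c).2 hc
  let π : ∀ k : ℕ, ℤ_[2] →+* ZMod (2 ^ k) := fun k => PadicInt.toZModPow k
  let θ := fun k => theta _ _ (fix_map (π k) h)
  have nat : ∀ k g x, θ k g (pi (π k) x) = pi (π k) (theta ρ v h g x) := fun k g x =>
    theta_nat (π k) (fun _ _ _ => rfl) (fun _ => rfl) g x
  refine ⟨fun k => (θ k).ker, fun k => (Matrix.SpecialLinearGroup.map (π k)).comp ρ,
    fun m n hmn g hg => ?_, fun k => inferInstance, fun k => inferInstance, ?_, fun k => ?_,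
    fun k l => ?_⟩
  · let φ := ZMod.castHom (pow_dvd_pow 2 hmn) (ZMod (2 ^ m))
    have e : ∀ a, π m a = φ (π n a) := fun a =>
      (DFunLike.congr_fun (PadicInt.zmod_cast_comp_toZModPow m n hmn) a).symm
    refine Equiv.ext fun y => ?_
    obtain ⟨x, rfl⟩ := pi_surj (ZMod.ringHom_surjective φ) y
    have := theta_nat (h := fix_map (π n) h) φ (h' := fix_map (π m) h) (fun _ _ _ => e _)
      (fun _ => e _) g x
    rwa [show theta _ _ (fix_map (π n) h) g = 1 from hg] at this
  · refine eq_bot_iff.2 fun g hg => theta_inj (h := h) h1 (fun f => (h3 f).1) g ?_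
    refine Equiv.ext fun x => ?_
    have e : ∀ k, pi (π k) (theta ρ v h g x) = pi (π k) x := fun k => by
      rw [← nat, show θ k g = 1 from Subgroup.mem_iInf.1 hg k]
      rfl
    refine Prod.ext (funext fun i => ?_) (Prod.ext ?_ (funext fun i => ?_))
    · exact PadicInt.ext_of_toZModPow.1 fun k => congrArg (fun y => y.1 i) (e k)
    · exact PadicInt.ext_of_toZModPow.1 fun k => congrArg (fun y => y.2.1) (e k)
    · exact PadicInt.ext_of_toZModPow.1 fun k => congrArg (fun y => y.2.2 i) (e k)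
  · ext f
    exact theta_of_eq_one f
  · exact (congrArg _ (h2 l)).trans (map_red _ l)

end Pool.Agent.Lib.MP_34a149_al.RG
end

-- part Pool.Agent.Lib.MP_34a149_al.RG.PXY
section

/-! Elementary facts on the two generators. -/

set_option autoImplicit false

namespace Pool.Agent.Lib.MP_34a149_al.RG

theorem yy_sq_pow (n : ℕ) : ((yy ^ 2) ^ n).1 = !![1, 0, (n : ℤ); 0, 1, 0; 0, 0, 1] := by
  induction n with
  | zero => decide
  | succ n ih =>
    rw [pow_succ, Matrix.SpecialLinearGroup.coe_mul, ih,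
      show (yy ^ 2).1 = !![1, 0, 1; 0, 1, 0; 0, 0, 1] by decide]
    simp [add_comm]

theorem zz_sq_pow (n : ℕ) : ((zz ^ 2) ^ n).1 = !![1, 0, 0; 0, 1, 0; (n : ℤ), 0, 1] := by
  induction n with
  | zero => decide
  | succ n ih =>
    rw [pow_succ, Matrix.SpecialLinearGroup.coe_mul, ih,
      show (zz ^ 2).1 = !![1, 0, 0; 0, 1, 0; 1, 0, 1] by decide]
    simp

theorem yy_pow_ne (j : ℕ) (hj : 0 < j) : yy ^ j ≠ 1 := fun h => by
  have e := yy_sq_pow j
  rw [← pow_mul, mul_comm, pow_mul, h, one_pow] at e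
  have := congrFun (congrFun e 0) 2
  simp at this
  omega

theorem zz_pow_ne (j : ℕ) (hj : 0 < j) : zz ^ j ≠ 1 := fun h => by
  have e := zz_sq_pow j
  rw [← pow_mul, mul_comm, pow_mul, h, one_pow] at e
  have := congrFun (congrFun e 2) 0
  simp at this
  omega

theorem xx_pow_ne (j : ℕ) (hj : 0 < j) : xx ^ j ≠ 1 := fun h =>
  zz_pow_ne j hj (by rwa [xx, inv_pow, inv_eq_one] at h)

theorem xx_ne_one : xx ≠ 1 := by simpa using xx_pow_ne 1 one_pos

theorem yy_ne_one : yy ≠ 1 := by simpa using yy_pow_ne 1 one_pos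

theorem xx_sq_ne : xx ^ 2 ≠ 1 := xx_pow_ne 2 two_pos

theorem yy_sq_ne : yy ^ 2 ≠ 1 := yy_pow_ne 2 two_pos

theorem not_commute_zy : ¬ Commute zz yy := fun h => absurd h.eq (by decide)

theorem yy_notMem_zpowers : yy ∉ Subgroup.zpowers xx := by
  rintro ⟨k, hk⟩
  refine not_commute_zy ?_
  rw [← hk]
  exact ((Commute.refl zz).inv_right).zpow_right k

theorem xx_ne_yy : xx ≠ yy := fun h => yy_notMem_zpowers (h ▸ Subgroup.mem_zpowers xx)

theorem xx_ne_yy_inv : xx ≠ yy⁻¹ := fun h =>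
  yy_notMem_zpowers (by rw [← inv_inv yy, ← h]; exact inv_mem (Subgroup.mem_zpowers xx))

theorem xx_inf : ¬ IsOfFinOrder xx := fun h => by
  obtain ⟨n, hn, e⟩ := isOfFinOrder_iff_pow_eq_one.1 h
  exact xx_pow_ne n hn e

theorem yy_inf : ¬ IsOfFinOrder yy := fun h => by
  obtain ⟨n, hn, e⟩ := isOfFinOrder_iff_pow_eq_one.1 h
  exact yy_pow_ne n hn e

/-- The same facts after an injective homomorphism. -/
theorem xy_map {G : Type} [Group G] (f : SL3 ℤ →* G) (hf : Function.Injective f) :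
    ¬ IsOfFinOrder (f xx) ∧ ¬ IsOfFinOrder (f yy) ∧ f yy ∉ Subgroup.zpowers (f xx) := by
  refine ⟨fun h => xx_inf (hf.isOfFinOrder_iff.1 h), fun h => yy_inf (hf.isOfFinOrder_iff.1 h), ?_⟩
  rintro ⟨k, hk⟩
  exact yy_notMem_zpowers ⟨k, hf (by rw [map_zpow]; exact hk)⟩

end Pool.Agent.Lib.MP_34a149_al.RG
end
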