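import Mathlib

/-! The group `SL(3, ℤ)` is finitely presented (peak reduction on the rows), and it is generated
by the elementary matrices. -/

set_option autoImplicit false

namespace Pool.Agent.Lib.MP_34a149_al.RG

namespace FP

open Matrix

abbrev V : Type := ℤ × ℤ × ℤ

abbrev SL3 : Type := Matrix.SpecialLinearGroup (Fin 3) ℤ

/-- twelve elementary moves and six quarter turns, acting on row vectors -/
def act : ℕ → V → V
  | 0, (a, b, c) => (a, b + a, c)
  | 1, (a, b, c) => (a, b - a, c)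
  | 2, (a, b, c) => (a, b, c + a)
  | 3, (a, b, c) => (a, b, c - a)
  | 4, (a, b, c) => (a + b, b, c)
  | 5, (a, b, c) => (a - b, b, c)
  | 6, (a, b, c) => (a, b, c + b)
  | 7, (a, b, c) => (a, b, c - b)
  | 8, (a, b, c) => (a + c, b, c)
  | 9, (a, b, c) => (a - c, b, c)
  | 10, (a, b, c) => (a, b + c, c)
  | 11, (a, b, c) => (a, b - c, c)
  | 12, (a, b, c) => (-b, a, c)
  | 13, (a, b, c) => (b, -a, c)
  | 14, (a, b, c) => (-c, b, a)
  | 15, (a, b, c) => (c, b, -a)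
  | 16, (a, b, c) => (a, -c, b)
  | 17, (a, b, c) => (a, c, -b)
  | _ + 18, x => x

/-- the action of a word -/
def run : List ℕ → V → V
  | [], x => x
  | s :: l, x => run l (act s x)

def vec (x : V) : Fin 3 → ℤ := ![x.1, x.2.1, x.2.2]

theorem cases18 {P : ℕ → Prop} (h : ∀ s < 18, P s) (h' : ∀ k, P (k + 18)) (s : ℕ) : P s := by
  by_cases hs : s < 18
  · exact h s hs
  · obtain ⟨k, rfl⟩ := Nat.exists_eq_add_of_le' (not_lt.1 hs)
    exact h' k

/-- the matrix of a move -/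
def mat (s : ℕ) : SL3 :=
  ⟨Matrix.of ![vec (act s (1, 0, 0)), vec (act s (0, 1, 0)), vec (act s (0, 0, 1))], by
    rw [Matrix.det_fin_three]
    induction s using cases18 with
    | h s hs => interval_cases s <;> rfl
    | h' k => rfl⟩

def row (g : SL3) (i : Fin 3) : V := (g.1 i 0, g.1 i 1, g.1 i 2)

theorem row_mul (g : SL3) (s : ℕ) (i : Fin 3) : row (g * mat s) i = act s (row g i) := by
  simp only [row, Matrix.SpecialLinearGroup.coe_mul, Matrix.mul_apply, Fin.sum_univ_three]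
  induction s using cases18 with
  | h s hs => interval_cases s <;> simp [mat, act, vec] <;> ring
  | h' k => simp [mat, act, vec]

theorem row_ext {g g' : SL3} (h : ∀ i, row g i = row g' i) : g = g' := by
  ext i j
  have := h i
  simp only [row, Prod.mk.injEq] at this
  fin_cases j
  exacts [this.1, this.2.1, this.2.2]

theorem row_prod (l : List ℕ) (i : Fin 3) : ∀ g : SL3,
    row (g * (l.map mat).prod) i = run l (row g i) := by
  induction l with
  | nil => intro g; simp [run]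
  | cons s l ih => intro g; rw [List.map_cons, List.prod_cons, ← mul_assoc, ih, row_mul, run]

/-- short words with the same matrix -/
def Eqv (l l' : List ℕ) : Prop := l.length ≤ 4 ∧ l'.length ≤ 4 ∧
  run l (1, 0, 0) = run l' (1, 0, 0) ∧ run l (0, 1, 0) = run l' (0, 1, 0) ∧
  run l (0, 0, 1) = run l' (0, 0, 1)

instance (l l' : List ℕ) : Decidable (Eqv l l') := by unfold Eqv; infer_instance

theorem Eqv.mat {l l' : List ℕ} (h : Eqv l l') : (l.map mat).prod = (l'.map mat).prod := by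
  refine row_ext fun i => ?_
  rw [← one_mul (l.map FP.mat).prod, ← one_mul (l'.map FP.mat).prod, row_prod, row_prod]
  fin_cases i
  exacts [h.2.2.1, h.2.2.2.1, h.2.2.2.2]

abbrev F : Type := FreeGroup (Fin 18)

def gn (s : ℕ) : F := if h : s < 18 then FreeGroup.of ⟨s, h⟩ else 1

def π₀ : F →* SL3 := FreeGroup.lift fun s => mat s.val

theorem π₀_gn (s : ℕ) : π₀ (gn s) = mat s := by
  induction s using cases18 with
  | h s hs => simp [gn, hs, π₀]
  | h' k =>
    rw [gn, dif_neg (by omega), map_one]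
    refine row_ext fun i => ?_
    rw [← one_mul (mat _), row_mul]
    rfl

theorem π₀_prod (l : List ℕ) : π₀ (l.map gn).prod = (l.map mat).prod := by
  rw [map_list_prod, List.map_map]
  congr 2
  exact funext π₀_gn

/-- products of at most `n` generators -/
def T (n : ℕ) : Set F := {w | ∃ l : List ℕ, l.length ≤ n ∧ (l.map gn).prod = w}

theorem T_fin (n : ℕ) : (T n).Finite := by
  have hg : (Set.range gn).Finite := by
    refine ((Set.finite_range FreeGroup.of).insert 1).subset ?_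
    rintro _ ⟨s, rfl⟩
    unfold gn
    split_ifs
    · exact Or.inr ⟨_, rfl⟩
    · exact Or.inl rfl
  induction n with
  | zero =>
    refine (Set.finite_singleton 1).subset ?_
    rintro _ ⟨l, hl, rfl⟩
    rw [List.length_eq_zero_iff.1 (Nat.le_zero.1 hl)]
    rfl
  | succ n ih =>
    refine ((hg.image2 (· * ·) ih).insert 1).subset ?_
    rintro _ ⟨l, hl, rfl⟩
    cases l with
    | nil => exact Or.inl rfl
    | cons s l =>
      exact Or.inr ⟨_, ⟨s, rfl⟩, _, ⟨l, Nat.le_of_succ_le_succ hl, rfl⟩, by simp⟩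

/-- the relators -/
def Rl : Set F := Set.image2 (fun u v => u⁻¹ * v) (T 4) (T 4) ∩ {w | π₀ w = 1}

abbrev Γ : Type := F ⧸ Subgroup.normalClosure Rl

theorem nc_le : Subgroup.normalClosure Rl ≤ π₀.ker :=
  Subgroup.normalClosure_le_normal fun _ h => h.2

def π : Γ →* SL3 := QuotientGroup.lift _ π₀ nc_le

def ι (s : ℕ) : Γ := QuotientGroup.mk (gn s)

def ev (l : List ℕ) : Γ := (l.map ι).prod

theorem ev_nil : ev [] = 1 := rfl

theorem ev_cons (s : ℕ) (l : List ℕ) : ev (s :: l) = ι s * ev l := rfl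

theorem ev_append (l l' : List ℕ) : ev (l ++ l') = ev l * ev l' := by simp [ev]

theorem ev_one (s : ℕ) : ev [s] = ι s := mul_one _

theorem ev_two (s t : ℕ) : ev [s, t] = ι s * ι t := by rw [ev_cons, ev_one]

theorem ev_mk (l : List ℕ) : ev l = QuotientGroup.mk (l.map gn).prod := by
  induction l with
  | nil => rfl
  | cons s l ih => rw [ev_cons, ih]; rfl

theorem Eqv.ev {l l' : List ℕ} (h : Eqv l l') : ev l = ev l' := by
  rw [ev_mk, ev_mk, QuotientGroup.eq]
  refine Subgroup.subset_normalClosure ⟨⟨_, ⟨l, h.1, rfl⟩, _, ⟨l', h.2.1, rfl⟩, rfl⟩, ?_⟩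
  change π₀ _ = 1
  rw [map_mul, map_inv, π₀_prod, π₀_prod, h.mat, inv_mul_cancel]

/-- a row of the image -/
def X (i : Fin 3) (γ : Γ) : V := row (π γ) i

theorem X_mul (i : Fin 3) (γ : Γ) (s : ℕ) : X i (γ * ι s) = act s (X i γ) := by
  rw [X, map_mul, show π (ι s) = mat s from π₀_gn s, row_mul, X]

theorem X_ev (i : Fin 3) (l : List ℕ) : ∀ γ : Γ, X i (γ * ev l) = run l (X i γ) := by
  induction l with
  | nil => exact fun γ => by rw [ev_nil, mul_one, run]
  | cons s l ih => exact fun γ => by rw [ev_cons, ← mul_assoc, ih, X_mul, run]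

/-- products of moves from a list -/
def Gen (H : List ℕ) (γ : Γ) : Prop := ∃ l : List ℕ, (∀ s ∈ l, s ∈ H) ∧ ev l = γ

theorem Gen.mul {H : List ℕ} {γ δ : Γ} (h : Gen H γ) (h' : Gen H δ) : Gen H (γ * δ) := by
  obtain ⟨l, hl, rfl⟩ := h
  obtain ⟨l', hl', rfl⟩ := h'
  exact ⟨l ++ l', fun s hs => (List.mem_append.1 hs).elim (hl s) (hl' s), ev_append _ _⟩

theorem Gen.one (H : List ℕ) : Gen H 1 := ⟨[], by simp, rfl⟩

theorem Gen.of {H : List ℕ} {s : ℕ} (h : s ∈ H) : Gen H (ι s) := ⟨[s], by simpa, ev_one s⟩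

theorem Gen.ind {H : List ℕ} {P : Γ → Prop} (h1 : P 1) (h : ∀ γ, ∀ s ∈ H, P γ → P (γ * ι s))
    {γ : Γ} (hγ : Gen H γ) : P γ := by
  obtain ⟨l, hl, rfl⟩ := hγ
  induction l using List.reverseRecOn with
  | nil => exact h1
  | append_singleton l s ih =>
    rw [ev_append, ev_one]
    exact h _ s (hl s (by simp)) (ih fun t ht => hl t (by simp [ht]))

/-- all moves of the first kind start below the level `n` -/
def Ok (ν : V → ℕ) (E W : List ℕ) (n : ℕ) : V → List ℕ → Prop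
  | _, [] => True
  | x, t :: l => (t ∈ W ∨ (t ∈ E ∧ ν x < n)) ∧ Ok ν E W n (act t x) l

theorem Ok.snoc {ν : V → ℕ} {E W : List ℕ} {n w : ℕ} (hw : w ∈ W) (l : List ℕ) :
    ∀ x, Ok ν E W n x l → Ok ν E W n x (l ++ [w]) := by
  induction l with
  | nil => exact fun _ _ => ⟨Or.inl hw, trivial⟩
  | cons t l ih => exact fun x h => ⟨h.1, ih _ h.2⟩

/-- peaks that start with the move `s'` can be removed -/
def PK (i : Fin 3) (ν : V → ℕ) (E W : List ℕ) (I : V → Prop) (s' : ℕ) : Prop :=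
  ∀ γ, I (X i γ) → ∀ s ∈ E, ν (X i γ) < ν (X i (γ * ι s')) →
    ν (X i (γ * ι s' * ι s)) ≤ ν (X i (γ * ι s')) →
    ∃ l, Ok ν E W (ν (X i (γ * ι s'))) (X i γ) l ∧ ev l = ι s' * ι s

theorem PK.of {i : Fin 3} {ν : V → ℕ} {E W : List ℕ} {I : V → Prop} {s' : ℕ}
    (c : ℕ → List (List ℕ)) (h : ∀ s ∈ E, ∀ l ∈ c s, Eqv l [s', s])
    (h' : ∀ s ∈ E, ∀ x, I x → ν x < ν (act s' x) → ν (act s (act s' x)) ≤ ν (act s' x) →
      ∃ l ∈ c s, Ok ν E W (ν (act s' x)) x l) : PK i ν E W I s' := by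
  intro γ hI s hs h1 h2
  simp only [X_mul] at h1 h2 ⊢
  obtain ⟨l, hl, hk⟩ := h' s hs _ hI h1 h2
  exact ⟨l, hk, (h s hs l hl).ev.trans (ev_two _ _)⟩

theorem PK.conj {i : Fin 3} {ν : V → ℕ} {E W : List ℕ} {s₀ : ℕ}
    (hW : ∀ w ∈ W, ∀ x, ν (act w x) = ν x)
    (hc : ∀ w ∈ W, ∀ s ∈ E, ∃ s' ∈ E, Eqv [w, s] [s', w])
    (h : PK i ν E W (fun _ => True) s₀) (w w' s₁ : ℕ)
    (e : w ∈ W ∧ w' ∈ W ∧ Eqv [s₁] [w, s₀, w']) : PK i ν E W (fun _ => True) s₁ := by
  intro γ _ s hs h1 h2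
  obtain ⟨s'', hs'', e'⟩ := hc w' e.2.1 s hs
  have e1 : ι s₁ = ι w * ι s₀ * ι w' := by
    rw [← ev_one, e.2.2.ev, ev_cons, ev_two, mul_assoc]
  have e2 : ι w' * ι s = ι s'' * ι w' := by rw [← ev_two, e'.ev, ev_two]
  have a1 : ν (X i (γ * ι s₁)) = ν (X i (γ * ι w * ι s₀)) := by
    rw [e1, ← mul_assoc, ← mul_assoc, X_mul, hW _ e.2.1]
  have a2 : ν (X i (γ * ι s₁ * ι s)) = ν (X i (γ * ι w * ι s₀ * ι s'')) := by
    rw [e1, ← mul_assoc, ← mul_assoc, mul_assoc _ (ι w'), e2, ← mul_assoc, X_mul, hW _ e.2.1]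
  obtain ⟨l, hl, el⟩ := h (γ * ι w) trivial s'' hs'' (by rwa [← a1, X_mul i γ w, hW _ e.1])
    (by rwa [← a1, ← a2])
  refine ⟨w :: (l ++ [w']), ⟨Or.inl e.1, ?_⟩, ?_⟩
  · rw [a1, ← X_mul]
    exact Ok.snoc e.2.1 _ _ hl
  · rw [ev_cons, ev_append, ev_one, el, e1, mul_assoc _ (ι w'), e2]
    simp only [mul_assoc]

/-- the data of one stage of the reduction -/
structure St (i : Fin 3) (ν : V → ℕ) (E W H : List ℕ) (U C : List (List ℕ))
    (I J : V → Prop) : Prop where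
  hW : ∀ w ∈ W, ∀ x, ν (act w x) = ν x
  hc : ∀ w ∈ W, ∀ s ∈ E, ∃ s' ∈ E, Eqv [w, s] [s', w]
  hJ0 : J (row 1 i)
  hJ : ∀ s ∈ H, ∀ x, J x → J (act s x)
  hJI : ∀ x, J x → I x
  hI : ∀ s ∈ E ++ W, ∀ x, I x → I (act s x)
  hm : ∀ x, I x → ν (row 1 i) ≤ ν x
  hb : ∀ s ∈ E, ∀ x, J x → ν (act s x) ≤ ν x → s ∈ H
  hp : ∀ s ∈ E, PK i ν E W I s
  hU0 : [] ∈ U
  hC : ∀ l ∈ C, ∀ s ∈ l, s ∈ H
  hU : ∀ u ∈ U, ∀ w ∈ W, ∃ u' ∈ U, ∃ l ∈ C, Eqv (u ++ [w]) (l ++ u')
  hU1 : ∀ u ∈ U, ∀ x, J x → J (run u x) → u = []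

/-- elements with an ascending path -/
inductive R (i : Fin 3) (ν : V → ℕ) (E W H : List ℕ) : Γ → Prop
  | base {γ : Γ} : Gen H γ → R i ν E W H γ
  | turn {γ : Γ} {w : ℕ} : R i ν E W H γ → w ∈ W → R i ν E W H (γ * ι w)
  | up {γ : Γ} {s : ℕ} : R i ν E W H γ → s ∈ E → ν (X i γ) < ν (X i (γ * ι s)) →
      R i ν E W H (γ * ι s)

namespace St

variable {i : Fin 3} {ν : V → ℕ} {E W H : List ℕ} {U C : List (List ℕ)} {I J : V → Prop}
  (S : St i ν E W H U C I J)

include S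

theorem genJ {γ : Γ} (h : Gen H γ) : J (X i γ) :=
  h.ind (P := fun γ => J (X i γ)) (by rw [X, map_one]; exact S.hJ0)
    fun γ s hs h => by rw [X_mul]; exact S.hJ s hs _ h

theorem rI {γ : Γ} (h : R i ν E W H γ) : I (X i γ) := by
  induction h with
  | base h => exact S.hJI _ (S.genJ h)
  | turn _ hw ih => rw [X_mul]; exact S.hI _ (List.mem_append_right _ hw) _ ih
  | up _ hs _ ih => rw [X_mul]; exact S.hI _ (List.mem_append_left _ hs) _ ih

theorem step (n : ℕ) : ∀ γ, R i ν E W H γ → ν (X i γ) = n → ∀ s ∈ E, R i ν E W H (γ * ι s) := by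
  induction n using Nat.strong_induction_on with
  | h n ih =>
    have follow : ∀ l γ, R i ν E W H γ → Ok ν E W n (X i γ) l → R i ν E W H (γ * ev l) := by
      intro l
      induction l with
      | nil => exact fun γ h _ => by rwa [ev_nil, mul_one]
      | cons t l ihl =>
        intro γ h hk
        rw [ev_cons, ← mul_assoc]
        refine ihl _ ?_ (by rw [X_mul]; exact hk.2)
        exact hk.1.elim h.turn fun h' => ih _ h'.2 γ h rfl t h'.1
    have key : ∀ γ, R i ν E W H γ → ν (X i γ) = n → ∀ s ∈ E, ν (X i (γ * ι s)) ≤ n →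
        R i ν E W H (γ * ι s) := by
      intro γ h
      induction h with
      | base h =>
        intro hn s hs hle
        rw [X_mul, ← hn] at hle
        exact .base (h.mul (Gen.of (S.hb s hs _ (S.genJ h) hle)))
      | @turn γ w h hw ihr =>
        intro hn s hs hle
        obtain ⟨s', hs', e⟩ := S.hc w hw s hs
        have e2 : ι w * ι s = ι s' * ι w := by rw [← ev_two, e.ev, ev_two]
        rw [mul_assoc, e2, ← mul_assoc] at hle ⊢
        rw [X_mul, S.hW w hw] at hn hle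
        exact (ihr hn s' hs' hle).turn hw
      | @up γ s' h hs' hlt _ =>
        intro hn s hs hle
        obtain ⟨l, hl, e⟩ := S.hp s' hs' γ (S.rI h) s hs hlt (hn ▸ hle)
        rw [mul_assoc, ← e]
        exact follow l γ h (hn ▸ hl)
    intro γ h hn s hs
    by_cases hle : ν (X i (γ * ι s)) ≤ n
    · exact key γ h hn s hs hle
    · exact h.up hs (hn ▸ not_le.1 hle)

theorem low {γ : Γ} (h : R i ν E W H γ) : ν (X i γ) ≤ ν (row 1 i) →
    ∃ u ∈ U, ∃ δ, Gen H δ ∧ γ = δ * ev u := by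
  induction h with
  | base h => exact fun _ => ⟨[], S.hU0, _, h, (mul_one _).symm⟩
  | @turn γ w _ hw ih =>
    intro hn
    rw [X_mul, S.hW w hw] at hn
    obtain ⟨u, hu, δ, hδ, rfl⟩ := ih hn
    obtain ⟨u', hu', l, hl, e⟩ := S.hU u hu w hw
    refine ⟨u', hu', δ * ev l, hδ.mul ⟨l, S.hC l hl, rfl⟩, ?_⟩
    rw [mul_assoc, mul_assoc, ← ev_append, ← e.ev, ev_append, ev_one]
  | up h _ hlt _ => exact fun hn => absurd (S.hm _ (S.rI h)) (by omega)

theorem main {γ : Γ} (h : Gen (E ++ W) γ) (h1 : π γ = 1) : Gen H γ := by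
  have hr : R i ν E W H γ := h.ind (P := R i ν E W H) (.base (Gen.one H)) fun γ s hs hγ =>
    (List.mem_append.1 hs).elim (S.step _ γ hγ rfl s) hγ.turn
  have hx : X i γ = row 1 i := by rw [X, h1]
  obtain ⟨u, hu, δ, hδ, rfl⟩ := S.low hr (by rw [hx])
  rw [S.hU1 u hu _ (S.genJ hδ) (by rw [← X_ev, hx]; exact S.hJ0), ev_nil, mul_one]
  exact hδ

end St

/-- detours, first stage -/
def cA : ℕ → ℕ → List (List ℕ)
  | 0, 1 => [[]]
  | 0, 2 => [[2, 0]]
  | 0, 3 => [[3, 0]]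
  | 0, 5 => [[4, 12]]
  | 0, 6 => [[2, 6, 0], [4, 2, 1, 12]]
  | 0, 7 => [[3, 7, 0], [4, 3, 1, 12]]
  | 0, 8 => [[8, 11, 0], [2, 0, 9, 15]]
  | 0, 9 => [[9, 10, 0], [3, 0, 8, 14]]
  | 0, 10 => [[10, 0], [2, 10, 3], [8, 0, 9]]
  | 0, 11 => [[11, 0], [3, 11, 2], [9, 0, 8]]
  | _, _ => []

/-- detours, second stage -/
def cB : ℕ → ℕ → List (List ℕ)
  | 6, 4 => [[4, 6]]
  | 6, 5 => [[5, 6]]
  | 6, 7 => [[]]
  | 6, 8 => [[4, 8, 6]]
  | 6, 9 => [[5, 9, 6]]
  | 6, 11 => [[10, 16]]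
  | 7, 4 => [[4, 7]]
  | 7, 5 => [[5, 7]]
  | 7, 6 => [[]]
  | 7, 8 => [[5, 8, 7]]
  | 7, 9 => [[4, 9, 7]]
  | 7, 10 => [[11, 17]]
  | 10, 4 => [[4, 8, 10]]
  | 10, 5 => [[5, 9, 10]]
  | 10, 7 => [[6, 17]]
  | 10, 8 => [[8, 10]]
  | 10, 9 => [[9, 10]]
  | 10, 11 => [[]]
  | 11, 4 => [[4, 9, 11]]
  | 11, 5 => [[5, 8, 11]]
  | 11, 6 => [[7, 16]]
  | 11, 8 => [[8, 11]]
  | 11, 9 => [[9, 11]]
  | 11, 10 => [[]]
  | _, _ => []

/-- detours, third stage -/
def cC : ℕ → ℕ → List (List ℕ)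
  | 4, 5 => [[]]
  | 4, 8 => [[8, 4]]
  | 4, 9 => [[9, 4]]
  | 4, 10 => [[9, 10, 4]]
  | 4, 11 => [[8, 11, 4]]
  | 5, 4 => [[]]
  | 5, 8 => [[8, 5]]
  | 5, 9 => [[9, 5]]
  | 5, 10 => [[8, 10, 5]]
  | 5, 11 => [[9, 11, 5]]
  | _, _ => []

/-- detours, last stage -/
def cD : ℕ → ℕ → List (List ℕ)
  | 8, 9 => [[]]
  | 8, 10 => [[10, 8]]
  | 8, 11 => [[11, 8]]
  | 9, 8 => [[]]
  | 9, 10 => [[10, 9]]
  | 9, 11 => [[11, 9]]
  | 10, 8 => [[8, 10]]
  | 10, 9 => [[9, 10]]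
  | 10, 11 => [[]]
  | 11, 8 => [[8, 11]]
  | 11, 9 => [[9, 11]]
  | 11, 10 => [[]]
  | _, _ => []

def νA (x : V) : ℕ := x.1.natAbs + x.2.1.natAbs + x.2.2.natAbs

def νB (x : V) : ℕ := x.2.1.natAbs + x.2.2.natAbs

def νC (x : V) : ℕ := x.1.natAbs

def νD (x : V) : ℕ := x.1.natAbs + x.2.1.natAbs

abbrev EA : List ℕ := [0, 1, 2, 3, 4, 5, 6, 7, 8, 9, 10, 11]

abbrev WA : List ℕ := [12, 13, 14, 15, 16, 17]

abbrev EB : List ℕ := [4, 5, 6, 7, 8, 9, 10, 11]

abbrev EC : List ℕ := [4, 5, 8, 9, 10, 11]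

abbrev ED : List ℕ := [8, 9, 10, 11]

theorem PK.mono {i : Fin 3} {ν : V → ℕ} {E W : List ℕ} {I : V → Prop} {s : ℕ}
    (h : PK i ν E W (fun _ => True) s) : PK i ν E W I s := fun γ _ => h γ trivial

theorem hWA : ∀ w ∈ WA, ∀ x, νA (act w x) = νA x := by
  rintro w hw ⟨a, b, c⟩
  fin_cases hw <;> simp only [act, νA] <;> omega

theorem hcA : ∀ w ∈ WA, ∀ s ∈ EA, ∃ s' ∈ EA, Eqv [w, s] [s', w] := by decide +kernel

theorem pk0 : PK 0 νA EA WA (fun _ => True) 0 := by
  refine PK.of (cA 0) (by decide +kernel) ?_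
  rintro s hs ⟨a, b, c⟩ _ h1 h2
  fin_cases hs <;> simp only [act, νA] at h1 h2 <;> simp [cA, Ok, act, νA] <;> omega

theorem pkA : ∀ s ∈ EA, PK 0 νA EA WA (fun _ => True) s := by
  have p0 := pk0
  have p5 := p0.conj hWA hcA 12 13 5 (by decide)
  have p11 := p0.conj hWA hcA 14 15 11 (by decide)
  have p6 := p5.conj hWA hcA 14 15 6 (by decide)
  have p10 := p0.conj hWA hcA 15 14 10 (by decide)
  have p7 := p5.conj hWA hcA 15 14 7 (by decide)
  have p3 := p0.conj hWA hcA 16 17 3 (by decide)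
  have p8 := p5.conj hWA hcA 16 17 8 (by decide)
  have p2 := p0.conj hWA hcA 17 16 2 (by decide)
  have p9 := p5.conj hWA hcA 17 16 9 (by decide)
  have p4 := p6.conj hWA hcA 14 15 4 (by decide)
  have p1 := p11.conj hWA hcA 14 15 1 (by decide)
  intro s hs
  fin_cases hs <;> assumption

theorem stA : St 0 νA EA WA (EB ++ [16, 17]) [[], [12], [13], [14], [15], [12, 12]]
    [[], [16], [17], [16, 16]] (fun x => 1 ≤ νA x) (fun x => x = (1, 0, 0)) where
  hW := hWA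
  hc := hcA
  hJ0 := rfl
  hJ := by
    rintro s hs _ rfl
    fin_cases hs <;> rfl
  hJI := by
    rintro _ rfl
    decide
  hI := by
    rintro s hs ⟨a, b, c⟩ h
    fin_cases hs <;> simp only [act, νA] at h ⊢ <;> omega
  hm := fun _ h => h
  hb := by
    rintro s hs _ rfl
    revert s
    decide
  hp := fun s hs => (pkA s hs).mono
  hU0 := by decide
  hC := by decide
  hU := by decide +kernel
  hU1 := by
    rintro u hu _ rfl
    revert u
    decide

theorem stB : St 1 νB EB [16, 17] (EC ++ []) [[], [16], [17], [16, 16]] [[]]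
    (fun x => 1 ≤ νB x) (fun x => x.2 = (1, 0)) where
  hW := by
    rintro w hw ⟨a, b, c⟩
    fin_cases hw <;> simp only [act, νB] <;> omega
  hc := by decide +kernel
  hJ0 := rfl
  hJ := by
    rintro s hs ⟨a, _⟩ rfl
    fin_cases hs <;> rfl
  hJI := by
    rintro ⟨a, _⟩ rfl
    exact le_rfl
  hI := by
    rintro s hs ⟨a, b, c⟩ h
    fin_cases hs <;> simp only [act, νB] at h ⊢ <;> omega
  hm := fun _ h => h
  hb := by
    rintro s hs ⟨a, _⟩ rfl h
    fin_cases hs <;> simp [act, νB] at h ⊢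
  hp := by
    intro s' hs'
    refine PK.of (cB s') (by revert s'; decide +kernel) ?_
    rintro s hs ⟨a, b, c⟩ _ h1 h2
    fin_cases hs' <;> fin_cases hs <;> simp only [act, νB] at h1 h2 <;>
      simp [cB, Ok, act, νB] <;> omega
  hU0 := by decide
  hC := by decide
  hU := by decide +kernel
  hU1 := by
    rintro u hu ⟨a, _⟩ rfl h
    fin_cases hu <;> simp [run, act] at h ⊢

theorem stC : St 1 νC EC [] (ED ++ []) [[]] [] (fun x => x.2 = (1, 0))
    (fun x => x = (0, 1, 0)) where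
  hW := by simp
  hc := by simp
  hJ0 := rfl
  hJ := by
    rintro s hs _ rfl
    fin_cases hs <;> rfl
  hJI := by
    rintro _ rfl
    rfl
  hI := by
    rintro s hs ⟨a, _⟩ rfl
    fin_cases hs <;> rfl
  hm := fun _ _ => Nat.zero_le _
  hb := by
    rintro s hs _ rfl
    revert s
    decide
  hp := by
    intro s' hs'
    refine PK.of (cC s') (by revert s'; decide +kernel) ?_
    rintro s hs ⟨a, _⟩ rfl h1 h2
    fin_cases hs' <;> fin_cases hs <;> simp only [act, νC] at h1 h2 <;>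
      simp [cC, Ok, act, νC] <;> omega
  hU0 := by decide
  hC := by decide
  hU := by simp
  hU1 := by simp

theorem stD : St 2 νD ED [] [] [[]] [] (fun x => x.2.2 = 1) (fun x => x = (0, 0, 1)) where
  hW := by simp
  hc := by simp
  hJ0 := rfl
  hJ := by simp
  hJI := by
    rintro _ rfl
    rfl
  hI := by
    rintro s hs ⟨a, b, _⟩ rfl
    fin_cases hs <;> rfl
  hm := fun _ _ => Nat.zero_le _
  hb := by
    rintro s hs _ rfl
    revert s
    decide
  hp := by
    intro s' hs'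
    refine PK.of (cD s') (by revert s'; decide +kernel) ?_
    rintro s hs ⟨a, b, _⟩ rfl h1 h2
    fin_cases hs' <;> fin_cases hs <;> simp only [act, νD] at h1 h2 <;>
      simp [cD, Ok, act, νD] <;> omega
  hU0 := by decide
  hC := by decide
  hU := by simp
  hU1 := by simp

theorem gen_all (γ : Γ) : Gen (EA ++ WA) γ := by
  obtain ⟨w, rfl⟩ := QuotientGroup.mk_surjective γ
  have hi : ∀ s : Fin 18, s.val ∈ EA ++ WA ∧ ∃ t ∈ EA ++ WA, Eqv [s.val, t] [] := by
    decide +kernel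
  have e : ∀ s : Fin 18, (QuotientGroup.mk (FreeGroup.of s) : Γ) = ι s.val := fun s => by
    rw [ι, gn, dif_pos s.2]
  induction w using FreeGroup.induction_on with
  | C1 => exact Gen.one _
  | of s => rw [e]; exact Gen.of (hi s).1
  | inv_of s _ =>
    obtain ⟨t, ht, h⟩ := (hi s).2
    rw [QuotientGroup.mk_inv, e, inv_eq_of_mul_eq_one_right ((ev_two _ _).symm.trans h.ev)]
    exact Gen.of ht
  | mul u v hu hv => exact hu.mul hv

theorem π_inj {γ : Γ} (h : π γ = 1) : γ = 1 := by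
  obtain ⟨l, hl, rfl⟩ := stD.main (stC.main (stB.main (stA.main (gen_all γ) h) h) h) h
  cases l with
  | nil => rfl
  | cons s l => simpa using hl s

theorem descent {K : Subgroup SL3} (hK : ∀ s, mat s ∈ K) (P : SL3 → Prop) (μ : SL3 → ℕ)
    (h : ∀ g, P g → g ∈ K ∨ ∃ s, P (g * mat s) ∧ μ (g * mat s) < μ g) (g : SL3) (hg : P g) :
    g ∈ K := by
  induction hn : μ g using Nat.strong_induction_on generalizing g with
  | h n ih =>
    rcases h g hg with h | ⟨s, h1, h2⟩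
    · exact h
    · exact (K.mul_mem_cancel_right (hK s)).1 (ih _ (hn ▸ h2) _ h1 rfl)

theorem det_row (g : SL3) {a b c d e f p q r : ℤ} (h0 : row g 0 = (a, b, c))
    (h1 : row g 1 = (d, e, f)) (h2 : row g 2 = (p, q, r)) :
    a * (e * r - f * q) - b * (d * r - f * p) + c * (d * q - e * p) = 1 := by
  have := g.2
  rw [Matrix.det_fin_three] at this
  simp only [row, Prod.mk.injEq] at h0 h1 h2
  obtain ⟨rfl, rfl, rfl⟩ := h0
  obtain ⟨rfl, rfl, rfl⟩ := h1
  obtain ⟨rfl, rfl, rfl⟩ := h2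
  linear_combination this

theorem top_of_mat {K : Subgroup SL3} (hK : ∀ s, mat s ∈ K) : K = ⊤ := by
  have back : ∀ g s, g * mat s ∈ K → g ∈ K := fun g s => (K.mul_mem_cancel_right (hK s)).1
  have hD : ∀ g, row g 0 = (1, 0, 0) ∧ row g 1 = (0, 1, 0) → g ∈ K := by
    refine descent hK _ (fun g => νD (row g 2)) fun g hg => ?_
    obtain ⟨⟨a, b, c⟩, hx⟩ : ∃ x, row g 2 = x := ⟨_, rfl⟩
    have hd := det_row g hg.1 hg.2 hx
    obtain rfl : c = 1 := by linear_combination hd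
    by_cases h : ∃ s ∈ ED, νD (act s (a, b, 1)) < νD (a, b, 1)
    · obtain ⟨s, hs, h⟩ := h
      refine Or.inr ⟨s, ?_, by rwa [row_mul, hx]⟩
      rw [row_mul, row_mul, hg.1, hg.2]
      fin_cases hs <;> exact ⟨rfl, rfl⟩
    · simp [act, νD] at h
      obtain ⟨rfl, rfl⟩ : a = 0 ∧ b = 0 := by omega
      have : g = 1 := row_ext fun i => by
        fin_cases i
        exacts [hg.1, hg.2, hx]
      exact Or.inl (this ▸ K.one_mem)
  have hC : ∀ g, row g 0 = (1, 0, 0) ∧ (row g 1).2 = (1, 0) → g ∈ K := by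
    refine descent hK _ (fun g => νC (row g 1)) fun g hg => ?_
    obtain ⟨⟨a, y⟩, hx⟩ : ∃ x, row g 1 = x := ⟨_, rfl⟩
    obtain rfl : y = (1, 0) := by simpa [hx] using hg.2
    by_cases h : ∃ s ∈ EC, νC (act s (a, 1, 0)) < νC (a, 1, 0)
    · obtain ⟨s, hs, h⟩ := h
      refine Or.inr ⟨s, ?_, by rwa [row_mul, hx]⟩
      rw [row_mul, row_mul, hg.1, hx]
      fin_cases hs <;> exact ⟨rfl, rfl⟩
    · simp [act, νC] at h
      obtain rfl : a = 0 := by omega
      exact Or.inl (hD g ⟨hg.1, hx⟩)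
  have hB : ∀ g, row g 0 = (1, 0, 0) → g ∈ K := by
    refine descent hK _ (fun g => νB (row g 1)) fun g hg => ?_
    obtain ⟨⟨a, b, c⟩, hx⟩ : ∃ x, row g 1 = x := ⟨_, rfl⟩
    by_cases h : ∃ s ∈ EB, νB (act s (a, b, c)) < νB (a, b, c)
    · obtain ⟨s, hs, h⟩ := h
      refine Or.inr ⟨s, ?_, by rwa [row_mul, hx]⟩
      rw [row_mul, hg]
      fin_cases hs <;> rfl
    · simp [act, νB] at h
      obtain ⟨⟨p, q, r⟩, hy⟩ : ∃ x, row g 2 = x := ⟨_, rfl⟩
      have hd := det_row g hg hx hy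
      have t : ∀ s ∈ [18, 16, 17], ∀ t ∈ [18, 16], (act t (act s (a, b, c))).2 = (1, 0) →
          g ∈ K := fun s hs t ht e => back _ s (back _ t (hC _ ⟨by
        rw [row_mul, row_mul, hg]
        fin_cases hs <;> fin_cases ht <;> rfl, by rwa [row_mul, row_mul, hx]⟩))
      left
      rcases (by omega : c = 0 ∨ b = 0) with rfl | rfl
      · rcases Int.eq_one_or_neg_one_of_mul_eq_one (u := b) (v := r) (by linear_combination hd)
          with rfl | rfl
        · exact t 18 (by simp) 18 (by simp) rfl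
        · exact t 16 (by simp) 16 (by simp) rfl
      · rcases Int.eq_one_or_neg_one_of_mul_eq_one (u := c) (v := -q) (by linear_combination hd)
          with rfl | rfl
        · exact t 17 (by simp) 18 (by simp) rfl
        · exact t 16 (by simp) 18 (by simp) rfl
  refine eq_top_iff.2 fun g _ => descent hK (fun _ => True) (fun g => νA (row g 0))
    (fun g _ => ?_) g trivial
  obtain ⟨⟨a, b, c⟩, hx⟩ : ∃ x, row g 0 = x := ⟨_, rfl⟩
  by_cases h : ∃ s ∈ EA, νA (act s (a, b, c)) < νA (a, b, c)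
  · obtain ⟨s, -, h⟩ := h
    exact Or.inr ⟨s, trivial, by rwa [row_mul, hx]⟩
  · simp [act, νA] at h
    obtain ⟨⟨d, e, f⟩, hy⟩ : ∃ x, row g 1 = x := ⟨_, rfl⟩
    obtain ⟨⟨p, q, r⟩, hz⟩ : ∃ x, row g 2 = x := ⟨_, rfl⟩
    have hd := det_row g hx hy hz
    have t : ∀ s t, act t (act s (a, b, c)) = (1, 0, 0) → g ∈ K := fun s t e =>
      back _ s (back _ t (hB _ (by rwa [row_mul, row_mul, hx])))
    left
    rcases (by omega : (b = 0 ∧ c = 0) ∨ (a = 0 ∧ c = 0) ∨ (a = 0 ∧ b = 0)) with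
      ⟨rfl, rfl⟩ | ⟨rfl, rfl⟩ | ⟨rfl, rfl⟩
    · rcases Int.eq_one_or_neg_one_of_mul_eq_one (u := a) (v := e * r - f * q)
        (by linear_combination hd) with rfl | rfl
      exacts [t 18 18 rfl, t 12 12 rfl]
    · rcases Int.eq_one_or_neg_one_of_mul_eq_one (u := b) (v := f * p - d * r)
        (by linear_combination hd) with rfl | rfl
      exacts [t 13 18 rfl, t 12 18 rfl]
    · rcases Int.eq_one_or_neg_one_of_mul_eq_one (u := c) (v := d * q - e * p)
        (by linear_combination hd) with rfl | rfl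
      exacts [t 15 18 rfl, t 14 18 rfl]

end FP

/-- `SL(3, ℤ)` is finitely presented -/
theorem sl3_fp : Group.IsFinitelyPresented (Matrix.SpecialLinearGroup (Fin 3) ℤ) := by
  refine ⟨18, FP.π₀, MonoidHom.range_eq_top.1 (FP.top_of_mat fun s => ⟨_, FP.π₀_gn s⟩),
    FP.Rl, ((FP.T_fin 4).image2 _ (FP.T_fin 4)).inter_of_left _, le_antisymm FP.nc_le ?_⟩
  exact fun w hw => (QuotientGroup.eq_one_iff w).1 (FP.π_inj hw)

/-- `SL(3, ℤ)` is generated by the six elementary matrices -/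
theorem sl3_gen {K : Subgroup (Matrix.SpecialLinearGroup (Fin 3) ℤ)}
    (h : ∀ (i j : Fin 3) (hij : i ≠ j), Matrix.SpecialLinearGroup.transvection hij 1 ∈ K) :
    K = ⊤ := by
  have h0 : ∀ (i j : Fin 3) (hij : i ≠ j) (s : ℕ),
      (FP.mat s).1 = Matrix.transvection i j 1 → FP.mat s ∈ K := fun i j hij s e =>
    (Subtype.ext e : FP.mat s = Matrix.SpecialLinearGroup.transvection hij 1) ▸ h i j hij
  have hi : ∀ s t, FP.Eqv [s, t] [] → FP.mat s ∈ K → FP.mat t ∈ K := fun s t e hs => by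
    have := e.mat
    simp only [List.map_cons, List.map_nil, List.prod_cons, List.prod_nil, mul_one] at this
    rw [← inv_eq_of_mul_eq_one_right this]
    exact K.inv_mem hs
  have hr : ∀ r s t, FP.Eqv [r] [s, t, s] → FP.mat s ∈ K → FP.mat t ∈ K → FP.mat r ∈ K :=
    fun r s t e hs ht => by
    have := e.mat
    simp only [List.map_cons, List.map_nil, List.prod_cons, List.prod_nil, mul_one] at this
    exact this ▸ K.mul_mem hs (K.mul_mem ht hs)
  have m0 := h0 0 1 (by decide) 0 (by decide +kernel)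
  have m2 := h0 0 2 (by decide) 2 (by decide +kernel)
  have m4 := h0 1 0 (by decide) 4 (by decide +kernel)
  have m6 := h0 1 2 (by decide) 6 (by decide +kernel)
  have m8 := h0 2 0 (by decide) 8 (by decide +kernel)
  have m10 := h0 2 1 (by decide) 10 (by decide +kernel)
  have m1 := hi 0 1 (by decide) m0
  have m3 := hi 2 3 (by decide) m2
  have m5 := hi 4 5 (by decide) m4
  have m7 := hi 6 7 (by decide) m6
  have m9 := hi 8 9 (by decide) m8
  have m11 := hi 10 11 (by decide) m10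
  have m12 := hr 12 0 5 (by decide) m0 m5
  have m13 := hr 13 1 4 (by decide) m1 m4
  have m14 := hr 14 2 9 (by decide) m2 m9
  have m15 := hr 15 3 8 (by decide) m3 m8
  have m16 := hr 16 6 11 (by decide) m6 m11
  have m17 := hr 17 7 10 (by decide) m7 m10
  refine FP.top_of_mat fun s => ?_
  induction s using FP.cases18 with
  | h s hs => interval_cases s <;> assumption
  | h' k =>
    rw [← FP.π₀_gn, FP.gn, dif_neg (by omega), map_one]
    exact K.one_mem

end Pool.Agent.Lib.MP_34a149_al.RG
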