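import Pool.Agent.Lib.MP_34a149_al.Defs
import Pool.Agent.Lib.MP_34a149_al.RG.FP

/-!
Upper bounds for the number of generators of normal subgroups of finite index, by counting paid
edges of the Schreier groupoid.
-/

namespace Pool.Agent.Lib.MP_34a149_al.RG

open Filter Topology

namespace Up

variable {G : Type} [Group G] {H : Subgroup G} [H.Normal]

/-- the edge from `w` with label `g` is known -/
def Kn (s : G ⧸ H → G) (K : Subgroup G) (w : G ⧸ H) (g : G) : Prop :=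
  s w * g * (s (w * (g : G ⧸ H)))⁻¹ ∈ K

variable {s : G ⧸ H → G} {K : Subgroup G}

theorem Kn.one (w : G ⧸ H) : Kn s K w 1 := by
  simp [Kn]

theorem Kn.mul {w : G ⧸ H} {g g' : G} (h : Kn s K w g) (h' : Kn s K (w * (g : G ⧸ H)) g') :
    Kn s K w (g * g') := by
  have := K.mul_mem h h'
  simpa [Kn, mul_assoc] using this

theorem Kn.inv {w : G ⧸ H} {g : G} (h : Kn s K (w * (g : G ⧸ H)⁻¹) g) : Kn s K w g⁻¹ := by
  have := K.inv_mem h
  simpa [Kn, mul_assoc] using this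

/-- the labels that preserve `Z` and are known at all points of `Z` -/
def knS (s : G ⧸ H → G) (K : Subgroup G) (Z : Set (G ⧸ H)) : Subgroup G where
  carrier := {g | ∀ w, (w ∈ Z ↔ w * (g : G ⧸ H) ∈ Z) ∧ (w ∈ Z → Kn s K w g)}
  one_mem' := fun w => ⟨by simp, fun _ => Kn.one w⟩
  mul_mem' := fun {a b} ha hb w => ⟨by
    rw [QuotientGroup.mk_mul, ← mul_assoc, ← (hb _).1, ← (ha w).1],
    fun hw => ((ha w).2 hw).mul ((hb _).2 ((ha w).1.1 hw))⟩
  inv_mem' := fun {a} ha w => by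
    have e : w * ((a⁻¹ : G) : G ⧸ H) ∈ Z ↔ w ∈ Z := by
      rw [(ha _).1]
      simp
    exact ⟨e.symm, fun hw => Kn.inv ((ha _).2 (by simpa using e.2 hw))⟩

theorem mem_univ {g : G} : g ∈ knS s K Set.univ ↔ ∀ w, Kn s K w g :=
  ⟨fun h w => (h w).2 trivial, fun h w => ⟨by simp, fun _ => h w⟩⟩

theorem exists_gen (hs : ∀ w, (s w : G ⧸ H) = w) (E : Finset ((G ⧸ H) × G))
    (h : ∀ K : Subgroup G, (∀ e ∈ E, Kn s K e.1 e.2) → knS s K Set.univ = ⊤) :
    ∃ S : Finset G, Subgroup.closure (S : Set G) = H ∧ S.card ≤ E.card := by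
  classical
  refine ⟨E.image fun e => s e.1 * e.2 * (s (e.1 * (e.2 : G ⧸ H)))⁻¹, le_antisymm ?_ ?_,
    Finset.card_image_le⟩
  · rw [Subgroup.closure_le]
    intro g hg
    obtain ⟨e, -, rfl⟩ := Finset.mem_image.1 hg
    rw [SetLike.mem_coe, ← QuotientGroup.eq_one_iff]
    simp [hs]
  · intro g hg
    have h1 := h _ fun e he => Subgroup.subset_closure (Finset.mem_image_of_mem
      (fun e : (G ⧸ H) × G => s e.1 * e.2 * (s (e.1 * (e.2 : G ⧸ H)))⁻¹) he)
    have h2 := mem_univ.1 (h1 ▸ Subgroup.mem_top ((s 1)⁻¹ * g * s 1)) 1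
    have h3 : (g : G ⧸ H) = 1 := (QuotientGroup.eq_one_iff g).2 hg
    simpa [Kn, hs, h3, mul_assoc] using h2

theorem exists_rep {Q : Type} [Group Q] [Finite Q] (M : Subgroup Q) : ∃ (ρ : Q → Q) (T : Finset Q),
    (∀ w, ρ w ∈ T) ∧ (∀ w, (ρ w)⁻¹ * w ∈ M) ∧ (∀ w, ∀ m ∈ M, ρ (w * m) = ρ w) ∧
      T.card * Nat.card M ≤ Nat.card Q := by
  classical
  have := Fintype.ofFinite (Q ⧸ M)
  refine ⟨fun w => (w : Q ⧸ M).out, Finset.univ.image fun c : Q ⧸ M => c.out,
    fun w => Finset.mem_image_of_mem _ (Finset.mem_univ _), fun w => ?_, fun w m hm => ?_, ?_⟩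
  · rw [← QuotientGroup.eq]
    exact Quotient.out_eq _
  · exact congrArg Quotient.out (QuotientGroup.mk_mul_of_mem w hm)
  · rw [Subgroup.card_eq_card_quotient_mul_card_subgroup M]
    refine Nat.mul_le_mul_right _ (Finset.card_image_le.trans ?_)
    simp

variable [H.FiniteIndex]

theorem exists_rep_pow {q : ℕ} {u : G} (hu : ∀ j, 0 < j → j < q → u ^ j ∉ H) :
    ∃ (ρ : G ⧸ H → G ⧸ H) (T : Finset (G ⧸ H)), (∀ w, ρ w ∈ T) ∧
      (∀ w, ∃ j : ℕ, ρ w * (u : G ⧸ H) ^ j = w) ∧ (∀ w, ρ (w * (u : G ⧸ H)) = ρ w) ∧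
        T.card * q ≤ H.index := by
  obtain ⟨ρ, T, h1, h2, h3, h4⟩ := exists_rep (Subgroup.zpowers (u : G ⧸ H))
  refine ⟨ρ, T, h1, fun w => ?_, fun w => h3 w _ (Subgroup.mem_zpowers _), ?_⟩
  · obtain ⟨j, hj⟩ := mem_powers_iff_mem_zpowers.2 (h2 w)
    exact ⟨j, by simp only at hj; rw [hj]; simp⟩
  · refine (Nat.mul_le_mul_left _ ?_).trans h4
    rw [Nat.card_zpowers]
    by_contra hlt
    refine hu _ (orderOf_pos (u : G ⧸ H)) (not_le.1 hlt) ?_
    rw [← QuotientGroup.eq_one_iff, QuotientGroup.mk_pow]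
    exact pow_orderOf_eq_one _

/-- a section adapted to `u` -/
theorem exists_sec {q : ℕ} {u : G} (hu : ∀ j, 0 < j → j < q → u ^ j ∉ H) :
    ∃ (s : G ⧸ H → G) (T : Finset (G ⧸ H)), (∀ w, (s w : G ⧸ H) = w) ∧ T.card * q ≤ H.index ∧
      ∀ K : Subgroup G, (∀ w ∈ T, Kn s K w u) → u ∈ knS s K Set.univ := by
  classical
  obtain ⟨ρ, T, h1, h2, h3, h4⟩ := exists_rep_pow hu
  refine ⟨fun w => (ρ w).out * u ^ Nat.find (h2 w), T.image fun w => w * (u : G ⧸ H)⁻¹,
    fun w => ?_, (Nat.mul_le_mul_right _ Finset.card_image_le).trans h4, fun K hK => ?_⟩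
  · rw [QuotientGroup.mk_mul, QuotientGroup.mk_pow, QuotientGroup.out_eq']
    exact Nat.find_spec (h2 w)
  · refine mem_univ.2 fun w => ?_
    by_cases h0 : Nat.find (h2 (w * (u : G ⧸ H))) = 0
    · have := Nat.find_spec (h2 (w * (u : G ⧸ H)))
      rw [h0, pow_zero, mul_one] at this
      exact hK w (Finset.mem_image.2 ⟨_, h1 (w * (u : G ⧸ H)), by rw [this]; simp⟩)
    · obtain ⟨j, hj⟩ := Nat.exists_eq_succ_of_ne_zero h0
      have a1 := Nat.find_spec (h2 (w * (u : G ⧸ H)))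
      rw [hj, h3, pow_succ, ← mul_assoc, mul_left_inj] at a1
      have a2 : Nat.find (h2 (w * (u : G ⧸ H))) ≤ Nat.find (h2 w) + 1 := Nat.find_min' _ (by
        rw [h3, pow_succ, ← mul_assoc, Nat.find_spec (h2 w)])
      have a3 : Nat.find (h2 w) ≤ j := Nat.find_min' _ a1
      have a4 : Nat.find (h2 w) = j := by omega
      change (ρ w).out * u ^ Nat.find (h2 w) * u * ((ρ (w * (u : G ⧸ H))).out *
        u ^ Nat.find (h2 (w * (u : G ⧸ H))))⁻¹ ∈ K
      rw [hj, a4, h3, pow_succ]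
      simp [mul_assoc]

/-- an element commuting with a known one costs one edge per orbit -/
theorem exists_comm {q : ℕ} {u : G} (hu : ∀ j, 0 < j → j < q → u ^ j ∉ H) :
    ∃ T : Finset (G ⧸ H), T.card * q ≤ H.index ∧ ∀ (s : G ⧸ H → G) (K : Subgroup G) (v : G),
      Commute u v → u ∈ knS s K Set.univ → (∀ w ∈ T, Kn s K w v) → v ∈ knS s K Set.univ := by
  obtain ⟨ρ, T, h1, h2, -, h4⟩ := exists_rep_pow hu
  refine ⟨T, h4, fun s K v hc h hv => mem_univ.2 fun w => ?_⟩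
  obtain ⟨j, hj⟩ := h2 w
  have e : v = (u ^ j)⁻¹ * (v * u ^ j) := by rw [← (hc.pow_left j).eq]; simp
  have hp := mem_univ.1 (Subgroup.pow_mem _ h j)
  rw [e]
  refine (Kn.inv (hp _)).mul (Kn.mul ?_ (hp _))
  have : w * (((u ^ j)⁻¹ : G) : G ⧸ H) = ρ w := by
    rw [QuotientGroup.mk_inv, QuotientGroup.mk_pow, mul_inv_eq_iff_eq_mul, hj]
  rw [this]
  exact hv _ (h1 w)

/-- the cost of a subgroup `L` relative to an element `y` of `L` -/
theorem exists_sub {q : ℕ} {y : G} (hy : ∀ j, 0 < j → j < q → y ^ j ∉ H) {L : Subgroup G}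
    (hyL : y ∈ L) (S : Finset G) (hS : Subgroup.closure (S : Set G) = L ⊓ H) :
    ∃ (E : Finset ((G ⧸ H) × G)) (a b : ℕ), E.card ≤ a + b * S.card ∧ a * q ≤ H.index ∧
      b * Nat.card (L.map (QuotientGroup.mk' H)) ≤ H.index ∧
      ∀ (s : G ⧸ H → G) (K : Subgroup G) (Z : Set (G ⧸ H)), (∀ e ∈ E, Kn s K e.1 e.2) →
        (∀ l ∈ L, ∀ w ∈ Z, w * (l : G ⧸ H) ∈ Z) → (∀ w ∈ Z, Kn s K w y) →
          ∀ l ∈ L, ∀ w ∈ Z, Kn s K w l := by
  classical
  obtain ⟨ρ, T, h1, h2, -, h4⟩ := exists_rep_pow hy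
  obtain ⟨σ, R, k1, k2, k3, k4⟩ := exists_rep (L.map (QuotientGroup.mk' H))
  have k5 : ∀ w, ∃ l ∈ L, σ w * (l : G ⧸ H) = w := fun w => by
    obtain ⟨l, hl, e⟩ := k2 w
    exact ⟨l, hl, by rw [show (l : G ⧸ H) = _ from e]; simp⟩
  choose f hf1 hf2 using k5
  refine ⟨T.image (fun w => (σ w, f w)) ∪ R ×ˢ S, T.card, R.card, ?_, h4, k4, ?_⟩
  · exact (Finset.card_union_le _ _).trans
      (Nat.add_le_add Finset.card_image_le (Finset.card_product _ _).le)
  intro s K Z hE hZ hyZ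
  have hyp : y ∈ knS s K Z := fun w => ⟨⟨hZ y hyL w, fun h => by
    simpa using hZ _ (L.inv_mem hyL) _ h⟩, hyZ w⟩
  have key : ∀ w ∈ Z, ∀ l ∈ L, Kn s K (σ w) l := by
    intro w hw l hl
    have hσ : σ w ∈ Z := by
      have := hZ _ (L.inv_mem (hf1 w)) w hw
      rwa [QuotientGroup.mk_inv, mul_inv_eq_of_eq_mul (hf2 w).symm] at this
    obtain ⟨j, hj⟩ := h2 (σ w * (l : G ⧸ H))
    set r := ρ (σ w * (l : G ⧸ H)) with hr
    have hyj : y ^ j ∈ L := L.pow_mem hyL j
    have e1 : r = w * (((f w)⁻¹ * l * (y ^ j)⁻¹ : G) : G ⧸ H) := by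
      rw [QuotientGroup.mk_mul, QuotientGroup.mk_mul, QuotientGroup.mk_inv, QuotientGroup.mk_inv,
        QuotientGroup.mk_pow, ← mul_assoc, ← mul_assoc, mul_inv_eq_of_eq_mul (hf2 w).symm, ← hj]
      simp
    have hm : (f w)⁻¹ * l * (y ^ j)⁻¹ ∈ L :=
      L.mul_mem (L.mul_mem (L.inv_mem (hf1 w)) hl) (L.inv_mem hyj)
    have e2 : σ r = σ w := by
      rw [e1]
      exact k3 w _ ⟨_, hm, rfl⟩
    have e3 : σ w * (f r : G ⧸ H) = r := e2 ▸ hf2 r
    have a1 : Kn s K (σ w) (f r) := e2 ▸ hE (σ r, f r)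
      (Finset.mem_union_left _ (Finset.mem_image_of_mem (fun w => (σ w, f w)) (h1 _)))
    have a2 : Kn s K (σ w) (f r * y ^ j) := a1.mul (((Subgroup.pow_mem _ hyp j) _).2 (by
      rw [e3, e1]; exact hZ _ hm w hw))
    have a3 : l * (f r * y ^ j)⁻¹ ∈ Subgroup.closure (S : Set G) := by
      rw [hS]
      refine Subgroup.mem_inf.2 ⟨L.mul_mem hl (L.inv_mem (L.mul_mem (hf1 r) hyj)), ?_⟩
      rw [← QuotientGroup.eq_one_iff, QuotientGroup.mk_mul, QuotientGroup.mk_inv,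
        QuotientGroup.mk_mul, QuotientGroup.mk_pow, mul_inv_eq_one, ← mul_right_inj (σ w),
        ← mul_assoc, e3, hj]
    have a4 : Subgroup.closure (S : Set G) ≤ knS s K {σ w} := by
      rw [Subgroup.closure_le]
      intro g hg v
      have hgH : (g : G ⧸ H) = 1 :=
        (QuotientGroup.eq_one_iff g).2 (hS ▸ Subgroup.subset_closure hg : g ∈ L ⊓ H).2
      refine ⟨by rw [hgH, mul_one], fun hv => ?_⟩
      rw [show v = σ w from hv]
      exact hE (σ w, g) (Finset.mem_union_right _ (Finset.mem_product.2 ⟨k1 w, hg⟩))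
    have a5 := a4 a3 (σ w)
    have a6 : σ w * ((l * (f r * y ^ j)⁻¹ : G) : G ⧸ H) = σ w := a5.1.1 rfl
    have := (a5.2 rfl).mul (a6.symm ▸ a2)
    rwa [inv_mul_cancel_right] at this
  intro l hl w hw
  have e : l = (f w)⁻¹ * (f w * l) := by simp
  have e' : w * (f w : G ⧸ H)⁻¹ = σ w := mul_inv_eq_of_eq_mul (hf2 w).symm
  rw [e]
  refine (Kn.inv ?_).mul ?_
  · rw [e']
    exact key w hw _ (hf1 w)
  · rw [QuotientGroup.mk_inv, e']
    exact key w hw _ (L.mul_mem (hf1 w) hl)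

end Up

open Up

/-- six generators forming a chain of commuting pairs -/
theorem up_six {G : Type} [Group G] (H : Subgroup G) [H.Normal] [H.FiniteIndex] (q : ℕ)
    (u : Fin 6 → G) (hu : ∀ i j, 0 < j → j < q → u i ^ j ∉ H)
    (hc : Commute (u 0) (u 1) ∧ Commute (u 1) (u 2) ∧ Commute (u 2) (u 3) ∧ Commute (u 3) (u 4) ∧
      Commute (u 4) (u 5)) (hg : ∀ K : Subgroup G, (∀ i, u i ∈ K) → K = ⊤) :
    ∃ S : Finset G, Subgroup.closure (S : Set G) = H ∧ S.card * q ≤ 6 * H.index := by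
  classical
  obtain ⟨s, T, hs, h0, h1⟩ := exists_sec (hu 0)
  choose R hR1 hR2 using fun i => exists_comm (hu i)
  obtain ⟨S, a1, a2⟩ := exists_gen hs (T ×ˢ {u 0} ∪ (R 0 ×ˢ {u 1} ∪ (R 1 ×ˢ {u 2} ∪
    (R 2 ×ˢ {u 3} ∪ (R 3 ×ˢ {u 4} ∪ R 4 ×ˢ {u 5}))))) fun K hK => by
      have b0 := h1 K fun w hw => hK (w, u 0) (by simp [hw])
      have b1 := hR2 0 s K _ hc.1 b0 fun w hw => hK (w, u 1) (by simp [hw])
      have b2 := hR2 1 s K _ hc.2.1 b1 fun w hw => hK (w, u 2) (by simp [hw])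
      have b3 := hR2 2 s K _ hc.2.2.1 b2 fun w hw => hK (w, u 3) (by simp [hw])
      have b4 := hR2 3 s K _ hc.2.2.2.1 b3 fun w hw => hK (w, u 4) (by simp [hw])
      have b5 := hR2 4 s K _ hc.2.2.2.2 b4 fun w hw => hK (w, u 5) (by simp [hw])
      refine hg _ fun i => ?_
      fin_cases i
      exacts [b0, b1, b2, b3, b4, b5]
  refine ⟨S, a1, ?_⟩
  have a3 : S.card ≤ T.card + ((R 0).card + ((R 1).card + ((R 2).card + ((R 3).card +
      (R 4).card)))) := by
    refine a2.trans ?_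
    repeat refine (Finset.card_union_le _ _).trans (Nat.add_le_add (by simp) ?_)
    simp
  have := hR1 0
  have := hR1 1
  have := hR1 2
  have := hR1 3
  have := hR1 4
  have := Nat.mul_le_mul_right q a3
  simp only [add_mul] at this
  omega

/-- the level argument -/
theorem up_level {G : Type} [Group G] (H M L : Subgroup G) [H.Normal] [H.FiniteIndex] [M.Normal]
    (hHM : H ≤ M) (hLM : L ≤ M) {x y a t : G} (htM : t ∈ M)
    (hL : Subgroup.closure {x, y} = L) (hg : ∀ K : Subgroup G, L ≤ K → a ∈ K → t ∈ K → K = ⊤)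
    (hta : Commute t a) (htb : Commute t (x * a * y)) {q : ℕ}
    (ht : ∀ j, 0 < j → j < q → t ^ j ∉ H) (hy : ∀ j, 0 < j → j < q → y ^ j ∉ H)
    (S : Finset G) (hS : Subgroup.closure (S : Set G) = L ⊓ H) :
    ∃ (S' : Finset G) (α β γ : ℕ), Subgroup.closure (S' : Set G) = H ∧
      S'.card ≤ α + β + γ * S.card ∧ α * q ≤ 4 * H.index ∧ β * M.index ≤ 2 * H.index ∧
        γ * Nat.card (L.map (QuotientGroup.mk' H)) ≤ H.index := by
  classical
  have hx : x ∈ L := hL ▸ Subgroup.subset_closure (by simp)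
  have hyL : y ∈ L := hL ▸ Subgroup.subset_closure (by simp)
  obtain ⟨s, T, hs, h0, h1⟩ := exists_sec ht
  obtain ⟨R, hR1, hR2⟩ := exists_comm ht
  obtain ⟨E, α, γ, e1, e2, e3, e4⟩ := exists_sub hy hyL S hS
  have := Fintype.ofFinite (G ⧸ H)
  let Z : Finset (G ⧸ H) := Finset.univ.filter fun w => w ∈ M.map (QuotientGroup.mk' H)
  have hZ : Z.card * M.index = H.index := by
    rw [← Subgroup.index_map_eq M (QuotientGroup.mk'_surjective H) (by simpa using hHM),
      Subgroup.index_eq_card H, ← Subgroup.card_mul_index (M.map (QuotientGroup.mk' H))]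
    congr 1
    rw [Nat.card_eq_fintype_card, Fintype.card_subtype]
  have hMi : M.FiniteIndex := Subgroup.finiteIndex_of_le hHM
  have hlev : ∀ g : G, ∃ k : ℕ, g * (a ^ k)⁻¹ ∈ M := by
    intro g
    have : (Subgroup.zpowers (a : G ⧸ M)).comap (QuotientGroup.mk' M) = ⊤ := by
      refine hg _ (fun l hl => ?_) (Subgroup.mem_zpowers _) ?_
      · rw [Subgroup.mem_comap, QuotientGroup.mk'_apply, (QuotientGroup.eq_one_iff l).2 (hLM hl)]
        exact Subgroup.one_mem _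
      · rw [Subgroup.mem_comap, QuotientGroup.mk'_apply, (QuotientGroup.eq_one_iff t).2 htM]
        exact Subgroup.one_mem _
    obtain ⟨k, hk⟩ := mem_powers_iff_mem_zpowers.2
      (show (g : G ⧸ M) ∈ Subgroup.zpowers (a : G ⧸ M) from
        (this ▸ Subgroup.mem_top g : g ∈ (Subgroup.zpowers (a : G ⧸ M)).comap
          (QuotientGroup.mk' M)))
    refine ⟨k, ?_⟩
    rw [← QuotientGroup.eq_one_iff, QuotientGroup.mk_mul, QuotientGroup.mk_inv,
      QuotientGroup.mk_pow, ← hk]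
    simp
  obtain ⟨S', a1, a2⟩ := exists_gen hs (T ×ˢ {t} ∪ (R ×ˢ {a} ∪ (R ×ˢ {x * a * y} ∪
    (Z ×ˢ {x} ∪ (Z ×ˢ {y} ∪ E))))) fun K hK => by
      have b0 := h1 K fun w hw => hK (w, t) (by simp [hw])
      have b1 := hR2 s K _ hta b0 fun w hw => hK (w, a) (by simp [hw])
      have b2 := hR2 s K _ htb b0 fun w hw => hK (w, x * a * y) (by simp [hw])
      have b3 : ∀ k : ℕ, ∀ l ∈ L, ∀ w ∈ {w : G ⧸ H | ∃ g : G, g * (a ^ k)⁻¹ ∈ M ∧ (g : G ⧸ H) = w},
          Kn s K w l := by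
        have hcl : ∀ k : ℕ, ∀ l ∈ L, ∀ w ∈ {w : G ⧸ H | ∃ g : G, g * (a ^ k)⁻¹ ∈ M ∧
            (g : G ⧸ H) = w}, w * (l : G ⧸ H) ∈ {w : G ⧸ H | ∃ g : G, g * (a ^ k)⁻¹ ∈ M ∧
              (g : G ⧸ H) = w} := by
          rintro k l hl _ ⟨g, hg, rfl⟩
          refine ⟨g * l, ?_, rfl⟩
          have := M.mul_mem hg (Subgroup.Normal.conj_mem inferInstance l (hLM hl) (a ^ k))
          simpa [mul_assoc] using this
        intro k
        induction k with
        | zero =>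
          have hZ' : ∀ w ∈ {w : G ⧸ H | ∃ g : G, g * (a ^ 0)⁻¹ ∈ M ∧ (g : G ⧸ H) = w}, w ∈ Z := by
            rintro _ ⟨g, hg, rfl⟩
            exact Finset.mem_filter.2 ⟨Finset.mem_univ _, g, by simpa using hg, rfl⟩
          have : L ≤ knS s K {w : G ⧸ H | ∃ g : G, g * (a ^ 0)⁻¹ ∈ M ∧ (g : G ⧸ H) = w} := by
            rw [← hL, Subgroup.closure_le]
            rintro g (rfl | rfl) w
            · exact ⟨⟨hcl 0 g hx w, fun h => by simpa using hcl 0 _ (L.inv_mem hx) _ h⟩,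
                fun hw => hK (w, g) (by simp [hZ' w hw])⟩
            · exact ⟨⟨hcl 0 g hyL w, fun h => by simpa using hcl 0 _ (L.inv_mem hyL) _ h⟩,
                fun hw => hK (w, g) (by simp [hZ' w hw])⟩
          exact fun l hl w hw => (this hl w).2 hw
        | succ k ih =>
          refine e4 s K _ (fun e he => hK e (by simp [he])) (hcl (k + 1)) ?_
          rintro _ ⟨g, hg, rfl⟩
          have e : y = a⁻¹ * (x⁻¹ * (x * a * y)) := by simp [mul_assoc]
          rw [e]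
          refine (mem_univ.1 (Subgroup.inv_mem _ b1) _).mul (Kn.mul ?_ (mem_univ.1 b2 _))
          exact ih _ (L.inv_mem hx) _ ⟨g * a⁻¹, by simpa [pow_succ, mul_assoc] using hg, rfl⟩
      refine hg _ (fun l hl => mem_univ.2 fun w => ?_) b1 b0
      obtain ⟨g, rfl⟩ := QuotientGroup.mk_surjective w
      obtain ⟨k, hk⟩ := hlev g
      exact b3 k l hl _ ⟨g, hk, rfl⟩
  have a3 : S'.card ≤ T.card + (R.card + (R.card + (Z.card + (Z.card + E.card)))) := by
    refine a2.trans ?_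
    repeat refine (Finset.card_union_le _ _).trans (Nat.add_le_add (by simp) ?_)
    simp
  refine ⟨S', T.card + R.card + R.card + α, Z.card + Z.card, γ, a1, by omega, ?_, ?_, e3⟩
  · simp only [add_mul]
    omega
  · simp only [add_mul]
    omega

theorem up_genRank_le {G : Type} [Group G] {H : Subgroup G} {S : Finset G}
    (h : Subgroup.closure (S : Set G) = H) : genRank H ≤ S.card := by
  classical
  subst h
  refine le_trans (b := (S.subtype (· ∈ Subgroup.closure (S : Set G))).card)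
    (Nat.sInf_le ⟨S.subtype (· ∈ Subgroup.closure (S : Set G)), rfl, ?_⟩) ?_
  · rw [← Subgroup.closure_closure_coe_preimage]
    congr 1
    ext g
    simp
  · rw [Finset.card_subtype]
    exact Finset.card_filter_le _ _

theorem eventually_pow_notMem {G : Type} [Group G] {Γ : ℕ → Subgroup G} (hΓ : Antitone Γ)
    (h1 : ⨅ i, Γ i = ⊥) {u : G} (hu : ∀ j, 0 < j → u ^ j ≠ 1) (q : ℕ) :
    ∀ᶠ i in atTop, ∀ j, 0 < j → j < q → u ^ j ∉ Γ i := by
  have : ∀ j ∈ Finset.range q, ∀ᶠ i in atTop, 0 < j → u ^ j ∉ Γ i := by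
    intro j _
    by_cases hj : 0 < j
    · have : ¬∀ i, u ^ j ∈ Γ i := fun h =>
        hu j hj (Subgroup.mem_bot.1 (h1 ▸ Subgroup.mem_iInf.2 h))
      obtain ⟨i, hi⟩ := not_forall.1 this
      filter_upwards [eventually_ge_atTop i] with k hk _ h using hi (hΓ hk h)
    · exact Eventually.of_forall fun _ h => (hj h).elim
  filter_upwards [(eventually_all_finset _).2 this] with i hi j h0 hq
  exact hi j (Finset.mem_range.2 hq) h0

open Matrix.SpecialLinearGroup in
/-- the six elementary matrices in a commuting order -/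
def el6 : Fin 6 → Matrix.SpecialLinearGroup (Fin 3) ℤ :=
  ![transvection (i := 0) (j := 1) (by decide) 1, transvection (i := 0) (j := 2) (by decide) 1,
    transvection (i := 1) (j := 2) (by decide) 1, transvection (i := 1) (j := 0) (by decide) 1,
    transvection (i := 2) (j := 0) (by decide) 1, transvection (i := 2) (j := 1) (by decide) 1]

open Matrix.SpecialLinearGroup in
theorem transvection_pow_ne {i j : Fin 3} (hij : i ≠ j) (k : ℕ) (hk : 0 < k) :
    (transvection hij (1 : ℤ)) ^ k ≠ 1 := by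
  have : ∀ k : ℕ, (transvection hij (1 : ℤ)) ^ k = transvection hij (k : ℤ) := by
    intro k
    induction k with
    | zero => simp
    | succ k ih => rw [pow_succ, ih, ← transvection_add]; simp
  rw [this]
  intro h
  have := congrArg (fun g : Matrix.SpecialLinearGroup (Fin 3) ℤ => g.1 i j) h
  simp [transvection_coe, Matrix.one_apply_ne hij] at this
  omega

theorem el6_pow_ne (i : Fin 6) (k : ℕ) (hk : 0 < k) : el6 i ^ k ≠ 1 := by
  fin_cases i <;> exact transvection_pow_ne (by decide) k hk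

theorem up_sl3 (H : Subgroup (Matrix.SpecialLinearGroup (Fin 3) ℤ)) [H.Normal] [H.FiniteIndex]
    (q : ℕ) (hu : ∀ i j, 0 < j → j < q → el6 i ^ j ∉ H) :
    ∃ S : Finset (Matrix.SpecialLinearGroup (Fin 3) ℤ),
      Subgroup.closure (S : Set (Matrix.SpecialLinearGroup (Fin 3) ℤ)) = H ∧
        S.card * q ≤ 6 * H.index := by
  refine up_six H q el6 hu ⟨?_, ?_, ?_, ?_, ?_⟩ fun K hK => sl3_gen fun i j hij => ?_
  · exact Subtype.ext (by decide +kernel)
  · exact Subtype.ext (by decide +kernel)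
  · exact Subtype.ext (by decide +kernel)
  · exact Subtype.ext (by decide +kernel)
  · exact Subtype.ext (by decide +kernel)
  · fin_cases i <;> fin_cases j
    exacts [(hij rfl).elim, hK 0, hK 1, hK 3, (hij rfl).elim, hK 2, hK 4, hK 5, (hij rfl).elim]

/-- the rank gradient of the second chain vanishes -/
theorem up_chain {G : Type} [Group G] (φ : Matrix.SpecialLinearGroup (Fin 3) ℤ →* G)
    (hφ : Function.Injective φ) {x y a t : G} (hL : Subgroup.closure {x, y} = φ.range)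
    (hg : ∀ K : Subgroup G, φ.range ≤ K → a ∈ K → t ∈ K → K = ⊤)
    (hta : Commute t a) (htb : Commute t (x * a * y)) (ht : ∀ j, 0 < j → t ^ j ≠ 1)
    (hy : ∀ j, 0 < j → y ^ j ≠ 1) (Γ M : ℕ → Subgroup G) [∀ i, (Γ i).Normal]
    [∀ i, (Γ i).FiniteIndex] [∀ i, (M i).Normal] (hΓ : Antitone Γ) (h1 : ⨅ i, Γ i = ⊥)
    (hΓM : ∀ i, Γ i ≤ M i) (hLM : ∀ i, φ.range ≤ M i) (htM : ∀ i, t ∈ M i)
    (hM : Tendsto (fun i => (M i).index) atTop atTop) :
    Tendsto (fun i => ((genRank (Γ i) : ℝ) - 1) / (Γ i).index) atTop (𝓝 0) := by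
  classical
  have key : ∀ q : ℕ, 0 < q → ∀ᶠ i in atTop,
      |((genRank (Γ i) : ℝ) - 1) / (Γ i).index| ≤ 12 / q := by
    intro q hq
    have c1 : ∀ᶠ i in atTop, ∀ k : Fin 6, ∀ j, 0 < j → j < q → φ (el6 k) ^ j ∉ Γ i :=
      eventually_all.2 fun k => eventually_pow_notMem hΓ h1 (fun j hj h =>
        el6_pow_ne k j hj (hφ (by rw [map_pow, h, map_one]))) q
    filter_upwards [c1, eventually_pow_notMem hΓ h1 ht q, eventually_pow_notMem hΓ h1 hy q,
      hM.eventually_ge_atTop q] with i d1 d2 d3 d4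
    have hk : (Γ i).comap φ = ((QuotientGroup.mk' (Γ i)).comp φ).ker := by
      rw [← MonoidHom.comap_ker, QuotientGroup.ker_mk']
    have hn : ((Γ i).comap φ).index = Nat.card (φ.range.map (QuotientGroup.mk' (Γ i))) := by
      rw [hk, Subgroup.index_ker, MonoidHom.map_range]
    have hn0 : 0 < Nat.card (φ.range.map (QuotientGroup.mk' (Γ i))) := Nat.card_pos
    have : ((Γ i).comap φ).FiniteIndex := ⟨hn ▸ hn0.ne'⟩
    obtain ⟨S, s1, s2⟩ := up_sl3 ((Γ i).comap φ) q fun k j h0 hj h =>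
      d1 k j h0 hj (by simpa using h)
    have s3 : Subgroup.closure ((S.image φ : Finset G) : Set G) = φ.range ⊓ Γ i := by
      rw [Finset.coe_image, ← MonoidHom.map_closure, s1, Subgroup.map_comap_eq]
    obtain ⟨S', α, β, γ, e1, e2, e3, e4, e5⟩ :=
      up_level (Γ i) (M i) φ.range (hΓM i) (hLM i) (htM i) hL hg hta htb d2 d3 _ s3
    have e6 : γ * (S.image φ).card * q ≤ 6 * (Γ i).index := by
      calc γ * (S.image φ).card * q ≤ γ * (S.card * q) := by
            rw [mul_assoc]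
            exact Nat.mul_le_mul_left _ (Nat.mul_le_mul_right _ Finset.card_image_le)
        _ ≤ γ * (6 * Nat.card (φ.range.map (QuotientGroup.mk' (Γ i)))) :=
            Nat.mul_le_mul_left _ (hn ▸ s2)
        _ ≤ 6 * (Γ i).index := by
            rw [mul_left_comm]
            exact Nat.mul_le_mul_left _ e5
    have e7 : genRank (Γ i) * q ≤ 12 * (Γ i).index := by
      have f1 := Nat.mul_le_mul_right q ((up_genRank_le e1).trans e2)
      have f2 := Nat.mul_le_mul_left β d4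
      simp only [add_mul] at f1
      omega
    have e8 : q ≤ (Γ i).index := d4.trans (Nat.le_of_dvd
      (Nat.pos_of_ne_zero Subgroup.FiniteIndex.index_ne_zero) (Subgroup.index_dvd_of_le (hΓM i)))
    have g0 : (0 : ℝ) < q := by exact_mod_cast hq
    have g1 : (q : ℝ) ≤ (Γ i).index := by exact_mod_cast e8
    have g2 : (genRank (Γ i) : ℝ) * q ≤ 12 * (Γ i).index := by exact_mod_cast e7
    have g3 : (0 : ℝ) ≤ genRank (Γ i) := Nat.cast_nonneg _
    rw [abs_div, abs_of_pos (g0.trans_le g1), div_le_div_iff₀ (g0.trans_le g1) g0]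
    rcases abs_cases ((genRank (Γ i) : ℝ) - 1) with h | h <;> rw [h.1] <;> nlinarith
  rw [Metric.tendsto_nhds]
  intro ε hε
  obtain ⟨q, hq⟩ := exists_nat_gt (12 / ε)
  have hq0 : (0 : ℝ) < q := (by positivity : (0 : ℝ) < 12 / ε).trans hq
  filter_upwards [key q (by exact_mod_cast hq0)] with i hi
  rw [Real.dist_eq, sub_zero]
  refine hi.trans_lt ?_
  rw [div_lt_iff₀ hq0]
  rw [div_lt_iff₀ hε] at hq
  linarith

end Pool.Agent.Lib.MP_34a149_al.RG
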