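import Pool.Agent.Lib.MP_34a149_al.RG.TInit
import Pool.Agent.Lib.MP_34a149_al.RG.Up
import Pool.Agent.Lib.MP_34a149_al.RG.PXY

-- part Pool.Agent.Lib.MP_34a149_al.RG.TR1
section

/-!
The counting inequality for marked states.
-/

namespace Pool.Agent.RG

open Relation MulAction

variable {Φ V Y : Type} [Group Φ] [MulAction Φ V]

/-- The setting of the relative rank bound. -/
structure RSet (D : V → V → Prop) (v₀ : V) (a x y : Φ) (N : Subgroup Φ) : Prop where
  tree : IsTree D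
  inv : ∀ (h : Φ) u v, D u v → D (h • u) (h • v)
  edge : D v₀ (a • v₀)
  free : ∀ (k : Φ) u v, D u v → k • u = u → k • v = v → k = 1
  x0 : x • v₀ = v₀
  y0 : y • v₀ = v₀
  xinf : ¬ IsOfFinOrder x
  yinf : ¬ IsOfFinOrder y
  xy : y ∉ Subgroup.zpowers x
  xN : x ∉ N
  yN : y ∉ N

/-- Weight: zero for the trivial group, one otherwise. -/
def W01 {H : Type} [Group H] (_ : V) (B : Subgroup H) (n : ℕ) : Prop := B = ⊥ ∨ 1 ≤ n

theorem isW01 {H : Type} [Group H] [MulAction H V] : IsW (W01 : V → Subgroup H → ℕ → Prop) := by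
  refine ⟨fun v => Or.inl rfl, ?_, ?_, ?_, fun h v _ => Or.inr le_rfl⟩
  · rintro v B B' n n' h h' (rfl | e)
    · exact Or.inl (le_bot_iff.1 h)
    · exact Or.inr (e.trans h')
  · rintro h v B B' n t (rfl | e)
    · refine Or.inl ((Subgroup.eq_bot_iff_forall _).2 fun g hg => ?_)
      have := Subgroup.mem_bot.1 (t g hg)
      rwa [mul_assoc, inv_mul_eq_one, eq_comm, mul_eq_right] at this
    · exact Or.inr e
  · rintro v B B' n n' (rfl | e) (rfl | e')
    · exact Or.inl (by simp)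
    · exact Or.inr (by omega)
    · exact Or.inr (by omega)
    · exact Or.inr (by omega)

/-- Cosets whose marked point shares its orbit of classes with another coset. -/
def Big (N : Subgroup Φ) [MulAction N Y] (m : Φ → Y) (ρ : IRel N Y) (α : Φ ⧸ N) : Prop :=
  ∃ g g' : Φ, (g : Φ ⧸ N) = α ∧ (g' : Φ ⧸ N) ≠ α ∧ ρ.orb (m g) (m g')

theorem tr1_coset {N : Subgroup Φ} [N.Normal] {g g' : Φ} (e : (g : Φ ⧸ N) = g') :
    ∃ h : N, g = h * g' := by
  have := QuotientGroup.eq.1 e.symm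
  exact ⟨⟨g' * (g'⁻¹ * g) * g'⁻¹, Subgroup.Normal.conj_mem inferInstance _ this g'⟩, by group⟩

theorem tr1_coset' {N : Subgroup Φ} [N.Normal] (h : N) (g : Φ) :
    ((h * g : Φ) : Φ ⧸ N) = g := by
  rw [QuotientGroup.mk_mul, (QuotientGroup.eq_one_iff _).2 h.2, one_mul]

theorem tr1_good {N : Subgroup Φ} [N.Normal] [MulAction N Y] {m : Φ → Y}
    (hm : ∀ (h : N) g, m (h * g) = h • m g) {ρ : IRel N Y} {g g' : Φ} (e : (g : Φ ⧸ N) = g') (t : Φ)
    (h : ρ.r (m g') (m (g' * t))) : ρ.r (m g) (m (g * t)) := by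
  obtain ⟨k, rfl⟩ := tr1_coset e
  rw [mul_assoc, hm, hm]
  exact ρ.inv _ _ _ h

theorem tr1_orb {N : Subgroup Φ} [N.Normal] [MulAction N Y] {m : Φ → Y}
    (hm : ∀ (h : N) g, m (h * g) = h • m g) (ρ : IRel N Y) {g g' : Φ} (e : (g : Φ ⧸ N) = g') :
    ρ.orb (m g) (m g') := by
  obtain ⟨k, rfl⟩ := tr1_coset e
  rw [hm]
  exact ρ.orb_smul _ _

theorem tr1_big {N : Subgroup Φ} [N.Normal] [MulAction N Y] {m : Φ → Y} {ρ : IRel N Y} {g t : Φ}
    (ht : t ∉ N) (h : ρ.r (m g) (m (g * t))) :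
    Big N m ρ (g : Φ ⧸ N) ∧ Big N m ρ ((g : Φ ⧸ N) * t) := by
  have hne : ((g * t : Φ) : Φ ⧸ N) ≠ g := fun e => ht (by simpa using QuotientGroup.eq.1 e.symm)
  exact ⟨⟨g, g * t, rfl, hne, IRel.orb_of_r h⟩, ⟨g * t, g, rfl, hne.symm, (IRel.orb_of_r h).symm⟩⟩

open Classical in
theorem big_merge (N : Subgroup Φ) [N.Normal] [Fintype (Φ ⧸ N)] [MulAction N Y] (m : Φ → Y)
    (hm : ∀ (h : N) g, m (h * g) = h • m g) {ρ ρ' : IRel N Y} (h : ρ.Merge ρ') :
    (Finset.univ.filter (Big N m ρ')).card ≤ (Finset.univ.filter (Big N m ρ)).card + 2 := by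
  obtain ⟨-, z, z', h⟩ := h
  have one : ∀ z : Y, (Finset.univ.filter fun α : Φ ⧸ N =>
      ¬ Big N m ρ α ∧ ∃ g : Φ, (g : Φ ⧸ N) = α ∧ ρ.orb (m g) z).card ≤ 1 := fun z => by
    refine Finset.card_le_one.2 fun α hα β hβ => ?_
    obtain ⟨a1, g, a2, a3⟩ := (Finset.mem_filter.1 hα).2
    obtain ⟨-, g', b2, b3⟩ := (Finset.mem_filter.1 hβ).2
    by_contra hne
    exact a1 ⟨g, g', a2, fun t => hne (t.symm.trans b2), a3.trans b3.symm⟩
  have sub : Finset.univ.filter (Big N m ρ') ⊆ Finset.univ.filter (Big N m ρ) ∪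
      ((Finset.univ.filter fun α : Φ ⧸ N =>
        ¬ Big N m ρ α ∧ ∃ g : Φ, (g : Φ ⧸ N) = α ∧ ρ.orb (m g) z) ∪
      Finset.univ.filter fun α : Φ ⧸ N =>
        ¬ Big N m ρ α ∧ ∃ g : Φ, (g : Φ ⧸ N) = α ∧ ρ.orb (m g) z') := by
    intro α hα
    obtain ⟨g, g', a1, a2, k, a3⟩ := (Finset.mem_filter.1 hα).2
    simp only [Finset.mem_union, Finset.mem_filter, Finset.mem_univ, true_and]
    by_cases hb : Big N m ρ α
    · exact Or.inl hb
    · rcases h _ _ a3 with t | ⟨t | t, -⟩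
      · exact (hb ⟨g, g', a1, a2, k, t⟩).elim
      · exact Or.inr (Or.inl ⟨hb, g, a1, t⟩)
      · exact Or.inr (Or.inr ⟨hb, g, a1, t⟩)
  have c1 := (Finset.card_le_card sub).trans (Finset.card_union_le _ _)
  have c2 := Finset.card_union_le (Finset.univ.filter fun α : Φ ⧸ N =>
        ¬ Big N m ρ α ∧ ∃ g : Φ, (g : Φ ⧸ N) = α ∧ ρ.orb (m g) z)
      (Finset.univ.filter fun α : Φ ⧸ N =>
        ¬ Big N m ρ α ∧ ∃ g : Φ, (g : Φ ⧸ N) = α ∧ ρ.orb (m g) z')
  have := one z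
  have := one z'
  omega

open Classical in
/-- Classes with trivial stabiliser and two cosets have three bad points. -/
theorem bad3 {D : V → V → Prop} {v₀ : V} {a x y : Φ} {N : Subgroup Φ} [N.Normal] [Fintype (Φ ⧸ N)]
    (w : RSet D v₀ a x y N) [MulAction N Y] (m : Φ → Y) (hm : ∀ (h : N) g, m (h * g) = h • m g)
    {ρ : IRel N Y} {I : Finset Y} (hI : ρ.Reps I) :
    3 * (I.filter fun i => ρ.stab i = ⊥ ∧ ∃ g : Φ, Big N m ρ g ∧ ρ.orb i (m g)).card ≤
      (Finset.univ.filter fun α : Φ ⧸ N => Big N m ρ α ∧ ¬ ρ.r (m α.out) (m (α.out * x))).card +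
      (Finset.univ.filter fun α : Φ ⧸ N => Big N m ρ α ∧ ¬ ρ.r (m α.out) (m (α.out * y))).card := by
  obtain ⟨ι, h1, h2, h3⟩ := hI.idx
  set T := I.filter fun i => ρ.stab i = ⊥ ∧ ∃ g : Φ, Big N m ρ g ∧ ρ.orb i (m g) with hT
  have key : ∀ i ∈ T, 3 ≤
      ((Finset.univ.filter fun α : Φ ⧸ N => Big N m ρ α ∧
        ¬ ρ.r (m α.out) (m (α.out * x))).filter fun α => ι (m α.out) = i).card +
      ((Finset.univ.filter fun α : Φ ⧸ N => Big N m ρ α ∧
        ¬ ρ.r (m α.out) (m (α.out * y))).filter fun α => ι (m α.out) = i).card := by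
    intro i hi
    obtain ⟨hi, hb, g, ⟨g₁, g₂, b1, b2, b3⟩, o⟩ := Finset.mem_filter.1 hi
    have inj : Set.InjOn (fun g : Φ => (g : Φ ⧸ N)) {g | ρ.r (m g) i} := by
      intro u hu v hv e
      obtain ⟨k, rfl⟩ := tr1_coset e
      have : k ∈ ρ.stab i := ρ.trans (ρ.symm (ρ.inv k _ _ hv)) (hm k v ▸ hu)
      rw [hb, Subgroup.mem_bot] at this
      simp [this]
    have fin : {g | ρ.r (m g) i}.Finite := Set.Finite.of_finite_image (Set.toFinite _) inj
    have lift : ∀ u : Φ, ρ.orb (m u) i → ∃ v ∈ fin.toFinset, (v : Φ ⧸ N) = u := by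
      rintro u ⟨k, t⟩
      refine ⟨(k⁻¹ : N) * u, fin.mem_toFinset.2 ?_, tr1_coset' _ _⟩
      show ρ.r (m ((k⁻¹ : N) * u)) i
      rw [hm]
      exact ρ.symm (ρ.inv' k (ρ.symm t))
    have o1 : ρ.orb (m g₁) i := (tr1_orb hm ρ b1).trans o.symm
    obtain ⟨v₁, c1, d1⟩ := lift g₁ o1
    obtain ⟨v₂, c2, d2⟩ := lift g₂ (b3.symm.trans o1)
    have hne : (v₁ : Φ ⧸ N) ≠ v₂ := by rw [d1, d2, b1]; exact b2.symm
    have two : 2 ≤ fin.toFinset.card :=
      Finset.one_lt_card.2 ⟨v₁, c1, v₂, c2, fun t => hne (by rw [t])⟩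
    have tr : ∀ t : Φ, (fin.toFinset.filter fun g => g * t ∉ fin.toFinset).card ≤
        ((Finset.univ.filter fun α : Φ ⧸ N => Big N m ρ α ∧
          ¬ ρ.r (m α.out) (m (α.out * t))).filter fun α => ι (m α.out) = i).card := by
      intro t
      refine Finset.card_le_card_of_injOn (fun g : Φ => (g : Φ ⧸ N)) (fun u hu => ?_)
        (inj.mono fun u hu => fin.mem_toFinset.1 (Finset.mem_filter.1 hu).1)
      obtain ⟨u1, u2⟩ := Finset.mem_filter.1 hu
      have u3 : ρ.r (m u) i := fin.mem_toFinset.1 u1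
      simp only [Finset.coe_filter, Finset.mem_filter, Finset.mem_univ, true_and,
        Set.mem_ofPred_eq]
      refine ⟨⟨?_, fun r => u2 (fin.mem_toFinset.2 ?_)⟩, ?_⟩
      · by_cases e : (v₁ : Φ ⧸ N) = u
        · exact ⟨u, v₂, rfl, fun t => hne (e.trans t.symm),
            IRel.orb_of_r (ρ.trans u3 (ρ.symm (fin.mem_toFinset.1 c2)))⟩
        · exact ⟨u, v₁, rfl, e, IRel.orb_of_r (ρ.trans u3 (ρ.symm (fin.mem_toFinset.1 c1)))⟩
      · exact ρ.trans (ρ.symm (tr1_good hm (QuotientGroup.out_eq' _).symm t r)) u3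
      · rw [← h2 i hi]
        exact (h3 _ _).1 ((tr1_orb hm ρ (QuotientGroup.out_eq' _)).trans (IRel.orb_of_r u3))
    have := seg3 w.xinf w.yinf w.xy fin.toFinset two
    have := tr x
    have := tr y
    omega
  have s1 := Finset.sum_le_sum key
  have fib : ∀ S : Finset (Φ ⧸ N), ∑ i ∈ T, (S.filter fun α => ι (m α.out) = i).card ≤ S.card := by
    intro S
    have := Finset.sum_card_fiberwise_eq_card_filter S T fun α => ι (m α.out)
    exact le_trans (le_of_eq (by convert this)) (Finset.card_filter_le _ _)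
  rw [Finset.sum_add_distrib, Finset.sum_const, smul_eq_mul, mul_comm] at s1
  exact s1.trans (Nat.add_le_add (fib _) (fib _))

open Classical in
/-- Many pairs of marked arrows are folded together. -/
theorem folded {D : V → V → Prop} {v₀ : V} {a x y : Φ} {N : Subgroup Φ} [N.Normal]
    [Fintype (Φ ⧸ N)] (w : RSet D v₀ a x y N) [MulAction N Y] (m : Φ → Y)
    (hm : ∀ (h : N) g, m (h * g) = h • m g) {φ : Y → V} {Ar : Y → Y → Prop} (hA : Amb N D φ Ar)
    (hφ : ∀ g, φ (m g) = g • v₀) (ha : ∀ g, Ar (m g) (m (g * a)))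
    (hb : ∀ g, Ar (m g) (m (g * (x * a * y)))) {ρ : IRel N Y} {I : Finset Y} {n : Y → ℕ}
    {E : Finset (Y × Y)} {c : ℤ} (s : St φ Ar W01 ρ I n E c) (hc : ∀ p, ρ.Conn Ar (m 1) p) :
    2 * (Fintype.card (Φ ⧸ N) : ℤ) ≤ c +
      (I.filter fun i => ρ.stab i = ⊥ ∧ ∃ g : Φ, ρ.orb i (m g)).card +
      (Finset.univ.filter fun α : Φ ⧸ N => ρ.r (m α.out) (m (α.out * x)) ∧
        ρ.r (m (α.out * (x * a))) (m (α.out * (x * a) * y))).card := by
  have same : ∀ (e : Y × Y) (h h' : N) (g g₂ g' g₂' u u' : Φ), ρ.r (m g) (h • e.1) →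
      ρ.r (m g₂) (h • e.2) → ρ.r (m g') (h' • e.1) → ρ.r (m g₂') (h' • e.2) →
      u • v₀ = g • v₀ → (u * a) • v₀ = g₂ • v₀ → u' • v₀ = g' • v₀ → (u' * a) • v₀ = g₂' • v₀ →
      ∃ k : N, u = k * u' ∧ ρ.r (m g) (m (k * g')) ∧ ρ.r (m g₂) (m (k * g₂')) := by
    intro e h h' g g₂ g' g₂' u u' a1 a2 a3 a4 b1 b2 b3 b4
    have r : ∀ {p : Y} {g g' : Φ}, ρ.r (m g) (h • p) → ρ.r (m g') (h' • p) →
        ρ.r (m g) (m ((h * h'⁻¹ : N) * g')) := by
      intro p g g' a a'
      have := ρ.inv (h * h'⁻¹) _ _ a'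
      rw [smul_smul, inv_mul_cancel_right, ← hm] at this
      exact ρ.trans a (ρ.symm this)
    refine ⟨h * h'⁻¹, ?_, r a1 a3, r a2 a4⟩
    have c1 := s.im _ _ (r a1 a3)
    have c2 := s.im _ _ (r a2 a4)
    rw [hφ, hφ, mul_smul, ← b3, ← b1] at c1
    rw [hφ, hφ, mul_smul, ← b4, ← b2] at c2
    have := w.free (((h * h'⁻¹ : N) : Φ) * u' * u⁻¹) (u • v₀) ((u * a) • v₀)
      (by rw [mul_smul]; exact w.inv u _ _ w.edge)
      (by rw [mul_smul, inv_smul_smul, mul_smul, ← c1])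
      (by rw [smul_smul, mul_assoc _ u⁻¹, inv_mul_cancel_left, mul_assoc, mul_smul, ← c2])
    exact (mul_inv_eq_one.1 this).symm
  have ex : ∀ g : Φ, (g * x) • v₀ = g • v₀ := fun g => by rw [mul_smul, w.x0]
  have eb' : ∀ g : Φ, (g * x * a) • v₀ = (g * (x * a * y)) • v₀ := fun g => by
    simp only [mul_smul, w.y0]
  choose ea a1 ka a2 a3 using fun α : Φ ⧸ N => s.Ecov _ _ (ha α.out)
  choose eb b1 kb b2 b3 using fun α : Φ ⧸ N => s.Ecov _ _ (hb α.out)
  have ia : Function.Injective ea := fun α β e => by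
    obtain ⟨k, t, -⟩ := same (ea α) _ _ _ _ _ _ α.out β.out (a2 α) (a3 α) (e ▸ a2 β) (e ▸ a3 β)
      rfl rfl rfl rfl
    rw [← QuotientGroup.out_eq' α, t, tr1_coset', QuotientGroup.out_eq']
  have ib : Function.Injective eb := fun α β e => by
    obtain ⟨k, t, -⟩ := same (eb α) _ _ _ _ _ _ (α.out * x) (β.out * x) (b2 α) (b3 α) (e ▸ b2 β)
      (e ▸ b3 β) (ex _) (eb' _) (ex _) (eb' _)
    rw [← mul_assoc, mul_left_inj] at t
    rw [← QuotientGroup.out_eq' α, t, tr1_coset', QuotientGroup.out_eq']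
  set M : Set Y := {p | ∃ g, ρ.orb p (m g)} with hM
  have cnt := s.reps.count (Ar := Ar) E s.Ecov M (fun p q e ⟨g, t⟩ => ⟨g, e.symm.trans t⟩)
    fun p => ⟨m 1, ⟨1, ρ.orb_refl _⟩, hc p⟩
  have sub : Finset.univ.image ea ∪ (Finset.univ.filter fun α => eb α ∉ Finset.univ.image ea).image eb
      ⊆ E.filter fun e => e.1 ∈ M ∧ e.2 ∈ M := by
    intro e he
    rcases Finset.mem_union.1 he with he | he <;> obtain ⟨α, -, rfl⟩ := Finset.mem_image.1 he
    · exact Finset.mem_filter.2 ⟨a1 α, ⟨_, IRel.orb.symm ⟨_, a2 α⟩⟩, _, IRel.orb.symm ⟨_, a3 α⟩⟩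
    · exact Finset.mem_filter.2 ⟨b1 α, ⟨_, IRel.orb.symm ⟨_, b2 α⟩⟩, _, IRel.orb.symm ⟨_, b3 α⟩⟩
  have c1 := Finset.card_le_card sub
  rw [Finset.card_union_of_disjoint (Finset.disjoint_left.2 fun e he he' => by
      obtain ⟨α, hα, rfl⟩ := Finset.mem_image.1 he'
      exact (Finset.mem_filter.1 hα).2 he), Finset.card_image_of_injective _ ia,
    Finset.card_image_of_injective _ ib, Finset.card_univ] at c1
  have c2 := Finset.card_filter_add_card_filter_not (s := (Finset.univ : Finset (Φ ⧸ N)))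
    fun α => eb α ∈ Finset.univ.image ea
  rw [Finset.card_univ] at c2
  have c3 : (Finset.univ.filter fun α => eb α ∈ Finset.univ.image ea).card ≤
      (Finset.univ.filter fun α : Φ ⧸ N => ρ.r (m α.out) (m (α.out * x)) ∧
        ρ.r (m (α.out * (x * a))) (m (α.out * (x * a) * y))).card := by
    refine Finset.card_le_card fun α hα => ?_
    obtain ⟨β, -, e⟩ := Finset.mem_image.1 (Finset.mem_filter.1 hα).2
    obtain ⟨k, t, u, v⟩ := same (eb α) _ _ _ _ _ _ (α.out * x) β.out (b2 α) (b3 α) (e ▸ a2 β)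
      (e ▸ a3 β) (ex _) (eb' _) rfl rfl
    rw [← mul_assoc (k : Φ), ← t] at v
    rw [← t] at u
    refine Finset.mem_filter.2 ⟨Finset.mem_univ _, u, ?_⟩
    simpa only [mul_assoc] using ρ.symm v
  have c4 := Finset.card_filter_add_card_filter_not (s := E) fun e => e.1 ∈ M ∧ e.2 ∈ M
  have c5 := Finset.card_filter_add_card_filter_not (s := I) fun i => i ∈ M
  have c6 := Finset.card_filter_add_card_filter_not (s := I.filter fun i => i ∈ M)
    fun i => ρ.stab i = ⊥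
  have c7 : ((I.filter fun i => i ∈ M).filter fun i => ρ.stab i = ⊥) =
      I.filter fun i => ρ.stab i = ⊥ ∧ ∃ g : Φ, ρ.orb i (m g) := by
    rw [Finset.filter_filter]
    exact Finset.filter_congr fun i _ => and_comm
  have c8 : ((I.filter fun i => i ∈ M).filter fun i => ¬ ρ.stab i = ⊥).card ≤ ∑ i ∈ I, n i := by
    rw [Finset.card_eq_sum_ones]
    refine (Finset.sum_le_sum fun i hi => ?_).trans (Finset.sum_le_sum_of_subset
      ((Finset.filter_subset _ _).trans (Finset.filter_subset _ _)))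
    exact (s.wt i (Finset.mem_filter.1 (Finset.mem_filter.1 hi).1).1).resolve_left
      (Finset.mem_filter.1 hi).2
  have c9 := s.cost
  rw [c7] at c6
  rw [← Nat.cast_sum] at c9
  omega

open Classical in
/-- In every state of complexity `n + k` the set of big cosets is almost invariant. -/
theorem big_inv {D : V → V → Prop} {v₀ : V} {a x y : Φ} {N : Subgroup Φ} [N.Normal]
    [Fintype (Φ ⧸ N)] (w : RSet D v₀ a x y N) [MulAction N Y] (m : Φ → Y)
    (hm : ∀ (h : N) g, m (h * g) = h • m g) {φ : Y → V} {Ar : Y → Y → Prop} (hA : Amb N D φ Ar)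
    (hφ : ∀ g, φ (m g) = g • v₀) (ha : ∀ g, Ar (m g) (m (g * a)))
    (hb : ∀ g, Ar (m g) (m (g * (x * a * y)))) {ρ : IRel N Y} {I : Finset Y} {n : Y → ℕ}
    {E : Finset (Y × Y)} {k : ℕ} (s : St φ Ar W01 ρ I n E (Fintype.card (Φ ⧸ N) + k))
    (hc : ∀ p, ρ.Conn Ar (m 1) p) (t : Φ) (ht : t = x ∨ t = y) :
    (Finset.univ.filter fun α : Φ ⧸ N => Big N m ρ α ∧ ¬ Big N m ρ (α * t)).card ≤ 3 * k := by
  obtain ⟨ι, h1, h2, h3⟩ := s.reps.idx
  have c1 := folded w m hm hA hφ ha hb s hc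
  have c2 := bad3 w m hm s.reps
  have c3 : (I.filter fun i => ρ.stab i = ⊥ ∧ ∃ g : Φ, ρ.orb i (m g)).card ≤
      (Finset.univ.filter fun α : Φ ⧸ N => ¬ Big N m ρ α).card +
      (I.filter fun i => ρ.stab i = ⊥ ∧ ∃ g : Φ, Big N m ρ g ∧ ρ.orb i (m g)).card := by
    refine le_trans (Finset.card_le_card (t := (Finset.univ.filter fun α : Φ ⧸ N =>
      ¬ Big N m ρ α).image (fun α => ι (m α.out)) ∪ _) fun i hi => ?_)
      ((Finset.card_union_le _ _).trans (Nat.add_le_add_right Finset.card_image_le _))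
    obtain ⟨hi, hb, g, o⟩ := Finset.mem_filter.1 hi
    by_cases hg : Big N m ρ g
    · exact Finset.mem_union_right _ (Finset.mem_filter.2 ⟨hi, hb, g, hg, o⟩)
    · refine Finset.mem_union_left _ (Finset.mem_image.2 ⟨g, Finset.mem_filter.2 ⟨by simp, hg⟩, ?_⟩)
      rw [← h2 i hi]
      exact (h3 _ _).1 ((tr1_orb hm ρ (QuotientGroup.out_eq' _)).trans o.symm)
  have c4 := Finset.card_filter_add_card_filter_not (s := (Finset.univ : Finset (Φ ⧸ N)))
    (Big N m ρ)
  rw [Finset.card_univ] at c4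
  have c5 : ∀ (t u : Φ) (F : Finset (Φ ⧸ N)), t ∉ N →
      (∀ α ∈ F, ρ.r (m (α.out * u)) (m (α.out * u * t))) → F.card +
      (Finset.univ.filter fun α : Φ ⧸ N => Big N m ρ α ∧ ¬ ρ.r (m α.out) (m (α.out * t))).card ≤
      (Finset.univ.filter (Big N m ρ)).card := by
    intro t u F ht hF
    rw [← Finset.card_image_of_injective F (mul_left_injective (u : Φ ⧸ N)),
      ← Finset.card_union_of_disjoint]
    · refine Finset.card_le_card fun β hβ => ?_
      rcases Finset.mem_union.1 hβ with hβ | hβ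
      · obtain ⟨α, hα, rfl⟩ := Finset.mem_image.1 hβ
        have := (tr1_big ht (hF α hα)).1
        rw [QuotientGroup.mk_mul, QuotientGroup.out_eq'] at this
        exact Finset.mem_filter.2 ⟨Finset.mem_univ _, this⟩
      · exact Finset.mem_filter.2 ⟨Finset.mem_univ _, (Finset.mem_filter.1 hβ).2.1⟩
    · refine Finset.disjoint_left.2 fun β hβ hβ' => ?_
      obtain ⟨α, hα, rfl⟩ := Finset.mem_image.1 hβ
      refine (Finset.mem_filter.1 hβ').2.2 (tr1_good hm ?_ t (hF α hα))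
      rw [QuotientGroup.out_eq', QuotientGroup.mk_mul, QuotientGroup.out_eq']
  have c6 := c5 x 1 (Finset.univ.filter fun α : Φ ⧸ N => ρ.r (m α.out) (m (α.out * x)) ∧
    ρ.r (m (α.out * (x * a))) (m (α.out * (x * a) * y))) w.xN fun α hα => by
      simpa using (Finset.mem_filter.1 hα).2.1
  have c7 := c5 y (x * a) (Finset.univ.filter fun α : Φ ⧸ N => ρ.r (m α.out) (m (α.out * x)) ∧
    ρ.r (m (α.out * (x * a))) (m (α.out * (x * a) * y))) w.yN fun α hα =>
      (Finset.mem_filter.1 hα).2.2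
  have c8 : ∀ t : Φ, t ∉ N →
      (Finset.univ.filter fun α : Φ ⧸ N => Big N m ρ α ∧ ¬ Big N m ρ (α * t)).card ≤
      (Finset.univ.filter fun α : Φ ⧸ N =>
        Big N m ρ α ∧ ¬ ρ.r (m α.out) (m (α.out * t))).card := fun t ht => by
    refine Finset.card_le_card fun α hα => Finset.mem_filter.2 ⟨Finset.mem_univ _,
      (Finset.mem_filter.1 hα).2.1, fun r => (Finset.mem_filter.1 hα).2.2 ?_⟩
    simpa only [QuotientGroup.out_eq'] using (tr1_big ht r).2
  rcases ht with rfl | rfl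
  · have := c8 _ w.xN
    omega
  · have := c8 _ w.yN
    omega

end Pool.Agent.RG
end

-- part Pool.Agent.Lib.MP_34a149_al.RG.TR2
section

/-!
The relative rank bound.
-/

namespace Pool.Agent.RG

open Relation MulAction

variable {Φ V : Type} [Group Φ] [MulAction Φ V]

/-- The initial state. -/
theorem rinit {D : V → V → Prop} {v₀ : V} {a x y : Φ} {N : Subgroup Φ} [N.Normal]
    [Fintype (Φ ⧸ N)] (w : RSet D v₀ a x y N) (X F K : Finset Φ) (hX : ∀ g ∈ X, g ∈ N)
    (hgen : N ≤ Subgroup.closure ((X : Set Φ) ∪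
      {g | g ∈ N ∧ ∃ f ∈ F, f⁻¹ * g * f ∈ Subgroup.closure {a, x * a * y}}))
    (hK : ∀ g : Φ, ∃ h ∈ N, ∃ f ∈ K, ∃ c ∈ Subgroup.closure {a, x * a * y}, g = h * f * c) :
    ∃ (Y : Type) (_ : MulAction N Y) (m : Φ → Y) (φ : Y → V) (Ar : Y → Y → Prop) (I : Finset Y)
      (E : Finset (Y × Y)), (∀ (h : N) g, m (h * g) = h • m g) ∧ Function.Injective m ∧
      Amb N D φ Ar ∧ (∀ g, φ (m g) = g • v₀) ∧ (∀ g, Ar (m g) (m (g * a))) ∧
      (∀ g, Ar (m g) (m (g * (x * a * y)))) ∧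
      St φ Ar W01 (IRel.eq N Y) I (fun _ => 0) E
        (Fintype.card (Φ ⧸ N) + (X.card + F.card + K.card : ℕ)) ∧
      ∀ p, (IRel.eq N Y).Conn Ar (m 1) p := by
  classical
  obtain ⟨J, _, pos, A, hA1, hA2, hA3, hA4⟩ := paths (H := N) (Y := Φ) w.tree (fun g => g • v₀)
    (fun h g => mul_smul (h : Φ) g v₀) (K := X ⊕ F ⊕ K) (fun _ => 1)
    (Sum.elim Subtype.val (Sum.elim Subtype.val Subtype.val))
  let φ : Φ ⊕ Fr N J → V := Sum.elim (fun g => g • v₀) fun p : Fr N J => p.g • pos p.j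
  let Ar : Φ ⊕ Fr N J → Φ ⊕ Fr N J → Prop := fun p q =>
    (∃ g, p = Sum.inl g ∧ (q = Sum.inl (g * a) ∨ q = Sum.inl (g * (x * a * y)))) ∨ Tl N A p q
  have hm : ∀ (h : N) (g : Φ), (Sum.inl (h * g) : Φ ⊕ Fr N J) = h • Sum.inl g := fun h g => rfl
  have heq : ∀ (h : N) p, φ (h • p) = h • φ p := by
    rintro h (g | p)
    · exact mul_smul (h : Φ) g v₀
    · exact mul_smul h p.g (pos p.j)
  have hinv : ∀ (h : N) p q, Ar p q → Ar (h • p) (h • q) := by
    rintro h p q (⟨g, rfl, rfl | rfl⟩ | ⟨e, he, k, rfl, rfl⟩)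
    · exact Or.inl ⟨h * g, rfl, Or.inl (congrArg Sum.inl (mul_assoc _ _ _).symm)⟩
    · exact Or.inl ⟨h * g, rfl, Or.inr (congrArg Sum.inl (mul_assoc _ _ _).symm)⟩
    · exact Or.inr ⟨e, he, h * k, smul_smul _ _ _, smul_smul _ _ _⟩
  have hedge : ∀ p q, Ar p q → D (φ p) (φ q) := by
    rintro p q (⟨g, rfl, rfl | rfl⟩ | ⟨e, he, k, rfl, rfl⟩)
    · show D (g • v₀) ((g * a) • v₀)
      rw [mul_smul]
      exact w.inv _ _ _ w.edge
    · show D (g • v₀) ((g * (x * a * y)) • v₀)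
      have := w.inv (g * x) _ _ w.edge
      simpa only [mul_smul, w.x0, w.y0] using this
    · rw [heq, heq]
      exact w.inv (k : Φ) _ _ (hA2 e he)
  let I : Finset (Φ ⊕ Fr N J) := Finset.univ.image
    (Sum.map (fun α : Φ ⧸ N => α.out) fun j : J => (⟨1, j⟩ : Fr N J))
  have inj : Function.Injective
      (Sum.map (fun α : Φ ⧸ N => α.out) fun j : J => (⟨1, j⟩ : Fr N J)) :=
    Function.Injective.sumMap Quotient.out_injective fun j j' e => congrArg Fr.j e
  let E : Finset ((Φ ⊕ Fr N J) × (Φ ⊕ Fr N J)) :=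
    (Finset.univ.image fun α : Φ ⧸ N => (Sum.inl α.out, Sum.inl (α.out * a))) ∪
    (Finset.univ.image fun α : Φ ⧸ N => (Sum.inl α.out, Sum.inl (α.out * (x * a * y)))) ∪ A
  have tl : ∀ p q, EqvGen (Tl N A) p q → (IRel.eq N _).Conn Ar p q := by
    intro p q e
    induction e with
    | rel p q e => exact .rel _ _ (Or.inr (Or.inr e))
    | refl p => exact .refl _
    | symm p q _ ih => exact .symm _ _ ih
    | trans p q s _ _ ih ih' => exact .trans _ _ _ ih ih'
  have cC : ∀ c ∈ Subgroup.closure {a, x * a * y}, ∀ g : Φ,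
      (IRel.eq N _).Conn Ar (Sum.inl g) (Sum.inl (g * c)) := by
    intro c hc
    induction hc using Subgroup.closure_induction with
    | mem c hc =>
      intro g
      rcases hc with rfl | rfl
      · exact .rel _ _ (Or.inr (Or.inl ⟨g, rfl, Or.inl rfl⟩))
      · exact .rel _ _ (Or.inr (Or.inl ⟨g, rfl, Or.inr rfl⟩))
    | one => intro g; rw [mul_one]; exact .refl _
    | mul c d _ _ ih ih' => intro g; rw [← mul_assoc]; exact .trans _ _ _ (ih g) (ih' _)
    | inv c _ ih =>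
      intro g
      have := ih (g * c⁻¹)
      rw [inv_mul_cancel_right] at this
      exact .symm _ _ this
  have cN : ∀ g ∈ N, (IRel.eq N _).Conn Ar (Sum.inl 1) (Sum.inl g) := by
    intro g hg
    have key : ∀ g ∈ Subgroup.closure ((X : Set Φ) ∪
        {g | g ∈ N ∧ ∃ f ∈ F, f⁻¹ * g * f ∈ Subgroup.closure {a, x * a * y}}),
        g ∈ N ∧ (IRel.eq N _).Conn Ar (Sum.inl 1) (Sum.inl g) := by
      intro g hg
      induction hg using Subgroup.closure_induction with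
      | mem g hg =>
        rcases hg with hg | ⟨hg, f, hf, hc⟩
        · exact ⟨hX g hg, tl _ _ (hA3 (Sum.inl ⟨g, hg⟩))⟩
        · have c1 := tl _ _ (hA3 (Sum.inr (Sum.inl ⟨f, hf⟩)))
          have c2 := cC _ hc f
          have c3 := IRel.Conn.smul hinv (⟨g, hg⟩ : N) c1
          rw [← hm, ← hm, mul_one] at c3
          rw [← mul_assoc, ← mul_assoc, mul_inv_cancel, one_mul] at c2
          exact ⟨hg, .trans _ _ _ c1 (.trans _ _ _ c2 (.symm _ _ c3))⟩
      | one => exact ⟨N.one_mem, .refl _⟩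
      | mul g g' _ _ ih ih' =>
        have c3 := IRel.Conn.smul hinv (⟨g, ih.1⟩ : N) ih'.2
        rw [← hm, ← hm, mul_one] at c3
        exact ⟨N.mul_mem ih.1 ih'.1, .trans _ _ _ ih.2 c3⟩
      | inv g _ ih =>
        have c3 := IRel.Conn.smul hinv (⟨g⁻¹, N.inv_mem ih.1⟩ : N) ih.2
        rw [← hm, ← hm, mul_one, inv_mul_cancel] at c3
        exact ⟨N.inv_mem ih.1, .symm _ _ c3⟩
    exact (key g (hgen hg)).2
  have cP : ∀ g : Φ, (IRel.eq N _).Conn Ar (Sum.inl 1) (Sum.inl g) := by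
    intro g
    obtain ⟨h, hh, f, hf, c, hc, rfl⟩ := hK g
    have c3 := IRel.Conn.smul hinv (⟨h, hh⟩ : N) (tl _ _ (hA3 (Sum.inr (Sum.inr ⟨f, hf⟩))))
    rw [← hm, ← hm, mul_one] at c3
    exact .trans _ _ _ (cN h hh) (.trans _ _ _ c3 (cC c hc _))
  refine ⟨Φ ⊕ Fr N J, inferInstance, Sum.inl, φ, Ar, I, E, hm, Sum.inl_injective,
    ⟨heq, hinv, hedge⟩, fun g => rfl, fun g => Or.inl ⟨g, rfl, Or.inl rfl⟩,
    fun g => Or.inl ⟨g, rfl, Or.inr rfl⟩, ⟨fun p q e => congrArg φ e, ⟨?_, ?_⟩, ?_, ?_, ?_, ?_, ?_⟩,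
    ?_⟩
  · rintro (g | ⟨h, j⟩)
    · obtain ⟨k, hk⟩ := tr1_coset (QuotientGroup.out_eq' (g : Φ ⧸ N)).symm
      exact ⟨_, Finset.mem_image.2 ⟨Sum.inl (g : Φ ⧸ N), Finset.mem_univ _, rfl⟩, k,
        congrArg Sum.inl hk⟩
    · exact ⟨_, Finset.mem_image.2 ⟨Sum.inr j, Finset.mem_univ _, rfl⟩, h,
        congrArg (fun t => Sum.inr (Fr.mk t j)) (mul_one h).symm⟩
  · intro i hi j hj ⟨h, e⟩
    obtain ⟨i, -, rfl⟩ := Finset.mem_image.1 hi
    obtain ⟨j, -, rfl⟩ := Finset.mem_image.1 hj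
    rcases i with α | i <;> rcases j with β | j
    · have t : α.out = h * β.out := Sum.inl_injective e
      have : α = β := by
        rw [← QuotientGroup.out_eq' α, t, tr1_coset', QuotientGroup.out_eq']
      rw [this]
    · exact (Sum.inl_ne_inr e).elim
    · exact (Sum.inr_ne_inl e).elim
    · have : i = j := congrArg Fr.j (Sum.inr_injective e)
      rw [this]
  · intro i _
    refine Or.inl ((Subgroup.eq_bot_iff_forall _).2 fun h hh => ?_)
    rcases i with g | ⟨g, j⟩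
    · have t : (h : Φ) * g = g := Sum.inl_injective hh
      exact Subtype.ext (mul_eq_right.1 t)
    · have t : h * g = g := congrArg Fr.g (Sum.inr_injective hh)
      exact mul_eq_right.1 t
  · intro e he
    rcases Finset.mem_union.1 he with he | he
    · rcases Finset.mem_union.1 he with he | he <;> obtain ⟨α, -, rfl⟩ := Finset.mem_image.1 he
      · exact Or.inl ⟨_, rfl, Or.inl rfl⟩
      · exact Or.inl ⟨_, rfl, Or.inr rfl⟩
    · exact Or.inr ⟨e, he, 1, (one_smul _ _).symm, (one_smul _ _).symm⟩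
  · rintro p q (⟨g, rfl, hq⟩ | ⟨e, he, k, rfl, rfl⟩)
    · obtain ⟨k, hk⟩ := tr1_coset (QuotientGroup.out_eq' (g : Φ ⧸ N)).symm
      rcases hq with rfl | rfl
      · refine ⟨_, Finset.mem_union_left _ (Finset.mem_union_left _
          (Finset.mem_image.2 ⟨(g : Φ ⧸ N), Finset.mem_univ _, rfl⟩)), k, congrArg Sum.inl hk, ?_⟩
        exact congrArg Sum.inl ((congrArg (· * _) hk).trans (mul_assoc _ _ _))
      · refine ⟨_, Finset.mem_union_left _ (Finset.mem_union_right _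
          (Finset.mem_image.2 ⟨(g : Φ ⧸ N), Finset.mem_univ _, rfl⟩)), k, congrArg Sum.inl hk, ?_⟩
        exact congrArg Sum.inl ((congrArg (· * _) hk).trans (mul_assoc _ _ _))
    · exact ⟨e, Finset.mem_union_right _ he, k, rfl, rfl⟩
  · intro p q t k u v
    have : k = 1 := Subtype.ext (w.free k _ _ (hedge p q t) u v)
    rw [this, one_smul, one_smul]
    exact ⟨rfl, rfl⟩
  · have c1 : I.card = Fintype.card (Φ ⧸ N) + Fintype.card J := by
      rw [Finset.card_image_of_injective _ inj, Finset.card_univ, Fintype.card_sum]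
    have c2 : E.card ≤ Fintype.card (Φ ⧸ N) + Fintype.card (Φ ⧸ N) + A.card :=
      (Finset.card_union_le _ _).trans (Nat.add_le_add_right ((Finset.card_union_le _ _).trans
        (Nat.add_le_add Finset.card_image_le Finset.card_image_le)) _)
    simp only [Fintype.card_sum, Fintype.card_coe] at hA1
    simp only [Nat.cast_zero, Finset.sum_const_zero]
    omega
  · rintro (g | ⟨h, j⟩)
    · exact cP g
    · obtain ⟨g, e⟩ := hA4 j
      have c3 := IRel.Conn.smul hinv h (tl _ _ e)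
      have : (h • Sum.inr ⟨1, j⟩ : Φ ⊕ Fr N J) = Sum.inr ⟨h, j⟩ :=
        congrArg (fun t => Sum.inr (Fr.mk t j)) (mul_one h)
      rw [← hm, this] at c3
      exact .trans _ _ _ (cP _) c3

open Classical in
/-- If `N` is generated by few elements and few conjugates of `⟨a, x a y⟩ ⊓ N`, then some set of
about half of the cosets is almost invariant under `x` and `y`. -/
theorem rstep {D : V → V → Prop} {v₀ : V} {a x y : Φ} {N : Subgroup Φ} [N.Normal] [N.FiniteIndex]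
    (w : RSet D v₀ a x y N) (h4 : 4 ≤ N.index) (X F K : Finset Φ) (hX : ∀ g ∈ X, g ∈ N)
    (hgen : N ≤ Subgroup.closure ((X : Set Φ) ∪
      {g | g ∈ N ∧ ∃ f ∈ F, f⁻¹ * g * f ∈ Subgroup.closure {a, x * a * y}}))
    (hK : ∀ g : Φ, ∃ h ∈ N, ∃ f ∈ K, ∃ c ∈ Subgroup.closure {a, x * a * y}, g = h * f * c) :
    ∃ U : Finset (Φ ⧸ N), N.index < 2 * U.card + 4 ∧ 2 * U.card ≤ N.index ∧
      (U.filter fun α => α * (x : Φ ⧸ N) ∉ U).card ≤ 3 * (X.card + F.card + K.card) ∧
      (U.filter fun α => α * (y : Φ ⧸ N) ∉ U).card ≤ 3 * (X.card + F.card + K.card) := by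
  have : Fintype (Φ ⧸ N) := Fintype.ofFinite _
  have hn : N.index = Fintype.card (Φ ⧸ N) := by rw [Subgroup.index, Nat.card_eq_fintype_card]
  obtain ⟨Y, _, m, φ, Ar, I, E, hm, inj, hA, hφ, ha, hb, s, hc⟩ := rinit w X F K hX hgen hK
  by_contra hcon
  obtain ⟨ρ, I', n', E', s', hd, h1, h2⟩ := s.fold_all hA isW01
    (fun ρ => (∀ p, ρ.Conn Ar (m 1) p) ∧
      2 * (Finset.univ.filter (Big N m ρ)).card + 4 ≤ N.index) ⟨hc, by
        rw [Finset.filter_false_of_mem]
        · simpa using h4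
        · rintro α - ⟨g, g', a1, a2, h, e⟩
          have : g = h * g' := inj (e.trans (hm h g').symm)
          exact a2 (by rw [← a1, this, tr1_coset'])⟩ (by
      rintro ρ₁ ρ₂ I₂ n₂ E₂ ⟨c1, c2⟩ mg s₂
      have c3 : ∀ p, ρ₂.Conn Ar (m 1) p := fun p => (c1 p).mono mg.1
      have c4 := big_merge N m hm mg
      refine ⟨c3, not_lt.1 fun c5 => hcon ⟨_, c5, by omega, ?_, ?_⟩⟩
      · simpa [Finset.filter_filter] using big_inv w m hm hA hφ ha hb s₂ c3 x (Or.inl rfl)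
      · simpa [Finset.filter_filter] using big_inv w m hm hA hφ ha hb s₂ c3 y (Or.inr rfl))
  rw [Finset.filter_true_of_mem, Finset.card_univ] at h2
  · omega
  · intro α _
    rw [← QuotientGroup.out_eq' α]
    refine (tr1_big w.xN (s'.il w.tree hA hd (.trans _ _ _ (.symm _ _ (h1 _)) (h1 _)) ?_)).1
    rw [hφ, hφ, mul_smul, w.x0]

end Pool.Agent.RG
end

-- part Pool.Agent.Lib.MP_34a149_al.RG.Up2
section

/-! The second chain: intersect any chain with the preimages of `2 ^ i ℤ`. -/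

namespace Pool.Agent.Lib.MP_34a149_al.RG

open Filter Topology HNNExtension

/-- the elements whose exponent sum in `a` is divisible by `2 ^ i` -/
def lev (x y : SL3 ℤ) (i : ℕ) : Subgroup (GG x y) :=
  ((AddMonoidHom.toMultiplicative (Int.castAddHom (ZMod (2 ^ i)))).comp (psi x y)).ker

instance (x y : SL3 ℤ) (i : ℕ) : (lev x y i).Normal := MonoidHom.normal_ker _

theorem mem_lev {x y : SL3 ℤ} {i : ℕ} {g : GG x y} :
    g ∈ lev x y i ↔ (2 ^ i : ℤ) ∣ (psi x y g).toAdd := by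
  rw [lev, MonoidHom.mem_ker, MonoidHom.comp_apply]
  have := ZMod.intCast_zmod_eq_zero_iff_dvd (psi x y g).toAdd (2 ^ i)
  rw [Nat.cast_pow, Nat.cast_ofNat] at this
  rw [← this]
  rfl

theorem lev_index (x y : SL3 ℤ) (i : ℕ) : (lev x y i).index = 2 ^ i := by
  rw [lev, Subgroup.index_ker, MonoidHom.range_eq_top.2, Subgroup.card_top, Nat.card_congr
    Multiplicative.toAdd, Nat.card_zmod]
  intro z
  obtain ⟨k, hk⟩ := ZMod.intCast_surjective z.toAdd
  refine ⟨(of t : GG x y) ^ k, ?_⟩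
  rw [MonoidHom.comp_apply, map_zpow, psi_a]
  apply Multiplicative.toAdd.injective
  rw [← hk]
  simp

/-- a chain with rank gradient zero below any given chain -/
theorem chain_two {x y : SL3 ℤ} (hxy : Subgroup.closure {x, y} = ⊤) (hy : ∀ j, 0 < j → y ^ j ≠ 1)
    (K : ℕ → Subgroup (GG x y)) [∀ i, (K i).Normal] [∀ i, (K i).FiniteIndex] (hK : Antitone K)
    (h1 : ⨅ i, K i = ⊥) : ∃ Γ : ℕ → Subgroup (GG x y), (∀ i, (Γ i).Normal) ∧
      (∀ i, (Γ i).FiniteIndex) ∧ Antitone Γ ∧ ⨅ i, Γ i = ⊥ ∧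
        Tendsto (fun i => ((genRank (Γ i) : ℝ) - 1) / (Γ i).index) atTop (𝓝 0) := by
  have hf : ∀ i, (lev x y i).FiniteIndex := fun i => ⟨by rw [lev_index]; positivity⟩
  have ha : Antitone fun i => K i ⊓ lev x y i := fun i j hij =>
    inf_le_inf (hK hij) fun g hg => mem_lev.2 ((pow_dvd_pow _ hij).trans (mem_lev.1 hg))
  have hb : ⨅ i, K i ⊓ lev x y i = ⊥ :=
    eq_bot_iff.2 (h1 ▸ iInf_mono fun i => inf_le_left)
  let φ : SL3 ℤ →* GG x y := (of : Phi (SL3 ℤ) →* GG x y).comp of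
  have hφ : Function.Injective φ := fun u v h => by
    simpa [φ] using congrArg (fun g => Cen.ret _ _ (Cen.ret _ _ g)) h
  refine ⟨fun i => K i ⊓ lev x y i, fun _ => inferInstance, fun _ => inferInstance, ha, hb, ?_⟩
  refine up_chain φ hφ (x := φ x) (y := φ y) (a := of t) (t := t) ?_ ?_ (Cen.comm (a_mem x y))
    ?_ ?_ ?_ _ (lev x y) ha hb (fun _ => inf_le_right) ?_ ?_ ?_
  · rw [← Set.image_pair, ← MonoidHom.map_closure, hxy, MonoidHom.range_eq_map]
  · intro U hU h2 h3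
    refine Cen.gen U (fun g => ?_) h3
    have : U.comap (of : Phi (SL3 ℤ) →* GG x y) = ⊤ :=
      Cen.gen _ (fun l => hU ⟨l, rfl⟩) h2
    exact (this ▸ Subgroup.mem_top g : g ∈ U.comap (of : Phi (SL3 ℤ) →* GG x y))
  · simpa [φ] using Cen.comm (b_mem x y)
  · intro j hj h
    have := congrArg (fun g => (Cen.ex _ _ g).toAdd) h
    simp at this
    omega
  · exact fun j hj h => hy j hj (hφ (by rw [map_pow, h, map_one]))
  · rintro i _ ⟨l, rfl⟩
    simp [mem_lev, φ]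
  · intro i
    simp [mem_lev]
  · simp only [lev_index]
    exact tendsto_pow_atTop_atTop_of_one_lt one_lt_two

end Pool.Agent.Lib.MP_34a149_al.RG
end

-- part Pool.Agent.Lib.MP_34a149_al.RG.BTree
section

/-! Bass-Serre trees of HNN extensions, from Britton's lemma. -/

namespace Pool.Agent.Lib.MP_34a149_al.RG

open HNNExtension Pool.Agent.RG

section Britton

variable {K : Type*} [Group K] {A B : Subgroup K}

/-- `Red φ e r`: `r` is the product of a nonempty reduced word starting with `t ^ e`. -/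
inductive Red (φ : A ≃* B) : ℤˣ → HNNExtension K A B φ → Prop
  | single (e : ℤˣ) (k : K) : Red φ e (t ^ (e : ℤ) * of k)
  | cons (e e' : ℤˣ) (k : K) (r : HNNExtension K A B φ) : Red φ e' r →
      (k ∈ toSubgroup A B e → e = e') → Red φ e (t ^ (e : ℤ) * of k * r)

variable {φ : A ≃* B}

theorem Red.exists_word {e : ℤˣ} {r : HNNExtension K A B φ} (h : Red φ e r) :
    ∃ (k : K) (l : List (ℤˣ × K)),
      List.IsChain (fun a b : ℤˣ × K => a.2 ∈ toSubgroup A B a.1 → a.1 = b.1) ((e, k) :: l) ∧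
      r = (((e, k) :: l).map (fun x => t ^ (x.1 : ℤ) * of x.2)).prod := by
  induction h with
  | single e k => exact ⟨k, [], List.isChain_singleton _, by simp⟩
  | cons e e' k r _ hk ih =>
    obtain ⟨k', l, hc, hr⟩ := ih
    refine ⟨k, (e', k') :: l, List.IsChain.cons_cons hk hc, ?_⟩
    rw [List.map_cons, List.prod_cons, ← hr]

/-- Britton's lemma. -/
theorem Red.not_mem {e : ℤˣ} {r : HNNExtension K A B φ} (h : Red φ e r) :
    r ∉ (of : K →* HNNExtension K A B φ).range := by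
  obtain ⟨k, l, hc, hr⟩ := h.exists_word
  intro hm
  have := HNNExtension.ReducedWord.toList_eq_nil_of_mem_of_range φ
    (⟨1, (e, k) :: l, hc⟩ : NormalWord.ReducedWord K A B)
    (by rw [NormalWord.ReducedWord.prod, map_one, one_mul, ← hr]; exact hm)
  simp at this

theorem Red.mul_of {e : ℤˣ} {r : HNNExtension K A B φ} (h : Red φ e r) (k : K) :
    Red φ e (r * of k) := by
  induction h with
  | single e k' => rw [mul_assoc, ← map_mul]; exact Red.single e _
  | cons e e' k' r _ hk ih => rw [mul_assoc]; exact Red.cons e e' k' _ ih hk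

theorem Red.t_mul {e : ℤˣ} {r : HNNExtension K A B φ} (h : Red φ e r) :
    Red φ e (t ^ (e : ℤ) * r) := by
  have := Red.cons e e 1 r h (fun _ => rfl)
  simpa using this

theorem Red.tpow_mul {e : ℤˣ} {r : HNNExtension K A B φ} (h : Red φ e r) (n : ℕ) :
    Red φ e ((t ^ (e : ℤ)) ^ n * r) := by
  induction n with
  | zero => simpa using h
  | succ n ih => rw [pow_succ', mul_assoc]; exact ih.t_mul

theorem exists_unit_pow {m : ℤ} (hm : m ≠ 0) : ∃ (e : ℤˣ) (n : ℕ), m = (e : ℤ) * (n + 1 : ℕ) := by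
  rcases lt_or_gt_of_ne hm with h | h
  · exact ⟨-1, (-m - 1).toNat, by simp; omega⟩
  · exact ⟨1, (m - 1).toNat, by simp; omega⟩

theorem red_zpow {m : ℤ} (hm : m ≠ 0) (k : K) :
    ∃ e, Red φ e ((t : HNNExtension K A B φ) ^ m * of k) := by
  obtain ⟨e, n, rfl⟩ := exists_unit_pow hm
  refine ⟨e, ?_⟩
  rw [zpow_mul, zpow_natCast, pow_succ, mul_assoc]
  exact (Red.single e k).tpow_mul n

theorem Red.zpow_cons {e' : ℤˣ} {r : HNNExtension K A B φ} (h : Red φ e' r) {m : ℤ} (hm : m ≠ 0)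
    {k : K} (hA : k ∉ A) (hB : k ∉ B) : ∃ e, Red φ e (t ^ m * of k * r) := by
  obtain ⟨e, n, rfl⟩ := exists_unit_pow hm
  refine ⟨e, ?_⟩
  rw [zpow_mul, zpow_natCast, pow_succ, mul_assoc, mul_assoc, ← mul_assoc (t ^ (e : ℤ))]
  refine (Red.cons e e' k r h (fun hk => ?_)).tpow_mul n
  rcases Int.units_eq_one_or e with rfl | rfl
  · exact absurd hk hA
  · exact absurd hk hB

theorem tzpow_mem_range {m : ℤ}
    (h : (t : HNNExtension K A B φ) ^ m ∈ (of : K →* HNNExtension K A B φ).range) : m = 0 := by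
  by_contra hm
  obtain ⟨e, he⟩ := red_zpow (φ := φ) hm 1
  exact he.not_mem (by simpa using h)

theorem tzpow_eq_one {m : ℤ} (h : (t : HNNExtension K A B φ) ^ m = 1) : m = 0 :=
  tzpow_mem_range (φ := φ) (by rw [h]; exact one_mem _)

theorem t_ne_one : (t : HNNExtension K A B φ) ≠ 1 := fun h => by
  have := tzpow_eq_one (φ := φ) (m := 1) (by simpa using h)
  simp at this

theorem conj_mem_range (e : ℤˣ) {k : K} (hk : k ∈ toSubgroup A B e) :
    (t : HNNExtension K A B φ) ^ (e : ℤ) * of k * t ^ (-(e : ℤ)) ∈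
      (of : K →* HNNExtension K A B φ).range := by
  rcases Int.units_eq_one_or e with rfl | rfl
  · refine ⟨φ ⟨k, hk⟩, ?_⟩
    rw [equiv_eq_conj]; simp
  · refine ⟨φ.symm ⟨k, hk⟩, ?_⟩
    rw [equiv_symm_eq_conj]; simp

theorem mem_of_conj_mem_range (e : ℤˣ) {k : K}
    (h : (t : HNNExtension K A B φ) ^ (e : ℤ) * of k * t ^ (-(e : ℤ)) ∈
      (of : K →* HNNExtension K A B φ).range) : k ∈ toSubgroup A B e := by
  by_contra hk
  have h1 : Red φ e (t ^ (e : ℤ) * of k * (t ^ ((-e : ℤˣ) : ℤ) * of 1)) :=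
    Red.cons e (-e) k _ (Red.single (-e) 1) (fun h => absurd h hk)
  exact h1.not_mem (by simpa using h)

end Britton

/-! ### Walks -/

section Walks

variable {V : Type*}

/-- If every step has an end in `Q`, it is enough to find backtracks in closed walks based
in `Q`. -/
theorem backtrack_of_based (E : V → V → Prop) (Q : V → Prop) (hQ : ∀ u v, E u v → Q u ∨ Q v)
    (h : ∀ (n : ℕ) (p : ℕ → V), 0 < n → Q (p 0) → p 0 = p n → (∀ i < n, E (p i) (p (i + 1))) →
      ∃ i, i + 2 ≤ n ∧ p i = p (i + 2))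
    (n : ℕ) (p : ℕ → V) (hn : 0 < n) (hc : p 0 = p n) (hw : ∀ i < n, E (p i) (p (i + 1))) :
    ∃ i, i + 2 ≤ n ∧ p i = p (i + 2) := by
  classical
  by_cases h0 : Q (p 0)
  · exact h n p hn h0 hc hw
  have h1 : Q (p 1) := (hQ _ _ (hw 0 hn)).resolve_left h0
  obtain ⟨i, hi, he⟩ := h n (fun i => if i < n then p (i + 1) else p 1) hn (by simpa [hn] using h1)
    (by simp [hn]) (by
      intro i hi
      by_cases h2 : i + 1 < n
      · simpa [hi, h2] using hw (i + 1) h2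
      · have h3 : i + 1 = n := by omega
        simp only [hi, h2, if_true, if_false]
        rw [h3, ← hc]; exact hw 0 hn)
  by_cases h2 : i + 2 < n
  · have h3 : i < n := by omega
    simp only [h2, h3, if_true] at he
    exact ⟨i + 1, by omega, he⟩
  · have h3 : i < n := by omega
    simp only [h2, h3, if_true, if_false] at he
    have h4 : i + 2 = n := by omega
    rcases Nat.eq_zero_or_pos i with rfl | hi0
    · exact ⟨0, by omega, by rw [hc, ← h4]⟩
    · obtain ⟨j, hj, hj'⟩ := h i (fun j => p (j + 1)) hi0 h1 he.symm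
        (fun j hj => hw (j + 1) (by omega))
      exact ⟨j + 1, by omega, hj'⟩

end Walks

/-! ### The tree of an HNN extension: vertices `G / K`, edges `gK → gtK` -/

section T1

variable {K : Type*} [Group K] {A B : Subgroup K} (φ : A ≃* B)

/-- The vertices of the Bass-Serre tree of an HNN extension. -/
abbrev V1 := HNNExtension K A B φ ⧸ (of : K →* HNNExtension K A B φ).range

/-- The directed edges `gK → gtK`. -/
def D1 (u v : V1 φ) : Prop :=
  ∃ g : HNNExtension K A B φ, u = (g : V1 φ) ∧ v = ((g * t : HNNExtension K A B φ) : V1 φ)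

variable {φ}

theorem V1_eq {g h : HNNExtension K A B φ} :
    (g : V1 φ) = (h : V1 φ) ↔ ∃ k, h = g * of k := by
  rw [QuotientGroup.eq]
  constructor
  · rintro ⟨k, hk⟩
    exact ⟨k, by rw [hk]; simp⟩
  · rintro ⟨k, rfl⟩
    exact ⟨k, by simp⟩

theorem V1_smul (g h : HNNExtension K A B φ) :
    g • (h : V1 φ) = ((g * h : HNNExtension K A B φ) : V1 φ) := rfl

theorem D1_iff {u v : V1 φ} : D1 φ u v ↔ ∃ g : HNNExtension K A B φ,
    u = g • ((1 : HNNExtension K A B φ) : V1 φ) ∧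
      v = g • (t : HNNExtension K A B φ) • ((1 : HNNExtension K A B φ) : V1 φ) := by
  simp only [V1_smul, mul_one, D1]

theorem D1_iff' {u v : V1 φ} : D1 φ u v ↔ ∃ g : HNNExtension K A B φ,
    u = g • ((1 : HNNExtension K A B φ) : V1 φ) ∧
      v = (g * t : HNNExtension K A B φ) • ((1 : HNNExtension K A B φ) : V1 φ) := by
  simp only [V1_smul, mul_one, D1]

theorem of_smul_base (k : K) : (of k : HNNExtension K A B φ) •
    ((1 : HNNExtension K A B φ) : V1 φ) = ((1 : HNNExtension K A B φ) : V1 φ) := by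
  rw [V1_smul, eq_comm, V1_eq]; exact ⟨k, by simp⟩

theorem smul_base_eq_iff {g : HNNExtension K A B φ} :
    g • ((1 : HNNExtension K A B φ) : V1 φ) = ((1 : HNNExtension K A B φ) : V1 φ) ↔
      ∃ k, g = of k := by
  rw [V1_smul, eq_comm, V1_eq]; simp

theorem D1_smul (g : HNNExtension K A B φ) {u v : V1 φ} (h : D1 φ u v) :
    D1 φ (g • u) (g • v) := by
  obtain ⟨h, rfl, rfl⟩ := h
  exact ⟨g * h, rfl, by rw [V1_smul, mul_assoc]⟩

theorem D1_step {u v : V1 φ} (h : D1 φ u v ∨ D1 φ v u) : ∃ (g : HNNExtension K A B φ) (e : ℤˣ),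
    u = (g : V1 φ) ∧ v = ((g * t ^ (e : ℤ) : HNNExtension K A B φ) : V1 φ) := by
  rcases h with ⟨g, rfl, rfl⟩ | ⟨g, rfl, rfl⟩
  · exact ⟨g, 1, rfl, by simp⟩
  · exact ⟨g * t, -1, rfl, by simp⟩

theorem D1_walk (n : ℕ) : ∀ (p : ℕ → V1 φ) (g : HNNExtension K A B φ) (e : ℤˣ),
    (∀ i < n + 1, D1 φ (p i) (p (i + 1)) ∨ D1 φ (p (i + 1)) (p i)) →
    (∀ i, i + 2 ≤ n + 1 → p i ≠ p (i + 2)) → p 0 = (g : V1 φ) →
    p 1 = ((g * t ^ (e : ℤ) : HNNExtension K A B φ) : V1 φ) →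
    ∃ r, Red φ e r ∧ p (n + 1) = ((g * r : HNNExtension K A B φ) : V1 φ) := by
  induction n with
  | zero =>
    intro p g e _ _ _ h1
    exact ⟨t ^ (e : ℤ) * of 1, Red.single e 1, by simpa using h1⟩
  | succ n ih =>
    intro p g e hw hb h0 h1
    obtain ⟨g', e', hg1, hg2⟩ := D1_step (hw 1 (by omega))
    obtain ⟨r, hr, hp⟩ := ih (fun i => p (i + 1)) g' e' (fun i hi => hw (i + 1) (by omega))
      (fun i hi => hb (i + 1) (by omega)) hg1 hg2
    obtain ⟨k, hk⟩ := V1_eq.1 (h1.symm.trans hg1)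
    refine ⟨t ^ (e : ℤ) * of k * r, Red.cons e e' k r hr (fun hk' => ?_), ?_⟩
    · by_contra hne
      have he : e' = -e := by
        rcases Int.units_eq_one_or e with rfl | rfl <;>
          rcases Int.units_eq_one_or e' with rfl | rfl <;> simp_all
      apply hb 0 (by omega)
      rw [h0, show p (0 + 2) = p (1 + 1) from rfl, hg2, V1_eq]
      obtain ⟨k', hk''⟩ := conj_mem_range (φ := φ) e hk'
      refine ⟨k', ?_⟩
      rw [hk, he, hk'']
      simp [mul_assoc]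
    · rw [show p (n + 1 + 1) = _ from hp, hk]
      simp [mul_assoc]

/-- Every closed walk of positive length has a backtrack. -/
theorem D1_backtrack (n : ℕ) (p : ℕ → V1 φ) (hn : 0 < n) (hc : p 0 = p n)
    (hw : ∀ i < n, D1 φ (p i) (p (i + 1)) ∨ D1 φ (p (i + 1)) (p i)) :
    ∃ i, i + 2 ≤ n ∧ p i = p (i + 2) := by
  by_contra hb
  push Not at hb
  obtain ⟨n, rfl⟩ : ∃ m, n = m + 1 := ⟨n - 1, by omega⟩
  obtain ⟨g, e, h0, h1⟩ := D1_step (hw 0 hn)
  obtain ⟨r, hr, hp⟩ := D1_walk n p g e hw hb h0 h1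
  obtain ⟨k, hk⟩ := V1_eq.1 (h0.symm.trans (hc.trans hp))
  exact hr.not_mem ⟨k, (mul_left_cancel hk).symm⟩

theorem D1_asymm {u v : V1 φ} (h : D1 φ u v) : ¬ D1 φ v u := by
  obtain ⟨g, rfl, rfl⟩ := h
  rintro ⟨h, h1, h2⟩
  obtain ⟨k, rfl⟩ := V1_eq.1 h1
  obtain ⟨k', hk'⟩ := V1_eq.1 h2
  have h3 : Red φ 1 (t ^ ((1 : ℤˣ) : ℤ) * of k * (t ^ ((1 : ℤˣ) : ℤ) * of 1)) :=
    Red.cons 1 1 k _ (Red.single 1 1) (fun _ => rfl)
  refine h3.not_mem ⟨k', ?_⟩
  apply mul_left_cancel (a := g)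
  rw [← hk']; simp [mul_assoc]

theorem reflTransGen_smul {G V : Type*} [Group G] [MulAction G V] {D : V → V → Prop}
    (hD : ∀ (g : G) u v, D u v → D (g • u) (g • v)) (g : G) {u v : V}
    (h : Relation.ReflTransGen (fun a b => D a b ∨ D b a) u v) :
    Relation.ReflTransGen (fun a b => D a b ∨ D b a) (g • u) (g • v) := by
  induction h with
  | refl => exact Relation.ReflTransGen.refl
  | tail _ h2 ih => exact ih.tail (h2.imp (hD g _ _) (hD g _ _))

theorem reflTransGen_symm {V : Type*} {D : V → V → Prop} {u v : V}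
    (h : Relation.ReflTransGen (fun a b => D a b ∨ D b a) u v) :
    Relation.ReflTransGen (fun a b => D a b ∨ D b a) v u := by
  induction h with
  | refl => exact Relation.ReflTransGen.refl
  | tail _ h2 ih => exact Relation.ReflTransGen.head h2.symm ih

/-- The orbit of a vertex is connected when the generators move it inside its component. -/
theorem orbit_connected {V : Type*} [MulAction (HNNExtension K A B φ) V] {D : V → V → Prop}
    (hD : ∀ (g : HNNExtension K A B φ) u v, D u v → D (g • u) (g • v)) (v₀ : V)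
    (hof : ∀ k : K, (of k : HNNExtension K A B φ) • v₀ = v₀)
    (ht : Relation.ReflTransGen (fun a b => D a b ∨ D b a) v₀ ((t : HNNExtension K A B φ) • v₀))
    (g : HNNExtension K A B φ) :
    Relation.ReflTransGen (fun a b => D a b ∨ D b a) v₀ (g • v₀) := by
  induction g using HNNExtension.induction_on with
  | of k => rw [hof]
  | t => exact ht
  | mul x y hx hy => rw [mul_smul]; exact hx.trans (reflTransGen_smul hD x hy)
  | inv x hx =>
    have := reflTransGen_smul hD x⁻¹ hx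
    rw [inv_smul_smul] at this
    exact reflTransGen_symm this

theorem D1_connected (u v : V1 φ) :
    Relation.ReflTransGen (fun a b => D1 φ a b ∨ D1 φ b a) u v := by
  have key : ∀ g : HNNExtension K A B φ, Relation.ReflTransGen (fun a b => D1 φ a b ∨ D1 φ b a)
      ((1 : HNNExtension K A B φ) : V1 φ) (g : V1 φ) := by
    intro g
    have := orbit_connected (fun g u v h => D1_smul g h) ((1 : HNNExtension K A B φ) : V1 φ)
      of_smul_base (Relation.ReflTransGen.single (Or.inl ⟨1, rfl, by simp⟩)) g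
    simpa [V1_smul] using this
  induction u using QuotientGroup.induction_on with
  | H g =>
    induction v using QuotientGroup.induction_on with
    | H h => exact (reflTransGen_symm (key g)).trans (key h)

/-- The stabiliser of the edge `hK → htK` is the conjugate of `B`. -/
theorem D1_edge_stab {g h : HNNExtension K A B φ} (h1 : g • (h : V1 φ) = (h : V1 φ))
    (h2 : g • ((h * t : HNNExtension K A B φ) : V1 φ) = ((h * t : HNNExtension K A B φ) : V1 φ)) :
    ∃ b ∈ B, g = h * of b * h⁻¹ := by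
  rw [V1_smul, eq_comm, V1_eq] at h1 h2
  obtain ⟨k, hk⟩ := h1
  obtain ⟨k', hk'⟩ := h2
  refine ⟨k, mem_of_conj_mem_range (φ := φ) (-1) ⟨k', ?_⟩, by rw [← hk]; simp⟩
  rw [← mul_assoc, hk, mul_assoc, mul_assoc] at hk'
  have := mul_left_cancel hk'
  simp only [Units.val_neg, Units.val_one, neg_neg, zpow_one, zpow_neg, mul_assoc, this]
  simp

end T1

theorem isTree_D1 {K : Type} [Group K] {A B : Subgroup K} (φ : A ≃* B) : IsTree (D1 φ) where
  asymm := fun _ _ => D1_asymm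
  back := fun n p hn hw hc => D1_backtrack n p hn hc hw
  conn := D1_connected
  nbr := fun u => by
    induction u using QuotientGroup.induction_on with
    | H g => exact ⟨_, Or.inl ⟨g, rfl, rfl⟩⟩

section Phi

variable {L : Type} [Group L]

/-- The vertices of the tree of `Phi L`. -/
abbrev VPhi (L : Type) [Group L] : Type := V1 (MulEquiv.refl (⊥ : Subgroup L))

/-- The edges of the tree of `Phi L`. -/
abbrev DPhi (L : Type) [Group L] : VPhi L → VPhi L → Prop := D1 (MulEquiv.refl (⊥ : Subgroup L))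

/-- The base vertex of the tree of `Phi L`. -/
abbrev vPhi (L : Type) [Group L] : VPhi L := ((1 : Phi L) : VPhi L)

theorem isTree_DPhi : IsTree (DPhi L) := isTree_D1 _

theorem DPhi_smul (g : Phi L) (u v : VPhi L) (h : DPhi L u v) : DPhi L (g • u) (g • v) :=
  D1_smul g h

theorem DPhi_edge : DPhi L (vPhi L) ((t : Phi L) • vPhi L) := ⟨1, rfl, by simp⟩

theorem of_smul_vPhi (x : L) : (of x : Phi L) • vPhi L = vPhi L := of_smul_base x

/-- Trivial edge stabilisers for the tree of `Phi L`. -/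
theorem DPhi_free (g : Phi L) (u v : VPhi L) (h : DPhi L u v) (h1 : g • u = u)
    (h2 : g • v = v) : g = 1 := by
  obtain ⟨h, rfl, rfl⟩ := h
  obtain ⟨b, hb, rfl⟩ := D1_edge_stab h1 h2
  rw [Subgroup.mem_bot] at hb
  subst hb
  simp

end Phi

/-! ### The bipartite tree of `Cen K C` -/

section T2

variable {K : Type} [Group K] (C : Subgroup K)

/-- The subgroup generated by `C` and `t`. -/
def PP : Subgroup (Cen K C) where
  carrier := {g | ∃ c ∈ C, ∃ m : ℤ, g = of c * t ^ m}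
  one_mem' := ⟨1, C.one_mem, 0, by simp⟩
  mul_mem' := by
    rintro _ _ ⟨c, hc, m, rfl⟩ ⟨c', hc', m', rfl⟩
    refine ⟨c * c', C.mul_mem hc hc', m + m', ?_⟩
    rw [map_mul, zpow_add, mul_assoc, mul_assoc, ← mul_assoc (t ^ m),
      ((Cen.comm hc').zpow_left m).eq, mul_assoc]
  inv_mem' := by
    rintro _ ⟨c, hc, m, rfl⟩
    refine ⟨c⁻¹, C.inv_mem hc, -m, ?_⟩
    rw [mul_inv_rev, ← zpow_neg, ← map_inv, ((Cen.comm (C.inv_mem hc)).zpow_left (-m)).eq]

/-- The vertices `G / K` and `G / P`. -/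
abbrev V2 : Type := V1 (MulEquiv.refl C) ⊕ (Cen K C ⧸ PP C)

/-- The vertex `gK`. -/
abbrev vK (g : Cen K C) : V2 C := Sum.inl (g : V1 (MulEquiv.refl C))

/-- The vertex `gP`. -/
abbrev vP (g : Cen K C) : V2 C := Sum.inr (g : Cen K C ⧸ PP C)

/-- The directed edges `gK → gP`. -/
def D2 (u v : V2 C) : Prop := ∃ g : Cen K C, u = vK C g ∧ v = vP C g

/-- The vertices of the second type. -/
def P2 (v : V2 C) : Prop := ∃ g : Cen K C, v = vP C g

variable {C}

theorem mem_PP {g : Cen K C} : g ∈ PP C ↔ ∃ c ∈ C, ∃ m : ℤ, g = of c * t ^ m := Iff.rfl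

theorem t_mem_PP : (t : Cen K C) ∈ PP C := ⟨1, C.one_mem, 1, by simp⟩

theorem of_mem_PP {k : K} : (of k : Cen K C) ∈ PP C ↔ k ∈ C := by
  refine ⟨?_, fun h => ⟨k, h, 0, by simp⟩⟩
  rintro ⟨c, hc, m, h⟩
  have := congrArg (Cen.ret K C) h
  simp only [Cen.ret_of, map_mul, map_zpow, Cen.ret_t, one_zpow, mul_one] at this
  rwa [this]

theorem smul_vK (g h : Cen K C) : g • vK C h = vK C (g * h) := rfl

theorem smul_vP (g h : Cen K C) : g • vP C h = vP C (g * h) := rfl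

theorem vK_eq {g h : Cen K C} : vK C g = vK C h ↔ ∃ k, h = g * of k := by
  rw [Sum.inl.injEq, V1_eq]

theorem vP_eq {g h : Cen K C} : vP C g = vP C h ↔ g⁻¹ * h ∈ PP C := by
  rw [Sum.inr.injEq, QuotientGroup.eq]

theorem vK_mul_of (g : Cen K C) (k : K) : vK C (g * of k) = vK C g := (vK_eq.2 ⟨k, rfl⟩).symm

theorem V2_cases (v : V2 C) : (∃ g, v = vK C g) ∨ ∃ g, v = vP C g := by
  rcases v with v | v
  · induction v using QuotientGroup.induction_on with
    | H g => exact Or.inl ⟨g, rfl⟩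
  · induction v using QuotientGroup.induction_on with
    | H g => exact Or.inr ⟨g, rfl⟩

theorem not_P2_vK (g : Cen K C) : ¬ P2 C (vK C g) := by
  rintro ⟨h, e⟩; cases e

theorem not_P2_iff {v : V2 C} : ¬ P2 C v ↔ ∃ g, v = vK C g := by
  refine ⟨fun h => (V2_cases v).resolve_right h, ?_⟩
  rintro ⟨g, rfl⟩; exact not_P2_vK g

theorem D2_smul (g : Cen K C) (u v : V2 C) (h : D2 C u v) : D2 C (g • u) (g • v) := by
  obtain ⟨h, rfl, rfl⟩ := h
  exact ⟨g * h, rfl, rfl⟩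

theorem D2_bip (u v : V2 C) (h : D2 C u v) : ¬ P2 C u ∧ P2 C v := by
  obtain ⟨h, rfl, rfl⟩ := h
  exact ⟨not_P2_vK h, h, rfl⟩

theorem D2_vK_iff {g : Cen K C} {p : V2 C} : D2 C (vK C g) p ↔ ∃ k : K, p = vP C (g * of k) := by
  constructor
  · rintro ⟨h, h1, rfl⟩
    obtain ⟨k, rfl⟩ := vK_eq.1 h1
    exact ⟨k, rfl⟩
  · rintro ⟨k, rfl⟩
    exact ⟨g * of k, (vK_mul_of g k).symm, rfl⟩

theorem adj_vK {g : Cen K C} {p : V2 C} (h : Adj (D2 C) (vK C g) p) :
    ∃ k : K, p = vP C (g * of k) := by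
  rcases h with h | ⟨h, -, e⟩
  · exact D2_vK_iff.1 h
  · cases e

theorem adj_vP {g : Cen K C} {v : V2 C} (h : Adj (D2 C) (vP C g) v) :
    ∃ c ∈ C, ∃ m : ℤ, v = vK C (g * (of c * t ^ m)) := by
  rcases h with ⟨h, e, -⟩ | ⟨h, rfl, e⟩
  · cases e
  · obtain ⟨c, hc, m, hm⟩ := vP_eq.1 e
    exact ⟨c, hc, m, by rw [← hm]; simp⟩

theorem D2_walk (n : ℕ) : ∀ (p : ℕ → V2 C) (g w : Cen K C),
    (∀ i < n + 1, Adj (D2 C) (p i) (p (i + 1))) →
    (∀ i, i + 2 ≤ n + 1 → p i ≠ p (i + 2)) → p 0 = vK C g → p 1 = vP C g →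
    p (n + 1) = vK C w → ∃ e r, Red (MulEquiv.refl C) e r ∧ w = g * r := by
  induction n using Nat.strong_induction_on with
  | _ n ih =>
  intro p g w hw hb h0 h1 hn
  rcases Nat.eq_zero_or_pos n with rfl | hn0
  · rw [h1] at hn; cases hn
  have a1 := hw 1 (by omega)
  rw [h1] at a1
  obtain ⟨c, hc, m, h2⟩ := adj_vP a1
  have hm : m ≠ 0 := by
    rintro rfl
    apply hb 0 (by omega)
    rw [h0, show p (0 + 2) = _ from h2]
    simp only [zpow_zero, mul_one]
    exact (vK_mul_of g c).symm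
  have hcm : (of c * t ^ m : Cen K C) = t ^ m * of c := ((Cen.comm hc).zpow_left m).eq.symm
  by_cases hn1 : n = 1
  · subst hn1
    obtain ⟨k, hk⟩ := vK_eq.1 (h2.symm.trans hn)
    obtain ⟨e, he⟩ := red_zpow (φ := MulEquiv.refl C) hm (c * k)
    exact ⟨e, _, he, by rw [hk, hcm, map_mul]; simp only [mul_assoc]⟩
  obtain ⟨n, rfl⟩ : ∃ n', n = n' + 2 := ⟨n - 2, by omega⟩
  have a2 := hw 2 (by omega)
  rw [show p 2 = _ from h2] at a2
  obtain ⟨k, h3⟩ := adj_vK a2
  have hk : c * k ∉ C := by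
    intro hk
    apply hb 1 (by omega)
    rw [h1, show p (1 + 2) = _ from h3, vP_eq]
    have hk' : k ∈ C := (C.mul_mem_cancel_left hc).1 hk
    have : g⁻¹ * (g * (of c * t ^ m) * of k) = of c * t ^ m * of k := by simp [mul_assoc]
    rw [this]
    exact (PP C).mul_mem ⟨c, hc, m, rfl⟩ (of_mem_PP.2 hk')
  obtain ⟨e, r, hr, hw'⟩ := ih n (by omega) (fun i => p (i + 2)) (g * (of c * t ^ m) * of k) w
    (fun i hi => hw (i + 2) (by omega)) (fun i hi => hb (i + 2) (by omega))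
    (h2.trans (vK_mul_of _ k).symm) h3 hn
  obtain ⟨e', he'⟩ := hr.zpow_cons hm hk hk
  exact ⟨e', _, he', by rw [hw', hcm, map_mul]; simp only [mul_assoc]⟩

theorem D2_backtrack (n : ℕ) (p : ℕ → V2 C) (hn : 0 < n) (hc : p 0 = p n)
    (hw : ∀ i < n, Adj (D2 C) (p i) (p (i + 1))) : ∃ i, i + 2 ≤ n ∧ p i = p (i + 2) := by
  refine backtrack_of_based (Adj (D2 C)) (fun v => ¬ P2 C v)
    (fun u v h => h.imp (fun h => (D2_bip _ _ h).1) fun h => (D2_bip _ _ h).1) ?_ n p hn hc hw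
  intro n p hn h0 hc hw
  by_contra hb
  push Not at hb
  obtain ⟨n, rfl⟩ : ∃ m, n = m + 1 := ⟨n - 1, by omega⟩
  obtain ⟨g, h0⟩ := not_P2_iff.1 h0
  have a0 := hw 0 hn
  rw [h0] at a0
  obtain ⟨k, h1⟩ := adj_vK a0
  have h0' : p 0 = vK C (g * of k) := h0.trans (vK_mul_of g k).symm
  obtain ⟨e, r, hr, he⟩ := D2_walk n p _ _ hw hb h0' h1 (hc.symm.trans h0')
  refine hr.not_mem ⟨1, ?_⟩
  rw [map_one]
  exact (mul_eq_left.1 he.symm).symm

theorem D2_connected (u v : V2 C) : Relation.ReflTransGen (Adj (D2 C)) u v := by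
  have key : ∀ g : Cen K C, Relation.ReflTransGen (Adj (D2 C)) (vK C 1) (vK C g) := by
    intro g
    have e1 : D2 C (vK C 1) (vP C 1) := ⟨1, rfl, rfl⟩
    have e2 : D2 C ((t : Cen K C) • vK C 1) (vP C 1) :=
      ⟨t, by rw [smul_vK, mul_one], vP_eq.2 (by simpa using t_mem_PP)⟩
    have := orbit_connected D2_smul (vK C 1)
      (fun k => by rw [smul_vK, mul_one, ← one_mul (of k), vK_mul_of])
      (Relation.ReflTransGen.tail (b := vP C 1) (Relation.ReflTransGen.single (Or.inl e1))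
        (Or.inr e2)) g
    rwa [smul_vK, mul_one] at this
  have key2 : ∀ w : V2 C, Relation.ReflTransGen (Adj (D2 C)) (vK C 1) w := by
    intro w
    rcases V2_cases w with ⟨g, rfl⟩ | ⟨g, rfl⟩
    · exact key g
    · exact (key g).tail (Or.inl ⟨g, rfl, rfl⟩)
  exact (reflTransGen_symm (key2 u)).trans (key2 v)

theorem isTree_D2 : IsTree (D2 C) where
  asymm := fun u v h h' => (D2_bip _ _ h).1 (D2_bip _ _ h').2
  back := fun n p hn hw hc => D2_backtrack n p hn hc hw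
  conn := D2_connected
  nbr := fun u => by
    rcases V2_cases u with ⟨g, rfl⟩ | ⟨g, rfl⟩
    · exact ⟨_, Or.inl ⟨g, rfl, rfl⟩⟩
    · exact ⟨_, Or.inr ⟨g, rfl, rfl⟩⟩

/-- The stabiliser of `gK`. -/
theorem smul_vK_eq_iff {h g : Cen K C} : h • vK C g = vK C g ↔ ∃ k, h = g * of k * g⁻¹ := by
  rw [smul_vK, eq_comm, vK_eq]
  exact exists_congr fun k => by rw [eq_mul_inv_iff_mul_eq]

/-- The stabiliser of `gP`. -/
theorem smul_vP_eq_iff {h g : Cen K C} : h • vP C g = vP C g ↔ g⁻¹ * h * g ∈ PP C := by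
  rw [smul_vP, eq_comm, vP_eq, mul_assoc]

/-- The stabiliser of the edge from `gK` to `gfP`. -/
theorem conj_smul_vP_iff {g : Cen K C} {k f : K} :
    (g * of k * g⁻¹) • vP C (g * of f) = vP C (g * of f) ↔ f⁻¹ * k * f ∈ C := by
  rw [smul_vP_eq_iff, ← of_mem_PP (C := C)]
  simp [mul_assoc]

/-- `C` is malnormal in `K`. -/
def Malnormal (C : Subgroup K) : Prop := ∀ f c : K, c ∈ C → c ≠ 1 → f⁻¹ * c * f ∈ C → f ∈ C

/-- A nontrivial element fixes at most one edge at a vertex of the first type. -/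
theorem D2_mal (hC : Malnormal C) (β : Cen K C) (v p p' : V2 C) (hβ : β ≠ 1) (h : D2 C v p)
    (h' : D2 C v p') (hv : β • v = v) (hp : β • p = p) (hp' : β • p' = p') : p = p' := by
  obtain ⟨g, rfl, rfl⟩ := h
  obtain ⟨f, rfl⟩ := D2_vK_iff.1 h'
  obtain ⟨k, rfl⟩ := smul_vK_eq_iff.1 hv
  have h1 : k ∈ C := by
    have := (conj_smul_vP_iff (g := g) (k := k) (f := 1)).1 (by simpa using hp)
    simpa using this
  have h2 := hC f k h1 (by rintro rfl; simp at hβ) (conj_smul_vP_iff.1 hp')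
  rw [vP_eq]
  simpa using of_mem_PP.2 h2

/-- Every vertex is fixed by an element of infinite order. -/
theorem V2_exists_fix {k : K} (hk : ¬ IsOfFinOrder k) (v : V2 C) :
    ∃ g : Cen K C, ¬ IsOfFinOrder g ∧ g • v = v := by
  rcases V2_cases v with ⟨g, rfl⟩ | ⟨g, rfl⟩
  · refine ⟨g * of k * g⁻¹, fun h => hk ?_, smul_vK_eq_iff.2 ⟨k, rfl⟩⟩
    have h1 : IsOfFinOrder (of k : Cen K C) := by
      simpa [mul_assoc] using (MulAut.conj g⁻¹).toMonoidHom.isOfFinOrder h
    simpa using (Cen.ret K C).isOfFinOrder h1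
  · refine ⟨g * t * g⁻¹, fun h => ?_, smul_vP_eq_iff.2 (by simpa [mul_assoc] using t_mem_PP)⟩
    have h1 : IsOfFinOrder (t : Cen K C) := by
      simpa [mul_assoc] using (MulAut.conj g⁻¹).toMonoidHom.isOfFinOrder h
    obtain ⟨n, hn, h2⟩ := isOfFinOrder_iff_pow_eq_one.1 h1
    have := tzpow_eq_one (φ := MulEquiv.refl C) (m := n) (by simpa using h2)
    omega

/-- Vertex stabilisers in a subgroup of finite index are nontrivial. -/
theorem V2_hnt {k : K} (hk : ¬ IsOfFinOrder k) (H : Subgroup (Cen K C)) [H.FiniteIndex]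
    (v : V2 C) : ∃ h : H, h ≠ 1 ∧ h • v = v := by
  obtain ⟨g, hg, hv⟩ := V2_exists_fix hk v
  obtain ⟨n, hn, -, hm⟩ := H.exists_pow_mem_of_index_ne_zero Subgroup.FiniteIndex.index_ne_zero g
  refine ⟨⟨g ^ n, hm⟩, fun h => hg (isOfFinOrder_iff_pow_eq_one.2 ⟨n, hn, congrArg Subtype.val h⟩),
    ?_⟩
  exact (MulAction.stabilizer (Cen K C) v).pow_mem hv n

/-- The bipartite tree, in packaged form. -/
theorem tree2 (K : Type) [Group K] (C : Subgroup K) :
    ∃ (V : Type) (_ : MulAction (Cen K C) V) (D : V → V → Prop) (P : V → Prop) (v0 p0 : V),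
      IsTree D ∧ (∀ u v, D u v ↔ ∃ g : Cen K C, u = g • v0 ∧ v = g • p0) ∧
      (∀ u v, D u v → ¬ P u ∧ P v) ∧
      MulAction.stabilizer (Cen K C) v0 = (of : K →* Cen K C).range ∧
      MulAction.stabilizer (Cen K C) v0 ⊓ MulAction.stabilizer (Cen K C) p0 =
        C.map (of : K →* Cen K C) := by
  have h0 : ∀ g : Cen K C, g • vK C 1 = vK C 1 ↔ ∃ k, g = of k := fun g => by
    rw [smul_vK_eq_iff]; simp
  refine ⟨V2 C, inferInstance, D2 C, P2 C, vK C 1, vP C 1, isTree_D2, fun u v => ?_, D2_bip,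
    ?_, ?_⟩
  · simp only [smul_vK, smul_vP, mul_one, D2]
  · ext g
    rw [MulAction.mem_stabilizer_iff, h0, MonoidHom.mem_range]
    exact exists_congr fun k => eq_comm
  · ext g
    rw [Subgroup.mem_inf, MulAction.mem_stabilizer_iff, MulAction.mem_stabilizer_iff, h0,
      smul_vP_eq_iff, Subgroup.mem_map]
    constructor
    · rintro ⟨⟨k, rfl⟩, h⟩
      exact ⟨k, of_mem_PP.1 (by simpa using h), rfl⟩
    · rintro ⟨k, hk, rfl⟩
      exact ⟨⟨k, rfl⟩, by simpa using of_mem_PP.2 hk⟩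

end T2

/-- The tree of `Phi L`, in packaged form. -/
theorem tree1 (L : Type) [Group L] :
    ∃ (V : Type) (_ : MulAction (Phi L) V) (D : V → V → Prop) (v0 : V),
      IsTree D ∧ (∀ u v, D u v ↔ ∃ g : Phi L, u = g • v0 ∧ v = (g * t) • v0) ∧
      MulAction.stabilizer (Phi L) v0 = (of : L →* Phi L).range ∧
      ∀ (k : Phi L) u v, D u v → k • u = u → k • v = v → k = 1 := by
  refine ⟨VPhi L, inferInstance, DPhi L, vPhi L, isTree_DPhi, fun u v => D1_iff', ?_, DPhi_free⟩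
  ext g
  rw [MulAction.mem_stabilizer_iff, smul_base_eq_iff, MonoidHom.mem_range]
  exact exists_congr fun k => eq_comm

end Pool.Agent.Lib.MP_34a149_al.RG
end
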