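import Pool.Agent.Lib.MP_34a149_al.RG.FP
import Pool.Agent.Lib.MP_34a149_al.RG.PXY

/-! The congruence quotients of `SL(3, ℤ)` are expanders: Fourier analysis on `(ℤ/N)²` and
bounded generation by elementary matrices over finite rings. -/

set_option autoImplicit false

noncomputable section

namespace Pool.Agent.Lib.MP_34a149_al.RG

namespace Exp

open Finset Matrix
open scoped ComplexConjugate

section Fourier

variable {N : ℕ} [NeZero N]

abbrev Z2 (N : ℕ) : Type := ZMod N × ZMod N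

/-- the characters of `(ℤ/N)²` -/
def ch (k n : Z2 N) : ℂ := ZMod.stdAddChar (k.1 * n.1 + k.2 * n.2)

theorem ch_add (k n m : Z2 N) : ch k (n + m) = ch k n * ch k m := by
  rw [ch, ch, ch, ← AddChar.map_add_eq_mul]
  congr 1
  simp only [Prod.fst_add, Prod.snd_add]
  ring

theorem ch_neg (k n : Z2 N) : ch k (-n) = conj (ch k n) := by
  rw [ch, ch, ← AddChar.map_neg_eq_conj]
  congr 1
  simp only [Prod.fst_neg, Prod.snd_neg]
  ring

theorem norm_ch (k n : Z2 N) : ‖ch k n‖ = 1 := AddChar.norm_apply _ _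

theorem sum_ch (n : Z2 N) : ∑ k, ch k n = if n = 0 then (N : ℂ) ^ 2 else 0 := by
  have : ∑ k, ch k n = (∑ a : ZMod N, ZMod.stdAddChar (a * n.1)) *
      ∑ b : ZMod N, ZMod.stdAddChar (b * n.2) := by
    rw [Finset.sum_mul_sum, Fintype.sum_prod_type]
    simp only [ch, AddChar.map_add_eq_mul]
  rw [this, AddChar.sum_mulShift _ (ZMod.isPrimitive_stdAddChar N),
    AddChar.sum_mulShift _ (ZMod.isPrimitive_stdAddChar N), ZMod.card]
  by_cases h1 : n.1 = 0 <;> by_cases h2 : n.2 = 0 <;> simp [h1, h2, Prod.ext_iff, sq]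

theorem parseval (a : Z2 N → ℂ) :
    ∑ k, ‖∑ n, ch k n * a n‖ ^ 2 = (N : ℝ) ^ 2 * ∑ n, ‖a n‖ ^ 2 := by
  have e : ∀ w : ℂ, ((‖w‖ : ℝ) : ℂ) ^ 2 = w * conj w := fun w => (Complex.mul_conj' w).symm
  have h : ∀ k : Z2 N, (∑ n, ch k n * a n) * conj (∑ n, ch k n * a n) =
      ∑ n, ∑ m, ch k (n - m) * (a n * conj (a m)) := fun k => by
    rw [map_sum, Finset.sum_mul_sum]
    refine sum_congr rfl fun n _ => sum_congr rfl fun m _ => ?_
    rw [sub_eq_add_neg, ch_add, ch_neg, map_mul]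
    ring
  apply Complex.ofReal_injective
  push_cast
  simp only [e, h]
  rw [sum_comm, mul_sum]
  refine sum_congr rfl fun n _ => ?_
  rw [sum_comm]
  simp only [← sum_mul, sum_ch, sub_eq_zero, ite_mul, zero_mul]
  rw [sum_ite_eq, if_pos (mem_univ _)]

theorem far {k : ZMod N} (h : (N : ℤ) ≤ 4 * |k.valMinAbs|) :
    2 ≤ ‖ZMod.stdAddChar k - 1‖ ^ 2 := by
  have hN : (0 : ℝ) < N := Nat.cast_pos.2 (NeZero.pos N)
  have h1 : |k.valMinAbs| * 2 ≤ N := by
    have := k.valMinAbs_mem_Ioc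
    rw [Set.mem_Ioc] at this
    cases abs_cases k.valMinAbs <;> omega
  rw [← k.coe_valMinAbs, ZMod.stdAddChar_coe]
  set x := k.valMinAbs
  have e : (2 * Real.pi * Complex.I * x / N : ℂ) = ((2 * Real.pi * x / N : ℝ) : ℂ) * Complex.I := by
    push_cast
    ring
  have c : Real.cos (2 * Real.pi * x / N) ≤ 0 := by
    have h' : (N : ℝ) ≤ 4 * |(x : ℝ)| := by exact_mod_cast h
    have h1' : |(x : ℝ)| * 2 ≤ N := by exact_mod_cast h1
    have := Real.pi_pos
    rw [← Real.cos_abs, abs_div, abs_mul, abs_of_pos hN, abs_of_pos (by positivity)]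
    refine Real.cos_nonpos_of_pi_div_two_le_of_le ?_ ?_
    · rw [le_div_iff₀ hN]
      nlinarith
    · rw [div_le_iff₀ hN]
      nlinarith
  rw [e, ← Complex.normSq_eq_norm_sq, Complex.normSq_apply]
  simp only [Complex.sub_re, Complex.sub_im, Complex.exp_ofReal_mul_I_re,
    Complex.exp_ofReal_mul_I_im, Complex.one_re, Complex.one_im]
  nlinarith [Real.sin_sq_add_cos_sq (2 * Real.pi * x / N)]

theorem pingpong {Ω : Type*} [Fintype Ω] [DecidableEq Ω] {μ δ δ' : Ω → ℝ} (hμ : ∀ k, 0 ≤ μ k)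
    (hδ : ∀ k, 0 ≤ δ k) (hδ' : ∀ k, 0 ≤ δ' k) {σ τ : Ω → Ω} (hσ : Function.Injective σ)
    (hτ : Function.Injective τ) (h1 : ∀ k, μ k ≤ 3 / 2 * μ (σ k) + 3 * δ k)
    (h2 : ∀ k, μ k ≤ 3 / 2 * μ (τ k) + 3 * δ' k) {P W : Finset Ω}
    (hd : ∀ k ∈ P, ∀ l ∈ P, σ k ≠ τ l) (s1 : ∀ k ∈ P, σ k ∈ P ∪ W) (s2 : ∀ k ∈ P, τ k ∈ P ∪ W) :
    ∑ k ∈ P, μ k ≤ 3 * ∑ k ∈ W, μ k + 6 * (∑ k, δ k + ∑ k, δ' k) := by
  have a1 := sum_le_sum fun k (_ : k ∈ P) => h1 k
  have a2 := sum_le_sum fun k (_ : k ∈ P) => h2 k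
  rw [sum_add_distrib, ← mul_sum, ← mul_sum, ← sum_image (f := μ) (g := _) hσ.injOn] at a1
  rw [sum_add_distrib, ← mul_sum, ← mul_sum, ← sum_image (f := μ) (g := _) hτ.injOn] at a2
  have a3 : ∑ k ∈ P.image σ ∪ P.image τ, μ k ≤ ∑ k ∈ P ∪ W, μ k :=
    sum_le_sum_of_subset_of_nonneg (union_subset (image_subset_iff.2 s1) (image_subset_iff.2 s2))
      fun k _ _ => hμ k
  rw [sum_union (disjoint_left.2 fun k hk hk' => by
    obtain ⟨a, ha, rfl⟩ := mem_image.1 hk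
    obtain ⟨b, hb, e⟩ := mem_image.1 hk'
    exact hd a ha b hb e.symm)] at a3
  have a4 : ∑ k ∈ P ∪ W, μ k ≤ ∑ k ∈ P, μ k + ∑ k ∈ W, μ k := by
    rw [← sum_union_inter]
    exact le_add_of_nonneg_right (sum_nonneg fun k _ => hμ k)
  have a5 : ∑ k ∈ P, δ k ≤ ∑ k, δ k :=
    sum_le_sum_of_subset_of_nonneg (subset_univ _) fun k _ _ => hδ k
  have a6 : ∑ k ∈ P, δ' k ≤ ∑ k, δ' k :=
    sum_le_sum_of_subset_of_nonneg (subset_univ _) fun k _ _ => hδ' k
  linarith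

theorem v_add {a b : ZMod N} (ha : 4 * |a.valMinAbs| < N) (hb : 4 * |b.valMinAbs| < N) :
    (a + b).valMinAbs = a.valMinAbs + b.valMinAbs := by
  cases abs_cases a.valMinAbs <;> cases abs_cases b.valMinAbs <;>
    exact (ZMod.valMinAbs_spec _ _).2 ⟨by simp, by omega, by omega⟩

theorem v_sub {a b : ZMod N} (ha : 4 * |a.valMinAbs| < N) (hb : 4 * |b.valMinAbs| < N) :
    (a - b).valMinAbs = a.valMinAbs - b.valMinAbs := by
  cases abs_cases a.valMinAbs <;> cases abs_cases b.valMinAbs <;>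
    exact (ZMod.valMinAbs_spec _ _).2 ⟨by simp, by omega, by omega⟩

/-- characters far from the trivial one -/
def Wd (N : ℕ) [NeZero N] : Finset (Z2 N) :=
  univ.filter fun k => ¬ (4 * |k.1.valMinAbs| < N ∧ 4 * |k.2.valMinAbs| < N)

theorem regions {μ δ δ' : Z2 N → ℝ} (hμ : ∀ k, 0 ≤ μ k) (hδ : ∀ k, 0 ≤ δ k) (hδ' : ∀ k, 0 ≤ δ' k)
    (h1 : ∀ k, μ k ≤ 3 / 2 * μ (k.1, k.1 + k.2) + 3 * δ k)
    (h1' : ∀ k, μ (k.1, k.1 + k.2) ≤ 3 / 2 * μ k + 3 * δ k)
    (h2 : ∀ k, μ k ≤ 3 / 2 * μ (k.1 + k.2, k.2) + 3 * δ' k)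
    (h2' : ∀ k, μ (k.1 + k.2, k.2) ≤ 3 / 2 * μ k + 3 * δ' k) :
    ∑ k ∈ univ.erase 0, μ k ≤ 7 * ∑ k ∈ Wd N, μ k + 12 * (∑ k, δ k + ∑ k, δ' k) := by
  let P : Finset (Z2 N) := univ.filter fun k =>
    (4 * |k.1.valMinAbs| < N ∧ 4 * |k.2.valMinAbs| < N) ∧
      (0 < k.1.valMinAbs ∧ 0 ≤ k.2.valMinAbs ∨ k.1.valMinAbs < 0 ∧ k.2.valMinAbs ≤ 0)
  let Q : Finset (Z2 N) := univ.filter fun k =>
    (4 * |k.1.valMinAbs| < N ∧ 4 * |k.2.valMinAbs| < N) ∧
      (k.1.valMinAbs ≤ 0 ∧ 0 < k.2.valMinAbs ∨ 0 ≤ k.1.valMinAbs ∧ k.2.valMinAbs < 0)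
  let σ : Z2 N ≃ Z2 N := ⟨fun k => (k.1, k.2 - k.1), fun k => (k.1, k.1 + k.2),
    fun k => by simp, fun k => by simp⟩
  let τ : Z2 N ≃ Z2 N := ⟨fun k => (k.1 - k.2, k.2), fun k => (k.1 + k.2, k.2),
    fun k => by simp, fun k => by simp⟩
  have a1 := pingpong hμ hδ hδ' σ.symm.injective τ.symm.injective h1 h2 (P := P) (W := Wd N)
    (fun k hk l hl e => by
      simp only [P, mem_filter, mem_univ, true_and] at hk hl
      have e1 : k.1.valMinAbs = (l.1 + l.2).valMinAbs := congrArg (·.1.valMinAbs) e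
      have e2 : (k.1 + k.2).valMinAbs = l.2.valMinAbs := congrArg (·.2.valMinAbs) e
      rw [v_add hl.1.1 hl.1.2] at e1
      rw [v_add hk.1.1 hk.1.2] at e2
      omega)
    (fun k hk => by
      simp only [P, Wd, σ, Equiv.coe_fn_symm_mk, mem_union, mem_filter, mem_univ,
        true_and] at hk ⊢
      rw [v_add hk.1.1 hk.1.2]
      omega)
    (fun k hk => by
      simp only [P, Wd, τ, Equiv.coe_fn_symm_mk, mem_union, mem_filter, mem_univ,
        true_and] at hk ⊢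
      rw [v_add hk.1.1 hk.1.2]
      omega)
  have a2 := pingpong hμ (δ := fun k => δ (σ k)) (δ' := fun k => δ' (τ k)) (fun _ => hδ _)
    (fun _ => hδ' _) σ.injective τ.injective (fun k => by simpa [σ] using h1' (σ k))
    (fun k => by simpa [τ] using h2' (τ k)) (P := Q) (W := Wd N)
    (fun k hk l hl e => by
      simp only [Q, mem_filter, mem_univ, true_and] at hk hl
      have e1 : k.1.valMinAbs = (l.1 - l.2).valMinAbs := congrArg (·.1.valMinAbs) e
      have e2 : (k.2 - k.1).valMinAbs = l.2.valMinAbs := congrArg (·.2.valMinAbs) e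
      rw [v_sub hl.1.1 hl.1.2] at e1
      rw [v_sub hk.1.2 hk.1.1] at e2
      omega)
    (fun k hk => by
      simp only [Q, Wd, σ, Equiv.coe_fn_mk, mem_union, mem_filter, mem_univ, true_and] at hk ⊢
      rw [v_sub hk.1.2 hk.1.1]
      omega)
    (fun k hk => by
      simp only [Q, Wd, τ, Equiv.coe_fn_mk, mem_union, mem_filter, mem_univ, true_and] at hk ⊢
      rw [v_sub hk.1.1 hk.1.2]
      omega)
  rw [Equiv.sum_comp σ, Equiv.sum_comp τ] at a2
  have un : ∀ s t : Finset (Z2 N), ∑ k ∈ s ∪ t, μ k ≤ ∑ k ∈ s, μ k + ∑ k ∈ t, μ k := fun s t => by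
    rw [← sum_union_inter]
    exact le_add_of_nonneg_right (sum_nonneg fun k _ => hμ k)
  have a3 : ∑ k ∈ univ.erase 0, μ k ≤ ∑ k ∈ P ∪ Q ∪ Wd N, μ k := by
    refine sum_le_sum_of_subset_of_nonneg (fun k hk => ?_) fun k _ _ => hμ k
    have : ¬ (k.1.valMinAbs = 0 ∧ k.2.valMinAbs = 0) := by
      simpa [Prod.ext_iff] using hk
    simp only [P, Q, Wd, mem_union, mem_filter, mem_univ, true_and]
    omega
  linarith [un (P ∪ Q) (Wd N), un P Q]

variable {A : Type*} [Group A] [Fintype A]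

/-- the square of the displacement -/
def D (f : A → ℂ) (g : A) : ℝ := ∑ z, ‖f (z * g) - f z‖ ^ 2

def Fo (u : Z2 N → A) (f : A → ℂ) (k : Z2 N) (z : A) : ℂ := ∑ n, ch k n * f (z * u n)

/-- the spectral measure -/
def sm (u : Z2 N → A) (f : A → ℂ) (k : Z2 N) : ℝ := ∑ z, ‖Fo u f k z‖ ^ 2

theorem sm_nn (u : Z2 N → A) (f : A → ℂ) (k : Z2 N) : 0 ≤ sm u f k :=
  sum_nonneg fun _ _ => sq_nonneg _

theorem D_nn (f : A → ℂ) (g : A) : 0 ≤ D f g := sum_nonneg fun _ _ => sq_nonneg _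

theorem sum_sm (u : Z2 N → A) (f : A → ℂ) :
    ∑ k, sm u f k = (N : ℝ) ^ 4 * ∑ z, ‖f z‖ ^ 2 := by
  unfold sm Fo
  rw [sum_comm]
  simp only [parseval]
  rw [← mul_sum, sum_comm]
  have : ∀ n, ∑ z, ‖f (z * u n)‖ ^ 2 = ∑ z, ‖f z‖ ^ 2 := fun n =>
    Equiv.sum_comp (Equiv.mulRight (u n)) fun z => ‖f z‖ ^ 2
  simp only [this, sum_const, card_univ, Fintype.card_prod, ZMod.card, nsmul_eq_mul]
  push_cast
  ring

theorem sm_le (u : Z2 N → A) (f g : A → ℂ) (k : Z2 N) :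
    sm u f k ≤ 3 / 2 * sm u g k + 3 * sm u (fun z => g z - f z) k ∧
    sm u g k ≤ 3 / 2 * sm u f k + 3 * sm u (fun z => g z - f z) k := by
  have e : ∀ z, Fo u (fun z => g z - f z) k z = Fo u g k z - Fo u f k z := fun z => by
    simp only [Fo, mul_sub, sum_sub_distrib]
  have h : ∀ a b : ℂ, ‖a‖ ^ 2 ≤ 3 / 2 * ‖b‖ ^ 2 + 3 * ‖b - a‖ ^ 2 := fun a b => by
    have := norm_sub_le b (b - a)
    rw [sub_sub_cancel] at this
    nlinarith [norm_nonneg a, norm_nonneg b, norm_nonneg (b - a), sq_nonneg (‖b‖ - 2 * ‖b - a‖)]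
  simp only [sm, e, mul_sum, ← sum_add_distrib]
  exact ⟨sum_le_sum fun z _ => h _ _, sum_le_sum fun z _ => norm_sub_rev (Fo u f k z) _ ▸ h _ _⟩

theorem sm_conj {u : Z2 N → A} {s : A} (σ : Z2 N ≃ Z2 N) (h : ∀ n, u (σ n) * s = s * u n)
    (f : A → ℂ) {k k' : Z2 N} (hk : ∀ n, ch k (σ n) = ch k' n) :
    sm u (fun z => f (z * s)) k = sm u f k' := by
  have e : ∀ z, Fo u (fun z => f (z * s)) k z = Fo u f k' (z * s) := fun z => by
    rw [Fo, Fo, ← Equiv.sum_comp σ]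
    simp only [hk, mul_assoc, h]
  simp only [sm, e]
  exact Equiv.sum_comp (Equiv.mulRight s) fun z => ‖Fo u f k' z‖ ^ 2

theorem D_u {u : Z2 N → A} (hu : ∀ n m, u (n + m) = u n * u m) (f : A → ℂ) (m : Z2 N) :
    (N : ℝ) ^ 4 * D f (u m) = ∑ k, ‖ch k m - 1‖ ^ 2 * sm u f k := by
  rw [D, ← sum_sm u]
  refine sum_congr rfl fun k _ => ?_
  rw [sm, sm, mul_sum]
  refine sum_congr rfl fun z _ => ?_
  have e : ch k m * Fo u (fun z => f (z * u m) - f z) k z = (1 - ch k m) * Fo u f k z := by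
    simp only [Fo, mul_sub, sum_sub_distrib, sub_mul, one_mul]
    congr 1
    rw [mul_sum, ← Equiv.sum_comp (Equiv.addRight m) fun n => ch k n * f (z * u n)]
    refine sum_congr rfl fun n _ => ?_
    rw [Equiv.coe_addRight, ch_add, hu, mul_assoc z]
    ring
  have := congrArg norm e
  rw [norm_mul, norm_mul, norm_ch, one_mul] at this
  rw [this, norm_sub_rev, mul_pow]

/-- the relative estimate -/
theorem rel {u : Z2 N → A} (hu : ∀ n m, u (n + m) = u n * u m) {s t : A}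
    (hs : ∀ n : Z2 N, u (n.1 + n.2, n.2) * s = s * u n)
    (ht : ∀ n : Z2 N, u (n.1, n.1 + n.2) * t = t * u n) (f : A → ℂ) (m : Z2 N) :
    D f (u m) ≤ 48 * (D f s + D f t + D f (u (1, 0)) + D f (u (0, 1))) := by
  have hN : (0 : ℝ) < (N : ℝ) ^ 4 := pow_pos (Nat.cast_pos.2 (NeZero.pos N)) _
  have c1 : ∀ k : Z2 N, sm u (fun z => f (z * s)) k = sm u f (k.1, k.1 + k.2) := fun k =>
    sm_conj ⟨fun n => (n.1 + n.2, n.2), fun n => (n.1 - n.2, n.2), fun n => by simp,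
      fun n => by simp⟩ hs f fun n => by
        simp only [ch, Equiv.coe_fn_mk]
        congr 1
        ring
  have c2 : ∀ k : Z2 N, sm u (fun z => f (z * t)) k = sm u f (k.1 + k.2, k.2) := fun k =>
    sm_conj ⟨fun n => (n.1, n.1 + n.2), fun n => (n.1, n.2 - n.1), fun n => by simp,
      fun n => by simp⟩ ht f fun n => by
        simp only [ch, Equiv.coe_fn_mk]
        congr 1
        ring
  have a1 := regions (sm_nn u f) (sm_nn u fun z => f (z * s) - f z)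
    (sm_nn u fun z => f (z * t) - f z) (fun k => c1 k ▸ (sm_le u f _ k).1)
    (fun k => c1 k ▸ (sm_le u f _ k).2) (fun k => c2 k ▸ (sm_le u f _ k).1)
    (fun k => c2 k ▸ (sm_le u f _ k).2)
  rw [sum_sm, sum_sm, ← D, ← D] at a1
  have a2 : (N : ℝ) ^ 4 * D f (u m) ≤ 4 * ∑ k ∈ univ.erase 0, sm u f k := by
    rw [D_u hu, ← add_sum_erase _ _ (mem_univ 0), mul_sum]
    have : ch 0 m = 1 := by simp [ch]
    rw [this, sub_self, norm_zero, zero_pow two_ne_zero, zero_mul, zero_add]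
    refine sum_le_sum fun k _ => mul_le_mul_of_nonneg_right ?_ (sm_nn _ _ _)
    have := norm_sub_le (ch k m) 1
    rw [norm_ch, norm_one] at this
    nlinarith [norm_nonneg (ch k m - 1)]
  have a3 : 2 * ∑ k ∈ Wd N, sm u f k ≤
      (N : ℝ) ^ 4 * D f (u (1, 0)) + (N : ℝ) ^ 4 * D f (u (0, 1)) := by
    rw [D_u hu, D_u hu, ← sum_add_distrib, mul_sum]
    refine (sum_le_sum fun k hk => ?_).trans (sum_le_sum_of_subset_of_nonneg (subset_univ _)
      fun k _ _ => add_nonneg (mul_nonneg (sq_nonneg _) (sm_nn _ _ _))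
        (mul_nonneg (sq_nonneg _) (sm_nn _ _ _)))
    rw [← add_mul]
    refine mul_le_mul_of_nonneg_right ?_ (sm_nn _ _ _)
    simp only [ch, mul_one, mul_zero, add_zero, zero_add]
    rcases not_and_or.1 (mem_filter.1 hk).2 with h | h
    · exact (far (not_lt.1 h)).trans (le_add_of_nonneg_right (sq_nonneg _))
    · exact (far (not_lt.1 h)).trans (le_add_of_nonneg_left (sq_nonneg _))
  refine le_of_mul_le_mul_left ?_ hN
  nlinarith [mul_nonneg hN.le (D_nn f (u (1, 0))), mul_nonneg hN.le (D_nn f (u (0, 1)))]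

end Fourier

section Bounded

variable {R : Type*} [CommRing R]

abbrev SL (R : Type*) [CommRing R] : Type _ := Matrix.SpecialLinearGroup (Fin 3) R

/-- elementary matrices -/
abbrev tv {i j : Fin 3} (h : i ≠ j) (a : R) : SL R := Matrix.SpecialLinearGroup.transvection h a

theorem stable [Finite R] {a d : R} (h : IsCoprime a d) : ∃ s, IsUnit (a + s * d) := by
  obtain ⟨i, j, hij, e⟩ : ∃ i j : ℕ, i < j ∧ a ^ i = a ^ j := by
    obtain ⟨i, j, hij, e⟩ := Finite.exists_ne_map_eq_of_infinite fun n : ℕ => a ^ n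
    exact hij.lt_or_gt.elim (fun h => ⟨i, j, h, e⟩) fun h => ⟨j, i, h, e.symm⟩
  obtain ⟨k, rfl⟩ := Nat.exists_eq_add_of_lt hij
  refine ⟨1 - a ^ (k + 1), by_contra fun hn => ?_⟩
  obtain ⟨M, hM, hm⟩ := exists_max_ideal_of_mem_nonunits (mem_nonunits_iff.2 hn)
  have hp := hM.isPrime
  have h1 : a ∈ M → 1 - a ^ (k + 1) ∉ M := fun ha hs => hp.ne_top ((Ideal.eq_top_iff_one M).2 (by
    simpa using M.add_mem hs (M.pow_mem_of_mem ha (k + 1) k.succ_pos)))
  have h0 : a ^ i * (1 - a ^ (k + 1)) ∈ M := by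
    rw [mul_sub, mul_one, ← pow_add, ← add_assoc, ← e, sub_self]
    exact M.zero_mem
  have ha : a ∈ M := (hp.mem_or_mem h0).elim (hp.mem_of_pow_mem i) fun hs => by
    simpa using M.sub_mem hm (M.mul_mem_right d hs)
  have hd : d ∈ M := (hp.mem_or_mem ((M.add_mem_iff_right ha).1 hm)).resolve_left (h1 ha)
  obtain ⟨x, y, e⟩ := h
  exact hp.ne_top ((Ideal.eq_top_iff_one M).2 (e ▸ M.add_mem (M.mul_mem_left x ha)
    (M.mul_mem_left y hd)))

def row (g : SL R) (i : Fin 3) : R × R × R := (g.1 i 0, g.1 i 1, g.1 i 2)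

theorem mul_tv (g : SL R) {i j : Fin 3} (h : i ≠ j) (a : R) (r c : Fin 3) :
    (g * tv h a).1 r c = g.1 r c + if c = j then a * g.1 r i else 0 := by
  change (g.1 * Matrix.transvection i j a) r c = _
  split_ifs with hc
  · rw [hc, Matrix.mul_transvection_apply_same]
  · rw [Matrix.mul_transvection_apply_of_ne _ _ _ _ hc, add_zero]

theorem det_row (g : SL R) {a b c d e f p q r : R} (h0 : row g 0 = (a, b, c))
    (h1 : row g 1 = (d, e, f)) (h2 : row g 2 = (p, q, r)) :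
    a * (e * r - f * q) - b * (d * r - f * p) + c * (d * q - e * p) = 1 := by
  have := g.2
  rw [Matrix.det_fin_three] at this
  simp only [row, Prod.mk.injEq] at h0 h1 h2
  obtain ⟨rfl, rfl, rfl⟩ := h0
  obtain ⟨rfl, rfl, rfl⟩ := h1
  obtain ⟨rfl, rfl, rfl⟩ := h2
  linear_combination this

/-- every element is a product of thirteen elementary matrices -/
theorem bounded [Finite R] (P : ℕ → SL R → Prop) (h1 : P 0 1)
    (step : ∀ n g i j (h : i ≠ j) a, P n (g * tv h a) → P (n + 1) g) (g : SL R) : P 13 g := by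
  have A2 : ∀ g : SL R, row g 0 = (1, 0, 0) → row g 1 = (0, 1, 0) → P 2 g := fun g h0 h1' => by
    have hd := det_row g h0 h1' rfl
    simp only [row, Prod.mk.injEq] at h0 h1'
    refine step _ _ 2 0 (by decide) (-g.1 2 0) (step _ _ 2 1 (by decide) (-g.1 2 1) ?_)
    have h2 : g.1 2 2 = 1 := by linear_combination hd
    convert h1
    ext r c
    fin_cases r <;> fin_cases c <;> simp [-Matrix.SpecialLinearGroup.coe_mul, mul_tv, h0, h1', h2]
  have A6 : ∀ g : SL R, row g 0 = (1, 0, 0) → IsUnit (g.1 1 1) → P 6 g := fun g h0 hu => by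
    obtain ⟨e, he⟩ := hu.exists_left_inv
    simp only [row, Prod.mk.injEq] at h0
    refine step _ _ 1 2 (by decide) ((1 - g.1 1 2) * e) (step _ _ 2 1 (by decide) (1 - g.1 1 1)
      (step _ _ 1 2 (by decide) (-1) (step _ _ 1 0 (by decide) (-g.1 1 0) (A2 _ ?_ ?_)))) <;>
      simp only [row, mul_tv] <;> simp [h0, mul_assoc, he]
  have A7 : ∀ g : SL R, row g 0 = (1, 0, 0) → P 7 g := fun g h0 => by
    have hd := det_row g h0 rfl rfl
    obtain ⟨s, hs⟩ := stable (a := g.1 1 1) (d := g.1 1 2)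
      ⟨g.1 2 2, -g.1 2 1, by linear_combination hd⟩
    simp only [row, Prod.mk.injEq] at h0
    refine step _ _ 2 1 (by decide) s (A6 _ ?_ ?_) <;>
      simp [-Matrix.SpecialLinearGroup.coe_mul, row, mul_tv, h0, hs]
  have A11 : ∀ g : SL R, IsUnit (g.1 0 0) → P 11 g := fun g hu => by
    obtain ⟨e, he⟩ := hu.exists_left_inv
    refine step _ _ 0 1 (by decide) ((1 - g.1 0 1) * e) (step _ _ 1 0 (by decide) (1 - g.1 0 0)
      (step _ _ 0 1 (by decide) (-1) (step _ _ 0 2 (by decide) (-g.1 0 2) (A7 _ ?_))))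
    simp only [row, mul_tv]
    simp [mul_assoc, he]
  have hd := det_row g rfl rfl rfl
  obtain ⟨s, hs⟩ := stable (a := g.1 0 0)
    (d := (g.1 1 2 * g.1 2 0 - g.1 1 0 * g.1 2 2) * g.1 0 1 +
      (g.1 1 0 * g.1 2 1 - g.1 1 1 * g.1 2 0) * g.1 0 2)
    ⟨g.1 1 1 * g.1 2 2 - g.1 1 2 * g.1 2 1, 1, by linear_combination hd⟩
  refine step _ _ 1 0 (by decide) (s * (g.1 1 2 * g.1 2 0 - g.1 1 0 * g.1 2 2))
    (step _ _ 2 0 (by decide) (s * (g.1 1 0 * g.1 2 1 - g.1 1 1 * g.1 2 0)) (A11 _ ?_))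
  simp only [mul_tv, if_true, Fin.reduceEq, if_false, add_zero]
  rwa [mul_add, ← add_assoc, ← mul_assoc, ← mul_assoc] at hs

theorem tv_comm {i j k l : Fin 3} (h : i ≠ j) (h' : k ≠ l) (h1 : j ≠ k) (h2 : l ≠ i) (a b : R) :
    tv h a * tv h' b = tv h' b * tv h a := Subtype.ext <| by
  simp [Matrix.SpecialLinearGroup.transvection_coe, mul_add, add_mul,
    single_mul_single_of_ne _ _ _ _ h1, single_mul_single_of_ne _ _ _ _ h2, add_right_comm]

theorem tv_st {i j k : Fin 3} (hij : i ≠ j) (hjk : j ≠ k) (hik : i ≠ k) (b : R) :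
    tv hij 1 * tv hjk b = tv hik b * tv hjk b * tv hij 1 := Subtype.ext <| by
  simp [Matrix.SpecialLinearGroup.transvection_coe, mul_add, add_mul,
    single_mul_single_of_ne _ _ _ _ hjk.symm, single_mul_single_of_ne _ _ _ _ hik.symm]
  abel

theorem map_tv {S : Type*} [CommRing S] (φ : R →+* S) {i j : Fin 3} (h : i ≠ j) (a : R) :
    Matrix.SpecialLinearGroup.map φ (tv h a) = tv h (φ a) := by
  ext r c
  simp [Matrix.SpecialLinearGroup.transvection_coe, Matrix.one_apply, Matrix.single_apply,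
    apply_ite φ]

end Bounded

/-- reduction of matrices -/
abbrev rd (N : ℕ) : SL ℤ →* SL (ZMod N) :=
  Matrix.SpecialLinearGroup.map (Int.castRingHom (ZMod N))

variable {A : Type*} [Group A] [Fintype A]

theorem root {N : ℕ} [NeZero N] (ψ : SL (ZMod N) →* A) (f : A → ℂ) {B : ℝ}
    (hB : ∀ i j (h : i ≠ j), D f (ψ (tv h 1)) ≤ B) {i k : Fin 3} (hik : i ≠ k) (a : ZMod N) :
    D f (ψ (tv hik a)) ≤ 192 * B := by
  obtain ⟨j, hij, hjk⟩ : ∃ j, i ≠ j ∧ j ≠ k := by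
    revert i k
    decide
  have := rel (u := fun n => ψ (tv hik n.1 * tv hjk n.2)) (s := ψ (tv hij 1))
    (t := ψ (tv hij.symm 1)) (fun n m => ?_) (fun n => ?_) (fun n => ?_) f (a, 0)
  · simp only [Matrix.SpecialLinearGroup.transvection_coeff_zero, mul_one, one_mul] at this
    linarith [hB _ _ hij, hB _ _ hij.symm, hB _ _ hik, hB _ _ hjk]
  · simp only [← map_mul, Prod.fst_add, Prod.snd_add, Matrix.SpecialLinearGroup.transvection_add,
      mul_assoc]
    rw [← mul_assoc (tv hik m.1), tv_comm hik hjk hjk.symm hik.symm, mul_assoc]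
  · simp only [← map_mul, Matrix.SpecialLinearGroup.transvection_add]
    rw [← mul_assoc (tv hij 1), tv_comm hij hik hij.symm hik.symm, mul_assoc _ (tv hij 1),
      tv_st hij hjk hik]
    simp only [mul_assoc]
  · simp only [← map_mul, Matrix.SpecialLinearGroup.transvection_add]
    rw [← mul_assoc (tv hij.symm 1), tv_st hij.symm hik hjk, mul_assoc _ (tv hij.symm 1),
      tv_comm hij.symm hjk hij hjk.symm, tv_comm hjk hik hik.symm hjk.symm]
    simp only [mul_assoc]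

theorem D_one (f : A → ℂ) : D f 1 = 0 := by simp [D]

theorem D_inv (f : A → ℂ) (g : A) : D f g⁻¹ = D f g := by
  rw [D, D, ← Equiv.sum_comp (Equiv.mulRight g)]
  exact sum_congr rfl fun z _ => by rw [Equiv.coe_mulRight, mul_inv_cancel_right, norm_sub_rev]

open Classical in
/-- the indicator function -/
def ind (J : Set A) (z : A) : ℂ := if z ∈ J then 1 else 0

theorem D_mul (J : Set A) (g h : A) : D (ind J) (g * h) ≤ D (ind J) g + D (ind J) h := by
  rw [D, D, D, ← Equiv.sum_comp (Equiv.mulRight g) fun z => ‖ind J (z * h) - ind J z‖ ^ 2,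
    ← sum_add_distrib]
  refine sum_le_sum fun z _ => ?_
  rw [← mul_assoc]
  simp only [Equiv.coe_mulRight, ind]
  split_ifs <;> simp

omit [Group A] in
theorem ncard_eq (S : Set A) : (S.ncard : ℝ) = ∑ z, (ind S z).re := by
  classical
  simp only [ind, apply_ite Complex.re, Complex.one_re, Complex.zero_re, sum_boole]
  rw [← Set.ncard_coe_finset]
  congr 2
  ext
  simp

theorem D_ind (J : Set A) (g : A) : D (ind J) g = 2 * {z ∈ J | z * g ∉ J}.ncard := by
  have e : ∑ z, (ind J (z * g)).re = ∑ z, (ind J z).re :=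
    Equiv.sum_comp (Equiv.mulRight g) fun z => (ind J z).re
  rw [ncard_eq, D, mul_sum, ← add_zero (∑ _, 2 * _), ← sub_self (∑ z, (ind J z).re)]
  nth_rewrite 1 [← e]
  rw [← sum_sub_distrib, ← sum_add_distrib]
  refine sum_congr rfl fun z _ => ?_
  by_cases h : z ∈ J <;> by_cases h' : z * g ∈ J <;> simp [ind, h, h']
  norm_num

theorem exists_far (J : Set A) (h : 2 * J.ncard ≤ Nat.card A) :
    ∃ g, (J.ncard : ℝ) ≤ D (ind J) g := by
  have e : ∑ g, D (ind J) g = 2 * (J.ncard * Jᶜ.ncard) := by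
    simp only [D_ind, ← mul_sum]
    simp only [ncard_eq]
    rw [sum_comm, sum_mul]
    congr 1
    refine sum_congr rfl fun z _ => ?_
    rw [← Equiv.sum_comp (Equiv.mulLeft z) fun w => (ind Jᶜ w).re, mul_sum]
    refine sum_congr rfl fun g _ => ?_
    by_cases h : z ∈ J <;> by_cases h' : z * g ∈ J <;> simp [ind, h, h']
  have h1 : (J.ncard : ℝ) + Jᶜ.ncard = Nat.card A := by
    exact_mod_cast Set.ncard_add_ncard_compl J
  have h2 : 2 * (J.ncard : ℝ) ≤ Nat.card A := by exact_mod_cast h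
  obtain ⟨g, -, hg⟩ := exists_le_of_sum_le (s := univ) (f := fun _ : A => (J.ncard : ℝ))
    (g := D (ind J)) univ_nonempty (by
      rw [e, sum_const, card_univ, ← Nat.card_eq_fintype_card, nsmul_eq_mul]
      nlinarith [Nat.cast_nonneg (α := ℝ) J.ncard])
  exact ⟨g, hg⟩

theorem word {G : Type*} [Group G] {x y : G} (h : Subgroup.closure {x, y} = ⊤) (g : G) :
    ∃ c : ℝ, 0 ≤ c ∧ ∀ L : G → ℝ, (∀ g, 0 ≤ L g) → L 1 = 0 → (∀ g h, L (g * h) ≤ L g + L h) →
      (∀ g, L g⁻¹ = L g) → L g ≤ c * (L x + L y) := by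
  have hg : g ∈ Subgroup.closure {x, y} := h ▸ Subgroup.mem_top g
  induction hg using Subgroup.closure_induction with
  | mem g hg =>
    refine ⟨1, zero_le_one, fun L h0 _ _ _ => ?_⟩
    rcases hg with hg | hg <;> rw [hg] <;> linarith [h0 x, h0 y]
  | one => exact ⟨0, le_rfl, fun L _ h1 _ _ => by rw [h1, zero_mul]⟩
  | mul g g' _ _ ih ih' =>
    obtain ⟨c, hc, ih⟩ := ih
    obtain ⟨c', hc', ih'⟩ := ih'
    exact ⟨c + c', add_nonneg hc hc', fun L h0 h1 h2 h3 => by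
      linarith [h2 g g', ih L h0 h1 h2 h3, ih' L h0 h1 h2 h3]⟩
  | inv g _ ih =>
    obtain ⟨c, hc, ih⟩ := ih
    exact ⟨c, hc, fun L h0 h1 h2 h3 => h3 g ▸ ih L h0 h1 h2 h3⟩

end Exp

open Exp

/-- reduction modulo `N` is onto -/
theorem red_surj (N : ℕ) [NeZero N] : Function.Surjective
    (Matrix.SpecialLinearGroup.map (n := Fin 3) (Int.castRingHom (ZMod N))) := fun g =>
  bounded (fun _ g => g ∈ (rd N).range) (one_mem _) (fun _ g i j h a hg => by
    obtain ⟨a, rfl⟩ := ZMod.intCast_surjective a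
    exact (Subgroup.mul_mem_cancel_right _
      (MonoidHom.mem_range.2 ⟨tv h a, map_tv _ h a⟩)).1 hg) g

/-- the congruence quotients of `SL(3, ℤ)` are expanders -/
theorem expand {x y : Matrix.SpecialLinearGroup (Fin 3) ℤ} (hxy : Subgroup.closure {x, y} = ⊤) :
    ∃ h : ℝ, 0 < h ∧ ∀ (N : ℕ) (_ : N ≠ 0) (A : Type) [Group A]
      (φ : Matrix.SpecialLinearGroup (Fin 3) ℤ →* A), Function.Surjective φ →
      (Matrix.SpecialLinearGroup.map (n := Fin 3) (Int.castRingHom (ZMod N))).ker ≤ φ.ker →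
      ∀ J : Set A, 2 * J.ncard ≤ Nat.card A →
        h * J.ncard ≤ {z ∈ J | z * φ x ∉ J}.ncard + {z ∈ J | z * φ y ∉ J}.ncard := by
  choose c hc hw using word hxy
  obtain ⟨B, hB⟩ : ∃ B : ℝ, 0 < B ∧ ∀ i j (h : i ≠ j), c (tv h 1) ≤ B := by
    obtain ⟨B, hB⟩ := (Set.finite_range fun p : {p : Fin 3 × Fin 3 // p.1 ≠ p.2} =>
      c (tv p.2 1)).bddAbove
    exact ⟨max B 1, lt_max_of_lt_right one_pos, fun i j h =>
      le_max_of_le_left (hB ⟨⟨(i, j), h⟩, rfl⟩)⟩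
  refine ⟨(4992 * B)⁻¹, inv_pos.2 (mul_pos (by norm_num) hB.1), fun N hN A _ φ hφ hk J hJ => ?_⟩
  have : NeZero N := ⟨hN⟩
  let ψ : SL (ZMod N) →* A := (rd N).liftOfSurjective (red_surj N) ⟨φ, hk⟩
  have hψ : ∀ g, ψ (rd N g) = φ g := fun g =>
    (rd N).liftOfRightInverse_comp_apply _ _ ⟨φ, hk⟩ g
  have hs : Function.Surjective ψ := fun z => let ⟨g, hg⟩ := hφ z; ⟨_, (hψ g).trans hg⟩
  have : Finite A := Finite.of_surjective ψ hs
  have := Fintype.ofFinite A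
  set S := D (ind J) (φ x) + D (ind J) (φ y) with hS
  have h0 : 0 ≤ S := add_nonneg (D_nn _ _) (D_nn _ _)
  have h1 : ∀ i j (h : i ≠ j), D (ind J) (ψ (tv h 1)) ≤ B * S := fun i j h => by
    rw [← map_one (Int.castRingHom (ZMod N)), ← map_tv, hψ]
    exact (hw _ (fun g => D (ind J) (φ g)) (fun _ => D_nn _ _) (by rw [map_one, D_one])
      (fun g h => by rw [map_mul]; exact D_mul _ _ _) fun g => by rw [map_inv, D_inv]).trans
      (mul_le_mul_of_nonneg_right (hB.2 i j h) h0)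
  obtain ⟨z, hz⟩ := exists_far J hJ
  obtain ⟨g, rfl⟩ := hs z
  have h2 := bounded (fun n g => D (ind J) (ψ g) ≤ n * (192 * (B * S)))
    (by simp [D_one]) (fun n g i j h a hg => by
      have := D_mul J (ψ (g * tv h a)) (ψ (tv h a))⁻¹
      rw [D_inv, map_mul, mul_inv_cancel_right, ← map_mul] at this
      push_cast
      linarith [root ψ (ind J) h1 h a]) g
  rw [inv_mul_le_iff₀ (mul_pos (by norm_num) hB.1)]
  rw [hS, D_ind J (φ x), D_ind J (φ y)] at h2
  push_cast at h2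
  linarith

/-- the two elements generate -/
theorem closure_xy : Subgroup.closure {xx, yy} = ⊤ := by
  have hz : zz ∈ Subgroup.closure {xx, yy} :=
    (Subgroup.inv_mem_iff _).1 (Subgroup.subset_closure (Or.inl rfl))
  have hy : yy ∈ Subgroup.closure {xx, yy} := Subgroup.subset_closure (Or.inr rfl)
  generalize Subgroup.closure {xx, yy} = K at hz hy
  have hZ := K.inv_mem hz
  have hY := K.inv_mem hy
  have t : ∀ (g : SL3 ℤ) {i j : Fin 3} (h : i ≠ j), g.1 = Matrix.transvection i j 1 → g ∈ K →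
      tv h 1 ∈ K := fun g _ _ h e hg => (Subtype.ext e : g = tv h 1) ▸ hg
  refine sl3_gen fun i j h => ?_
  fin_cases i <;> fin_cases j
  · exact absurd rfl h
  · exact t (zz * yy⁻¹ * zz * zz * yy * zz⁻¹)⁻¹ h (by decide +kernel)
      (K.inv_mem (by apply_rules [K.mul_mem]))
  · exact t (yy * yy) h (by decide +kernel) (K.mul_mem hy hy)
  · exact t (yy⁻¹ * zz * yy * yy * zz⁻¹ * yy) h (by decide +kernel) (by apply_rules [K.mul_mem])
  · exact absurd rfl h
  · exact t (zz⁻¹ * yy * zz * zz * yy⁻¹ * zz)⁻¹ h (by decide +kernel)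
      (K.inv_mem (by apply_rules [K.mul_mem]))
  · exact t (zz * zz) h (by decide +kernel) (K.mul_mem hz hz)
  · exact t (yy * zz⁻¹ * yy * yy * zz * yy⁻¹) h (by decide +kernel) (by apply_rules [K.mul_mem])
  · exact absurd rfl h

theorem bd_eq {A : Type} [Group A] (J : Finset A) (g : A) :
    {z ∈ (J : Set A) | z * g ∉ (J : Set A)}.ncard = bd J g := by
  rw [bd, ← Set.ncard_coe_finset]
  congr 1
  ext
  simp

/-- expansion in the form used for the lower bound -/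
theorem expK : ∃ K : ℕ, ∀ N : ℕ, N ≠ 0 → Function.Surjective (red (ZMod N)) ∧
    ∀ J : Finset (SL3 (ZMod N)), Nat.card (SL3 (ZMod N)) < 8 * J.card →
      2 * J.card ≤ Nat.card (SL3 (ZMod N)) →
      Nat.card (SL3 (ZMod N)) ≤ K * (bd J (red _ xx) + bd J (red _ yy)) := by
  obtain ⟨h, h0, H⟩ := expand closure_xy
  obtain ⟨K, hK⟩ := exists_nat_ge (8 / h)
  refine ⟨K, fun N hN => ?_⟩
  have : NeZero N := ⟨hN⟩
  refine ⟨red_surj N, fun J h1 h2 => ?_⟩
  have h3 := H N hN _ (red (ZMod N)) (red_surj N) le_rfl J (by rwa [Set.ncard_coe_finset])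
  rw [bd_eq, bd_eq, Set.ncard_coe_finset] at h3
  have h4 : (Nat.card (SL3 (ZMod N)) : ℝ) < 8 * J.card := by exact_mod_cast h1
  rw [div_le_iff₀ h0] at hK
  have h5 : (Nat.card (SL3 (ZMod N)) : ℝ) ≤
      K * ((bd J (red _ xx) : ℝ) + (bd J (red _ yy) : ℝ)) := by
    nlinarith [mul_le_mul_of_nonneg_left h3 (Nat.cast_nonneg (α := ℝ) K),
      mul_le_mul_of_nonneg_right hK (Nat.cast_nonneg (α := ℝ) J.card)]
  exact_mod_cast h5

end Pool.Agent.Lib.MP_34a149_al.RG
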