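import Pool.Agent.Lib.MP_34a149_al.RG.TInit
import Pool.Agent.Lib.MP_34a149_al.RG.BTree
import Pool.Agent.Lib.MP_34a149_al.RG.PXY

-- part Pool.Agent.Lib.MP_34a149_al.RG.TTset
section

/-!
Characteristic subtrees of pieces.
-/

namespace Pool.Agent.RG

open Relation MulAction

variable {H V Y : Type}

variable [Group H] [MulAction H V] {D : V → V → Prop} {P : V → Prop}
  {W : V → Subgroup H → ℕ → Prop} {U U' : Subgroup H} {S S' : Set V} {q q' : ℤ}

omit [Group H] [MulAction H V] in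
theorem tt_symm {a b : V} (h : ReflTransGen (fun a b => Adj D a b ∧ a ∈ S ∧ b ∈ S) a b) :
    ReflTransGen (fun a b => Adj D a b ∧ a ∈ S ∧ b ∈ S) b a := by
  induction h with
  | refl => exact .refl
  | tail _ h ih => exact ih.head ⟨h.1.symm, h.2.2, h.2.1⟩

theorem tt_map {α β : Type} (f : α → β) {r : α → α → Prop} {r' : β → β → Prop}
    (h : ∀ a b, r a b → r' (f a) (f b)) {a b : α} (e : EqvGen r a b) : EqvGen r' (f a) (f b) := by
  induction e with
  | rel a b e => exact .rel _ _ (h a b e)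
  | refl => exact .refl _
  | symm _ _ _ ih => exact ih.symm _ _
  | trans _ _ _ _ _ i j => exact i.trans _ _ _ j

theorem tt_leaf (h : ConnIn D S) (hS : S ⊆ S') (hv : ∀ v ∈ S', v ∈ S ∨ ∃ s ∈ S, Adj D v s) :
    ConnIn D S' := by
  have key : ∀ v ∈ S', ∃ s ∈ S, ReflTransGen (fun a b => Adj D a b ∧ a ∈ S' ∧ b ∈ S') v s :=
    fun v h => (hv v h).elim (fun a => ⟨v, a, .refl⟩) fun ⟨s, a, b⟩ =>
      ⟨s, a, .single ⟨b, h, hS a⟩⟩
  intro u hu v hv
  obtain ⟨s, a, b⟩ := key u hu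
  obtain ⟨s', a', b'⟩ := key v hv
  exact (b.trans (ReflTransGen.mono (fun _ _ e => ⟨e.1, hS e.2.1, hS e.2.2⟩) _ _
    (h s a s' a'))).trans (tt_symm b')

theorem Good.mono (g : Good D W U S q) (h : q ≤ q') : Good D W U S q' := by
  obtain ⟨I, n, E, g⟩ := g
  exact ⟨I, n, E, { g with cost := g.cost.trans (by omega) }⟩

theorem Good.ne (g : Good D W U S q) : S.Nonempty := by
  obtain ⟨I, n, E, g⟩ := g
  exact g.ne

theorem Good.inv (g : Good D W U S q) : ∀ u ∈ U, ∀ s ∈ S, u • s ∈ S := by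
  obtain ⟨I, n, E, g⟩ := g
  exact g.inv

theorem Good.connIn (hD : ∀ (h : H) u v, D u v → D (h • u) (h • v)) (g : Good D W U S q) :
    ConnIn D S := by
  obtain ⟨I, n, E, g⟩ := g
  intro s hs s' hs'
  have h := g.conn s hs s' hs'
  clear hs hs'
  induction h with
  | rel a b h =>
    obtain ⟨e, he, u, hu, rfl, rfl⟩ := h
    obtain ⟨h1, h2, h3, -⟩ := g.Esub e he
    exact .single ⟨Or.inl (hD _ _ _ h1), g.inv u hu _ h2, g.inv u hu _ h3⟩
  | refl => exact .refl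
  | symm _ _ _ ih => exact tt_symm ih
  | trans _ _ _ _ _ i j => exact i.trans j

theorem Good.conj (w : WSet D P W) (g : Good D W U S q) (h : H)
    (hU : ∀ k, k ∈ U' ↔ h⁻¹ * k * h ∈ U) (hS : ∀ v, v ∈ S' ↔ h⁻¹ • v ∈ S) : Good D W U' S' q := by
  obtain ⟨I, n, E, g⟩ := g
  have h1 : ∀ s ∈ S, h • s ∈ S' := fun s hs => (hS _).2 (by rwa [inv_smul_smul])
  have h2 : ∀ u ∈ U, h * u * h⁻¹ ∈ U' := fun u hu => (hU _).2 (by simpa [mul_assoc] using hu)
  have h3 : ∀ (k : H) (a b : V), k • h • a = h • b → (h⁻¹ * k * h) • a = b := fun k a b e => by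
    rw [mul_smul, mul_smul, e, inv_smul_smul]
  let f := (MulAction.toPerm (β := V) h).toEmbedding
  refine ⟨I.map f, fun v => n (h⁻¹ • v), E.map (f.prodMap f), g.ne.imp' _ h1, fun u hu s hs => ?_,
    ?_, fun s hs => ?_, ?_, ?_, ?_, fun s hs s' hs' => ?_, ?_⟩
  · have := g.inv _ ((hU u).1 hu) _ ((hS s).1 hs)
    exact (hS _).2 (by simpa [mul_smul] using this)
  · exact Finset.forall_mem_map.2 fun i hi => h1 i (g.Isub i hi)
  · obtain ⟨i, hi, u, hu, e⟩ := g.cov _ ((hS s).1 hs)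
    refine ⟨h • i, Finset.mem_map_of_mem f hi, _, h2 u hu, ?_⟩
    rw [mul_smul, inv_smul_smul, mul_smul, ← e, smul_inv_smul]
  · exact Finset.forall_mem_map.2 fun i hi => Finset.forall_mem_map.2 fun j hj u hu e =>
      congrArg f (g.sep i hi j hj _ ((hU u).1 hu) (h3 u j i e.symm).symm)
  · refine Finset.forall_mem_map.2 fun i hi => ?_
    change W (h • i) (U' ⊓ stabilizer H (h • i)) (n (h⁻¹ • h • i))
    rw [inv_smul_smul]
    exact w.isW.conj h i _ _ _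
      (fun k hk => Subgroup.mem_inf.2 ⟨(hU k).1 hk.1, h3 k i i hk.2⟩) (g.wt i hi)
  · refine Finset.forall_mem_map.2 fun e he => ?_
    obtain ⟨a1, a2, a3, a4⟩ := g.Esub e he
    exact ⟨w.inv h _ _ a1, h1 _ a2, h1 _ a3, fun k b1 b2 =>
      (hU k).2 (a4 _ (h3 k _ _ b1) (h3 k _ _ b2))⟩
  · have := tt_map (fun v => h • v) (r' := fun a b => ∃ e ∈ E.map (f.prodMap f), ∃ u ∈ U',
      a = u • e.1 ∧ b = u • e.2) ?_ (g.conn _ ((hS s).1 hs) _ ((hS s').1 hs'))
    · simpa only [smul_inv_smul] using this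
    rintro _ _ ⟨e, he, u, hu, rfl, rfl⟩
    refine ⟨_, Finset.mem_map_of_mem _ he, _, h2 u hu, ?_, ?_⟩
    · change _ = _ • h • e.1
      rw [mul_smul, inv_smul_smul, mul_smul]
    · change _ = _ • h • e.2
      rw [mul_smul, inv_smul_smul, mul_smul]
  · rw [Finset.card_map, Finset.card_map, Finset.sum_map]
    refine le_of_eq_of_le (congrArg _ (Finset.sum_congr rfl fun i _ => ?_)) g.cost
    change (n (h⁻¹ • h • i) : ℤ) = _
    rw [inv_smul_smul]

theorem good_point (w : WSet D P W) {β : H} {v : V} (e : β • v = v) :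
    Good D W (Subgroup.zpowers β) {v} 0 := by
  have h : Subgroup.zpowers β ≤ stabilizer H v := Subgroup.zpowers_le.2 e
  refine ⟨{v}, fun _ => 1, ∅, ⟨v, rfl⟩, ?_, by simp, ?_, by simp, ?_, by simp, ?_, by simp⟩
  · rintro u hu _ rfl
    exact h hu
  · rintro _ rfl
    exact ⟨_, Finset.mem_singleton_self _, 1, one_mem _, (one_smul _ _).symm⟩
  · intro i hi
    rw [Finset.mem_singleton.1 hi]
    exact w.isW.mono _ _ _ _ _ inf_le_left le_rfl (w.isW.cyc β v e)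
  · rintro _ rfl _ rfl
    exact .refl _

theorem good_edge (w : WSet D P W) {v p : V} (e : D v p) :
    Good D W (stabilizer H v ⊓ stabilizer H p) {v, p} 0 := by
  classical
  have hb := w.bip v p e
  have hne : v ≠ p := fun h => hb.1 (h ▸ hb.2)
  have h : ∀ u ∈ stabilizer H v ⊓ stabilizer H p, ∀ s ∈ ({v, p} : Set V), u • s = s := by
    rintro u hu _ (rfl | rfl)
    exacts [hu.1, hu.2]
  have c : EqvGen (fun a b => ∃ e ∈ ({(v, p)} : Finset (V × V)),
      ∃ u ∈ stabilizer H v ⊓ stabilizer H p, a = u • e.1 ∧ b = u • e.2) v p :=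
    .rel _ _ ⟨_, Finset.mem_singleton_self _, 1, one_mem _, (one_smul _ _).symm, (one_smul _ _).symm⟩
  refine ⟨{v, p}, fun x => if x = v then 1 else 0, {(v, p)}, ⟨v, Or.inl rfl⟩,
    fun u hu s hs => (h u hu s hs).symm ▸ hs, by simp, fun s hs => ⟨s, by simpa using hs, 1,
      one_mem _, (one_smul _ _).symm⟩, fun i _ j hj u hu a => a.trans (h u hu j (by simpa using hj)),
    ?_, ?_, ?_, by simp [hne]⟩
  · intro i hi
    rcases Finset.mem_insert.1 hi with rfl | hi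
    · rw [if_pos rfl]
      exact w.isW.mono _ _ _ _ _ inf_le_left le_rfl (w.We _ p e)
    · rw [Finset.mem_singleton.1 hi, if_neg hne.symm]
      exact w.WP _ _ hb.2
  · intro a ha
    rw [Finset.mem_singleton.1 ha]
    exact ⟨e, Or.inl rfl, Or.inr rfl, fun k a b => ⟨a, b⟩⟩
  · rintro _ (rfl | rfl) _ (rfl | rfl)
    exacts [.refl _, c, c.symm _ _, .refl _]

theorem Tset_mono (hU : U ≤ U') (hS : S ⊆ S') : Tset D U S ⊆ Tset D U' S' := by
  have h : S1 D U S ⊆ S1 D U' S' := by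
    rintro p (h | ⟨s, a, b, β, c, d⟩)
    exacts [Or.inl (hS h), Or.inr ⟨s, hS a, b, β, hU c, d⟩]
  rintro v (a | ⟨p, a, b⟩)
  exacts [Or.inl (h a), Or.inr ⟨p, h a, b⟩]

theorem tt_S1_conj (hD : ∀ (h : H) u v, D u v → D (h • u) (h • v)) (h : H)
    (hU : ∀ k ∈ U, h * k * h⁻¹ ∈ U') (hS : ∀ v ∈ S, h • v ∈ S') {v : V} (hv : v ∈ S1 D U S) :
    h • v ∈ S1 D U' S' := by
  rcases hv with a | ⟨s, a, b, β, c, d, e, e'⟩
  · exact Or.inl (hS v a)
  · refine Or.inr ⟨_, hS s a, hD h _ _ b, _, hU β c, by simpa using d, ?_, ?_⟩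
    · rw [mul_smul, inv_smul_smul, mul_smul, e]
    · rw [mul_smul, inv_smul_smul, mul_smul, e']

theorem tt_conn1 (w : WSet D P W) (g : Good D W U S q) : ConnIn D (S1 D U S) :=
  tt_leaf (g.connIn w.inv) (fun _ => Or.inl) fun _ hv =>
    hv.imp_right fun ⟨s, a, b, _⟩ => ⟨s, a, Or.inr b⟩

theorem tt_fix (w : WSet D P W) (g : Good D W U S q) {v p : V} (hv : v ∉ S1 D U S)
    (hp : p ∈ S1 D U S) (e : D v p) {β : H} (hβ : β ∈ U) (h : β • v = v) : β • p = p :=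
  lemmaN w.tree (tt_conn1 w g) hv (tt_S1_conj w.inv β
    (fun _ hk => U.mul_mem (U.mul_mem hβ hk) (U.inv_mem hβ)) (g.inv β hβ) hp) hp
    (Or.inl (h ▸ w.inv β _ _ e)) (Or.inl e)

theorem tt_glue (w : WSet D P W) (g : Good D W U S q) (g' : Good D W U' S' q') {s : V}
    (hs : s ∈ S) (hs' : s ∈ S') :
    ∃ U'' S'', Good D W U'' S'' (q + q' + 1) ∧ U ≤ U'' ∧ U' ≤ U'' ∧ S ⊆ S'' ∧ S' ⊆ S'' := by
  obtain ⟨U₃, S₃, e1, e2, e3, e4, e5, -⟩ := glue w.tree w.inv w.isW (fun j => cond j U U')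
    (fun j => cond j S S') (fun j => cond j q q') (fun j => by cases j; exacts [g', g]) true false
    (fun j => by cases j <;> simp) 1 hs hs' (one_smul _ _).symm
  rw [Fintype.sum_bool] at e1
  exact ⟨U₃, S₃, e1, e2, fun k hk => by simpa using e4 k hk, e3, fun t ht => by simpa using e5 t ht⟩

theorem tt_reach (w : WSet D P W) (g : Good D W U S q) {u : V} (hu : u ∈ S1 D U S) :
    ∃ U' S', Good D W U' S' (q + 1) ∧ U ≤ U' ∧ S ⊆ S' ∧ u ∈ S' := by
  rcases hu with h | ⟨s, h, e, -⟩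
  · exact ⟨U, S, g.mono (by omega), le_rfl, subset_rfl, h⟩
  · obtain ⟨U', S', a, b, -, c, d⟩ := tt_glue w g (good_edge w e) h (Or.inl rfl)
    exact ⟨U', S', a.mono (by omega), b, c, d (Or.inr rfl)⟩

theorem Tset_conj (hD : ∀ (h : H) u v, D u v → D (h • u) (h • v)) (h : H)
    (hU : ∀ k ∈ U, h * k * h⁻¹ ∈ U') (hS : ∀ v ∈ S, h • v ∈ S') {v : V} (hv : v ∈ Tset D U S) :
    h • v ∈ Tset D U' S' := by
  rcases hv with a | ⟨p, a, b⟩
  exacts [Or.inl (tt_S1_conj hD h hU hS a), Or.inr ⟨_, tt_S1_conj hD h hU hS a, hD h _ _ b⟩]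

theorem Good.connT (w : WSet D P W) (g : Good D W U S q) : ConnIn D (Tset D U S) :=
  tt_leaf (tt_conn1 w g) (fun _ => Or.inl) fun _ hv => hv.imp_right fun ⟨p, a, b⟩ => ⟨p, a, Or.inl b⟩

/-- An edge fixed by a nontrivial element of `U` with one end in the subtree lies in it. -/
theorem Good.key (w : WSet D P W) (g : Good D W U S q) {β : H} (hβ : β ∈ U) (h1 : β ≠ 1) {a b : V}
    (e : Adj D a b) (ha : β • a = a) (hb : β • b = b) (hT : a ∈ Tset D U S) : b ∈ Tset D U S := by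
  rcases e with e | e
  · by_cases h : a ∈ S1 D U S
    · rcases h with h | ⟨s, -, h, -⟩
      · exact Or.inl (Or.inr ⟨a, h, e, β, hβ, h1, ha, hb⟩)
      · exact ((w.bip _ _ e).1 (w.bip _ _ h).2).elim
    · obtain ⟨p, c, d⟩ := hT.resolve_left h
      exact Or.inl (w.mal β a p b h1 d e ha (tt_fix w g h c d hβ ha) hb ▸ c)
  · exact Or.inr ⟨a, hT.resolve_right fun ⟨_, _, h⟩ => (w.bip _ _ h).1 (w.bip _ _ e).2, e⟩

theorem Good.out (w : WSet D P W) (g : Good D W U S q) {v : V} (hv : v ∈ Tset D U S) (hS : v ∉ S)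
    (hP : ¬ P v) (hU : stabilizer H v ≤ U) : W v (stabilizer H v) 1 := by
  have h : v ∉ S1 D U S := by
    rintro (h | ⟨s, -, h, -⟩)
    exacts [hS h, hP (w.bip _ _ h).2]
  obtain ⟨p, c, d⟩ := hv.resolve_left h
  exact w.isW.mono _ _ _ _ _ (le_inf le_rfl fun k hk => tt_fix w g h c d (hU hk) hk) le_rfl
    (w.We v p d)

theorem Good.reach (w : WSet D P W) (g : Good D W U S q) {u : V} (hu : u ∈ Tset D U S) :
    ∃ U' S', Good D W U' S' (q + 2) ∧ U ≤ U' ∧ S ⊆ S' ∧ u ∈ S' := by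
  rcases hu with h | ⟨p, h, e⟩
  · obtain ⟨U', S', a, b⟩ := tt_reach w g h
    exact ⟨U', S', a.mono (by omega), b⟩
  · obtain ⟨U', S', a, b, c, d⟩ := tt_reach w g h
    obtain ⟨U'', S'', a', b', -, c', d'⟩ := tt_glue w a (good_edge w e) d (Or.inr rfl)
    exact ⟨U'', S'', a'.mono (by omega), b.trans b', c.trans c', d' (Or.inl rfl)⟩

theorem Good.join (w : WSet D P W) (g : Good D W U S q) (g' : Good D W U' S' q') {u : V}
    (hu : u ∈ Tset D U S) (hu' : u ∈ Tset D U' S') :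
    ∃ U'' S'', Good D W U'' S'' (q + q' + 5) ∧ U ≤ U'' ∧ U' ≤ U'' ∧ S ⊆ S'' ∧ S' ⊆ S'' := by
  obtain ⟨U₁, S₁, a, b, c, d⟩ := g.reach w hu
  obtain ⟨U₂, S₂, a', b', c', d'⟩ := g'.reach w hu'
  obtain ⟨U₃, S₃, e1, e2, e3, e4, e5⟩ := tt_glue w a a' d d'
  exact ⟨U₃, S₃, e1.mono (by omega), b.trans e2, b'.trans e3, c.trans e4, c'.trans e5⟩

theorem Good.self (w : WSet D P W) (g : Good D W U S q) {u : V} (β : H)
    (hu : u ∈ Tset D U S) (hu' : β⁻¹ • u ∈ Tset D U S) :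
    ∃ U'' S'', Good D W U'' S'' (q + 5) ∧ U ≤ U'' ∧ β ∈ U'' ∧ S ⊆ S'' := by
  obtain ⟨U₁, S₁, a, b, c, d⟩ := g.reach w hu
  obtain ⟨U₂, S₂, a', b', c', d'⟩ := a.reach w (Tset_mono b c hu')
  obtain ⟨U₃, S₃, e1, e2, e3, -, -, e4⟩ := glue w.tree w.inv w.isW (fun _ : Unit => U₂)
    (fun _ => S₂) (fun _ => q + 2 + 2) (fun _ => a') () () (fun _ => Or.inl rfl) β (c' d) d'
    (smul_inv_smul β u).symm
  rw [Fintype.sum_unique] at e1
  exact ⟨U₃, S₃, e1.mono (by omega), (b.trans b').trans e2, e4 rfl, (c.trans c').trans e3⟩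

/-- The weights of full stabilisers carried by a piece. -/
theorem Good.bound (w : WSet D P W) (g : Good D W U S q) (R : Finset V)
    (hR : ∀ v ∈ R, ∀ v' ∈ R, ∀ h : H, v = h • v' → v = v')
    (hS : ∀ v ∈ R, ∃ h : H, ∃ s ∈ S, v = h • s ∧ stabilizer H s ≤ U) :
    ∃ m : V → ℕ, (∀ v ∈ R, W v (stabilizer H v) (m v)) ∧ ∑ v ∈ R, (m v : ℤ) ≤ q + 1 := by
  classical
  obtain ⟨I, n, E, g⟩ := g
  have h1 : ∀ v ∈ R, ∃ i ∈ I, ∃ k : H, v = k • i ∧ stabilizer H i ≤ U := fun v hv => by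
    obtain ⟨h, s, hs, e, a⟩ := hS v hv
    obtain ⟨i, hi, u, hu, rfl⟩ := g.cov s hs
    refine ⟨i, hi, h * u, by rw [e, mul_smul], fun k hk => ?_⟩
    have : u * k * u⁻¹ ∈ U := a (show _ • _ = _ by
      rw [mul_smul, inv_smul_smul, mul_smul, show k • i = i from hk])
    exact (U.mul_mem_cancel_left hu).1 ((U.mul_mem_cancel_right (U.inv_mem hu)).1 this)
  choose! f f1 k f2 f3 using h1
  choose! ι i1 a i2 i3 using g.cov
  have h2 : ∀ u ∈ U, ∀ s ∈ S, ι (u • s) = ι s := fun u hu s hs => by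
    have hs' := g.inv u hu s hs
    refine g.sep _ (i1 _ hs') _ (i1 s hs) _
      (U.mul_mem (U.mul_mem (U.inv_mem (i2 _ hs')) hu) (i2 s hs)) ?_
    rw [mul_smul, ← i3 s hs, mul_smul, eq_inv_smul_iff, ← i3 _ hs']
  obtain ⟨s₀, hs₀⟩ := g.ne
  have h3 := conn_count (fun e : V × V => ι e.1) (fun e => ι e.2) E I {ι s₀} fun i hi => by
    have hi' := g.Isub i hi
    refine ⟨_, rfl, ?_⟩
    rw [g.sep i hi _ (i1 i hi') _ (i2 i hi') (i3 i hi')]
    refine tt_map ι ?_ (g.conn s₀ hs₀ i hi')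
    rintro _ _ ⟨e, he, u, hu, rfl, rfl⟩
    exact ⟨e, he, h2 u hu _ (g.Esub e he).2.1, h2 u hu _ (g.Esub e he).2.2.1⟩
  have h4 := h3.trans (Finset.card_filter_le _ _)
  have h5 := ((Finset.card_le_card (s := I) fun i hi => by
    by_cases h : i = ι s₀
    exacts [h ▸ Finset.mem_insert_self _ _,
      Finset.mem_insert_of_mem (Finset.mem_filter.2 ⟨hi, h⟩)]).trans
    (Finset.card_insert_le (ι s₀) _)).trans (Nat.add_le_add_right h4 1)
  refine ⟨fun v => n (f v), fun v hv => ?_, ?_⟩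
  · have := w.isW.conj (k v) (f v) _ (stabilizer H v) _ (fun c hc => ?_) (g.wt _ (f1 v hv))
    · rwa [← f2 v hv] at this
    have : (k v)⁻¹ * c * k v ∈ stabilizer H (f v) := show _ • _ = _ by
      rw [mul_smul, ← f2 v hv, mul_smul, show c • v = v from hc, inv_smul_eq_iff, ← f2 v hv]
    exact ⟨f3 v hv this, this⟩
  · have h6 : ∑ v ∈ R, (n (f v) : ℤ) ≤ ∑ i ∈ I, (n i : ℤ) := by
      rw [← Finset.sum_image (f := fun i => (n i : ℤ)) (g := f) fun v hv v' hv' e =>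
        hR v hv v' hv' (k v * (k v')⁻¹) (by
          rw [mul_smul, ← inv_smul_eq_iff, eq_inv_smul_iff, inv_smul_eq_iff.2 (f2 v hv), e,
            ← f2 v' hv'])]
      exact Finset.sum_le_sum_of_subset_of_nonneg (Finset.image_subset_iff.2 f1)
        fun _ _ _ => by positivity
    have := g.cost
    beta_reduce
    omega

end Pool.Agent.RG
end

-- part Pool.Agent.Lib.MP_34a149_al.RG.TW1
section

/-!
Merging pieces of an outer state.
-/

namespace Pool.Agent.RG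

open Relation MulAction

variable {H V Y : Type}

variable [Group H] [MulAction H V] [MulAction H Y] {D : V → V → Prop} {P : V → Prop}
  {W : V → Subgroup H → ℕ → Prop} {φ : Y → V} {ρ : IRel H Y} {S : Y → Set V} {Tr : Y → Prop}
  {q : Y → ℤ} {I : Finset Y}

theorem TW1_tr {p : Y} (t : Tr p) : TT D φ ρ S Tr p = {φ p} := if_pos t

theorem TW1_nt {p : Y} (t : ¬ Tr p) : TT D φ ρ S Tr p = Tset D (ρ.stab p) (S p) := if_neg t

theorem TW1_stab {z p : Y} {h β : H} (e : ρ.r (h • z) p) (e' : ρ.r p (β • z)) :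
    β⁻¹ * h ∈ ρ.stab z := by
  rw [IRel.mem_stab, mul_smul]
  exact ρ.symm (ρ.inv' β (ρ.symm (ρ.trans e e')))

theorem OP.pos (o : OP D W φ ρ S Tr q I) (p : Y) : φ p ∈ TT D φ ρ S Tr p := by
  by_cases t : Tr p
  · rw [TW1_tr t]
    rfl
  · rw [TW1_nt t]
    exact (o.good p t).2

theorem OP.TT_rel (o : OP D W φ ρ S Tr q I) {p p' : Y} (e : ρ.r p p') :
    TT D φ ρ S Tr p = TT D φ ρ S Tr p' := by
  by_cases t : Tr p
  · have t' := o.Trorb p p' (IRel.orb_of_r e) t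
    rw [TW1_tr t, TW1_tr t', ← (o.triv p t).2.1, ← (o.triv p' t').2.1, o.Srel p p' e]
  · have t' : ¬ Tr p' := fun k => t (o.Trorb p' p (IRel.orb_of_r e).symm k)
    rw [TW1_nt t, TW1_nt t', IRel.stab_eq e, o.Srel p p' e]

theorem OP.TT_smul (w : WSet D P W) (hφ : ∀ (h : H) p, φ (h • p) = h • φ p)
    (o : OP D W φ ρ S Tr q I) (h : H) {p : Y} {v : V} (hv : v ∈ TT D φ ρ S Tr p) :
    h • v ∈ TT D φ ρ S Tr (h • p) := by
  by_cases t : Tr p
  · rw [TW1_tr t] at hv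
    rw [TW1_tr (o.Trorb p _ (ρ.orb_smul h p).symm t), hφ, show v = φ p from hv]
    rfl
  · rw [TW1_nt t] at hv
    rw [TW1_nt fun k => t (o.Trorb _ p (ρ.orb_smul h p) k)]
    exact Tset_conj w.inv h (fun k hk => IRel.mem_stab_smul.2 (by simpa [mul_assoc] using hk))
      (o.Sinv h p) hv

theorem TW1_back (w : WSet D P W) (hφ : ∀ (h : H) p, φ (h • p) = h • φ p)
    (o : OP D W φ ρ S Tr q I) {h : H} {p y : Y} (e : ρ.r p (h • y)) {v : V}
    (hv : v ∈ TT D φ ρ S Tr p) : h⁻¹ • v ∈ TT D φ ρ S Tr y := by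
  rw [o.TT_rel e] at hv
  simpa using o.TT_smul w hφ h⁻¹ hv

theorem TW1_S (hφ : ∀ (h : H) p, φ (h • p) = h • φ p) (o : OP D W φ ρ S Tr q I) {h : H} {p y : Y}
    (e : ρ.r p (h • y)) (t : Tr y) : S p = {h • φ y} := by
  rw [o.Srel _ _ e, (o.triv _ (o.Trorb y _ (ρ.orb_smul h y).symm t)).2.1, hφ]

open Classical in
/-- General merge into a nontrivial piece `(B, S₀, q₀)`. -/
theorem OP.merge0 (w : WSet D P W) (hφ : ∀ (h : H) p, φ (h • p) = h • φ p)
    (o : OP D W φ ρ S Tr q I) {z z' : Y} {B : Subgroup H} (a : ρ.Adm z z' B) {S₀ : Set V} {q₀ : ℤ}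
    (g : Good D W B S₀ q₀) (hz : TT D φ ρ S Tr z ⊆ Tset D B S₀)
    (hz' : TT D φ ρ S Tr z' ⊆ Tset D B S₀) :
    ∃ S' Tr' q' I', OP D W φ (ρ.fold z z' B a) S' Tr' q' I' ∧
      ∑ i ∈ I', q' i = q₀ + ∑ i ∈ I, q i - (if ρ.orb z z' then q z else q z + q z') := by
  obtain ⟨r1, r2⟩ := o.reps.fold a
  have k1 := IRel.fold_stab a
  have k2 := fun p q => IRel.fold_r_of_not a (p := p) (q := q)
  have k3 := fun p => IRel.fold_stab_of_not a (p := p)
  have k4 : ∀ p, (ρ.fold z z' B a).orb p z → ∃ h : H, (ρ.fold z z' B a).r p (h • z) ∧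
      h⁻¹ • φ p ∈ Tset D B S₀ := by
    intro p hp
    rcases (IRel.fold_orb a).1 hp with ⟨h, e⟩ | ⟨h, e⟩
    · exact ⟨h, IRel.fold_le a e, hz (TW1_back w hφ o e (o.pos p))⟩
    · exact ⟨h, IRel.trans _ (IRel.fold_le a e) (IRel.inv _ h _ _ (IRel.symm _ (IRel.fold_zz a))),
        hz' (TW1_back w hφ o e (o.pos p))⟩
  generalize ρ.fold z z' B a = τ at *
  refine ⟨fun p => if τ.orb p z then {v | ∃ h : H, τ.r p (h • z) ∧ h⁻¹ • v ∈ S₀} else S p,
    fun p => ¬ τ.orb p z ∧ Tr p, fun p => if τ.orb p z then q₀ else q p, _,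
    ⟨r1, ?_, ?_, ?_, ?_, ?_, ?_⟩, ?_⟩
  · intro h p v hv
    by_cases c : τ.orb p z
    · rw [if_pos c] at hv
      rw [if_pos ((τ.orb_smul h p).trans c)]
      obtain ⟨k, e, hk⟩ := hv
      exact ⟨h * k, by rw [mul_smul]; exact τ.inv h _ _ e, by simpa [mul_smul] using hk⟩
    · rw [if_neg c] at hv
      rw [if_neg fun c' => c ((τ.orb_smul h p).symm.trans c')]
      exact o.Sinv h p v hv
  · intro p p' e
    by_cases c : τ.orb p z
    · rw [if_pos c, if_pos ((IRel.orb_of_r e).symm.trans c)]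
      ext v
      exact ⟨fun ⟨k, e', hk⟩ => ⟨k, τ.trans (τ.symm e) e', hk⟩,
        fun ⟨k, e', hk⟩ => ⟨k, τ.trans e e', hk⟩⟩
    · rw [if_neg c, if_neg fun c' => c ((IRel.orb_of_r e).trans c')]
      exact o.Srel p p' ((k2 p p' c).1 e)
  · rintro p p' ⟨h, e⟩ ⟨c, t⟩
    exact ⟨fun c' => c (IRel.orb.trans ⟨h, e⟩ c'), o.Trorb p p' ⟨h, (k2 _ _ c).1 e⟩ t⟩
  · rintro p p' ⟨h, e⟩
    by_cases c : τ.orb p z
    · rw [if_pos c, if_pos ((IRel.orb.symm ⟨h, e⟩).trans c)]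
    · rw [if_neg c, if_neg fun c' => c (IRel.orb.trans ⟨h, e⟩ c')]
      exact o.qorb p p' ⟨h, (k2 _ _ c).1 e⟩
  · rintro p ⟨c, t⟩
    rw [if_neg c, if_neg c, k3 p c]
    exact o.triv p t
  · intro p hp
    by_cases c : τ.orb p z
    · rw [if_pos c, if_pos c]
      obtain ⟨h, e, hT⟩ := k4 p c
      have hU : ∀ k, k ∈ τ.stab p ↔ h⁻¹ * k * h ∈ B := fun k => by
        rw [IRel.stab_eq e, IRel.mem_stab_smul, k1]
      refine ⟨g.conj w h hU fun v => ⟨?_, fun hv => ⟨h, e, hv⟩⟩, ?_⟩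
      · rintro ⟨k, e', hk⟩
        have := g.inv _ (k1 ▸ TW1_stab (τ.symm e') e) _ hk
        simpa [mul_smul] using this
      · have := Tset_conj (U' := τ.stab p)
          (S' := {v | ∃ h : H, τ.r p (h • z) ∧ h⁻¹ • v ∈ S₀}) w.inv h
          (fun k hk => (hU _).2 (by simpa [mul_assoc] using hk))
          (fun v hv => ⟨h, e, by simpa using hv⟩) hT
        simpa using this
    · rw [if_neg c, if_neg c, k3 p c]
      exact o.good p fun t => hp ⟨c, t⟩
  · rw [Finset.sum_insert (by simp [τ.orb_refl z]), if_pos (τ.orb_refl z),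
      Finset.sum_congr rfl fun i hi => if_neg (Finset.mem_filter.1 hi).2, r2 q o.qorb]
    ring

/-- Merging two free points of different orbits. -/
theorem OP.merge1 (hφ : ∀ (h : H) p, φ (h • p) = h • φ p) (o : OP D W φ ρ S Tr q I) {z z' : Y}
    (t : Tr z) (t' : Tr z') (e : φ z = φ z') (hn : ¬ ρ.orb z z') :
    ∃ (a : ρ.Adm z z' ⊥) (I' : Finset Y), OP D W φ (ρ.fold z z' ⊥ a) S Tr q I' ∧
      ∑ i ∈ I', q i = ∑ i ∈ I, q i + 5 := by
  classical
  have a : ρ.Adm z z' ⊥ :=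
    ⟨(o.triv z t).1.le, (o.triv z' t').1.le, fun h k => absurd ⟨h⁻¹, ρ.inv' h k⟩ hn⟩
  obtain ⟨r1, r2⟩ := o.reps.fold a
  have tr : ∀ {p : Y} {h : H}, ρ.r p (h • z) ∨ ρ.r p (h • z') → Tr p := by
    rintro p h (k | k)
    · exact o.Trorb z p (IRel.orb.symm ⟨h, k⟩) t
    · exact o.Trorb z' p (IRel.orb.symm ⟨h, k⟩) t'
  have hS : ∀ {p : Y} {h : H}, ρ.r p (h • z) ∨ ρ.r p (h • z') → S p = {h • φ z} := by
    rintro p h (k | k)
    · exact TW1_S hφ o k t
    · rw [e]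
      exact TW1_S hφ o k t'
  refine ⟨a, _, ⟨r1, o.Sinv, ?_, ?_, ?_, ?_, ?_⟩, ?_⟩
  · rintro p p' (k | ⟨h, k, b, e1, e2⟩)
    · exact o.Srel p p' k
    · rw [hS e1, hS e2, inv_mul_eq_one.1 (Subgroup.mem_bot.1 b)]
  · rintro p p' ⟨g, k | ⟨h, k, -, -, e2⟩⟩ tp
    · exact o.Trorb p p' ⟨g, k⟩ tp
    · exact o.Trorb _ p' (ρ.orb_smul g p') (tr e2)
  · rintro p p' ⟨g, k | ⟨h, k, -, e1, e2⟩⟩
    · exact o.qorb p p' ⟨g, k⟩
    · rw [(o.triv p (tr e1)).2.2, (o.triv p' (o.Trorb _ p' (ρ.orb_smul g p') (tr e2))).2.2]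
  · intro p tp
    refine ⟨?_, (o.triv p tp).2⟩
    by_cases c : (ρ.fold z z' ⊥ a).orb p z
    · obtain ⟨h, k⟩ := c
      rw [IRel.stab_eq k, eq_bot_iff]
      intro g hg
      rw [IRel.mem_stab_smul, IRel.fold_stab, Subgroup.mem_bot] at hg
      rw [Subgroup.mem_bot, show g = h * (h⁻¹ * g * h) * h⁻¹ by group, hg]
      group
    · rw [IRel.fold_stab_of_not a c]
      exact (o.triv p tp).1
  · intro p tp
    rw [IRel.fold_stab_of_not a fun c => tp ?_]
    · exact o.good p tp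
    · rcases (IRel.fold_orb a).1 c with ⟨h, k⟩ | ⟨h, k⟩
      · exact tr (Or.inl k)
      · exact tr (Or.inr k)
  · rw [Finset.sum_insert (by simp [IRel.orb_refl]), r2 q o.qorb, if_neg hn, (o.triv z' t').2.2]
    ring

theorem OP.merge (w : WSet D P W) (hφ : ∀ (h : H) p, φ (h • p) = h • φ p)
    (o : OP D W φ ρ S Tr q I) {z z' : Y} {u : V} (hu : u ∈ TT D φ ρ S Tr z)
    (hu' : u ∈ TT D φ ρ S Tr z') (hn : ¬ ρ.r z z') :
    ∃ ρ' S' Tr' q' I', OP D W φ ρ' S' Tr' q' I' ∧ (∀ p p', ρ.r p p' → ρ'.r p p') ∧ ρ'.r z z' ∧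
      ∑ i ∈ I', q' i ≤ ∑ i ∈ I, q i + 5 := by
  classical
  have key : ∀ {B : Subgroup H} (a : ρ.Adm z z' B) {S₀ : Set V} {q₀ : ℤ}, Good D W B S₀ q₀ →
      TT D φ ρ S Tr z ⊆ Tset D B S₀ → TT D φ ρ S Tr z' ⊆ Tset D B S₀ →
      q₀ - (if ρ.orb z z' then q z else q z + q z') ≤ 5 →
      ∃ ρ' S' Tr' q' I', OP D W φ ρ' S' Tr' q' I' ∧ (∀ p p', ρ.r p p' → ρ'.r p p') ∧ ρ'.r z z' ∧
        ∑ i ∈ I', q' i ≤ ∑ i ∈ I, q i + 5 := by
    intro B a S₀ q₀ g h1 h2 h3
    obtain ⟨S', Tr', q', I', o', e⟩ := o.merge0 w hφ a g h1 h2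
    exact ⟨_, S', Tr', q', I', o', fun _ _ => IRel.fold_le a, IRel.fold_zz a, by
      rw [e]; linarith⟩
  have adm : ∀ {B : Subgroup H}, ¬ ρ.orb z z' → ρ.stab z ≤ B → ρ.stab z' ≤ B → ρ.Adm z z' B :=
    fun c l r => ⟨l, r, fun h k => absurd ⟨h⁻¹, ρ.inv' h k⟩ c⟩
  have adm' : ∀ {B : Subgroup H} {β : H}, ρ.r z' (β • z) → ρ.stab z ≤ B → β ∈ B →
      ρ.Adm z z' B := by
    intro B β e l b
    refine ⟨l, fun k hk => ?_, fun h k => ?_⟩
    · rw [IRel.stab_eq e, IRel.mem_stab_smul] at hk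
      simpa [mul_assoc] using B.mul_mem (B.mul_mem b (l hk)) (B.inv_mem b)
    · simpa using B.mul_mem b (l (TW1_stab k e))
  by_cases t : Tr z <;> by_cases t' : Tr z'
  · rw [TW1_tr t] at hu
    rw [TW1_tr t'] at hu'
    have e1 : u = φ z := hu
    have e2 : u = φ z' := hu'
    by_cases c : ρ.orb z z'
    · obtain ⟨β, e⟩ := c.symm
      have e3 := TW1_S hφ o e t
      rw [(o.triv z' t').2.1, Set.singleton_eq_singleton_iff, ← e1, ← e2] at e3
      refine key (adm' e ((o.triv z t).1.le.trans bot_le) (Subgroup.mem_zpowers β))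
        (good_point w e3.symm) ?_ ?_ (by rw [if_pos c, (o.triv z t).2.2]; norm_num)
      · rw [TW1_tr t, ← e1]
        exact fun v hv => Or.inl (Or.inl hv)
      · rw [TW1_tr t', ← e2]
        exact fun v hv => Or.inl (Or.inl hv)
    · obtain ⟨a, I', o', e⟩ := o.merge1 hφ t t' (e1.symm.trans e2) c
      exact ⟨_, S, Tr, q, I', o', fun _ _ => IRel.fold_le a, IRel.fold_zz a, e.le⟩
  · have c : ¬ ρ.orb z z' := fun c => t' (o.Trorb z z' c t)
    refine key (adm c ((o.triv z t).1.le.trans bot_le) le_rfl) (o.good z' t').1 ?_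
      (TW1_nt t').le (by rw [if_neg c, (o.triv z t).2.2]; linarith)
    rw [TW1_tr t] at hu ⊢
    rw [TW1_nt t', show u = φ z from hu] at hu'
    exact Set.singleton_subset_iff.2 hu'
  · have c : ¬ ρ.orb z z' := fun c => t (o.Trorb z' z c.symm t')
    refine key (adm c le_rfl ((o.triv z' t').1.le.trans bot_le)) (o.good z t).1
      (TW1_nt t).le ?_ (by rw [if_neg c, (o.triv z' t').2.2]; linarith)
    rw [TW1_tr t'] at hu' ⊢
    rw [TW1_nt t, show u = φ z' from hu'] at hu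
    exact Set.singleton_subset_iff.2 hu
  · by_cases c : ρ.orb z z'
    · obtain ⟨β, e⟩ := c.symm
      have hb := TW1_back w hφ o e hu'
      rw [TW1_nt t] at hu hb
      obtain ⟨U, S₀, g, l, b, hS⟩ := (o.good z t).1.self w β hu hb
      have s1 : TT D φ ρ S Tr z ⊆ Tset D U S₀ := by
        rw [TW1_nt t]
        exact Tset_mono l hS
      refine key (adm' e l b) g s1 (fun v hv => ?_) (by rw [if_pos c]; linarith)
      have := Tset_conj (U' := U) (S' := S₀) w.inv β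
        (fun k hk => U.mul_mem (U.mul_mem b hk) (U.inv_mem b)) (g.inv β b)
        (s1 (TW1_back w hφ o e hv))
      simpa using this
    · rw [TW1_nt t] at hu
      rw [TW1_nt t'] at hu'
      obtain ⟨U, S₀, g, l, l', hS, hS'⟩ := (o.good z t).1.join w (o.good z' t').1 hu hu'
      refine key (adm c l l') g ?_ ?_ (by rw [if_neg c]; linarith)
      · rw [TW1_nt t]
        exact Tset_mono l hS
      · rw [TW1_nt t']
        exact Tset_mono l' hS'

end Pool.Agent.RG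
end

-- part Pool.Agent.Lib.MP_34a149_al.RG.TW2
section

/-!
The outer folding process and its end state.
-/

namespace Pool.Agent.RG

open Relation MulAction

variable {H V Y : Type}

variable [Group H] [MulAction H V] [MulAction H Y] {D : V → V → Prop} {P : V → Prop}
  {W : V → Subgroup H → ℕ → Prop} {φ : Y → V} {ρ : IRel H Y} {S : Y → Set V} {Tr : Y → Prop}
  {q : Y → ℤ} {I : Finset Y} {A : Finset (Y × Y)}

theorem TW2_step {p q : Y} (h : Tl H A p q ∨ Tl H A q p) :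
    ∃ e ∈ A, ∃ h : H, (p = h • e.1 ∧ q = h • e.2) ∨ (p = h • e.2 ∧ q = h • e.1) := by
  rcases h with ⟨e, he, h, a, b⟩ | ⟨e, he, h, a, b⟩
  · exact ⟨e, he, h, Or.inl ⟨a, b⟩⟩
  · exact ⟨e, he, h, Or.inr ⟨b, a⟩⟩

theorem TW2_tl_inv (B : Finset (Y × Y)) (h : H) (p p' : Y) (e : Tl H B p p') :
    Tl H B (h • p) (h • p') := by
  obtain ⟨a, ha, k, rfl, rfl⟩ := e
  exact ⟨a, ha, h * k, (mul_smul _ _ _).symm, (mul_smul _ _ _).symm⟩

theorem TW2_D (w : WSet D P W) (hφ : ∀ (h : H) p, φ (h • p) = h • φ p)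
    (hA : ∀ a ∈ A, D (φ a.1) (φ a.2)) {e : Y × Y} (he : e ∈ A) (h : H) :
    D (φ (h • e.1)) (φ (h • e.2)) := by
  rw [hφ, hφ]
  exact w.inv h _ _ (hA e he)

theorem TW2_adj (w : WSet D P W) (hφ : ∀ (h : H) p, φ (h • p) = h • φ p)
    (hA : ∀ a ∈ A, D (φ a.1) (φ a.2)) {p p' : Y} (h : Tl H A p p' ∨ Tl H A p' p) :
    Adj D (φ p) (φ p') := by
  obtain ⟨e, he, k, ⟨rfl, rfl⟩ | ⟨rfl, rfl⟩⟩ := TW2_step h
  · exact Or.inl (TW2_D w hφ hA he k)
  · exact Or.inr (TW2_D w hφ hA he k)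

/-- Connectivity of a translate of an arrow gives connectivity of the arrow. -/
theorem TW2_back {ρ' : IRel H Y} (B : Finset (Y × Y)) {e : Y × Y} {h : H} {p p' : Y}
    (hp : (p = h • e.1 ∧ p' = h • e.2) ∨ (p = h • e.2 ∧ p' = h • e.1))
    (c : ρ'.Conn (Tl H B) p p') : ρ'.Conn (Tl H B) e.1 e.2 := by
  have c' := IRel.Conn.smul (TW2_tl_inv B) h⁻¹ c
  rcases hp with ⟨rfl, rfl⟩ | ⟨rfl, rfl⟩
  · simpa using c'
  · have c2 : ρ'.Conn (Tl H B) e.2 e.1 := by simpa using c'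
    exact EqvGen.symm _ _ c2

theorem TW2_caseA [DecidableEq Y] (o : OP D W φ ρ S Tr q I) {p p' : Y}
    (st : Tl H A p p' ∨ Tl H A p' p) (hin : φ p' ∈ TT D φ ρ S Tr p) (hn : ¬ ρ.r p p') :
    ∃ z z' u, ∃ e ∈ A, u ∈ TT D φ ρ S Tr z ∧ u ∈ TT D φ ρ S Tr z' ∧ ¬ ρ.r z z' ∧
      ∀ ρ' : IRel H Y, (∀ p p', ρ.r p p' → ρ'.r p p') → ρ'.r z z' →
        ρ'.Conn (Tl H (A.erase e)) e.1 e.2 := by
  obtain ⟨e, he, h, hp⟩ := TW2_step st
  exact ⟨p, p', φ p', e, he, hin, o.pos p', hn, fun ρ' _ hz =>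
    TW2_back _ hp (EqvGen.rel _ _ (Or.inl hz))⟩

theorem OP.fail [DecidableEq Y] (w : WSet D P W) (hφ : ∀ (h : H) p, φ (h • p) = h • φ p)
    (o : OP D W φ ρ S Tr q I) (hA : ∀ a ∈ A, D (φ a.1) (φ a.2))
    (hd : ¬ ODet φ ρ (TT D φ ρ S Tr) A) :
    ∃ z z' u, ∃ e ∈ A, u ∈ TT D φ ρ S Tr z ∧ u ∈ TT D φ ρ S Tr z' ∧ ¬ ρ.r z z' ∧
      ∀ ρ' : IRel H Y, (∀ p p', ρ.r p p' → ρ'.r p p') → ρ'.r z z' →
        ρ'.Conn (Tl H (A.erase e)) e.1 e.2 := by
  unfold ODet at hd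
  push Not at hd
  obtain ⟨p, t, st, hd⟩ := hd
  by_cases h1 : φ t ∈ TT D φ ρ S Tr p → ρ.r p t
  swap
  · push Not at h1
    exact TW2_caseA o st h1.1 h1.2
  obtain ⟨p', t', st', hr, e1, e2, hn⟩ := hd h1
  obtain ⟨e, he, h, hp⟩ := TW2_step st
  obtain ⟨e', he', h', hp'⟩ := TW2_step st'
  by_cases hee : e' = e
  swap
  · refine ⟨t, t', φ t, e, he, o.pos t, e2 ▸ o.pos t', hn, fun ρ' hle hz => TW2_back _ hp ?_⟩
    have hm : e' ∈ A.erase e := Finset.mem_erase.2 ⟨hee, he'⟩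
    have c : ρ'.Conn (Tl H (A.erase e)) p' t' := by
      rcases hp' with ⟨a, b⟩ | ⟨a, b⟩
      · exact EqvGen.rel _ _ (Or.inr ⟨e', hm, h', a, b⟩)
      · exact EqvGen.symm _ _ (EqvGen.rel _ _ (Or.inr ⟨e', hm, h', b, a⟩))
    exact EqvGen.trans _ _ _ (EqvGen.rel _ _ (Or.inl (hle _ _ hr)))
      (EqvGen.trans _ _ _ c (EqvGen.rel _ _ (Or.inl (ρ'.symm hz))))
  subst hee
  have hβ : p' = (h' * h⁻¹) • p ∧ t' = (h' * h⁻¹) • t := by
    rcases hp with ⟨a, b⟩ | ⟨a, b⟩ <;> rcases hp' with ⟨a', b'⟩ | ⟨a', b'⟩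
    · subst a b a' b'
      simp [mul_smul]
    · exfalso
      have d1 := TW2_D w hφ hA he h
      have d2 := TW2_D w hφ hA he h'
      rw [← a, ← b] at d1
      rw [← a', ← b', ← e1, ← e2] at d2
      exact w.tree.asymm _ _ d1 d2
    · exfalso
      have d1 := TW2_D w hφ hA he h
      have d2 := TW2_D w hφ hA he h'
      rw [← a, ← b] at d1
      rw [← a', ← b', ← e1, ← e2] at d2
      exact w.tree.asymm _ _ d1 d2
    · subst a b a' b'
      simp [mul_smul]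
  generalize h' * h⁻¹ = β at hβ
  obtain ⟨rfl, rfl⟩ := hβ
  have hmem : β ∈ ρ.stab p := ρ.symm hr
  have h1β : β ≠ 1 := by
    rintro rfl
    exact hn (by simpa using ρ.refl t)
  have hT : ¬ Tr p := fun a => h1β (by
    have := (o.triv p a).1
    rw [this] at hmem
    exact Subgroup.mem_bot.1 hmem)
  obtain ⟨g, hpos⟩ := o.good p hT
  have hin : φ t ∈ TT D φ ρ S Tr p := by
    unfold TT
    rw [if_neg hT]
    exact g.key w hmem h1β (TW2_adj w hφ hA st) (by rw [← hφ, ← e1]) (by rw [← hφ, ← e2]) hpos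
  have hpt := h1 hin
  exact (hn (ρ.trans (ρ.symm hpt) (ρ.trans hr (ρ.inv β _ _ hpt)))).elim

theorem OP.fold_all (w : WSet D P W) (hφ : ∀ (h : H) p, φ (h • p) = h • φ p)
    (o : OP D W φ ρ S Tr q I) (hA : ∀ a ∈ A, D (φ a.1) (φ a.2))
    (hc : ∀ p p', ρ.Conn (Tl H A) p p') :
    ∃ ρ' S' Tr' q' I' A', OP D W φ ρ' S' Tr' q' I' ∧ (∀ a ∈ A', D (φ a.1) (φ a.2)) ∧
      (∀ p p', ρ'.Conn (Tl H A') p p') ∧ ODet φ ρ' (TT D φ ρ' S' Tr') A' ∧
      ∑ i ∈ I', q' i + 5 * (A'.card : ℤ) ≤ ∑ i ∈ I, q i + 5 * (A.card : ℤ) := by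
  classical
  induction hN : A.card using Nat.strong_induction_on generalizing ρ S Tr q I A with
  | _ N ih =>
    by_cases hd : ODet φ ρ (TT D φ ρ S Tr) A
    · exact ⟨ρ, S, Tr, q, I, A, o, hA, hc, hd, by rw [hN]⟩
    obtain ⟨z, z', u, e, he, hu, hu', hn, hcon⟩ := o.fail w hφ hA hd
    obtain ⟨ρ', S', Tr', q', I', o', hle, hz, hq⟩ := o.merge w hφ hu hu' hn
    have hcard : (A.erase e).card + 1 = N := by rw [Finset.card_erase_add_one he, hN]
    have hc' : ∀ p p', ρ'.Conn (Tl H (A.erase e)) p p' := by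
      intro p p'
      have c := hc p p'
      induction c with
      | rel a b hab =>
        rcases hab with hab | ⟨a', ha', h, rfl, rfl⟩
        · exact EqvGen.rel _ _ (Or.inl (hle _ _ hab))
        · by_cases hae : a' = e
          · subst hae
            exact IRel.Conn.smul (TW2_tl_inv _) h (hcon ρ' hle hz)
          · exact EqvGen.rel _ _ (Or.inr ⟨a', Finset.mem_erase.2 ⟨hae, ha'⟩, h, rfl, rfl⟩)
      | refl a => exact EqvGen.refl _
      | symm a b _ ih => exact EqvGen.symm _ _ ih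
      | trans a b c _ _ ih ih' => exact EqvGen.trans _ _ _ ih ih'
    obtain ⟨ρ'', S'', Tr'', q'', I'', A'', o'', hA'', hc'', hd'', hq''⟩ :=
      ih (A.erase e).card (by omega) o' (fun a ha => hA a (Finset.mem_of_mem_erase ha)) hc' rfl
    refine ⟨ρ'', S'', Tr'', q'', I'', A'', o'', hA'', hc'', hd'', ?_⟩
    have : ((A.erase e).card : ℤ) + 1 = N := by exact_mod_cast hcard
    linarith

theorem OP.il (w : WSet D P W) (hφ : ∀ (h : H) p, φ (h • p) = h • φ p)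
    (o : OP D W φ ρ S Tr q I) (hA : ∀ a ∈ A, D (φ a.1) (φ a.2))
    (hc : ∀ p p', ρ.Conn (Tl H A) p p') (hd : ODet φ ρ (TT D φ ρ S Tr) A) {p p' : Y} {u : V}
    (hu : u ∈ TT D φ ρ S Tr p) (hu' : u ∈ TT D φ ρ S Tr p') : ρ.r p p' := by
  let Z := {x : Y × V // x.2 ∈ TT D φ ρ S Tr x.1}
  let r : Z → Z → Prop := fun x y => ρ.r x.1.1 y.1.1 ∧ x.1.2 = y.1.2
  let s : Z → Z → Prop := fun x y => Adj D x.1.2 y.1.2 ∧ (ρ.r x.1.1 y.1.1 ∨
    ∃ a b, (Tl H A a b ∨ Tl H A b a) ∧ ρ.r x.1.1 a ∧ x.1.2 = φ a ∧ ρ.r y.1.1 b ∧ y.1.2 = φ b)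
  have hr : Equivalence r := ⟨fun x => ⟨ρ.refl _, rfl⟩, fun h => ⟨ρ.symm h.1, h.2.symm⟩,
    fun h h' => ⟨ρ.trans h.1 h'.1, h.2.trans h'.2⟩⟩
  have hs : ∀ a b, s a b → s b a := by
    rintro x y ⟨ad, h | ⟨a, b, st, h1, h2, h3, h4⟩⟩
    · exact ⟨ad.symm, Or.inl (ρ.symm h)⟩
    · exact ⟨ad.symm, Or.inr ⟨b, a, st.symm, h3, h4, h1, h2⟩⟩
  have hmix : ∀ x y x' y' : Z, ρ.r x.1.1 y.1.1 → ∀ a b, (Tl H A a b ∨ Tl H A b a) →
      ρ.r x'.1.1 a → ρ.r y'.1.1 b → y'.1.2 = φ b → ρ.r x.1.1 x'.1.1 → y.1.2 = y'.1.2 →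
      ρ.r y.1.1 y'.1.1 := by
    intro x y x' y' h a b st h1 h3 h4 hx hy
    have hya : ρ.r y.1.1 a := ρ.trans (ρ.symm h) (ρ.trans hx h1)
    have hin : φ b ∈ TT D φ ρ S Tr a := by
      rw [← o.TT_rel hya, ← h4, ← hy]
      exact y.2
    exact ρ.trans hya (ρ.trans ((hd a b st).1 hin) (ρ.symm h3))
  have hdet : ∀ a b a' b' : Z, s a b → s a' b' → r a a' → b.1.2 = b'.1.2 → r b b' := by
    rintro x y x' y' ⟨-, h | ⟨a, b, st, h1, h2, h3, h4⟩⟩ ⟨-, h' | ⟨a', b', st', h1', h2', h3', h4'⟩⟩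
      ⟨hx, hx2⟩ hy
    · exact ⟨ρ.trans (ρ.symm h) (ρ.trans hx h'), hy⟩
    · exact ⟨hmix x y x' y' h a' b' st' h1' h3' h4' hx hy, hy⟩
    · exact ⟨ρ.symm (hmix x' y' x y h' a b st h1 h3 h4 (ρ.symm hx) hy.symm), hy⟩
    · refine ⟨ρ.trans h3 (ρ.trans ((hd a b st).2 a' b' st' (ρ.trans (ρ.symm h1) (ρ.trans hx h1'))
        (by rw [← h2, ← h2', hx2]) (by rw [← h4, ← h4', hy])) (ρ.symm h3')), hy⟩
  have hfib : ∀ (a : Y) (v v' : V) (hv : v ∈ TT D φ ρ S Tr a) (hv' : v' ∈ TT D φ ρ S Tr a),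
      EqvGen (fun x y => r x y ∨ s x y) (⟨(a, v), hv⟩ : Z) ⟨(a, v'), hv'⟩ := by
    intro a v v' hv hv'
    by_cases hT : Tr a
    · have e1 : v = φ a := by simpa [TT, hT] using hv
      have e2 : v' = φ a := by simpa [TT, hT] using hv'
      exact EqvGen.rel _ _ (Or.inl ⟨ρ.refl _, e1.trans e2.symm⟩)
    · have hE : TT D φ ρ S Tr a = Tset D (ρ.stab a) (S a) := by simp [TT, hT]
      have c := (o.good a hT).1.connT w v (hE ▸ hv) v' (hE ▸ hv')
      induction c with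
      | refl => exact EqvGen.refl _
      | @tail b c _ hbc ih =>
        have hb : b ∈ TT D φ ρ S Tr a := hE ▸ hbc.2.1
        exact EqvGen.trans _ _ _ (ih hb) (EqvGen.rel _ _ (Or.inr ⟨hbc.1, Or.inl (ρ.refl _)⟩))
  have hlift : ∀ a b : Y, ρ.Conn (Tl H A) a b →
      EqvGen (fun x y => r x y ∨ s x y) (⟨(a, φ a), o.pos a⟩ : Z) ⟨(b, φ b), o.pos b⟩ := by
    intro a b c
    induction c with
    | rel a b hab =>
      rcases hab with hab | hab
      · have hb : φ b ∈ TT D φ ρ S Tr a := by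
          rw [o.TT_rel hab]
          exact o.pos b
        exact EqvGen.trans _ _ _ (hfib a _ _ (o.pos a) hb) (EqvGen.rel _ _ (Or.inl ⟨hab, rfl⟩))
      · exact EqvGen.rel _ _ (Or.inr ⟨TW2_adj w hφ hA (Or.inl hab),
          Or.inr ⟨a, b, Or.inl hab, ρ.refl _, rfl, ρ.refl _, rfl⟩⟩)
    | refl a => exact EqvGen.refl _
    | symm a b _ ih => exact EqvGen.symm _ _ ih
    | trans a b c _ _ ih ih' => exact EqvGen.trans _ _ _ ih ih'
  have key := Pool.Agent.RG.il w.tree (fun x : Z => x.1.2) r s hr (fun _ _ h => h.2) hs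
    (fun _ _ h => h.1) hdet (a := ⟨(p, u), hu⟩) (b := ⟨(p', u), hu'⟩)
    (EqvGen.trans _ _ _ (hfib p _ _ hu (o.pos p)) (EqvGen.trans _ _ _ (hlift p p' (hc p p'))
      (hfib p' _ _ (o.pos p') hu'))) rfl
  exact key.1

end Pool.Agent.RG
end

-- part Pool.Agent.Lib.MP_34a149_al.RG.TW3
section

/-!
The rank bound for the bipartite tree.
-/

namespace Pool.Agent.RG

open Relation MulAction

variable {H V Y : Type}

variable [Group H] [MulAction H V] {D : V → V → Prop} {P : V → Prop}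

theorem OP.final [MulAction H Y] {W : V → Subgroup H → ℕ → Prop} {φ : Y → V} {ρ : IRel H Y}
    {S : Y → Set V} {Tr : Y → Prop} {q : Y → ℤ} {I : Finset Y} {A : Finset (Y × Y)}
    (w : WSet D P W) (hφ : ∀ (h : H) p, φ (h • p) = h • φ p)
    (o : OP D W φ ρ S Tr q I) (hA : ∀ a ∈ A, D (φ a.1) (φ a.2))
    (hc : ∀ p p', ρ.Conn (Tl H A) p p') (hd : ODet φ ρ (TT D φ ρ S Tr) A)
    (hnt : ∀ v : V, ∃ h : H, h ≠ 1 ∧ h • v = v) (R : Finset V)
    (hR : ∀ v ∈ R, ∀ v' ∈ R, ∀ h : H, v = h • v' → v = v') (hP : ∀ v ∈ R, ¬ P v)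
    (hm : ∀ v ∈ R, ∃ p, φ p = v) :
    ∃ m : V → ℕ, (∀ v ∈ R, W v (stabilizer H v) (m v)) ∧
      ∑ v ∈ R, (m v : ℤ) ≤ ∑ i ∈ I, q i + 5 * (A.card : ℤ) + 1 + R.card := by
  classical
  have hst : ∀ (p : Y) (k : H), k • φ p = φ p → k ∈ ρ.stab p := fun p k e => by
    have h1 : φ p ∈ TT D φ ρ S Tr (k • p) := by
      have := o.pos (k • p)
      rwa [hφ, e] at this
    exact o.il w hφ hA hc hd h1 (o.pos p)
  have hT : ∀ p, ¬ Tr p := fun p t => by
    obtain ⟨h, h1, e⟩ := hnt (φ p)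
    have := hst p h e
    rw [(o.triv p t).1] at this
    exact h1 (Subgroup.mem_bot.1 this)
  rcases isEmpty_or_nonempty Y with hY | hY
  · have hR0 : R = ∅ := by
      refine Finset.eq_empty_of_forall_notMem fun v hv => ?_
      obtain ⟨p, -⟩ := hm v hv
      exact hY.elim p
    have hI0 : I = ∅ := Finset.eq_empty_of_forall_notMem fun i _ => hY.elim i
    refine ⟨fun _ => 0, by simp [hR0], ?_⟩
    simp only [hR0, hI0, Finset.sum_empty, Finset.card_empty]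
    positivity
  obtain ⟨y₀⟩ := hY
  have hIA : I.card ≤ A.card + 1 := by
    have h1 := o.reps.count (Ar := Tl H A) A
      (fun p q ⟨e, he, h, a, b⟩ => ⟨e, he, h, a ▸ ρ.refl _, b ▸ ρ.refl _⟩)
      {p | ρ.orb p y₀} (fun p q e hp => IRel.orb.trans e.symm hp)
      (fun p => ⟨y₀, ρ.orb_refl y₀, hc _ _⟩)
    have h2 : (I.filter fun i => ρ.orb i y₀).card ≤ 1 := by
      refine Finset.card_le_one.2 fun a ha b hb => ?_
      rw [Finset.mem_filter] at ha hb
      exact o.reps.sep a ha.1 b hb.1 (ha.2.trans hb.2.symm)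
    have h3 := Finset.card_filter_add_card_filter_not (s := I) (fun i => ρ.orb i y₀)
    have h4 := le_trans h1 (Finset.card_filter_le _ _)
    have h5 : (I.filter fun i => ¬ ρ.orb i y₀).card ≤ A.card := by
      refine le_trans (le_of_eq ?_) h4
      congr 1
    omega
  have : Nonempty Y := ⟨y₀⟩
  choose! pv hpv using hm
  obtain ⟨ι, hι, -, -⟩ := o.reps.idx
  have hb : ∀ i : Y, ∃ m : V → ℕ,
      (∀ v ∈ (R.filter fun v => v ∈ S (pv v)).filter (fun v => ι (pv v) = i),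
        W v (stabilizer H v) (m v)) ∧
      ∑ v ∈ (R.filter fun v => v ∈ S (pv v)).filter (fun v => ι (pv v) = i), (m v : ℤ) ≤
        q i + 1 := fun i => by
    refine (o.good i (hT i)).1.bound w _ ?_ ?_
    · intro v hv v' hv' h e
      simp only [Finset.mem_filter] at hv hv'
      exact hR v hv.1.1 v' hv'.1.1 h e
    · intro v hv
      simp only [Finset.mem_filter] at hv
      obtain ⟨⟨hv, hvS⟩, hi⟩ := hv
      obtain ⟨h, e⟩ := (hι (pv v)).2
      rw [hi] at e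
      refine ⟨h, h⁻¹ • v, ?_, by simp, ?_⟩
      · have := o.Sinv h⁻¹ (h • i) v (o.Srel _ _ e ▸ hvS)
        simpa using this
      · intro k hk
        have hk' : k • h⁻¹ • v = h⁻¹ • v := hk
        have h1 : h * k * h⁻¹ ∈ ρ.stab (pv v) := by
          apply hst
          rw [hpv v hv, mul_smul, mul_smul, hk']
          simp
        rw [IRel.stab_eq e, IRel.mem_stab_smul] at h1
        simpa [mul_assoc] using h1
  choose mm hm1 hm2 using hb
  refine ⟨fun v => if v ∈ S (pv v) then mm (ι (pv v)) v else 1, ?_, ?_⟩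
  · intro v hv
    by_cases hS : v ∈ S (pv v)
    · simp only [if_pos hS]
      exact hm1 _ v (by simp [hv, hS])
    · simp only [if_neg hS]
      obtain ⟨g, hg⟩ := o.good (pv v) (hT _)
      rw [hpv v hv] at hg
      refine g.out w hg hS (hP v hv) fun k hk => hst _ _ ?_
      rw [hpv v hv]
      exact hk
  · rw [← Finset.sum_filter_add_sum_filter_not R (fun v => v ∈ S (pv v))]
    have e1 : ∑ v ∈ R.filter (fun v => v ∈ S (pv v)),
        ((if v ∈ S (pv v) then mm (ι (pv v)) v else 1 : ℕ) : ℤ) ≤ ∑ i ∈ I, (q i + 1) := by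
      rw [← Finset.sum_fiberwise_of_maps_to (t := I) (g := fun v => ι (pv v))
        (fun v _ => (hι (pv v)).1)]
      refine Finset.sum_le_sum fun i _ => le_trans (le_of_eq ?_) (hm2 i)
      refine Finset.sum_congr rfl fun v hv => ?_
      simp only [Finset.mem_filter] at hv
      rw [if_pos hv.1.2, hv.2]
    have e2 : ∑ v ∈ R.filter (fun v => ¬ v ∈ S (pv v)),
        ((if v ∈ S (pv v) then mm (ι (pv v)) v else 1 : ℕ) : ℤ) ≤ R.card := by
      rw [Finset.sum_congr rfl (g := fun _ => (1 : ℤ)) fun v hv => by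
        rw [if_neg (Finset.mem_filter.1 hv).2]; rfl]
      simp only [Finset.sum_const, nsmul_eq_mul, mul_one]
      exact_mod_cast Finset.card_filter_le _ _
    rw [Finset.sum_add_distrib] at e1
    simp only [Finset.sum_const, nsmul_eq_mul, mul_one] at e1
    have e3 : (I.card : ℤ) ≤ A.card + 1 := by exact_mod_cast hIA
    have e4 : (0 : ℤ) ≤ A.card := by positivity
    linarith

theorem wstep0 {W : V → Subgroup H → ℕ → Prop} (w : WSet D P W) (v₀ : V)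
    (hnt : ∀ v : V, ∃ h : H, h ≠ 1 ∧ h • v = v) (X : Finset H)
    (hX : Subgroup.closure (X : Set H) = ⊤) (R : Finset V)
    (hR : ∀ v ∈ R, ∀ v' ∈ R, ∀ h : H, v = h • v' → v = v') (hP : ∀ v ∈ R, ¬ P v) :
    ∃ m : V → ℕ, (∀ v ∈ R, W v (stabilizer H v) (m v)) ∧ ∑ v ∈ R, m v ≤ 5 * X.card + R.card := by
  classical
  let φ₀ : Fr H (Option R) → V := fun p => p.g • (p.j.elim v₀ fun v => v.1)
  have hφ₀ : ∀ (h : H) p, φ₀ (h • p) = h • φ₀ p := fun h p => mul_smul h p.g _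
  obtain ⟨J, _, pos, A, hAc, hA, hk, hj⟩ := paths w.tree φ₀ hφ₀ (K := X ⊕ R)
    (fun _ => ⟨1, none⟩) (Sum.elim (fun x => ⟨x.1, none⟩) fun v => ⟨1, some v⟩)
  set φ : Fr H (Option R) ⊕ Fr H J → V := Sum.elim φ₀ (fun p : Fr H J => p.g • pos p.j) with hφd
  have hφ : ∀ (h : H) p, φ (h • p) = h • φ p := by
    rintro h (p | p)
    · exact hφ₀ h p
    · exact mul_smul h p.g _
  let f : Option R ⊕ J → Fr H (Option R) ⊕ Fr H J := Sum.map (fun j => ⟨1, j⟩) fun j => ⟨1, j⟩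
  have hf : Function.Injective f := by
    rintro (a | a) (b | b) e
    · have : (⟨1, a⟩ : Fr H (Option R)) = ⟨1, b⟩ := Sum.inl.inj e
      rw [(Fr.mk.inj this).2]
    · cases e
    · cases e
    · have : (⟨1, a⟩ : Fr H J) = ⟨1, b⟩ := Sum.inr.inj e
      rw [(Fr.mk.inj this).2]
  have hfree : ∀ (h : H) (p : Fr H (Option R) ⊕ Fr H J), h • p = p → h = 1 := by
    rintro h (⟨g, j⟩ | ⟨g, j⟩) e
    · have : (⟨h * g, j⟩ : Fr H (Option R)) = ⟨g, j⟩ := Sum.inl.inj e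
      simpa using (Fr.mk.inj this).1
    · have : (⟨h * g, j⟩ : Fr H J) = ⟨g, j⟩ := Sum.inr.inj e
      simpa using (Fr.mk.inj this).1
  have o : OP D W φ (IRel.eq H _) (fun p => {φ p}) (fun _ => True) (fun _ => -5)
      (Finset.univ.image f) := by
    refine ⟨⟨?_, ?_⟩, ?_, ?_, fun _ _ _ _ => trivial, fun _ _ _ => rfl, ?_,
      fun _ h => (h trivial).elim⟩
    · rintro (⟨g, j⟩ | ⟨g, j⟩)
      · refine ⟨f (Sum.inl j), Finset.mem_image_of_mem _ (Finset.mem_univ _), g, ?_⟩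
        exact congrArg Sum.inl (congrArg (fun t => Fr.mk t j) (mul_one g).symm)
      · refine ⟨f (Sum.inr j), Finset.mem_image_of_mem _ (Finset.mem_univ _), g, ?_⟩
        exact congrArg Sum.inr (congrArg (fun t => Fr.mk t j) (mul_one g).symm)
    · intro i hi j hj ⟨h, e⟩
      obtain ⟨a, -, rfl⟩ := Finset.mem_image.1 hi
      obtain ⟨b, -, rfl⟩ := Finset.mem_image.1 hj
      have e' : f a = h • f b := e
      rcases a with a | a <;> rcases b with b | b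
      · have : (⟨1, a⟩ : Fr H (Option R)) = ⟨h * 1, b⟩ := Sum.inl.inj e'
        rw [(Fr.mk.inj this).2]
      · cases e'
      · cases e'
      · have : (⟨1, a⟩ : Fr H J) = ⟨h * 1, b⟩ := Sum.inr.inj e'
        rw [(Fr.mk.inj this).2]
    · intro h p v hv
      rw [Set.mem_singleton_iff] at hv ⊢
      rw [hv, hφ]
    · intro p p' e
      have e' : p = p' := e
      rw [e']
    · intro p _
      refine ⟨?_, rfl, rfl⟩
      exact (Subgroup.eq_bot_iff_forall _).2 fun h e => hfree h p e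
  have hTl : ∀ (h : H) p p', Tl H A p p' → Tl H A (h • p) (h • p') := by
    rintro h p p' ⟨a, ha, k, e, e'⟩
    exact ⟨a, ha, h * k, by rw [e, mul_smul], by rw [e', mul_smul]⟩
  have lift : ∀ p p', EqvGen (Tl H A) p p' → (IRel.eq H _).Conn (Tl H A) p p' := fun p p' e =>
    EqvGen.mono (fun _ _ t => Or.inr t) _ _ e
  have hbase : ∀ g : H, (IRel.eq H _).Conn (Tl H A)
      (g • (Sum.inl ⟨1, none⟩ : Fr H (Option R) ⊕ Fr H J)) (Sum.inl ⟨1, none⟩) := by
    intro g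
    have hg : g ∈ Subgroup.closure (X : Set H) := hX ▸ Subgroup.mem_top g
    induction hg using Subgroup.closure_induction with
    | mem x hx =>
      have := lift _ _ (hk (Sum.inl ⟨x, hx⟩))
      refine EqvGen.trans _ _ _ (EqvGen.rel _ _ (Or.inl ?_)) (EqvGen.symm _ _ this)
      exact congrArg Sum.inl (congrArg (fun t => Fr.mk t none) (mul_one x))
    | one => rw [one_smul]; exact EqvGen.refl _
    | mul a b _ _ ha hb =>
      rw [mul_smul]
      exact EqvGen.trans _ _ _ (IRel.Conn.smul hTl a hb) ha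
    | inv a _ ha =>
      have := IRel.Conn.smul hTl a⁻¹ ha
      rw [inv_smul_smul] at this
      exact EqvGen.symm _ _ this
  have hl : ∀ p : Fr H (Option R), (IRel.eq H _).Conn (Tl H A)
      (Sum.inl p : Fr H (Option R) ⊕ Fr H J) (Sum.inl ⟨1, none⟩) := by
    rintro ⟨g, _ | v⟩
    · refine EqvGen.trans _ _ _ (EqvGen.rel _ _ (Or.inl ?_)) (hbase g)
      exact congrArg Sum.inl (congrArg (fun t => Fr.mk t none) (mul_one g).symm)
    · have := IRel.Conn.smul hTl g (lift _ _ (hk (Sum.inr v)))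
      refine EqvGen.trans _ _ _ (EqvGen.rel _ _ (Or.inl ?_))
        (EqvGen.trans _ _ _ (EqvGen.symm _ _ this) (hbase g))
      exact congrArg Sum.inl (congrArg (fun t => Fr.mk t (some v)) (mul_one g).symm)
  have hall : ∀ p, (IRel.eq H _).Conn (Tl H A) p (Sum.inl ⟨1, none⟩) := by
    rintro (p | ⟨g, j⟩)
    · exact hl p
    · obtain ⟨y, e⟩ := hj j
      have := IRel.Conn.smul hTl g (lift _ _ e)
      refine EqvGen.trans _ _ _ (EqvGen.rel _ _ (Or.inl ?_))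
        (EqvGen.trans _ _ _ (EqvGen.symm _ _ this) (hl (g • y)))
      exact congrArg Sum.inr (congrArg (fun t => Fr.mk t j) (mul_one g).symm)
  obtain ⟨ρ', S', Tr', q', I', A', o', hA', hc', hd', hs⟩ := o.fold_all w hφ hA
    (fun p p' => EqvGen.trans _ _ _ (hall p) (EqvGen.symm _ _ (hall p')))
  obtain ⟨m, hm1, hm2⟩ := o'.final w hφ hA' hc' hd' hnt R hR hP
    (fun v hv => ⟨Sum.inl ⟨1, some ⟨v, hv⟩⟩, one_smul H v⟩)
  refine ⟨m, hm1, ?_⟩
  rw [Finset.sum_const, Finset.card_image_of_injective _ hf] at hs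
  simp only [Finset.card_univ, Fintype.card_sum, Fintype.card_option, Fintype.card_coe,
    nsmul_eq_mul] at hs hAc
  have h1 : (A.card : ℤ) ≤ Fintype.card J + (X.card + R.card) := by exact_mod_cast hAc
  have h2 : ((∑ v ∈ R, m v : ℕ) : ℤ) ≤ ((5 * X.card + R.card : ℕ) : ℤ) := by
    push_cast at hs ⊢
    linarith
  exact_mod_cast h2

/-- Rank bound: the stabilisers of inequivalent origins are generated by few items in total. -/
theorem wstep (hT : IsTree D) (hD : ∀ (h : H) u v, D u v → D (h • u) (h • v))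
    (bip : ∀ u v, D u v → ¬ P u ∧ P v)
    (mal : ∀ (β : H) v p p', β ≠ 1 → D v p → D v p' → β • v = v → β • p = p → β • p' = p' → p = p')
    (hnt : ∀ v : V, ∃ h : H, h ≠ 1 ∧ h • v = v) (X : Finset H)
    (hX : Subgroup.closure (X : Set H) = ⊤) (R : Finset V)
    (hR : ∀ v ∈ R, ∀ v' ∈ R, ∀ h : H, v = h • v' → v = v') (hP : ∀ v ∈ R, ¬ P v) :
    ∃ m : V → ℕ, (∀ v ∈ R, ItemGen D v (stabilizer H v) (m v)) ∧
      ∑ v ∈ R, m v ≤ 5 * X.card + R.card := by
  classical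
  rcases R.eq_empty_or_nonempty with rfl | ⟨v₀, -⟩
  · exact ⟨fun _ => 0, by simp, by simp⟩
  have hPinv : ∀ (h : H) v, P v → P (h • v) := fun h v hv => by
    obtain ⟨u, e | e⟩ := hT.nbr v
    · exact ((bip _ _ e).1 hv).elim
    · exact (bip _ _ (hD h _ _ e)).2
  have w : WSet D P (fun v (B : Subgroup H) n => P v ∨ ItemGen D v B n) := by
    refine ⟨hT, hD, bip, mal, ⟨?_, ?_, ?_, ?_, ?_⟩, ?_, fun p B hp => Or.inl hp⟩
    · exact fun v => Or.inr ⟨∅, le_rfl, by simp, bot_le⟩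
    · rintro v B B' n n' hB hn (h | ⟨s, a, b, c⟩)
      · exact Or.inl h
      · exact Or.inr ⟨s, a.trans hn, b, hB.trans c⟩
    · rintro h v B B' n hB (hv | ⟨s, a, b, c⟩)
      · exact Or.inl (hPinv h v hv)
      refine Or.inr ⟨s.image fun C => C.map (MulAut.conj h).toMonoidHom,
        Finset.card_image_le.trans a, ?_, ?_⟩
      · intro C' hC'
        obtain ⟨C, hC, rfl⟩ := Finset.mem_image.1 hC'
        rcases b C hC with ⟨k, e, rfl⟩ | ⟨p, e, rfl⟩
        · refine Or.inl ⟨h * k * h⁻¹, by simp [mul_smul, e], ?_⟩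
          rw [MonoidHom.map_zpowers]
          rfl
        · refine Or.inr ⟨h • p, hD h _ _ e, ?_⟩
          rw [Subgroup.map_inf _ _ _ (MulAut.conj h).injective, stabilizer_smul_eq_stabilizer_map_conj,
            stabilizer_smul_eq_stabilizer_map_conj]
      · have h1 : (s.sup id).map (MulAut.conj h).toMonoidHom ≤
            (s.image fun C => C.map (MulAut.conj h).toMonoidHom).sup id := by
          rw [Subgroup.map_le_iff_le_comap]
          refine Finset.sup_le fun C hC => ?_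
          rw [← Subgroup.map_le_iff_le_comap]
          exact Finset.le_sup (f := id) (Finset.mem_image_of_mem _ hC)
        intro g hg
        exact h1 ⟨h⁻¹ * g * h, c (hB g hg), by simp [mul_assoc]⟩
    · rintro v B B' n n' (h | ⟨s, a, b, c⟩) (h' | ⟨s', a', b', c'⟩)
      · exact Or.inl h
      · exact Or.inl h
      · exact Or.inl h'
      · refine Or.inr ⟨s ∪ s', (Finset.card_union_le _ _).trans (Nat.add_le_add a a'), ?_, ?_⟩
        · intro C hC
          exact (Finset.mem_union.1 hC).elim (b C) (b' C)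
        · rw [Finset.sup_union]
          exact sup_le_sup c c'
    · intro h v e
      exact Or.inr ⟨{Subgroup.zpowers h}, by simp, by
        intro C hC; rw [Finset.mem_singleton.1 hC]; exact Or.inl ⟨h, e, rfl⟩, by simp⟩
    · intro v p e
      exact Or.inr ⟨{stabilizer H v ⊓ stabilizer H p}, by simp, by
        intro C hC; rw [Finset.mem_singleton.1 hC]; exact Or.inr ⟨p, e, rfl⟩, by simp⟩
  obtain ⟨m, h1, h2⟩ := wstep0 w v₀ hnt X hX R hR hP
  exact ⟨m, fun v hv => (h1 v hv).resolve_left (hP v hv), h2⟩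

end Pool.Agent.RG
end

-- part Pool.Agent.Lib.MP_34a149_al.RG.Low
section

/-! The lower bound for the rank: gluing the two folding arguments and expansion. -/

set_option autoImplicit false

namespace Pool.Agent.Lib.MP_34a149_al.RG

open MulAction Pool.Agent.RG

/-- Representatives of the left cosets of a subgroup of finite index. -/
theorem exists_reps {G : Type} [Group G] (U : Subgroup G) [U.FiniteIndex] :
    ∃ T : Finset G, T.card = U.index ∧ (∀ g, ∃ f ∈ T, f⁻¹ * g ∈ U) ∧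
      ∀ f ∈ T, ∀ f' ∈ T, f⁻¹ * f' ∈ U → f = f' := by
  classical
  have := Fintype.ofFinite (G ⧸ U)
  refine ⟨Finset.univ.image (Quotient.out : G ⧸ U → G), ?_, fun g => ?_, ?_⟩
  · rw [Finset.card_image_of_injective _ Quotient.out_injective, Finset.card_univ,
      ← Nat.card_eq_fintype_card]
    rfl
  · exact ⟨(g : G ⧸ U).out, Finset.mem_image_of_mem _ (Finset.mem_univ _),
      QuotientGroup.eq.1 (Quotient.out_eq _)⟩
  · simp only [Finset.mem_image, Finset.mem_univ, true_and]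
    rintro _ ⟨a, rfl⟩ _ ⟨b, rfl⟩ h
    have := QuotientGroup.eq.2 h
    rw [QuotientGroup.out_eq', QuotientGroup.out_eq'] at this
    rw [this]

/-- `H` is generated by `m` elements and intersections with conjugates of `C`. -/
def RelGen {Φ : Type} [Group Φ] (H C : Subgroup Φ) (m : ℕ) : Prop :=
  ∃ X F : Finset Φ, X.card + F.card ≤ m ∧ (∀ g ∈ X, g ∈ H) ∧
    H ≤ Subgroup.closure ((X : Set Φ) ∪ {g | g ∈ H ∧ ∃ f ∈ F, f⁻¹ * g * f ∈ C})

section W
variable {Φ G V : Type} [Group Φ] [Group G] [MulAction G V] {j : Φ →* G} {C : Subgroup Φ}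
  {D : V → V → Prop} {v₀ p₀ : V}

theorem conj_fix {g h : G} {v : V} : h • g • v = g • v ↔ g⁻¹ * h * g ∈ stabilizer G v := by
  rw [mem_stabilizer_iff, mul_smul, mul_smul, inv_smul_eq_iff]

theorem relGen_of_itemGen (hj : Function.Injective j)
    (hD : ∀ u v, D u v ↔ ∃ g : G, u = g • v₀ ∧ v = g • p₀) (h1 : stabilizer G v₀ = j.range)
    (h2 : stabilizer G v₀ ⊓ stabilizer G p₀ = C.map j) (Γ : Subgroup G) [hΓ : Γ.Normal] (g : G)
    {m : ℕ} (h : ItemGen D (g • v₀) (stabilizer Γ (g • v₀)) m) : RelGen (Γ.comap j) C m := by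
  classical
  obtain ⟨s, hs, hi, hle⟩ := h
  have key : ∀ B ∈ s, ∃ (φ : Φ) (b : Bool), (b = true → φ ∈ Γ.comap j) ∧
      ∀ U : Subgroup Φ, (b = true → φ ∈ U) →
        (b = false → ∀ u ∈ Γ.comap j, φ⁻¹ * u * φ ∈ C → u ∈ U) →
        ∀ h ∈ B, g⁻¹ * (h : G) * g ∈ U.map j := fun B hB => by
    rcases hi B hB with ⟨h, e, rfl⟩ | ⟨p, e, rfl⟩
    · obtain ⟨φ, hφ⟩ : g⁻¹ * (h : G) * g ∈ j.range := h1 ▸ conj_fix.1 e
      refine ⟨φ, true, fun _ => ?_, fun U hU _ k hk => ?_⟩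
      · rw [Subgroup.mem_comap, hφ]
        simpa using hΓ.conj_mem _ h.2 g⁻¹
      · obtain ⟨n, rfl⟩ := Subgroup.mem_zpowers_iff.1 hk
        refine ⟨φ ^ n, U.zpow_mem (hU rfl) n, ?_⟩
        rw [map_zpow, hφ]
        simpa using (conj_zpow (a := g⁻¹) (b := (h : G)) (i := n))
    · obtain ⟨g', e1, rfl⟩ := (hD _ _).1 e
      obtain ⟨f, hf⟩ : g⁻¹ * g' ∈ j.range := by
        rw [← h1, mem_stabilizer_iff, mul_smul, ← e1, inv_smul_smul]
      refine ⟨f, false, by simp, fun U _ hU k hk => ?_⟩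
      have k1 : (k : G) • g' • v₀ = g' • v₀ := e1 ▸ hk.1
      obtain ⟨c, hc, k2⟩ : g'⁻¹ * (k : G) * g' ∈ C.map j := h2 ▸ ⟨conj_fix.1 k1, conj_fix.1 hk.2⟩
      have k3 : j (f * c * f⁻¹) = g⁻¹ * (k : G) * g := by
        rw [map_mul, map_mul, map_inv, hf, k2]; group
      refine ⟨f * c * f⁻¹, hU rfl _ ?_ (by simpa [mul_assoc] using hc), k3⟩
      rw [Subgroup.mem_comap, k3]
      simpa using hΓ.conj_mem _ k.2 g⁻¹
  choose! φ b k1 k2 using key
  refine ⟨(s.filter fun B => b B = true).image φ, (s.filter fun B => ¬ b B = true).image φ, ?_,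
    ?_, fun u hu => ?_⟩
  · exact (add_le_add Finset.card_image_le Finset.card_image_le).trans
      ((Finset.card_filter_add_card_filter_not _).trans_le hs)
  · simp only [Finset.mem_image, Finset.mem_filter]
    rintro _ ⟨B, ⟨hB, e⟩, rfl⟩
    exact k1 B hB e
  · generalize hU : Subgroup.closure (G := Φ) _ = U
    have k3 : s.sup id ≤ ((U.map j).comap (MulAut.conj g⁻¹).toMonoidHom).comap Γ.subtype :=
      Finset.sup_le fun B hB h hh => by
        have := k2 B hB U (fun e => hU ▸ Subgroup.subset_closure (Or.inl (by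
            simp only [Finset.coe_image, Finset.coe_filter]
            exact ⟨B, ⟨hB, e⟩, rfl⟩)))
          (fun e u hu hc => hU ▸ Subgroup.subset_closure (Or.inr ⟨hu, φ B,
            Finset.mem_image_of_mem _ (Finset.mem_filter.2 ⟨hB, by simp [e]⟩), hc⟩)) h hh
        simpa [Subgroup.mem_subgroupOf] using this
    have k4 : (⟨g * j u * g⁻¹, hΓ.conj_mem _ hu g⟩ : Γ) ∈ stabilizer Γ (g • v₀) := by
      refine conj_fix.2 (h1 ▸ ⟨u, ?_⟩)
      simp [mul_assoc]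
    obtain ⟨u', hu', e⟩ := k3 (hle k4)
    have : u' = u := hj (by simpa [mul_assoc] using e)
    exact this ▸ hu'

/-- The rank bound for a normal subgroup of finite index. -/
theorem lowW {P : V → Prop} (hj : Function.Injective j) (hT : IsTree D)
    (hD : ∀ u v, D u v ↔ ∃ g : G, u = g • v₀ ∧ v = g • p₀) (bip : ∀ u v, D u v → ¬ P u ∧ P v)
    (h1 : stabilizer G v₀ = j.range) (h2 : stabilizer G v₀ ⊓ stabilizer G p₀ = C.map j)
    (mal : ∀ f ∉ C, ∀ c ∈ C, f⁻¹ * c * f ∈ C → c = 1) {a : Φ} (ha : a ∈ C)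
    (ha' : ¬ IsOfFinOrder a) (Γ : Subgroup G) [hΓ : Γ.Normal] [Γ.FiniteIndex] (S : Finset Γ)
    (hS : Subgroup.closure (S : Set Γ) = ⊤) {n c κ : ℕ}
    (hR : ∀ m, RelGen (Γ.comap j) C m → n ≤ c * (m + κ)) :
    (Γ ⊔ j.range).index * n ≤ c * (5 * S.card + (Γ ⊔ j.range).index * (1 + κ)) := by
  classical
  have : (Γ ⊔ j.range).FiniteIndex := Subgroup.finiteIndex_of_le le_sup_left
  obtain ⟨T, t1, -, t3⟩ := exists_reps (Γ ⊔ j.range)
  have sep : ∀ f ∈ T, ∀ f' ∈ T, ∀ h : Γ, f • v₀ = h • f' • v₀ → f = f' := fun f hf f' hf' h e => by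
    refine t3 f hf f' hf' ?_
    have k1 : f⁻¹ * (h : G) * f' ∈ j.range := by
      rw [← h1, mem_stabilizer_iff, mul_smul, mul_smul, inv_smul_eq_iff]
      exact e.symm
    have k2 : f⁻¹ * (h : G)⁻¹ * f⁻¹⁻¹ ∈ Γ := hΓ.conj_mem _ (Γ.inv_mem h.2) _
    simpa [mul_assoc] using Subgroup.mul_mem_sup k2 k1
  have hedge : ∀ (β g : G), β • g • v₀ = g • v₀ → β • g • p₀ = g • p₀ →
      g⁻¹ * β * g ∈ C.map j := fun β g e e' => h2 ▸ ⟨conj_fix.1 e, conj_fix.1 e'⟩
  obtain ⟨m, hm, hs⟩ := wstep (H := Γ) hT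
    (fun h u v e => by
      obtain ⟨g, rfl, rfl⟩ := (hD _ _).1 e
      exact (hD _ _).2 ⟨h * g, (mul_smul _ _ _).symm, (mul_smul _ _ _).symm⟩) bip
    (fun β v p p' hβ e e' b1 b2 b3 => by
      obtain ⟨g, rfl, rfl⟩ := (hD _ _).1 e
      obtain ⟨g', e1, rfl⟩ := (hD _ _).1 e'
      obtain ⟨f, hf⟩ : g⁻¹ * g' ∈ j.range := by
        rw [← h1, mem_stabilizer_iff, mul_smul, ← e1, inv_smul_smul]
      obtain ⟨c, hc, k1⟩ := hedge β g b1 b2
      obtain ⟨c', hc', k2⟩ := hedge β g' (e1 ▸ b1) b3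
      have k3 : f⁻¹ * c * f = c' := hj (by rw [map_mul, map_mul, map_inv, hf, k1, k2]; group)
      by_cases hfC : f ∈ C
      · have : j f ∈ stabilizer G v₀ ⊓ stabilizer G p₀ := h2 ▸ ⟨f, hfC, rfl⟩
        rw [← inv_smul_eq_iff.1 ((mul_smul _ _ _).symm.trans (hf ▸ this.2))]
      · have k4 := mal f hfC c hc (k3 ▸ hc')
        rw [k4, map_one, eq_comm, mul_assoc, inv_mul_eq_one] at k1
        exact (hβ (Subtype.ext (right_eq_mul.1 k1))).elim)
    (fun v => by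
      obtain ⟨n, n0, -, hn⟩ := Γ.exists_pow_mem_of_index_ne_zero
        Subgroup.FiniteIndex.index_ne_zero (j a)
      have k1 : j a ^ n ∈ stabilizer G v₀ ⊓ stabilizer G p₀ :=
        Subgroup.pow_mem _ (h2 ▸ ⟨a, ha, rfl⟩) n
      obtain ⟨g, hg⟩ : ∃ g : G, v = g • v₀ ∨ v = g • p₀ := by
        obtain ⟨u, e | e⟩ := hT.nbr v <;> obtain ⟨g, e1, e2⟩ := (hD _ _).1 e
        exacts [⟨g, Or.inl e1⟩, ⟨g, Or.inr e2⟩]
      refine ⟨⟨g * j a ^ n * g⁻¹, hΓ.conj_mem _ hn g⟩, fun e => ha' ?_, ?_⟩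
      · refine isOfFinOrder_iff_pow_eq_one.2 ⟨n, n0, hj ?_⟩
        simpa using congrArg Subtype.val e
      · rcases hg with rfl | rfl
        · exact conj_fix.2 (by simpa [mul_assoc] using k1.1)
        · exact conj_fix.2 (by simpa [mul_assoc] using k1.2))
    S hS (T.image fun f => f • v₀)
    (by
      simp only [Finset.mem_image]
      rintro _ ⟨f, hf, rfl⟩ _ ⟨f', hf', rfl⟩ h e
      rw [sep f hf f' hf' h e])
    (by
      simp only [Finset.mem_image]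
      rintro _ ⟨f, -, rfl⟩
      exact (bip _ _ ((hD _ _).2 ⟨f, rfl, rfl⟩)).1)
  have hc : (T.image fun f => f • v₀).card = (Γ ⊔ j.range).index := by
    rw [← t1]
    exact Finset.card_image_of_injOn fun f hf f' hf' e => sep f hf f' hf' 1 (by simpa using e)
  have hn : ∀ v ∈ T.image fun f => f • v₀, n ≤ c * (m v + κ) := fun v hv => by
    obtain ⟨f, -, e⟩ := Finset.mem_image.1 hv
    exact hR _ (relGen_of_itemGen hj hD h1 h2 Γ f (e ▸ hm v hv))
  have := Finset.sum_le_sum hn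
  rw [← Finset.mul_sum, Finset.sum_add_distrib, Finset.sum_const, Finset.sum_const, hc,
    smul_eq_mul, smul_eq_mul] at this
  rw [hc] at hs
  exact this.trans (Nat.mul_le_mul_left _ (by rw [mul_add, mul_one]; omega))

end W

theorem bd_map {A B : Type} [Group A] [Group B] (e : A ≃* B) (U : Finset A) (g : A) :
    bd (U.map e.toEquiv.toEmbedding) (e g) = bd U g := by
  classical
  unfold bd
  rw [Finset.filter_map, Finset.card_map]
  congr 1
  ext z
  simp [← map_mul]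

/-- The relative rank bound from expansion. -/
theorem lowR {Φ V A : Type} [Group Φ] [MulAction Φ V] [Group A] [Finite A] {D : V → V → Prop}
    {v₀ : V} {a x y : Φ} (ρ : Φ →* A) (hρ : Function.Surjective ρ) (w : RSet D v₀ a x y ρ.ker)
    {K : ℕ} (h6 : 6 ≤ Nat.card A) (hE : ∀ J : Finset A, Nat.card A < 8 * J.card →
      2 * J.card ≤ Nat.card A → Nat.card A ≤ K * (bd J (ρ x) + bd J (ρ y))) (m : ℕ)
    (h : RelGen ρ.ker (Subgroup.closure {a, x * a * y}) m) :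
    Nat.card A ≤ 6 * K * (m + (ρ.ker ⊔ Subgroup.closure {a, x * a * y}).index) := by
  classical
  let e := QuotientGroup.quotientKerEquivOfSurjective ρ hρ
  have hi : ρ.ker.index = Nat.card A := Nat.card_congr e.toEquiv
  have : ρ.ker.FiniteIndex := ⟨by omega⟩
  have : (ρ.ker ⊔ Subgroup.closure {a, x * a * y}).FiniteIndex :=
    Subgroup.finiteIndex_of_le le_sup_left
  obtain ⟨T, t1, t2, -⟩ := exists_reps (ρ.ker ⊔ Subgroup.closure {a, x * a * y})
  obtain ⟨X, F, h1, h2, h3⟩ := h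
  obtain ⟨U, u1, u2, u3, u4⟩ := rstep w (by omega) X F T h2 h3 fun g => by
    obtain ⟨f, hf, k⟩ := t2 g
    obtain ⟨n, hn, c, hc, k⟩ := Subgroup.mem_sup_of_normal_left.1 k
    refine ⟨f * n * f⁻¹, Subgroup.Normal.conj_mem inferInstance _ hn _, f, hf, c, hc, ?_⟩
    rw [inv_mul_cancel_right, mul_assoc, k, mul_inv_cancel_left]
  have k := hE (U.map e.toEquiv.toEmbedding) (by rw [Finset.card_map]; omega)
    (by rw [Finset.card_map]; omega)
  rw [show ρ x = e x from rfl, show ρ y = e y from rfl, bd_map, bd_map] at k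
  have k1 : bd U (x : Φ ⧸ ρ.ker) ≤ _ := le_of_eq_of_le (by unfold bd; congr) u3
  have k2 : bd U (y : Φ ⧸ ρ.ker) ≤ _ := le_of_eq_of_le (by unfold bd; congr) u4
  rw [mul_comm 6, mul_assoc]
  exact k.trans (Nat.mul_le_mul_left _ (by omega))

/-- The numerical conclusion. -/
theorem low_num {j n κ r K k : ℕ} (h : j * n ≤ 6 * K * (5 * k + j * (1 + κ))) (h1 : κ * r = n)
    (h2 : 24 * K ≤ r) (h3 : n ≠ 0) : j * n ≤ 60 * K * k := by
  have k1 : 1 ≤ κ := Nat.pos_of_ne_zero fun e => h3 (by simp [← h1, e])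
  have k2 : 12 * K * (1 + κ) ≤ n := by nlinarith
  nlinarith [Nat.mul_le_mul_left j k2]

open HNNExtension in
theorem t_inf {K : Type} [Group K] {C : Subgroup K} : ¬ IsOfFinOrder (t : Cen K C) := fun h => by
  obtain ⟨n, n0, hn⟩ := isOfFinOrder_iff_pow_eq_one.1 h
  have := congrArg (fun g => (Cen.ex K C g).toAdd) hn
  simp at this
  omega

/-- The tree of `Cen K C` on which `K` and the group generated by `C` and `t` fix vertices. -/
def Tree2 (K : Type) [Group K] (C : Subgroup K) : Prop :=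
  ∃ (V : Type) (_ : MulAction (Cen K C) V) (D : V → V → Prop) (P : V → Prop) (v₀ p₀ : V),
    IsTree D ∧ (∀ u v, D u v ↔ ∃ g : Cen K C, u = g • v₀ ∧ v = g • p₀) ∧
    (∀ u v, D u v → ¬ P u ∧ P v) ∧ stabilizer (Cen K C) v₀ = HNNExtension.of.range ∧
    stabilizer (Cen K C) v₀ ⊓ stabilizer (Cen K C) p₀ = C.map HNNExtension.of

/-- The tree of the free product. -/
def Tree1 (L : Type) [Group L] : Prop :=
  ∃ (V : Type) (_ : MulAction (Phi L) V) (D : V → V → Prop) (v₀ : V),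
    IsTree D ∧ (∀ u v, D u v ↔ ∃ g : Phi L, u = g • v₀ ∧ v = (g * HNNExtension.t) • v₀) ∧
    stabilizer (Phi L) v₀ = HNNExtension.of.range ∧
    ∀ (k : Phi L) u v, D u v → k • u = u → k • v = v → k = 1

open HNNExtension in
/-- The lower bound for one member of the chain. -/
theorem low {L A : Type} [Group L] [Group A] [Finite A] {x y : L} (T1 : Tree1 L)
    (T2 : Tree2 (Phi L) (CC x y)) (mal : ∀ f ∉ CC x y, ∀ c ∈ CC x y, f⁻¹ * c * f ∈ CC x y → c = 1)
    (hx : ¬ IsOfFinOrder x) (hy : ¬ IsOfFinOrder y) (hxy : x * y ≠ y * x)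
    (ρ : Phi L →* A) (hρ : Function.Surjective ρ) (Γ : Subgroup (GG x y)) [Γ.Normal]
    [Γ.FiniteIndex] (hΓ : Γ.comap of = ρ.ker) (x1 : ρ (of x) ≠ 1) (y1 : ρ (of y) ≠ 1) {K : ℕ}
    (h6 : 6 ≤ Nat.card A) (hE : ∀ J : Finset A, Nat.card A < 8 * J.card →
      2 * J.card ≤ Nat.card A → Nat.card A ≤ K * (bd J (ρ (of x)) + bd J (ρ (of y))))
    (hr : 24 * K ≤ ρ.ker.relIndex (CC x y)) (S : Finset Γ)
    (hS : Subgroup.closure (S : Set Γ) = ⊤) : Γ.index ≤ 60 * K * S.card := by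
  obtain ⟨V, _, D, v₀, a1, a2, a3, a4⟩ := T1
  obtain ⟨V', _, D', P, v₁, p₁, b1, b2, b3, b4, b5⟩ := T2
  have inj : Function.Injective (of : L →* Phi L) := of_injective _
  have fx : ∀ γ : L, (of γ : Phi L) • v₀ = v₀ := fun γ =>
    mem_stabilizer_iff.1 (a3 ▸ ⟨γ, rfl⟩)
  have w : RSet D v₀ t (of x) (of y) ρ.ker :=
    { tree := a1
      inv := fun h u v e => by
        obtain ⟨g, rfl, rfl⟩ := (a2 _ _).1 e
        exact (a2 _ _).2 ⟨h * g, (mul_smul _ _ _).symm, by rw [← mul_smul, mul_assoc]⟩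
      edge := (a2 _ _).2 ⟨1, by simp, by simp⟩
      free := a4
      x0 := fx x
      y0 := fx y
      xinf := mt (inj.isOfFinOrder_iff).1 hx
      yinf := mt (inj.isOfFinOrder_iff).1 hy
      xy := fun ⟨n, hn⟩ => hxy (inj (by
        rw [map_mul, map_mul, ← hn]
        exact (Commute.self_zpow _ n).eq))
      xN := x1
      yN := y1 }
  have h := lowW (of_injective _) b1 b2 b3 b4 b5 mal (a_mem x y) t_inf Γ S hS
    (n := Nat.card A) (c := 6 * K) (κ := (ρ.ker ⊔ CC x y).index)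
    (by rw [hΓ]; exact lowR ρ hρ w h6 hE)
  have hi : ρ.ker.index = Nat.card A :=
    Nat.card_congr (QuotientGroup.quotientKerEquivOfSurjective ρ hρ).toEquiv
  have e1 : (Γ ⊔ of.range).index * Nat.card A = Γ.index := by
    rw [← hi, ← hΓ, Subgroup.index_comap, ← Subgroup.relIndex_sup_left, mul_comm,
      Subgroup.relIndex_mul_index le_sup_left]
  have e2 : (ρ.ker ⊔ CC x y).index * ρ.ker.relIndex (CC x y) = Nat.card A := by
    rw [← hi, ← Subgroup.relIndex_sup_left, mul_comm, Subgroup.relIndex_mul_index le_sup_left]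
  rw [← e1]
  exact low_num h e2 hr (by omega)

end Pool.Agent.Lib.MP_34a149_al.RG
end
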