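import Pool.Agent.Lib.MP_34a149_al.Cost
import Pool.Agent.Lib.MP_34a149_al.Kaz
import Pool.Agent.Lib.MP_34a149_al.RG.BTree
import Pool.Agent.Lib.MP_34a149_al.RG.Low
import Pool.Agent.Lib.MP_34a149_al.RG.Exp
import Pool.Agent.Lib.MP_34a149_al.RG.PXY

-- part Pool.Agent.Lib.MP_34a149_al.RG.Lim
section

/-! Limits along chains: growth of the index, the Schreier formula, cost and `L²`-Betti number. -/

set_option autoImplicit false

namespace Pool.Agent.Lib.MP_34a149_al.RG

open Filter Topology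

variable {G : Type} [Group G]

theorem ev_notMem {Γ : ℕ → Subgroup G} (ha : Antitone Γ) (h0 : ∀ g, (∀ i, g ∈ Γ i) → g = 1)
    {g : G} (hg : g ≠ 1) : ∀ᶠ i in atTop, g ∉ Γ i := by
  obtain ⟨i, hi⟩ := not_forall.1 (mt (h0 g) hg)
  exact (eventually_ge_atTop i).mono fun j hj h => hi (ha hj h)

theorem ev_index [Infinite G] {Γ : ℕ → Subgroup G} [∀ i, (Γ i).FiniteIndex] (ha : Antitone Γ)
    (h0 : ∀ g, (∀ i, g ∈ Γ i) → g = 1) (M : ℕ) : ∀ᶠ i in atTop, M ≤ (Γ i).index := by
  obtain ⟨T, hT⟩ := Infinite.exists_subset_card_eq G M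
  have h : ∀ᶠ i in atTop, ∀ p ∈ T ×ˢ T, p.1 ≠ p.2 → p.1⁻¹ * p.2 ∉ Γ i :=
    (eventually_all_finset _).2 fun p _ => by
      by_cases e : p.1 = p.2
      · simp [e]
      · exact (ev_notMem ha h0 (mt inv_mul_eq_one.1 e)).mono fun i h _ => h
  filter_upwards [h] with i hi
  rw [← hT, ← Nat.card_eq_finsetCard]
  refine Nat.card_le_card_of_injective (fun g : T => (g.1 : G ⧸ Γ i)) fun a b e => ?_
  by_contra hn
  exact hi (a, b) (Finset.mem_product.2 ⟨a.2, b.2⟩) (mt Subtype.ext hn) (QuotientGroup.eq.1 e)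

theorem gen_map {A B : Type} [Group A] [Group B] (f : A →* B) (hf : Function.Surjective f)
    (S : Finset A) (hS : Subgroup.closure (S : Set A) = ⊤) :
    ∃ S' : Finset B, Subgroup.closure (S' : Set B) = ⊤ ∧ S'.card ≤ S.card := by
  classical
  refine ⟨S.image f, ?_, Finset.card_image_le⟩
  rw [Finset.coe_image, ← MonoidHom.map_closure, hS, Subgroup.map_top_of_surjective f hf]

/-- The Schreier formula. -/
theorem schreier (N : Subgroup G) [N.Normal] [N.FiniteIndex] (S : Finset G)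
    (hS : Subgroup.closure (S : Set G) = ⊤) :
    ∃ S' : Finset N, Subgroup.closure (S' : Set N) = ⊤ ∧ S'.card + N.index ≤ N.index * S.card + 1 := by
  classical
  have := Fintype.ofFinite (G ⧸ N)
  obtain ⟨S', h1, h2⟩ := rank_bound N (fun s : S => (s : G)) Finset.univ fun C h1 hC g => by
    have : ∀ g ∈ Subgroup.closure (S : Set G), ∀ u, u ∈ C ↔ u * g ∈ C := fun g hg => by
      refine Subgroup.closure_induction (p := fun g _ => ∀ u, u ∈ C ↔ u * g ∈ C)
        (fun s hs u => hC u ⟨s, hs⟩ (Finset.mem_univ _)) (by simp) (fun a b _ _ ha hb u => ?_)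
        (fun a _ ha u => ?_) hg
      · rw [ha, hb, mul_assoc]
      · rw [ha (u * a⁻¹), inv_mul_cancel_right]
    simpa using (this g (hS ▸ Subgroup.mem_top g) 1).1 h1
  refine ⟨S', h1, ?_⟩
  rwa [Finset.card_univ, Fintype.card_prod, Fintype.card_coe, ← Nat.card_eq_fintype_card] at h2

theorem schreier_rel {N H : Subgroup G} [N.Normal] [N.FiniteIndex] (hle : N ≤ H) (S : Finset H)
    (hS : Subgroup.closure (S : Set H) = ⊤) : ∃ S' : Finset N,
      Subgroup.closure (S' : Set N) = ⊤ ∧ S'.card + N.relIndex H ≤ N.relIndex H * S.card + 1 := by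
  obtain ⟨S₁, h1, h2⟩ := schreier (N.subgroupOf H) S hS
  obtain ⟨S', h3, h4⟩ := gen_map (Subgroup.subgroupOfEquivOfLe hle).toMonoidHom
    (Subgroup.subgroupOfEquivOfLe hle).surjective S₁ h1
  exact ⟨S', h3, le_trans (by gcongr; rfl) h2⟩

theorem fin_gen [h : Group.IsFinitelyPresented G] :
    ∃ S : Finset G, Subgroup.closure (S : Set G) = ⊤ := by
  classical
  obtain ⟨n, φ, hφ, -⟩ := h.out
  obtain ⟨S, hS, -⟩ := gen_map φ hφ (Finset.univ.image FreeGroup.of) (by simp)
  exact ⟨S, hS⟩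

theorem sub_gen [Group.IsFinitelyPresented G] (N : Subgroup G) [N.Normal] [N.FiniteIndex] :
    ∃ S : Finset N, Subgroup.closure (S : Set N) = ⊤ ∧ S.card = genRank N := by
  obtain ⟨S, hS⟩ := fin_gen (G := G)
  obtain ⟨S', h, -⟩ := schreier N S hS
  obtain ⟨S'', h1, h2⟩ := exists_genRank S' h
  exact ⟨S'', h2, h1⟩

theorem index_pos (N : Subgroup G) [N.FiniteIndex] : (0 : ℝ) < N.index := by
  exact_mod_cast Nat.pos_of_ne_zero Subgroup.FiniteIndex.index_ne_zero

section chain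
variable [Group.IsFinitelyPresented G] (Γ : ℕ → Subgroup G) [∀ i, (Γ i).Normal]
  [∀ i, (Γ i).FiniteIndex] (ha : Antitone Γ)
include ha

theorem rg_anti : Antitone fun i => ((genRank (Γ i) : ℝ) - 1) / (Γ i).index := fun i j hij => by
  obtain ⟨S, h1, h2⟩ := sub_gen (Γ i)
  obtain ⟨S', h3, h4⟩ := schreier_rel (ha hij) S h1
  have h5 := Subgroup.relIndex_mul_index (ha hij)
  have h6 : (genRank (Γ j) : ℝ) + (Γ j).relIndex (Γ i) ≤
      (Γ j).relIndex (Γ i) * genRank (Γ i) + 1 := by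
    rw [← h2]
    exact_mod_cast le_trans (by gcongr; exact genRank_le S' h3) h4
  have h7 := index_pos (Γ i)
  dsimp only
  rw [div_le_div_iff₀ (index_pos _) h7, ← h5]
  push_cast
  nlinarith

variable [Infinite G] (h0 : ∀ g, (∀ i, g ∈ Γ i) → g = 1)
include h0

theorem inv_index : Tendsto (fun i => (-1 : ℝ) / (Γ i).index) atTop (𝓝 0) :=
  tendsto_const_nhds.div_atTop (tendsto_natCast_atTop_atTop.comp
    (tendsto_atTop.2 fun M => ev_index ha h0 M))

/-- A linear lower bound for the rank gives a positive rank gradient. -/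
theorem rg_pos {c : ℕ} (h : ∀ᶠ i in atTop, (Γ i).index ≤ c * genRank (Γ i)) :
    ∃ r : ℝ, 0 < r ∧ Tendsto (fun i => ((genRank (Γ i) : ℝ) - 1) / (Γ i).index) atTop (𝓝 r) := by
  have hl : ∀ᶠ i in atTop, 1 / (2 * (c + 1) : ℝ) ≤ ((genRank (Γ i) : ℝ) - 1) / (Γ i).index := by
    filter_upwards [h, ev_index ha h0 (2 * (c + 1))] with i h1 h2
    have h3 : ((Γ i).index : ℝ) ≤ c * genRank (Γ i) := by exact_mod_cast h1
    have h4 : (2 * (c + 1) : ℝ) ≤ (Γ i).index := by exact_mod_cast h2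
    rw [div_le_div_iff₀ (by positivity) (index_pos _)]
    nlinarith [(Nat.cast_nonneg _ : (0 : ℝ) ≤ genRank (Γ i))]
  obtain ⟨i₀, hi⟩ := eventually_atTop.1 hl
  have hb : BddBelow (Set.range fun i => ((genRank (Γ i) : ℝ) - 1) / (Γ i).index) := by
    refine ⟨1 / (2 * (c + 1) : ℝ), ?_⟩
    rintro _ ⟨i, rfl⟩
    exact (hi _ (le_max_right i i₀)).trans (rg_anti Γ ha (le_max_left i i₀))
  have ht := tendsto_atTop_ciInf (rg_anti Γ ha) hb
  exact ⟨_, lt_of_lt_of_le (by positivity) (ge_of_tendsto ht hl), ht⟩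

/-- Rank gradient zero along one chain forces cost one and first `L²`-Betti number zero. -/
theorem rg_zero (h : Tendsto (fun i => ((genRank (Γ i) : ℝ) - 1) / (Γ i).index) atTop (𝓝 0)) :
    cost G = 1 ∧ ∀ (α : Type) [Fintype α] (s : α → G), Subgroup.closure (Set.range s) = ⊤ →
      l2b1 s - l2b0 G = 0 := by
  have a3 : cost G ≤ ENNReal.ofReal (1 + 0) := by
    refine ge_of_tendsto' (ENNReal.tendsto_ofReal (h.const_add 1)) fun i => ?_
    obtain ⟨S, c1, c2⟩ := sub_gen (Γ i)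
    rw [← c2]
    exact cost_le Γ h0 i S c1
  have a2 : Tendsto (fun i => ((b1 ℝ (Γ i) : ℝ) - 1) / (Γ i).index) atTop (𝓝 0) := by
    refine tendsto_of_tendsto_of_tendsto_of_le_of_le (inv_index Γ ha h0) h (fun i => ?_) fun i => ?_
    · have := index_pos (Γ i)
      dsimp only
      gcongr
      linarith [(Nat.cast_nonneg _ : (0 : ℝ) ≤ b1 ℝ (Γ i))]
    · obtain ⟨S, c1, c2⟩ := sub_gen (Γ i)
      have := index_pos (Γ i)
      dsimp only
      gcongr
      exact c2 ▸ b1_le ℝ S c1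
  have key : ∀ (α : Type) [Fintype α] (s : α → G) (hs : Subgroup.closure (Set.range s) = ⊤), _ :=
    fun α _ s hs => kazhdan Γ ha h0 s hs
      (Eventually.of_forall fun i => (sub_gen (Γ i)).imp fun _ h => h.1) a2
  refine ⟨le_antisymm (by simpa using a3) ?_, fun α _ s hs => ?_⟩
  · obtain ⟨S, hS⟩ := fin_gen (G := G)
    have hs : Subgroup.closure (Set.range fun a : S => (a : G)) = ⊤ := by simpa using hS
    simpa using (ENNReal.ofReal_le_ofReal (key _ _ hs)).trans (gaboriau _ hs)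
  · have c2 := (ENNReal.ofReal_le_ofReal_iff (by norm_num)).1 ((gaboriau s hs).trans a3)
    have c1 := key α s hs
    rw [l2b1_sub_l2b0 s hs]
    linarith

end chain

end Pool.Agent.Lib.MP_34a149_al.RG
end

-- part Pool.Agent.Lib.MP_34a149_al.RG.BMal
section

/-! The subgroup generated by `a` and `x a y` is malnormal in `L * ⟨a⟩`. -/

namespace Pool.Agent.Lib.MP_34a149_al.RG

open HNNExtension

variable {L : Type} [Group L]

/-- A syllable `α a ^ e ω`. -/
def bmTri (s : L × ℤˣ × L) : Phi L := of s.1 * t ^ (s.2.1 : ℤ) * of s.2.2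

/-- No cancellation between two syllables. -/
def BmR (s u : L × ℤˣ × L) : Prop := s.2.2 * u.1 = 1 → s.2.1 = u.2.1

/-- The product of a list of syllables. -/
def bmPrd (l : List (L × ℤˣ × L)) : Phi L := (l.map bmTri).prod

@[simp] theorem bmPrd_nil : bmPrd ([] : List (L × ℤˣ × L)) = 1 := rfl

@[simp] theorem bmPrd_cons (s : L × ℤˣ × L) (l : List (L × ℤˣ × L)) :
    bmPrd (s :: l) = bmTri s * bmPrd l := by simp [bmPrd]

@[simp] theorem bmPrd_append (l l' : List (L × ℤˣ × L)) :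
    bmPrd (l ++ l') = bmPrd l * bmPrd l' := by simp [bmPrd]

theorem bm_concat {α : Type} {l : List α} (h : l ≠ []) : ∃ l' a, l = l' ++ [a] :=
  ⟨_, _, (List.dropLast_append_getLast h).symm⟩

theorem mem_toSubgroup_bot {e : ℤˣ} {k : L} : k ∈ toSubgroup (⊥ : Subgroup L) ⊥ e ↔ k = 1 := by
  rcases Int.units_eq_one_or e with rfl | rfl <;> simp

theorem bm_red (l : List (L × ℤˣ × L)) : ∀ s : L × ℤˣ × L, List.IsChain BmR (s :: l) →
    ∃ r, Red (MulEquiv.refl (⊥ : Subgroup L)) s.2.1 r ∧ bmPrd (s :: l) = of s.1 * r := by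
  induction l with
  | nil => exact fun s _ => ⟨_, Red.single s.2.1 s.2.2, by simp [bmTri, mul_assoc]⟩
  | cons u l ih =>
    intro s h
    rw [List.isChain_cons_cons] at h
    obtain ⟨r, hr, he⟩ := ih u h.2
    refine ⟨_, Red.cons s.2.1 u.2.1 (s.2.2 * u.1) r hr
      (fun hk => h.1 (mem_toSubgroup_bot.1 hk)), ?_⟩
    rw [bmPrd_cons, he]
    simp [bmTri, mul_assoc]

theorem bm_nil {l : List (L × ℤˣ × L)} (h : List.IsChain BmR l)
    (hm : bmPrd l ∈ (of : L →* Phi L).range) : l = [] := by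
  rcases l with _ | ⟨s, l⟩
  · rfl
  · obtain ⟨r, hr, he⟩ := bm_red l s h
    rw [he, Subgroup.mul_mem_cancel_left _ (MonoidHom.mem_range.2 ⟨s.1, rfl⟩)] at hm
    exact (hr.not_mem hm).elim

/-- The inverse of a syllable. -/
def bmInv (s : L × ℤˣ × L) : L × ℤˣ × L := (s.2.2⁻¹, -s.2.1, s.1⁻¹)

theorem bmTri_inv (s : L × ℤˣ × L) : bmTri (bmInv s) = (bmTri s)⁻¹ := by
  simp [bmTri, bmInv, mul_assoc]

theorem bmR_inv {s u : L × ℤˣ × L} (h : BmR s u) : BmR (bmInv u) (bmInv s) := by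
  intro e
  have : s.2.2 * u.1 = 1 := by
    have e' : u.1⁻¹ * s.2.2⁻¹ = 1 := e
    rw [← mul_inv_rev, inv_eq_one] at e'
    exact e'
  simp [bmInv, h this]

theorem bmInv_inv (s : L × ℤˣ × L) : bmInv (bmInv s) = s := by simp [bmInv]

theorem bmPrd_inv (l : List (L × ℤˣ × L)) : bmPrd (l.map bmInv).reverse = (bmPrd l)⁻¹ := by
  induction l with
  | nil => simp
  | cons s l ih => simp [ih, bmTri_inv, -List.map_reverse]

theorem bm_chain_inv {l : List (L × ℤˣ × L)} (h : List.IsChain BmR l) :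
    List.IsChain BmR (l.map bmInv).reverse := by
  rw [List.isChain_reverse, List.isChain_map]
  exact h.imp fun _ _ => bmR_inv

theorem bm_cancel {s u : L × ℤˣ × L} {l : L} (h : s.2.2 * l * u.1 = 1) (he : s.2.1 ≠ u.2.1) :
    bmTri s * of l * bmTri u = of (s.1 * u.2.2) := by
  have h1 : u.2.1 = -s.2.1 := by
    rcases Int.units_eq_one_or s.2.1 with e | e <;>
      rcases Int.units_eq_one_or u.2.1 with e' | e' <;> simp_all
  have h2 : (of s.2.2 * (of l * of u.1) : Phi L) = 1 := by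
    rw [← map_mul, ← map_mul, ← mul_assoc, h, map_one]
  calc bmTri s * of l * bmTri u
      = of s.1 * (t ^ (s.2.1 : ℤ) * (of s.2.2 * (of l * of u.1)) * t ^ (u.2.1 : ℤ)) * of u.2.2 := by
        simp only [bmTri, mul_assoc]
    _ = of (s.1 * u.2.2) := by rw [h2, h1]; simp

theorem bm_head {u : L × ℤˣ × L} {l : List (L × ℤˣ × L)} (h : List.IsChain BmR (u :: l)) (a : L) :
    List.IsChain BmR ((a, u.2) :: l) := by
  rcases l with _ | ⟨z, l⟩
  · exact List.isChain_singleton _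
  · rw [List.isChain_cons_cons] at h ⊢
    exact h

theorem bm_absorbL {l : List (L × ℤˣ × L)} (h : List.IsChain BmR l) (hl : l ≠ []) (a : L) :
    ∃ l', l'.length = l.length ∧ List.IsChain BmR l' ∧ bmPrd l' = of a * bmPrd l := by
  rcases l with _ | ⟨u, l⟩
  · exact absurd rfl hl
  · exact ⟨(a * u.1, u.2) :: l, rfl, bm_head h _,
       by simp [bmTri, mul_assoc]⟩

theorem bm_absorbR {l : List (L × ℤˣ × L)} (h : List.IsChain BmR l) (hl : l ≠ []) (a : L) :
    ∃ l', l'.length = l.length ∧ List.IsChain BmR l' ∧ bmPrd l' = bmPrd l * of a := by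
  obtain ⟨l, u, rfl⟩ := bm_concat hl
  refine ⟨l ++ [(u.1, u.2.1, u.2.2 * a)], by simp, ?_, by simp [bmTri, mul_assoc]⟩
  rw [List.isChain_append] at h ⊢
  refine ⟨h.1, List.isChain_singleton _, fun z hz w hw => ?_⟩
  have := h.2.2 z hz u (by simp)
  simp only [List.head?_cons, Option.mem_def, Option.some.injEq] at hw
  subst hw
  exact this

/-- A product of two reduced words that lies in `L` cancels at the junction. -/
theorem bm_junction {l₁ l₂ : List (L × ℤˣ × L)} {s u : L × ℤˣ × L} {l : L}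
    (h₁ : List.IsChain BmR (l₁ ++ [s])) (h₂ : List.IsChain BmR (u :: l₂))
    (hm : bmPrd (l₁ ++ [s]) * of l * bmPrd (u :: l₂) ∈ (of : L →* Phi L).range) :
    s.2.2 * l * u.1 = 1 ∧ s.2.1 ≠ u.2.1 := by
  by_contra hc
  have hc' : BmR s (l * u.1, u.2) := fun e => by
    by_contra hne
    exact hc ⟨by rw [mul_assoc]; exact e, hne⟩
  have h3 : List.IsChain BmR (l₁ ++ s :: (l * u.1, u.2) :: l₂) :=
    List.isChain_append_cons_cons.2 ⟨h₁, hc', bm_head h₂ _⟩
  have := bm_nil h3 (by simpa [bmTri, mul_assoc] using hm)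
  simp at this

theorem bm_exists (f : Phi L) :
    ∃ (a : L) (l : List (L × ℤˣ × L)), List.IsChain BmR l ∧ f = of a * bmPrd l := by
  obtain ⟨d⟩ := NormalWord.TransversalPair.nonempty L ⊥ ⊥
  obtain ⟨w, rfl⟩ := (NormalWord.equiv (MulEquiv.refl (⊥ : Subgroup L)) d).symm.surjective f
  refine ⟨w.head, w.toList.map fun p => (1, p.1, p.2), ?_, ?_⟩
  · rw [List.isChain_map]
    exact w.chain.imp fun a b h e => h (mem_toSubgroup_bot.2 (by simpa using e))
  · change w.prod _ = _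
    simp [NormalWord.ReducedWord.prod, bmPrd, bmTri, Function.comp_def]

/-- The four letters `a`, `a⁻¹`, `b`, `b⁻¹` as syllables. -/
def bmLt (x y : L) : Bool × Bool → L × ℤˣ × L
  | (false, true) => (1, 1, 1)
  | (false, false) => (1, -1, 1)
  | (true, true) => (x, 1, y)
  | (true, false) => (y⁻¹, -1, x⁻¹)

variable {x y : L}

theorem bmLt_mem (s : Bool × Bool) : bmTri (bmLt x y s) ∈ CC x y := by
  rcases s with ⟨_ | _, _ | _⟩
  · simpa [bmTri, bmLt] using a_mem x y
  · simpa [bmTri, bmLt] using a_mem x y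
  · simpa [bmTri, bmLt, mul_assoc] using (CC x y).inv_mem (b_mem x y)
  · simpa [bmTri, bmLt] using b_mem x y

theorem bmLt_inv (s : Bool × Bool) : bmInv (bmLt x y s) = bmLt x y (s.1, !s.2) := by
  rcases s with ⟨_ | _, _ | _⟩ <;> simp [bmInv, bmLt]

theorem bm_word {c : Phi L} (hc : c ∈ CC x y) : ∃ w : List (Bool × Bool),
    List.IsChain (fun a b : Bool × Bool => a.1 = b.1 → a.2 = b.2) w ∧
      c = bmPrd (w.map (bmLt x y)) := by
  let g : Bool → Phi L := fun i => cond i (of x * t * of y) t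
  have h1 : CC x y = (FreeGroup.lift g).range := by
    rw [FreeGroup.range_lift_eq_closure, CC]
    congr 1
    ext z
    simp [g]
  rw [h1] at hc
  obtain ⟨z, rfl⟩ := hc
  refine ⟨z.toWord, FreeGroup.isReduced_toWord, ?_⟩
  conv_lhs => rw [← FreeGroup.mk_toWord (x := z), FreeGroup.lift_mk]
  rw [bmPrd, List.map_map]
  congr 1
  refine List.map_congr_left fun s _ => ?_
  rcases s with ⟨_ | _, _ | _⟩ <;> simp [g, bmTri, bmLt, mul_assoc]

theorem bm_word_chain (hx : x ≠ 1) (hy : y ≠ 1) {w : List (Bool × Bool)}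
    (h : List.IsChain (fun a b : Bool × Bool => a.1 = b.1 → a.2 = b.2) w) :
    List.IsChain BmR (w.map (bmLt x y)) := by
  rw [List.isChain_map]
  refine h.imp ?_
  rintro ⟨_ | _, _ | _⟩ ⟨_ | _, _ | _⟩ <;> simp [BmR, bmLt, hx, hy]

/-- `C` meets `L` trivially. -/
theorem of_mem_CC (hx : x ≠ 1) (hy : y ≠ 1) {l : L} (h : (of l : Phi L) ∈ CC x y) : l = 1 := by
  obtain ⟨w, hw, he⟩ := bm_word h
  have := bm_nil (bm_word_chain hx hy hw) ⟨l, he⟩
  rw [this] at he
  exact of_injective (MulEquiv.refl (⊥ : Subgroup L)) (by simpa using he)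

theorem of_x_not_mem_CC (hx : x ≠ 1) (hy : y ≠ 1) : (of x : Phi L) ∉ CC x y :=
  fun h => hx (of_mem_CC hx hy h)

theorem bm_class {s u : Bool × Bool} {l : L} (hl : l ≠ 1)
    (h : (bmLt x y s).2.2 * l * (bmLt x y u).1 = 1 ∧ (bmLt x y s).2.1 ≠ (bmLt x y u).2.1) :
    (s = (false, true) ∧ u = (true, false) ∧ l = y) ∨
    (s = (true, true) ∧ u = (false, false) ∧ l = y⁻¹) ∨
    (s = (false, false) ∧ u = (true, true) ∧ l = x⁻¹) ∨
    (s = (true, false) ∧ u = (false, true) ∧ l = x) := by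
  obtain ⟨h, he⟩ := h
  rcases s with ⟨_ | _, _ | _⟩ <;> rcases u with ⟨_ | _, _ | _⟩ <;>
    simp only [bmLt, one_mul, mul_one, ne_eq, not_true_eq_false] at h he
  · exact absurd h hl
  · simp [eq_inv_of_mul_eq_one_left h]
  · exact absurd h hl
  · simp [mul_inv_eq_one.1 h]
  · simp [(inv_mul_eq_one.1 h).symm]
  · exact absurd (by simpa [mul_assoc, inv_mul_eq_iff_eq_mul] using h) hl
  · simp [eq_inv_of_mul_eq_one_right h]
  · exact absurd (by simpa [mul_inv_eq_iff_eq_mul] using h) hl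

theorem bm_base (hx : x ≠ 1) (hy : y ≠ 1) (hxy : x ≠ y) (hxy' : x ≠ y⁻¹) (hx2 : x ≠ x⁻¹)
    (hy2 : y ≠ y⁻¹) {l : L} {c : Phi L} (hc : c ∈ CC x y) (hc1 : c ≠ 1)
    (h : (of l : Phi L)⁻¹ * c * of l ∈ CC x y) : l = 1 := by
  by_contra hl
  have hyx : y ≠ x⁻¹ := fun e => hxy' (by rw [e, inv_inv])
  obtain ⟨w, hw, rfl⟩ := bm_word hc
  obtain ⟨w', hw', he⟩ := bm_word ((CC x y).inv_mem h)
  have hm : bmPrd (w.map (bmLt x y)) * of l * bmPrd (w'.map (bmLt x y)) = of l := by
    rw [← he]; simp [mul_assoc]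
  have hw0 : w ≠ [] := by rintro rfl; simp at hc1
  obtain ⟨w, s, rfl⟩ := bm_concat hw0
  rcases w' with _ | ⟨u, w'⟩
  · apply hc1; simpa using hm
  have c1 := bm_word_chain hx hy hw
  have c2 := bm_word_chain hx hy hw'
  rw [List.map_append, List.map_singleton] at c1 hm
  rw [List.map_cons] at c2 hm
  have j := bm_junction c1 c2 ⟨l, hm.symm⟩
  have hm' : bmPrd (w.map (bmLt x y)) * of ((bmLt x y s).1 * (bmLt x y u).2.2) *
      bmPrd (w'.map (bmLt x y)) = of l := by
    rw [← hm, ← bm_cancel j.1 j.2]; simp [mul_assoc]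
  have k := bm_class hl j
  rcases eq_or_ne w [] with rfl | hw1
  · have : w'.map (bmLt x y) = [] := bm_nil c2.tail
      ⟨((bmLt x y s).1 * (bmLt x y u).2.2)⁻¹ * l, by rw [map_mul, ← hm']; simp [mul_assoc]⟩
    rw [this] at hm'
    have e : (bmLt x y s).1 * (bmLt x y u).2.2 = l :=
      of_injective (MulEquiv.refl (⊥ : Subgroup L)) (by simpa using hm')
    rcases k with ⟨rfl, rfl, rfl⟩ | ⟨rfl, rfl, rfl⟩ | ⟨rfl, rfl, rfl⟩ | ⟨rfl, rfl, rfl⟩ <;>
      simp only [bmLt, one_mul, mul_one] at e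
    · exact hyx e.symm
    · exact hxy' e
    · exact hyx e
    · exact hxy' e.symm
  obtain ⟨w, s', rfl⟩ := bm_concat hw1
  rcases w' with _ | ⟨u', w'⟩
  · have := bm_nil c1.left_of_append
      ⟨l * ((bmLt x y s).1 * (bmLt x y u).2.2)⁻¹, by rw [map_mul, ← hm']; simp [mul_assoc]⟩
    simp at this
  have c3 := c1.left_of_append
  have c4 := c2.tail
  rw [List.map_append, List.map_singleton] at c3 hm'
  rw [List.tail_cons, List.map_cons] at c4
  rw [List.map_cons] at hm'
  have j' := bm_junction c3 c4 ⟨l, hm'.symm⟩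
  have hs : s'.1 = s.1 → s'.2 = s.2 := by
    rw [List.append_assoc, List.singleton_append] at hw
    exact (List.isChain_append_cons_cons.1 hw).2.1
  rcases k with ⟨rfl, rfl, rfl⟩ | ⟨rfl, rfl, rfl⟩ | ⟨rfl, rfl, rfl⟩ | ⟨rfl, rfl, rfl⟩
  · have k' := bm_class (l := x⁻¹) (inv_ne_one.2 hx) (by simpa only [bmLt, one_mul] using j')
    rcases k' with ⟨-, -, e⟩ | ⟨-, -, e⟩ | ⟨rfl, -, -⟩ | ⟨-, -, e⟩
    · exact hyx e.symm
    · exact hxy (inv_injective e)
    · simp at hs
    · exact hx2 e.symm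
  · have k' := bm_class (l := x) hx (by simpa only [bmLt, mul_one] using j')
    rcases k' with ⟨-, -, e⟩ | ⟨-, -, e⟩ | ⟨-, -, e⟩ | ⟨rfl, -, -⟩
    · exact hxy e
    · exact hxy' e
    · exact hx2 e
    · simp at hs
  · have k' := bm_class (l := y) hy (by simpa only [bmLt, one_mul] using j')
    rcases k' with ⟨rfl, -, -⟩ | ⟨-, -, e⟩ | ⟨-, -, e⟩ | ⟨-, -, e⟩
    · simp at hs
    · exact hy2 e
    · exact hyx e
    · exact hxy e.symm
  · have k' := bm_class (l := y⁻¹) (inv_ne_one.2 hy) (by simpa only [bmLt, mul_one] using j')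
    rcases k' with ⟨-, -, e⟩ | ⟨rfl, -, -⟩ | ⟨-, -, e⟩ | ⟨-, -, e⟩
    · exact hy2 e.symm
    · simp at hs
    · exact hxy (inv_injective e).symm
    · exact hxy' e.symm

theorem bm_step (hx : x ≠ 1) (hy : y ≠ 1) {l : List (L × ℤˣ × L)} (hl : l ≠ [])
    (h : List.IsChain BmR l) (h1 : ∀ s, ∀ u ∈ l.head?, BmR (bmLt x y s) u)
    (h2 : ∀ s, ∀ u ∈ l.getLast?, BmR u (bmLt x y s)) {c : Phi L} (hc : c ∈ CC x y) (hc1 : c ≠ 1) :
    (bmPrd l)⁻¹ * c * bmPrd l ∉ CC x y := by
  intro hm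
  obtain ⟨w, hw, rfl⟩ := bm_word hc
  obtain ⟨w', hw', he⟩ := bm_word ((CC x y).inv_mem hm)
  have hw0 : w' ≠ [] := by
    rintro rfl
    apply hc1
    rw [List.map_nil, bmPrd_nil, inv_eq_one, mul_assoc, inv_mul_eq_one, eq_comm,
      mul_eq_right] at he
    exact he
  have c1 := bm_word_chain hx hy hw
  have c2 := bm_word_chain hx hy hw'
  have c3 : List.IsChain BmR (w'.map (bmLt x y) ++ (l.map bmInv).reverse) := by
    refine c2.append (bm_chain_inv h) fun a ha b hb => ?_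
    rw [List.getLast?_map, Option.mem_def, Option.map_eq_some_iff] at ha
    rw [List.head?_reverse, List.getLast?_map, Option.mem_def, Option.map_eq_some_iff] at hb
    obtain ⟨s, -, rfl⟩ := ha
    obtain ⟨u, hu, rfl⟩ := hb
    have := bmR_inv (h2 (s.1, !s.2) u hu)
    rwa [← bmLt_inv, bmInv_inv] at this
  have c4 : List.IsChain BmR (l ++ (w'.map (bmLt x y) ++ (l.map bmInv).reverse)) := by
    refine h.append c3 fun a ha b hb => ?_
    rcases w' with _ | ⟨s, w'⟩
    · exact absurd rfl hw0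
    simp only [List.map_cons, List.cons_append, List.head?_cons, Option.mem_def,
      Option.some.injEq] at hb
    subst hb
    exact h2 s a ha
  have c5 : List.IsChain BmR
      (w.map (bmLt x y) ++ (l ++ (w'.map (bmLt x y) ++ (l.map bmInv).reverse))) := by
    refine c1.append c4 fun a ha b hb => ?_
    rw [List.getLast?_map, Option.mem_def, Option.map_eq_some_iff] at ha
    obtain ⟨s, -, rfl⟩ := ha
    rcases l with _ | ⟨u, l⟩
    · exact absurd rfl hl
    simp only [List.cons_append, List.head?_cons, Option.mem_def, Option.some.injEq] at hb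
    subst hb
    exact h1 s u rfl
  have := bm_nil c5 ⟨1, by
    rw [bmPrd_append, bmPrd_append, bmPrd_append, bmPrd_inv, ← he]; simp [mul_assoc]⟩
  simp [hl] at this

/-- The subgroup generated by `a` and `x a y` is malnormal. -/
theorem malnormal_CC (hx : x ≠ 1) (hy : y ≠ 1) (hxy : x ≠ y) (hxy' : x ≠ y⁻¹) (hx2 : x ≠ x⁻¹)
    (hy2 : y ≠ y⁻¹) : Malnormal (CC x y) := by
  let P : Phi L → Prop := fun f => ∀ c ∈ CC x y, c ≠ 1 → f⁻¹ * c * f ∈ CC x y → f ∈ CC x y
  have PL : ∀ s ∈ CC x y, ∀ f, P (s * f) → P f := fun s hs f h c hc hc1 hm => by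
    have := h (s * c * s⁻¹) ((CC x y).mul_mem ((CC x y).mul_mem hs hc) ((CC x y).inv_mem hs))
      (by simpa using hc1) (by simpa [mul_assoc] using hm)
    exact ((CC x y).mul_mem_cancel_left hs).1 this
  have PR : ∀ s ∈ CC x y, ∀ f, P (f * s) → P f := fun s hs f h c hc hc1 hm => by
    have := h c hc hc1 (by
      simpa [mul_assoc] using (CC x y).mul_mem ((CC x y).mul_mem ((CC x y).inv_mem hs) hm) hs)
    exact ((CC x y).mul_mem_cancel_right hs).1 this
  have main : ∀ (n : ℕ) (l : List (L × ℤˣ × L)), l.length = n → List.IsChain BmR l →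
      ∀ a b : L, P (of a * bmPrd l * of b) := by
    intro n
    induction n with
    | zero =>
      intro l hl _ a b c hc hc1 hm
      rw [List.length_eq_zero_iff.1 hl, bmPrd_nil, mul_one, ← map_mul] at hm ⊢
      rw [bm_base hx hy hxy hxy' hx2 hy2 hc hc1 hm, map_one]
      exact one_mem _
    | succ n ih =>
      intro l hl h a b
      obtain ⟨l1, n1, c1, e1⟩ := bm_absorbL h (by rintro rfl; simp at hl) a
      obtain ⟨l2, n2, c2, e2⟩ := bm_absorbR c1 (by rintro rfl; simp [hl] at n1) b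
      rw [← e1, ← e2]
      have n3 : l2.length = n + 1 := by omega
      have hl2 : l2 ≠ [] := by rintro rfl; simp at n3
      by_cases h1 : ∀ s, ∀ u ∈ l2.head?, BmR (bmLt x y s) u
      · by_cases h2 : ∀ s, ∀ u ∈ l2.getLast?, BmR u (bmLt x y s)
        · exact fun c hc hc1 hm => (bm_step hx hy hl2 c2 h1 h2 hc hc1 hm).elim
        · push Not at h2
          obtain ⟨s, u, hu, hr⟩ := h2
          obtain ⟨l3, u', rfl⟩ := bm_concat hl2
          have : u' = u := by simpa using hu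
          subst this
          refine PR _ (bmLt_mem s) _ ?_
          simp only [BmR, not_forall] at hr
          obtain ⟨r1, r2⟩ := hr
          have e := bm_cancel (l := 1) (by simpa using r1) r2
          have := ih l3 (by simpa using n3) c2.left_of_append 1 (u'.1 * (bmLt x y s).2.2)
          rw [← e] at this
          simpa [mul_assoc] using this
      · push Not at h1
        obtain ⟨s, u, hu, hr⟩ := h1
        rcases l2 with _ | ⟨u', l3⟩
        · exact absurd rfl hl2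
        have : u' = u := by simpa using hu
        subst this
        refine PL _ (bmLt_mem s) _ ?_
        simp only [BmR, not_forall] at hr
        obtain ⟨r1, r2⟩ := hr
        have e := bm_cancel (l := 1) (by simpa using r1) r2
        have := ih l3 (by simpa using n3) c2.tail ((bmLt x y s).1 * u'.2.2) 1
        rw [← e] at this
        simpa [mul_assoc] using this
  intro f c hc hc1 hm
  obtain ⟨a, l, hl, rfl⟩ := bm_exists f
  have := main _ l rfl hl a 1
  rw [map_one, mul_one] at this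
  exact this c hc hc1 hm

/-- Malnormality, in the form used by the lower bound. -/
theorem cc_mal (hx : x ≠ 1) (hy : y ≠ 1) (hxy : x ≠ y) (hxy' : x ≠ y⁻¹) (hx2 : x ^ 2 ≠ 1)
    (hy2 : y ^ 2 ≠ 1) : ∀ f ∉ CC x y, ∀ c ∈ CC x y, f⁻¹ * c * f ∈ CC x y → c = 1 := by
  intro f hf c hc hm
  by_contra hc1
  exact hf (malnormal_CC hx hy hxy hxy' (fun e => hx2 (by rw [sq]; exact mul_eq_one_iff_eq_inv.2 e))
    (fun e => hy2 (by rw [sq]; exact mul_eq_one_iff_eq_inv.2 e)) f c hc hc1 hm)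

end Pool.Agent.Lib.MP_34a149_al.RG
end

-- part Pool.Agent.Lib.MP_34a149_al.RG.All
section

/-! The first chain has linear growth of the rank. -/

set_option autoImplicit false

namespace Pool.Agent.Lib.MP_34a149_al.RG

open Filter HNNExtension

theorem GG.fp' : Group.IsFinitelyPresented (GG xx yy) :=
  have := sl3_fp
  GG.fp xx yy

theorem infinite_of_mem {G : Type} [Group G] {C : Subgroup G} {a : G} (ha : a ∈ C)
    (h : ¬ IsOfFinOrder a) : Infinite C := by
  by_contra hf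
  have := not_infinite_iff_finite.1 hf
  exact h (C.subtype.isOfFinOrder (isOfFinOrder_of_finite (⟨a, ha⟩ : C)))

theorem Cen.infinite {K : Type} [Group K] {C : Subgroup K} : Infinite (Cen K C) :=
  have := infinite_of_mem (Subgroup.mem_top (t : Cen K C)) t_inf
  Infinite.of_injective _ (⊤ : Subgroup (Cen K C)).subtype_injective

theorem chain_one : ∃ Γ : ℕ → Subgroup (GG xx yy), (∀ i, (Γ i).Normal) ∧
    (∀ i, (Γ i).FiniteIndex) ∧ Antitone Γ ∧ ⨅ i, Γ i = ⊥ ∧
    ∃ c : ℕ, ∀ᶠ i in atTop, (Γ i).index ≤ c * genRank (Γ i) := by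
  obtain ⟨Γ, ρ, ha, hn, hf, hb, h1, h2⟩ := exists_chain
  obtain ⟨K, hK⟩ := expK
  have := GG.fp'
  have : Infinite (Phi (SL3 ℤ)) := Cen.infinite
  have : Infinite (CC xx yy) := infinite_of_mem (a_mem xx yy) t_inf
  have hs : ∀ k, Function.Surjective (ρ k) := fun k g => by
    obtain ⟨l, rfl⟩ := (hK (2 ^ k) (by positivity)).1 g
    exact ⟨_, h2 k l⟩
  have b1 : Antitone fun k => (ρ k).ker := fun i j h => by
    simp only [← h1]
    exact Subgroup.comap_mono (ha h)
  have b2 : ∀ g, (∀ k, g ∈ (ρ k).ker) → g = 1 := fun g hg => by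
    have : (of g : GG xx yy) ∈ ⨅ i, Γ i :=
      Subgroup.mem_iInf.2 fun k => Subgroup.mem_comap.1 (h1 k ▸ hg k)
    rw [hb, Subgroup.mem_bot] at this
    simpa using congrArg (Cen.ret _ _) this
  have inj : ∀ l : SL3 ℤ, l ≠ 1 → (of l : Phi (SL3 ℤ)) ≠ 1 := fun l hl e =>
    hl (by simpa using congrArg (Cen.ret _ _) e)
  refine ⟨Γ, hn, hf, ha, hb, 60 * K, ?_⟩
  filter_upwards [ev_index b1 b2 6, ev_notMem b1 b2 (inj _ xx_ne_one),
    ev_notMem b1 b2 (inj _ yy_ne_one),
    ev_index (Γ := fun k => (ρ k).ker.subgroupOf (CC xx yy))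
      (fun i j h => Subgroup.comap_mono (b1 h)) (fun g hg => Subtype.ext (b2 g hg)) (24 * K)]
    with i c1 c2 c3 c4
  obtain ⟨S, hS, e⟩ := sub_gen (Γ i)
  rw [← e]
  refine low (tree1 _) (tree2 _ _)
    (cc_mal xx_ne_one yy_ne_one xx_ne_yy xx_ne_yy_inv xx_sq_ne yy_sq_ne) xx_inf yy_inf
    (fun h => not_commute_zy (Commute.inv_left_iff.1 h)) (ρ i) (hs i) (Γ i) (h1 i) c2 c3
    (c1.trans_eq (Nat.card_congr (QuotientGroup.quotientKerEquivOfSurjective _ (hs i)).toEquiv))
    ?_ c4 S hS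
  rw [h2, h2]
  exact (hK _ (by positivity)).2

end Pool.Agent.Lib.MP_34a149_al.RG
end
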