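import Mathlib

-- part Pool.Agent.Lib.MP_34a149_al.RG.TDefs
section

/-!
Groups acting on trees: definitions for the folding arguments.
-/

namespace Pool.Agent.RG

open Relation MulAction

variable {H V Y : Type}

/-- Undirected adjacency of a directed graph. -/
def Adj (D : V → V → Prop) (u v : V) : Prop := D u v ∨ D v u

theorem Adj.symm {D : V → V → Prop} {u v : V} (h : Adj D u v) : Adj D v u := Or.symm h

/-- The directed graph `D` is a tree without isolated vertex. -/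
structure IsTree (D : V → V → Prop) : Prop where
  asymm : ∀ u v, D u v → ¬ D v u
  back : ∀ (n : ℕ) (p : ℕ → V), 0 < n → (∀ i < n, Adj D (p i) (p (i + 1))) → p 0 = p n →
    ∃ i, i + 2 ≤ n ∧ p i = p (i + 2)
  conn : ∀ u v, ReflTransGen (Adj D) u v
  nbr : ∀ u, ∃ v, Adj D u v

/-- `S` is connected by edges inside `S`. -/
def ConnIn (D : V → V → Prop) (S : Set V) : Prop :=
  ∀ s ∈ S, ∀ s' ∈ S, ReflTransGen (fun a b => Adj D a b ∧ a ∈ S ∧ b ∈ S) s s'

/-- Free `H`-set on `J`. -/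
structure Fr (H J : Type) where
  g : H
  j : J

variable [Group H]

instance (J : Type) : MulAction H (Fr H J) where
  smul h p := ⟨h * p.g, p.j⟩
  one_smul p := by cases p; exact congrArg (fun t => Fr.mk t _) (one_mul _)
  mul_smul a b p := by cases p; exact congrArg (fun t => Fr.mk t _) (mul_assoc _ _ _)

theorem Fr.smul_mk {J : Type} (h g : H) (j : J) : h • (⟨g, j⟩ : Fr H J) = ⟨h * g, j⟩ := rfl

/-- An invariant equivalence relation on an `H`-set. -/
structure IRel (H Y : Type) [Group H] [MulAction H Y] where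
  r : Y → Y → Prop
  eqv : Equivalence r
  inv : ∀ (h : H) p q, r p q → r (h • p) (h • q)

variable [MulAction H Y]

namespace IRel

theorem refl (ρ : IRel H Y) (p : Y) : ρ.r p p := ρ.eqv.refl p
theorem symm (ρ : IRel H Y) {p q : Y} (h : ρ.r p q) : ρ.r q p := ρ.eqv.symm h
theorem trans (ρ : IRel H Y) {p q s : Y} (h : ρ.r p q) (h' : ρ.r q s) : ρ.r p s := ρ.eqv.trans h h'

theorem inv' (ρ : IRel H Y) (h : H) {p q : Y} (e : ρ.r (h • p) q) : ρ.r p (h⁻¹ • q) := by
  simpa using ρ.inv h⁻¹ _ _ e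

/-- Equality. -/
def eq (H Y : Type) [Group H] [MulAction H Y] : IRel H Y where
  r := Eq
  eqv := eq_equivalence
  inv := fun _ _ _ e => by rw [e]

/-- Stabiliser of the class of `p`. -/
def stab (ρ : IRel H Y) (p : Y) : Subgroup H where
  carrier := {h | ρ.r (h • p) p}
  one_mem' := by simpa using ρ.refl p
  mul_mem' := fun {a b} ha hb => by
    have := ρ.inv a _ _ hb
    simp only [Set.mem_ofPred_eq, mul_smul] at *
    exact ρ.trans this ha
  inv_mem' := fun {a} ha => ρ.symm (ρ.inv' a ha)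

theorem mem_stab {ρ : IRel H Y} {p : Y} {h : H} : h ∈ ρ.stab p ↔ ρ.r (h • p) p := Iff.rfl

theorem stab_eq {ρ : IRel H Y} {p q : Y} (e : ρ.r p q) : ρ.stab p = ρ.stab q := by
  ext h
  exact ⟨fun a => ρ.trans (ρ.symm (ρ.inv h _ _ e)) (ρ.trans a e),
    fun a => ρ.trans (ρ.inv h _ _ e) (ρ.trans a (ρ.symm e))⟩

theorem mem_stab_smul {ρ : IRel H Y} {p : Y} {h g : H} :
    g ∈ ρ.stab (h • p) ↔ h⁻¹ * g * h ∈ ρ.stab p := by
  simp only [mem_stab, mul_smul]
  exact ⟨fun a => by simpa using ρ.inv h⁻¹ _ _ a, fun a => by simpa using ρ.inv h _ _ a⟩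

/-- Same orbit of classes. -/
def orb (ρ : IRel H Y) (p q : Y) : Prop := ∃ h : H, ρ.r p (h • q)

theorem orb_refl (ρ : IRel H Y) (p : Y) : ρ.orb p p := ⟨1, by simpa using ρ.refl p⟩

theorem orb.symm {ρ : IRel H Y} {p q : Y} (e : ρ.orb p q) : ρ.orb q p := by
  obtain ⟨h, e⟩ := e
  exact ⟨h⁻¹, ρ.inv' h (ρ.symm e)⟩

theorem orb.trans {ρ : IRel H Y} {p q s : Y} (e : ρ.orb p q) (e' : ρ.orb q s) : ρ.orb p s := by
  obtain ⟨h, e⟩ := e
  obtain ⟨k, e'⟩ := e'
  exact ⟨h * k, ρ.trans e (by simpa [mul_smul] using ρ.inv h _ _ e')⟩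

theorem orb_of_r {ρ : IRel H Y} {p q : Y} (e : ρ.r p q) : ρ.orb p q := ⟨1, by simpa using e⟩

theorem orb_smul (ρ : IRel H Y) (h : H) (p : Y) : ρ.orb (h • p) p := ⟨h, ρ.refl _⟩

/-- `B` may serve as the new stabiliser when `z` and `z'` are identified. -/
structure Adm (ρ : IRel H Y) (z z' : Y) (B : Subgroup H) : Prop where
  l : ρ.stab z ≤ B
  r : ρ.stab z' ≤ B
  m : ∀ h : H, ρ.r (h • z) z' → h ∈ B

theorem Adm.mem {ρ : IRel H Y} {z z' : Y} {B : Subgroup H} (a : ρ.Adm z z' B) {p : Y} {h k : H}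
    (e : ρ.r p (h • z) ∨ ρ.r p (h • z')) (e' : ρ.r p (k • z) ∨ ρ.r p (k • z')) : k⁻¹ * h ∈ B := by
  have key : ∀ u v : Y, ρ.r p (h • u) → ρ.r p (k • v) → ρ.r ((k⁻¹ * h) • u) v := fun u v s t => by
    simpa [mul_smul] using ρ.inv k⁻¹ _ _ (ρ.trans (ρ.symm s) t)
  rcases e with e | e <;> rcases e' with e' | e'
  · exact a.l (key _ _ e e')
  · exact a.m _ (key _ _ e e')
  · have := a.m _ (ρ.symm (ρ.inv' _ (key _ _ e e')))
    exact B.inv_mem_iff.1 this
  · exact a.r (key _ _ e e')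

/-- Identify `z` and `z'` and enlarge the stabiliser to `B`. -/
def fold (ρ : IRel H Y) (z z' : Y) (B : Subgroup H) (a : ρ.Adm z z' B) : IRel H Y where
  r p q := ρ.r p q ∨ ∃ h k : H, k⁻¹ * h ∈ B ∧ (ρ.r p (h • z) ∨ ρ.r p (h • z')) ∧
    (ρ.r q (k • z) ∨ ρ.r q (k • z'))
  eqv := by
    refine ⟨fun p => Or.inl (ρ.refl p), ?_, ?_⟩
    · rintro p q (e | ⟨h, k, b, e, e'⟩)
      · exact Or.inl (ρ.symm e)
      · exact Or.inr ⟨k, h, by simpa using B.inv_mem b, e', e⟩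
    · rintro p q s (e | ⟨h, k, b, e, e'⟩) (f | ⟨h', k', b', f, f'⟩)
      · exact Or.inl (ρ.trans e f)
      · exact Or.inr ⟨h', k', b', f.imp (ρ.trans e) (ρ.trans e), f'⟩
      · exact Or.inr ⟨h, k, b, e, e'.imp (ρ.trans (ρ.symm f)) (ρ.trans (ρ.symm f))⟩
      · refine Or.inr ⟨h, k', ?_, e, f'⟩
        have := B.mul_mem (B.mul_mem b' (a.mem e' f)) b
        simpa [mul_assoc] using this
  inv := by
    rintro g p q (e | ⟨h, k, b, e, e'⟩)
    · exact Or.inl (ρ.inv g _ _ e)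
    · refine Or.inr ⟨g * h, g * k, by simpa [mul_assoc] using b, ?_, ?_⟩
      · simpa only [mul_smul] using e.imp (ρ.inv g _ _) (ρ.inv g _ _)
      · simpa only [mul_smul] using e'.imp (ρ.inv g _ _) (ρ.inv g _ _)

section fold
variable {ρ : IRel H Y} {z z' : Y} {B : Subgroup H} (a : ρ.Adm z z' B)

theorem fold_le {p q : Y} (e : ρ.r p q) : (ρ.fold z z' B a).r p q := Or.inl e

theorem fold_zz : (ρ.fold z z' B a).r z z' :=
  Or.inr ⟨1, 1, by simp, Or.inl (by simpa using ρ.refl z), Or.inr (by simpa using ρ.refl z')⟩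

theorem fold_stab : (ρ.fold z z' B a).stab z = B := by
  ext g
  constructor
  · rintro (e | ⟨h, k, b, e, e'⟩)
    · exact a.l e
    · have b1 := a.mem (p := g • z) (Or.inl (ρ.refl _)) e
      have b2 := a.mem (p := z) (k := 1) e' (Or.inl (by simpa using ρ.refl z))
      have := B.mul_mem (B.mul_mem b2 b) b1
      simpa [mul_assoc] using this
  · intro b
    exact Or.inr ⟨g, 1, by simpa using b, Or.inl (ρ.refl _), Or.inl (by simpa using ρ.refl z)⟩

theorem fold_orb {p : Y} : (ρ.fold z z' B a).orb p z ↔ ρ.orb p z ∨ ρ.orb p z' := by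
  constructor
  · rintro ⟨g, e | ⟨h, k, -, e, -⟩⟩
    · exact Or.inl ⟨g, e⟩
    · exact e.imp (fun t => ⟨h, t⟩) fun t => ⟨h, t⟩
  · rintro (⟨g, e⟩ | ⟨g, e⟩)
    · exact ⟨g, Or.inl e⟩
    · exact ⟨g, Or.inr ⟨g, g, by simp, Or.inr e, Or.inl (ρ.refl _)⟩⟩

theorem fold_r_of_not {p q : Y} (hp : ¬ (ρ.fold z z' B a).orb p z) :
    (ρ.fold z z' B a).r p q ↔ ρ.r p q := by
  refine ⟨?_, Or.inl⟩
  rintro (e | ⟨h, k, -, e, -⟩)
  · exact e
  · exact (hp ((fold_orb a).2 (e.imp (fun t => ⟨h, t⟩) fun t => ⟨h, t⟩))).elim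

theorem fold_stab_of_not {p : Y} (hp : ¬ (ρ.fold z z' B a).orb p z) :
    (ρ.fold z z' B a).stab p = ρ.stab p := by
  ext g
  simp only [mem_stab]
  exact ⟨fun e => ρ.symm ((fold_r_of_not a hp).1 ((ρ.fold z z' B a).symm e)), Or.inl⟩

end fold

/-- `ρ'` is coarser than `ρ` and joins at most two orbits of classes. -/
def Merge (ρ ρ' : IRel H Y) : Prop :=
  (∀ p q, ρ.r p q → ρ'.r p q) ∧ ∃ z z', ∀ p q, ρ'.r p q →
    ρ.r p q ∨ ((ρ.orb p z ∨ ρ.orb p z') ∧ (ρ.orb q z ∨ ρ.orb q z'))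

theorem fold_merge {ρ : IRel H Y} {z z' : Y} {B : Subgroup H} (a : ρ.Adm z z' B) :
    ρ.Merge (ρ.fold z z' B a) := by
  refine ⟨fun p q => Or.inl, z, z', ?_⟩
  rintro p q (e | ⟨h, k, -, e, e'⟩)
  · exact Or.inl e
  · exact Or.inr ⟨e.imp (fun t => ⟨h, t⟩) fun t => ⟨h, t⟩, e'.imp (fun t => ⟨k, t⟩) fun t => ⟨k, t⟩⟩

/-- `I` is a system of representatives of the orbits of classes. -/
structure Reps (ρ : IRel H Y) (I : Finset Y) : Prop where
  cov : ∀ p, ∃ i ∈ I, ρ.orb p i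
  sep : ∀ i ∈ I, ∀ j ∈ I, ρ.orb i j → i = j

/-- Connected by identifications and arrows. -/
def Conn (ρ : IRel H Y) (Ar : Y → Y → Prop) : Y → Y → Prop :=
  EqvGen fun p q => ρ.r p q ∨ Ar p q

end IRel

/-- Translates of a finite set of arrows. -/
def Tl (H : Type) [Group H] [MulAction H Y] (A : Finset (Y × Y)) (p q : Y) : Prop :=
  ∃ a ∈ A, ∃ h : H, p = h • a.1 ∧ q = h • a.2

variable [MulAction H V]

/-- `W v B n` reads: the subgroup `B` of the stabiliser of `v` has weight at most `n`. -/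
structure IsW (W : V → Subgroup H → ℕ → Prop) : Prop where
  bot : ∀ v, W v ⊥ 0
  mono : ∀ v B B' n n', B' ≤ B → n ≤ n' → W v B n → W v B' n'
  conj : ∀ (h : H) v B B' n, (∀ g ∈ B', h⁻¹ * g * h ∈ B) → W v B n → W (h • v) B' n
  join : ∀ v B B' n n', W v B n → W v B' n' → W v (B ⊔ B') (n + n')
  cyc : ∀ (h : H) v, h • v = v → W v (Subgroup.zpowers h) 1

/-- An `H`-set `Y` with arrows `Ar` over the directed graph `D`. -/
structure Amb (H : Type) [Group H] [MulAction H Y] [MulAction H V] (D : V → V → Prop) (φ : Y → V)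
    (Ar : Y → Y → Prop) : Prop where
  eqv : ∀ (h : H) p, φ (h • p) = h • φ p
  inv : ∀ (h : H) p q, Ar p q → Ar (h • p) (h • q)
  edge : ∀ p q, Ar p q → D (φ p) (φ q)

/-- A state of the folding process, of complexity at most `c`. -/
structure St (φ : Y → V) (Ar : Y → Y → Prop) (W : V → Subgroup H → ℕ → Prop) (ρ : IRel H Y)
    (I : Finset Y) (n : Y → ℕ) (E : Finset (Y × Y)) (c : ℤ) : Prop where
  im : ∀ p q, ρ.r p q → φ p = φ q
  reps : ρ.Reps I
  wt : ∀ i ∈ I, W (φ i) (ρ.stab i) (n i)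
  Esub : ∀ e ∈ E, Ar e.1 e.2
  Ecov : ∀ p q, Ar p q → ∃ e ∈ E, ∃ h : H, ρ.r p (h • e.1) ∧ ρ.r q (h • e.2)
  est : ∀ p q, Ar p q → ∀ k : H, k • φ p = φ p → k • φ q = φ q → ρ.r (k • p) p ∧ ρ.r (k • q) q
  cost : (E.card : ℤ) + ∑ i ∈ I, (n i : ℤ) ≤ c + I.card

/-- The state is folded. -/
def Det (φ : Y → V) (Ar : Y → Y → Prop) (ρ : IRel H Y) : Prop :=
  ∀ p q p' q', Ar p q → Ar p' q' →
    (ρ.r p p' → φ q = φ q' → ρ.r q q') ∧ (ρ.r q q' → φ p = φ p' → ρ.r p p')

/-- Data of a folded piece: a subgroup `U` acting on a subtree `S`. -/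
structure GoodD (D : V → V → Prop) (W : V → Subgroup H → ℕ → Prop) (U : Subgroup H) (S : Set V)
    (q : ℤ) (I : Finset V) (n : V → ℕ) (E : Finset (V × V)) : Prop where
  ne : S.Nonempty
  inv : ∀ u ∈ U, ∀ s ∈ S, u • s ∈ S
  Isub : ∀ i ∈ I, i ∈ S
  cov : ∀ s ∈ S, ∃ i ∈ I, ∃ u ∈ U, s = u • i
  sep : ∀ i ∈ I, ∀ j ∈ I, ∀ u ∈ U, i = u • j → i = j
  wt : ∀ i ∈ I, W i (U ⊓ stabilizer H i) (n i)
  Esub : ∀ e ∈ E, D e.1 e.2 ∧ e.1 ∈ S ∧ e.2 ∈ S ∧ ∀ k : H, k • e.1 = e.1 → k • e.2 = e.2 → k ∈ U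
  conn : ∀ s ∈ S, ∀ s' ∈ S, EqvGen (fun a b => ∃ e ∈ E, ∃ u ∈ U, a = u • e.1 ∧ b = u • e.2) s s'
  cost : (E.card : ℤ) + ∑ i ∈ I, (n i : ℤ) ≤ q + I.card

/-- A folded piece of complexity at most `q`. -/
def Good (D : V → V → Prop) (W : V → Subgroup H → ℕ → Prop) (U : Subgroup H) (S : Set V) (q : ℤ) :
    Prop := ∃ I n E, GoodD D W U S q I n E

/-- `S` together with the ends of the edges leaving `S` that are fixed by some `1 ≠ β ∈ U`. -/
def S1 (D : V → V → Prop) (U : Subgroup H) (S : Set V) : Set V :=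
  {p | p ∈ S ∨ ∃ s ∈ S, D s p ∧ ∃ β ∈ U, β ≠ 1 ∧ β • s = s ∧ β • p = p}

/-- The characteristic subtree of a piece. -/
def Tset (D : V → V → Prop) (U : Subgroup H) (S : Set V) : Set V :=
  {v | v ∈ S1 D U S ∨ ∃ p ∈ S1 D U S, D v p}

/-- The setting of the rank bound: bipartite tree, malnormal edge groups at origins. -/
structure WSet (D : V → V → Prop) (P : V → Prop) (W : V → Subgroup H → ℕ → Prop) : Prop where
  tree : IsTree D
  inv : ∀ (h : H) u v, D u v → D (h • u) (h • v)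
  bip : ∀ u v, D u v → ¬ P u ∧ P v
  mal : ∀ (β : H) v p p', β ≠ 1 → D v p → D v p' → β • v = v → β • p = p → β • p' = p' → p = p'
  isW : IsW W
  We : ∀ v p, D v p → W v (stabilizer H v ⊓ stabilizer H p) 1
  WP : ∀ p B, P p → W p B 0

open Classical in
/-- The set of vertices over which the piece of `p` has points. -/
def TT (D : V → V → Prop) (φ : Y → V) (ρ : IRel H Y) (S : Y → Set V) (Tr : Y → Prop) (p : Y) :
    Set V := if Tr p then {φ p} else Tset D (ρ.stab p) (S p)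

/-- The pieces of an outer state. -/
structure OP (D : V → V → Prop) (W : V → Subgroup H → ℕ → Prop) (φ : Y → V) (ρ : IRel H Y)
    (S : Y → Set V) (Tr : Y → Prop) (q : Y → ℤ) (I : Finset Y) : Prop where
  reps : ρ.Reps I
  Sinv : ∀ (h : H) p v, v ∈ S p → h • v ∈ S (h • p)
  Srel : ∀ p p', ρ.r p p' → S p = S p'
  Trorb : ∀ p p', ρ.orb p p' → Tr p → Tr p'
  qorb : ∀ p p', ρ.orb p p' → q p = q p'
  triv : ∀ p, Tr p → ρ.stab p = ⊥ ∧ S p = {φ p} ∧ q p = -5
  good : ∀ p, ¬ Tr p → Good D W (ρ.stab p) (S p) (q p) ∧ φ p ∈ Tset D (ρ.stab p) (S p)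

/-- Outer determinism: steps are translates of arrows of `A` and edges inside a piece. -/
def ODet (φ : Y → V) (ρ : IRel H Y) (T : Y → Set V) (A : Finset (Y × Y)) :
    Prop :=
  ∀ p q, Tl H A p q ∨ Tl H A q p →
    (φ q ∈ T p → ρ.r p q) ∧
      ∀ p' q', Tl H A p' q' ∨ Tl H A q' p' → ρ.r p p' → φ p = φ p' → φ q = φ q' → ρ.r q q'

/-- Items at a vertex: cyclic subgroups of the stabiliser and stabilisers of outgoing edges. -/
def Item (D : V → V → Prop) (v : V) (B : Subgroup H) : Prop :=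
  (∃ h : H, h • v = v ∧ B = Subgroup.zpowers h) ∨ ∃ p, D v p ∧ B = stabilizer H v ⊓ stabilizer H p

/-- `B` lies in the join of at most `n` items at `v`. -/
def ItemGen (D : V → V → Prop) (v : V) (B : Subgroup H) (n : ℕ) : Prop :=
  ∃ s : Finset (Subgroup H), s.card ≤ n ∧ (∀ C ∈ s, Item D v C) ∧ B ≤ s.sup id

end Pool.Agent.RG
end

-- part Pool.Agent.Lib.MP_34a149_al.RG.TTree
section

/-!
Combinatorial lemmas: immersions into trees, counting by connectivity, segments.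
-/

namespace Pool.Agent.RG

open Relation MulAction

variable {H V Y : Type}

theorem ttree_walk {Q : Type} {R : Q → Q → Prop} {a b : Q} (h : ReflTransGen R a b) :
    ∃ (n : ℕ) (p : ℕ → Q), p 0 = a ∧ p n = b ∧ ∀ i < n, R (p i) (p (i + 1)) := by
  induction h with
  | refl => exact ⟨0, fun _ => a, rfl, rfl, fun i hi => absurd hi (Nat.not_lt_zero i)⟩
  | @tail b c _ hbc ih =>
    obtain ⟨n, p, h0, hn, hp⟩ := ih
    refine ⟨n + 1, fun k => if k ≤ n then p k else c, by simp [h0], by simp, fun i hi => ?_⟩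
    by_cases hi' : i + 1 ≤ n
    · simp only [if_pos hi', if_pos (Nat.le_of_succ_le hi')]
      exact hp i hi'
    · have e : i = n := by omega
      subst e
      simp only [if_neg hi', if_pos (le_refl i), hn]
      exact hbc

theorem ttree_il0 {Q : Type} {D : V → V → Prop} (hT : IsTree D) (ψ : Q → V) (R : Q → Q → Prop)
    (hs : ∀ a b, R a b → R b a) (hadj : ∀ a b, R a b → Adj D (ψ a) (ψ b))
    (hdet : ∀ a b b', R a b → R a b' → ψ b = ψ b' → b = b') (n : ℕ) :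
    ∀ p : ℕ → Q, (∀ i < n, R (p i) (p (i + 1))) → ψ (p 0) = ψ (p n) → p 0 = p n := by
  induction n using Nat.strong_induction_on with
  | _ n ih =>
    intro p hp e
    rcases Nat.eq_zero_or_pos n with rfl | hn
    · rfl
    obtain ⟨i, hi, ei⟩ := hT.back n (fun k => ψ (p k)) hn (fun k hk => hadj _ _ (hp k hk)) e
    have e2 : p i = p (i + 2) :=
      hdet (p (i + 1)) _ _ (hs _ _ (hp i (by omega))) (hp (i + 1) (by omega)) ei
    obtain ⟨m, rfl⟩ : ∃ m, n = m + 2 := ⟨n - 2, by omega⟩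
    have hend : (if m ≤ i then p m else p (m + 2)) = p (m + 2) := by
      by_cases hm : m ≤ i
      · have : m = i := by omega
        subst this
        rw [if_pos hm, e2]
      · rw [if_neg hm]
    have key := ih m (by omega) (fun k => if k ≤ i then p k else p (k + 2)) (fun k hk => by
      by_cases h1 : k + 1 ≤ i
      · simp only [if_pos h1, if_pos (Nat.le_of_succ_le h1)]
        exact hp k (by omega)
      · by_cases h2 : k ≤ i
        · have : k = i := by omega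
          subst this
          simp only [if_neg h1, if_pos h2]
          rw [e2]
          exact hp (k + 2) (by omega)
        · simp only [if_neg h1, if_neg h2]
          exact hp (k + 2) (by omega)) (by
      simp only [if_pos (Nat.zero_le i), hend]
      exact e)
    simp only [if_pos (Nat.zero_le i), hend] at key
    exact key

theorem ttree_il1 {Q : Type} {D : V → V → Prop} (hT : IsTree D) (ψ : Q → V) (R : Q → Q → Prop)
    (hs : ∀ a b, R a b → R b a) (hadj : ∀ a b, R a b → Adj D (ψ a) (ψ b))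
    (hdet : ∀ a b b', R a b → R a b' → ψ b = ψ b' → b = b') {a b : Q}
    (h : ReflTransGen R a b) (e : ψ a = ψ b) : a = b := by
  obtain ⟨n, p, rfl, rfl, hp⟩ := ttree_walk h
  exact ttree_il0 hT ψ R hs hadj hdet n p hp e

/-- Immersion lemma. -/
theorem il {Z : Type} {D : V → V → Prop} (hT : IsTree D) (φ : Z → V) (r s : Z → Z → Prop)
    (hr : Equivalence r) (him : ∀ a b, r a b → φ a = φ b) (hs : ∀ a b, s a b → s b a)
    (hadj : ∀ a b, s a b → Adj D (φ a) (φ b))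
    (hdet : ∀ a b a' b', s a b → s a' b' → r a a' → φ b = φ b' → r b b')
    {a b : Z} (h : EqvGen (fun x y => r x y ∨ s x y) a b) (e : φ a = φ b) : r a b := by
  let σ : Setoid Z := ⟨r, hr⟩
  let ψ : Quotient σ → V := Quotient.lift φ him
  let R : Quotient σ → Quotient σ → Prop := fun A B =>
    ∃ x y, A = Quotient.mk σ x ∧ B = Quotient.mk σ y ∧ s x y
  have hRs : ∀ A B, R A B → R B A := by
    rintro A B ⟨x, y, h1, h2, h3⟩
    exact ⟨y, x, h2, h1, hs _ _ h3⟩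
  have hw : ∀ x y, EqvGen (fun x y => r x y ∨ s x y) x y →
      ReflTransGen R (Quotient.mk σ x) (Quotient.mk σ y) := by
    intro x y hxy
    induction hxy with
    | rel x y hxy =>
      rcases hxy with hxy | hxy
      · rw [show Quotient.mk σ x = Quotient.mk σ y from Quotient.sound hxy]
      · exact ReflTransGen.single ⟨x, y, rfl, rfl, hxy⟩
    | refl x => exact ReflTransGen.refl
    | symm x y _ ih =>
      generalize Quotient.mk σ x = A at ih
      generalize Quotient.mk σ y = B at ih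
      induction ih with
      | refl => exact ReflTransGen.refl
      | tail _ hbc ih => exact ReflTransGen.head (hRs _ _ hbc) ih
    | trans x y z _ _ ih ih' => exact ih.trans ih'
  have key : Quotient.mk σ a = Quotient.mk σ b := by
    refine ttree_il1 hT ψ R hRs ?_ ?_ (hw a b h) e
    · rintro A B ⟨x, y, rfl, rfl, h3⟩
      exact hadj _ _ h3
    · rintro A B B' ⟨x, y, rfl, rfl, h3⟩ ⟨x', y', h1, rfl, h4⟩ e'
      exact Quotient.sound (hdet x y x' y' h3 h4 (Quotient.exact h1) e')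
  exact Quotient.exact key

/-- A vertex outside a connected set has at most one neighbour in it. -/
theorem lemmaN {D : V → V → Prop} (hT : IsTree D) {S : Set V} (hS : ConnIn D S) {v s s' : V}
    (hv : v ∉ S) (hs : s ∈ S) (hs' : s' ∈ S) (a : Adj D v s) (a' : Adj D v s') : s = s' := by
  by_contra hne
  let ψ : V ⊕ Bool → V := Sum.elim id fun _ => v
  let t : Bool → V := fun c => if c then s' else s
  have ht : ∀ c, t c ∈ S ∧ Adj D v (t c) := by
    intro c
    cases c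
    · exact ⟨hs, a⟩
    · exact ⟨hs', a'⟩
  have hinj : ∀ c c', t c = t c' → c = c' := by
    intro c c' e
    cases c <;> cases c'
    · rfl
    · exact absurd e hne
    · exact absurd e.symm hne
    · rfl
  let R : V ⊕ Bool → V ⊕ Bool → Prop := fun A B =>
    (∃ x y, A = Sum.inl x ∧ B = Sum.inl y ∧ Adj D x y ∧ x ∈ S ∧ y ∈ S) ∨
      (∃ c, A = Sum.inr c ∧ B = Sum.inl (t c)) ∨ ∃ c, A = Sum.inl (t c) ∧ B = Sum.inr c
  have hw : ∀ x y, ReflTransGen (fun a b => Adj D a b ∧ a ∈ S ∧ b ∈ S) x y →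
      ReflTransGen R (Sum.inl x) (Sum.inl y) := by
    intro x y hxy
    induction hxy with
    | refl => exact ReflTransGen.refl
    | tail _ hbc ih => exact ih.tail (Or.inl ⟨_, _, rfl, rfl, hbc⟩)
  have hw' : ReflTransGen R (Sum.inr false) (Sum.inr true) :=
    ReflTransGen.head (Or.inr (Or.inl ⟨false, rfl, rfl⟩))
      ((hw s s' (hS s hs s' hs')).tail (Or.inr (Or.inr ⟨true, rfl, rfl⟩)))
  have key : (Sum.inr false : V ⊕ Bool) = Sum.inr true := by
    refine ttree_il1 hT ψ R ?_ ?_ ?_ hw' rfl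
    · rintro A B (⟨x, y, h1, h2, h3, h4, h5⟩ | ⟨c, h1, h2⟩ | ⟨c, h1, h2⟩)
      · exact Or.inl ⟨y, x, h2, h1, h3.symm, h5, h4⟩
      · exact Or.inr (Or.inr ⟨c, h2, h1⟩)
      · exact Or.inr (Or.inl ⟨c, h2, h1⟩)
    · rintro A B (⟨x, y, rfl, rfl, h3, -, -⟩ | ⟨c, rfl, rfl⟩ | ⟨c, rfl, rfl⟩)
      · exact h3
      · exact (ht c).2
      · exact (ht c).2.symm
    · rintro A B B' (⟨x, y, h1, rfl, -, -, h5⟩ | ⟨c, h1, rfl⟩ | ⟨c, h1, rfl⟩)
        (⟨x', y', h1', rfl, -, -, h5'⟩ | ⟨c', h1', rfl⟩ | ⟨c', h1', rfl⟩) e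
      · exact congrArg Sum.inl e
      · exact congrArg Sum.inl e
      · exact absurd ((show y = v from e) ▸ h5) hv
      · exact congrArg Sum.inl e
      · exact congrArg Sum.inl e
      · exact absurd ((show t c = v from e) ▸ (ht c).1) hv
      · exact absurd ((show v = y' from e).symm ▸ h5') hv
      · exact absurd ((show v = t c' from e).symm ▸ (ht c').1) hv
      · exact congrArg Sum.inr (hinj c c' (Sum.inl.inj (h1.symm.trans h1')))
  exact absurd (Sum.inr.inj key) (by decide)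

open Classical in
/-- Vertices outside `M` that are connected to `M` need as many edges not inside `M`. -/
theorem conn_count {α β : Type} (f g : β → α) (E : Finset β) (I : Finset α) (M : Set α)
    (h : ∀ i ∈ I, ∃ m ∈ M, EqvGen (fun a b => ∃ e ∈ E, a = f e ∧ b = g e) m i) :
    (I.filter fun i => i ∉ M).card ≤ (E.filter fun e => ¬ (f e ∈ M ∧ g e ∈ M)).card := by
  generalize hc : (E.filter fun e => ¬ (f e ∈ M ∧ g e ∈ M)).card = c
  induction c using Nat.strong_induction_on generalizing M with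
  | _ c ih =>
    by_cases hI : ∀ i ∈ I, i ∈ M
    · have : (I.filter fun i => i ∉ M) = ∅ :=
        Finset.filter_eq_empty_iff.2 fun i hi hn => hn (hI i hi)
      rw [this]
      exact Nat.zero_le _
    have hex : ∃ e ∈ E, ¬ (f e ∈ M ↔ g e ∈ M) := by
      by_contra hno
      apply hI
      intro i hi
      obtain ⟨m, hm, hmi⟩ := h i hi
      have hall : ∀ a b, EqvGen (fun a b => ∃ e ∈ E, a = f e ∧ b = g e) a b → (a ∈ M ↔ b ∈ M) := by
        intro a b hab
        induction hab with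
        | rel a b hab =>
          obtain ⟨e, he, rfl, rfl⟩ := hab
          by_contra hn
          exact hno ⟨e, he, hn⟩
        | refl a => exact Iff.rfl
        | symm a b _ ih => exact ih.symm
        | trans a b c _ _ ih ih' => exact ih.trans ih'
      exact (hall m i hmi).1 hm
    obtain ⟨e, he, hne⟩ := hex
    obtain ⟨w, hf, hg⟩ : ∃ w, f e ∈ insert w M ∧ g e ∈ insert w M := by
      by_cases h1 : f e ∈ M
      · exact ⟨g e, Set.mem_insert_of_mem _ h1, Set.mem_insert _ _⟩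
      · have h2 : g e ∈ M := by
          by_contra h2
          exact hne ⟨fun t => absurd t h1, fun t => absurd t h2⟩
        exact ⟨f e, Set.mem_insert _ _, Set.mem_insert_of_mem _ h2⟩
    obtain ⟨M', hM'⟩ : ∃ M' : Set α, M' = insert w M := ⟨_, rfl⟩
    have hsub' : ∀ x ∈ M, x ∈ M' := fun x hx => hM' ▸ Set.mem_insert_of_mem _ hx
    rw [← hM'] at hf hg
    have hlt : (E.filter fun e => ¬ (f e ∈ M' ∧ g e ∈ M')).card < c := by
      rw [← hc]
      apply Finset.card_lt_card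
      refine ⟨fun x hx => ?_, fun hsub => ?_⟩
      · rw [Finset.mem_filter] at hx ⊢
        exact ⟨hx.1, fun t => hx.2 ⟨hsub' _ t.1, hsub' _ t.2⟩⟩
      · have : e ∈ E.filter fun e => ¬ (f e ∈ M ∧ g e ∈ M) :=
          Finset.mem_filter.2 ⟨he, fun t => hne ⟨fun _ => t.2, fun _ => t.1⟩⟩
        exact (Finset.mem_filter.1 (hsub this)).2 ⟨hf, hg⟩
    have h1 := ih _ hlt M' (fun i hi => by
      obtain ⟨m, hm, hmi⟩ := h i hi
      exact ⟨m, hsub' _ hm, hmi⟩) rfl
    have h2 : (I.filter fun i => i ∉ M) ⊆ insert w (I.filter fun i => i ∉ M') := by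
      intro x hx
      rw [Finset.mem_filter] at hx
      by_cases hxw : x = w
      · exact Finset.mem_insert.2 (Or.inl hxw)
      · refine Finset.mem_insert.2 (Or.inr (Finset.mem_filter.2 ⟨hx.1, fun t => ?_⟩))
        rw [hM'] at t
        rcases t with t | t
        · exact hxw t
        · exact hx.2 t
    have h3 := (Finset.card_le_card h2).trans (Finset.card_insert_le _ _)
    omega

theorem ttree_seg {G : Type} [Group G] {x : G} (hx : ¬ IsOfFinOrder x) (J : Finset G) {g : G}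
    (hg : g ∈ J) : ∃ k : ℕ, g * x ^ k ∈ J ∧ g * x ^ k * x ∉ J := by
  by_contra hno
  have hall : ∀ k : ℕ, g * x ^ k ∈ J := by
    intro k
    induction k with
    | zero => simpa using hg
    | succ k ih =>
      by_contra hn
      exact hno ⟨k, ih, by rwa [mul_assoc, ← pow_succ]⟩
  have hinj : Function.Injective fun k : ℕ => g * x ^ k := fun k l e =>
    injective_pow_iff_not_isOfFinOrder.2 hx (mul_left_cancel e)
  exact Set.infinite_of_injective_forall_mem (s := (J : Set G)) hinj hall J.finite_toSet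

open Classical in
/-- A nonempty finite subset of a group is not closed under an element of infinite order. -/
theorem seg1 {G : Type} [Group G] {x : G} (hx : ¬ IsOfFinOrder x) (J : Finset G)
    (hJ : J.Nonempty) : 1 ≤ (J.filter fun g => g * x ∉ J).card := by
  obtain ⟨g, hg⟩ := hJ
  obtain ⟨k, h1, h2⟩ := ttree_seg hx J hg
  exact Finset.card_pos.2 ⟨g * x ^ k, Finset.mem_filter.2 ⟨h1, h2⟩⟩

open Classical in
/-- A finite subset with two elements is not both one `x`-segment and one `y`-segment. -/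
theorem seg3 {G : Type} [Group G] {x y : G} (hx : ¬ IsOfFinOrder x) (hy : ¬ IsOfFinOrder y)
    (hxy : y ∉ Subgroup.zpowers x) (J : Finset G) (hJ : 2 ≤ J.card) :
    3 ≤ (J.filter fun g => g * x ∉ J).card + (J.filter fun g => g * y ∉ J).card := by
  have hne : J.Nonempty := Finset.card_pos.1 (by omega)
  have h1 := seg1 hx J hne
  have h2 := seg1 hy J hne
  by_contra hlt
  have e1 : (J.filter fun g => g * x ∉ J).card = 1 := by omega
  have e2 : (J.filter fun g => g * y ∉ J).card = 1 := by omega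
  obtain ⟨g0, hg0⟩ := Finset.card_eq_one.1 e1
  have hall : ∀ g ∈ J, ∃ k : ℕ, g * x ^ k = g0 := by
    intro g hg
    obtain ⟨k, h3, h4⟩ := ttree_seg hx J hg
    refine ⟨k, Finset.mem_singleton.1 ?_⟩
    rw [← hg0]
    exact Finset.mem_filter.2 ⟨h3, h4⟩
  have hex : ∃ g ∈ J, g * y ∈ J := by
    by_contra hno
    have : (J.filter fun g => g * y ∉ J) = J :=
      Finset.filter_true_of_mem fun g hg t => hno ⟨g, hg, t⟩
    rw [this] at e2
    omega
  obtain ⟨g, hg, hgy⟩ := hex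
  obtain ⟨k, hk⟩ := hall g hg
  obtain ⟨l, hl⟩ := hall _ hgy
  apply hxy
  have e : y * x ^ l = x ^ k := mul_left_cancel (a := g) (by rw [← mul_assoc, hl, hk])
  have e' : y = x ^ k * (x ^ l)⁻¹ := eq_mul_inv_of_mul_eq e
  rw [e']
  exact Subgroup.mul_mem _ (Subgroup.npow_mem_zpowers x k)
    (Subgroup.inv_mem _ (Subgroup.npow_mem_zpowers x l))

end Pool.Agent.RG
end

-- part Pool.Agent.Lib.MP_34a149_al.RG.TFold
section

/-!
The folding lemma.
-/

namespace Pool.Agent.RG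

open Relation MulAction

variable {H V Y : Type}

variable [Group H] [MulAction H V] [MulAction H Y] {D : V → V → Prop} {φ : Y → V}
  {Ar : Y → Y → Prop} {W : V → Subgroup H → ℕ → Prop} {ρ : IRel H Y} {I : Finset Y} {n : Y → ℕ}
  {E : Finset (Y × Y)} {c : ℤ}

theorem IRel.Conn.smul (hA : ∀ (h : H) p q, Ar p q → Ar (h • p) (h • q)) (h : H) {p q : Y}
    (e : ρ.Conn Ar p q) : ρ.Conn Ar (h • p) (h • q) := by
  induction e with
  | rel p q e => exact .rel _ _ (e.imp (ρ.inv h _ _) (hA h _ _))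
  | refl p => exact .refl _
  | symm p q _ ih => exact .symm _ _ ih
  | trans p q s _ _ ih ih' => exact .trans _ _ _ ih ih'

theorem IRel.Conn.mono {ρ' : IRel H Y} (hle : ∀ p q, ρ.r p q → ρ'.r p q) {p q : Y}
    (e : ρ.Conn Ar p q) : ρ'.Conn Ar p q := by
  induction e with
  | rel p q e => exact .rel _ _ (e.imp (hle _ _) id)
  | refl p => exact .refl _
  | symm p q _ ih => exact .symm _ _ ih
  | trans p q s _ _ ih ih' => exact .trans _ _ _ ih ih'

theorem IRel.Reps.idx (hI : ρ.Reps I) :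
    ∃ ι : Y → Y, (∀ p, ι p ∈ I ∧ ρ.orb p (ι p)) ∧ (∀ i ∈ I, ι i = i) ∧
      ∀ p q, ρ.orb p q ↔ ι p = ι q := by
  choose ι h1 h2 using hI.cov
  refine ⟨ι, fun p => ⟨h1 p, h2 p⟩, fun i hi => (hI.sep _ hi _ (h1 i) (h2 i)).symm, fun p q => ?_⟩
  exact ⟨fun e => hI.sep _ (h1 p) _ (h1 q) ((h2 p).symm.trans (e.trans (h2 q))),
    fun e => (h2 p).trans (e ▸ (h2 q).symm)⟩

open Classical in
/-- Representatives after an identification. -/
theorem IRel.Reps.fold (hI : ρ.Reps I) {z z' : Y} {B : Subgroup H} (a : ρ.Adm z z' B) :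
    (ρ.fold z z' B a).Reps (insert z (I.filter fun i => ¬ (ρ.fold z z' B a).orb i z)) ∧
      ∀ f : Y → ℤ, (∀ p q, ρ.orb p q → f p = f q) →
        ∑ i ∈ I.filter (fun i => ¬ (ρ.fold z z' B a).orb i z), f i =
          ∑ i ∈ I, f i - (if ρ.orb z z' then f z else f z + f z') := by
  have up : ∀ p q, ρ.orb p q → (ρ.fold z z' B a).orb p q := fun p q ⟨h, e⟩ => ⟨h, IRel.fold_le a e⟩
  refine ⟨⟨fun p => ?_, ?_⟩, fun f hf => ?_⟩
  · by_cases hp : (ρ.fold z z' B a).orb p z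
    · exact ⟨z, Finset.mem_insert_self _ _, hp⟩
    · obtain ⟨i, hi, e⟩ := hI.cov p
      exact ⟨i, Finset.mem_insert_of_mem (Finset.mem_filter.2 ⟨hi, fun t => hp ((up _ _ e).trans t)⟩),
        up _ _ e⟩
  · intro i hi j hj e
    rcases Finset.mem_insert.1 hi with rfl | hi <;> rcases Finset.mem_insert.1 hj with rfl | hj
    · rfl
    · exact ((Finset.mem_filter.1 hj).2 e.symm).elim
    · exact ((Finset.mem_filter.1 hi).2 e).elim
    · obtain ⟨h, e⟩ := e
      exact hI.sep _ (Finset.mem_filter.1 hi).1 _ (Finset.mem_filter.1 hj).1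
        ⟨h, (IRel.fold_r_of_not a (Finset.mem_filter.1 hi).2).1 e⟩
  · obtain ⟨i, hi, ei⟩ := hI.cov z
    obtain ⟨j, hj, ej⟩ := hI.cov z'
    have key : I.filter (fun k => (ρ.fold z z' B a).orb k z) = {i, j} := by
      ext k
      simp only [Finset.mem_filter, IRel.fold_orb a, Finset.mem_insert, Finset.mem_singleton]
      constructor
      · rintro ⟨hk, e | e⟩
        · exact Or.inl (hI.sep _ hk _ hi (e.trans ei))
        · exact Or.inr (hI.sep _ hk _ hj (e.trans ej))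
      · rintro (rfl | rfl)
        · exact ⟨hi, Or.inl ei.symm⟩
        · exact ⟨hj, Or.inr ej.symm⟩
    rw [← Finset.sum_filter_add_sum_filter_not I (fun k => (ρ.fold z z' B a).orb k z) f, key]
    split_ifs with h
    · have : i = j := hI.sep _ hi _ hj (ei.symm.trans (h.trans ej))
      subst this
      simp [hf _ _ ei]
    · have : i ≠ j := fun t => h (ei.trans (t ▸ ej.symm))
      rw [Finset.sum_pair this, hf _ _ ei, hf _ _ ej]
      ring

open Classical in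
/-- Orbits not meeting `M` need as many arrows not inside `M`. -/
theorem IRel.Reps.count (hI : ρ.Reps I) (E : Finset (Y × Y))
    (hE : ∀ p q, Ar p q → ∃ e ∈ E, ∃ h : H, ρ.r p (h • e.1) ∧ ρ.r q (h • e.2)) (M : Set Y)
    (hM : ∀ p q, ρ.orb p q → p ∈ M → q ∈ M) (hc : ∀ p, ∃ m ∈ M, ρ.Conn Ar m p) :
    (I.filter fun i => i ∉ M).card ≤ (E.filter fun e => ¬ (e.1 ∈ M ∧ e.2 ∈ M)).card := by
  obtain ⟨ι, h1, h2, h3⟩ := hI.idx
  have hm : ∀ p, ι p ∈ M ↔ p ∈ M := fun p => ⟨hM _ _ (h1 p).2.symm, hM _ _ (h1 p).2⟩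
  have key : ∀ p q, ρ.Conn Ar p q →
      EqvGen (fun a b => ∃ e ∈ E, a = ι e.1 ∧ b = ι e.2) (ι p) (ι q) := by
    intro p q e
    induction e with
    | rel p q e =>
      rcases e with e | e
      · rw [(h3 _ _).1 (IRel.orb_of_r e)]
        exact .refl _
      · obtain ⟨e, he, h, a, b⟩ := hE _ _ e
        exact .rel _ _ ⟨e, he, (h3 _ _).1 ⟨h, a⟩, (h3 _ _).1 ⟨h, b⟩⟩
    | refl p => exact .refl _
    | symm p q _ ih => exact .symm _ _ ih
    | trans p q s _ _ ih ih' => exact .trans _ _ _ ih ih'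
  have := conn_count (fun e : Y × Y => ι e.1) (fun e => ι e.2) E I M fun i hi => by
    obtain ⟨m, hm', e⟩ := hc i
    exact ⟨ι m, (hm m).2 hm', h2 i hi ▸ key _ _ e⟩
  simpa only [hm] using this

/-- Identifying two points with the same image costs at most one. -/
theorem St.ident (hA : Amb H D φ Ar) (hW : IsW W) (s : St φ Ar W ρ I n E c) {z z' : Y}
    (e : φ z = φ z') :
    ∃ ρ' I' n', St φ Ar W ρ' I' n' E (c + 1) ∧ ρ.Merge ρ' ∧ ρ'.r z z' := by
  classical
  obtain ⟨ι, h1, h2, h3⟩ := s.reps.idx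
  have wt : ∀ p, W (φ p) (ρ.stab p) (n (ι p)) := fun p => by
    obtain ⟨h, t⟩ := (h1 p).2
    rw [s.im _ _ t, hA.eqv, IRel.stab_eq t]
    exact hW.conj h _ _ _ _ (fun g hg => IRel.mem_stab_smul.1 hg) (s.wt _ (h1 p).1)
  have fx : ∀ p, ∀ g ∈ ρ.stab p, g • φ p = φ p := fun p g hg => by
    rw [← hA.eqv]; exact s.im _ _ hg
  obtain ⟨B, a, m, hB, hfx, hm⟩ : ∃ (B : Subgroup H) (_ : ρ.Adm z z' B) (m : ℕ), W (φ z) B m ∧
      (∀ g ∈ B, g • φ z = φ z) ∧
      (m : ℤ) = if ρ.orb z z' then (n (ι z) : ℤ) + 1 else n (ι z) + n (ι z') := by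
    by_cases ho : ρ.orb z z'
    · obtain ⟨β, t⟩ := ho.symm
      have hβ : β • φ z = φ z := by rw [← hA.eqv, ← s.im _ _ t, e]
      have hb : β ∈ ρ.stab z ⊔ Subgroup.zpowers β :=
        Subgroup.mem_sup_right (Subgroup.mem_zpowers β)
      refine ⟨ρ.stab z ⊔ Subgroup.zpowers β, ⟨le_sup_left, fun g hg => ?_, fun g hg => ?_⟩, _,
        hW.join _ _ _ _ _ (wt z) (hW.cyc β _ hβ), ?_, by simp [ho]⟩
      · rw [IRel.stab_eq t, IRel.mem_stab_smul] at hg
        have := Subgroup.mul_mem _ (Subgroup.mul_mem _ hb (Subgroup.mem_sup_left hg))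
          (Subgroup.inv_mem _ hb)
        simpa [mul_assoc] using this
      · have : β⁻¹ * g ∈ ρ.stab z := by
          simpa [IRel.mem_stab, mul_smul] using ρ.inv β⁻¹ _ _ (ρ.trans hg t)
        simpa using Subgroup.mul_mem _ hb (Subgroup.mem_sup_left this)
      · exact fun g hg => (sup_le (fx z) (Subgroup.zpowers_le.2 hβ) : _ ≤ stabilizer H (φ z)) hg
    · refine ⟨ρ.stab z ⊔ ρ.stab z', ⟨le_sup_left, le_sup_right, fun g hg => ?_⟩, _,
        hW.join _ _ _ _ _ (wt z) (e ▸ wt z'), ?_, by simp [ho]⟩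
      · exact (ho (IRel.orb.symm ⟨g, ρ.symm hg⟩)).elim
      · exact fun g hg => (sup_le (fx z) (e ▸ fx z') : _ ≤ stabilizer H (φ z)) hg
  obtain ⟨r1, r2⟩ := s.reps.fold a
  have hz : z ∉ I.filter fun i => ¬ (ρ.fold z z' B a).orb i z := fun t =>
    (Finset.mem_filter.1 t).2 (IRel.orb_refl _ _)
  refine ⟨ρ.fold z z' B a, _, Function.update n z m, ⟨?_, r1, ?_, s.Esub, ?_, ?_, ?_⟩,
    IRel.fold_merge a, IRel.fold_zz a⟩
  · rintro p q (t | ⟨h, k, b, t, t'⟩)
    · exact s.im _ _ t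
    · have u : ∀ (p : Y) (h : H), ρ.r p (h • z) ∨ ρ.r p (h • z') → φ p = h • φ z := by
        rintro p h (t | t)
        · rw [s.im _ _ t, hA.eqv]
        · rw [s.im _ _ t, hA.eqv, e]
      rw [u _ _ t, u _ _ t', ← inv_smul_eq_iff, ← mul_smul]
      exact hfx _ b
  · intro i hi
    rcases Finset.mem_insert.1 hi with rfl | hi
    · rw [IRel.fold_stab, Function.update_self]
      exact hB
    · rw [IRel.fold_stab_of_not a (Finset.mem_filter.1 hi).2,
        Function.update_of_ne (ne_of_mem_of_not_mem hi hz)]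
      exact s.wt _ (Finset.mem_filter.1 hi).1
  · intro p q t
    obtain ⟨e, he, h, u, v⟩ := s.Ecov p q t
    exact ⟨e, he, h, IRel.fold_le a u, IRel.fold_le a v⟩
  · intro p q t k u v
    exact (s.est p q t k u v).imp (IRel.fold_le a) (IRel.fold_le a)
  · have c1 := r2 (fun _ => 1) fun _ _ _ => rfl
    have c2 := r2 (fun p => n (ι p)) fun p q t => by rw [(h3 _ _).1 t]
    have c3 : ∑ i ∈ I, (n (ι i) : ℤ) = ∑ i ∈ I, (n i : ℤ) :=
      Finset.sum_congr rfl fun i hi => by rw [h2 i hi]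
    have c4 : ∑ i ∈ I.filter (fun i => ¬ (ρ.fold z z' B a).orb i z),
        ((Function.update n z m i : ℕ) : ℤ) =
        ∑ i ∈ I.filter (fun i => ¬ (ρ.fold z z' B a).orb i z), (n (ι i) : ℤ) :=
      Finset.sum_congr rfl fun i hi => by
        rw [Function.update_of_ne (ne_of_mem_of_not_mem hi hz), h2 i (Finset.mem_filter.1 hi).1]
    rw [Finset.sum_insert hz, Finset.card_insert_of_notMem hz, Function.update_self, c4, c2, c3, hm]
    simp only [Finset.sum_const, nsmul_eq_mul, mul_one] at c1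
    have := s.cost
    push_cast
    rw [c1]
    split_ifs <;> linarith

theorem St.step (hA : Amb H D φ Ar) (hW : IsW W) (s : St φ Ar W ρ I n E c) (hd : ¬ Det φ Ar ρ) :
    ∃ ρ' I' n' E', St φ Ar W ρ' I' n' E' c ∧ ρ.Merge ρ' ∧ E'.card < E.card := by
  classical
  have main : ∀ (p q p' q' z z' : Y), Ar p q → Ar p' q' → φ p = φ p' → φ q = φ q' → φ z = φ z' →
      ¬ (ρ.r p p' ∧ ρ.r q q') → (∀ ρ' : IRel H Y, (∀ a b, ρ.r a b → ρ'.r a b) → ρ'.r z z' →
        ρ'.r p p' ∧ ρ'.r q q') →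
      ∃ ρ' I' n' E', St φ Ar W ρ' I' n' E' c ∧ ρ.Merge ρ' ∧ E'.card < E.card := by
    intro p q p' q' z z' a a' ep eq ez hn hr
    obtain ⟨e, he, h, u, v⟩ := s.Ecov p q a
    obtain ⟨e', he', h', u', v'⟩ := s.Ecov p' q' a'
    have hne : e ≠ e' := by
      rintro rfl
      have t := s.est _ _ (hA.inv h _ _ (s.Esub e he)) (h' * h⁻¹)
        (by rw [← hA.eqv, smul_smul, inv_mul_cancel_right, ← s.im _ _ u', ← s.im _ _ u, ep])
        (by rw [← hA.eqv, smul_smul, inv_mul_cancel_right, ← s.im _ _ v', ← s.im _ _ v, eq])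
      simp only [smul_smul, inv_mul_cancel_right] at t
      exact hn ⟨ρ.trans u (ρ.symm (ρ.trans u' t.1)), ρ.trans v (ρ.symm (ρ.trans v' t.2))⟩
    obtain ⟨ρ', I', n', s', m, t⟩ := s.ident hA hW ez
    obtain ⟨t1, t2⟩ := hr ρ' m.1 t
    refine ⟨ρ', I', n', E.erase e', ⟨s'.im, s'.reps, s'.wt,
      fun f hf => s.Esub f (Finset.mem_of_mem_erase hf), fun b d t => ?_, s'.est, ?_⟩, m,
      Finset.card_erase_lt_of_mem he'⟩
    · obtain ⟨f, hf, g, x, y⟩ := s'.Ecov b d t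
      by_cases hfe : f = e'
      · subst hfe
        have w : ∀ {b p p' a a' : Y}, ρ'.r b (g • a') → ρ.r p (h • a) → ρ.r p' (h' • a') →
            ρ'.r p p' → ρ'.r b ((g * h'⁻¹ * h) • a) := by
          intro b p p' a a' x u u' t
          have := ρ'.inv (g * h'⁻¹) _ _
            (ρ'.trans (ρ'.symm (m.1 _ _ u')) (ρ'.trans (ρ'.symm t) (m.1 _ _ u)))
          simp only [smul_smul, inv_mul_cancel_right] at this
          exact ρ'.trans x this
        exact ⟨e, Finset.mem_erase.2 ⟨hne, he⟩, _, w x u u' t1, w y v v' t2⟩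
      · exact ⟨f, Finset.mem_erase.2 ⟨hfe, hf⟩, g, x, y⟩
    · have := s'.cost
      have h2 := Finset.card_erase_add_one he'
      omega
  unfold Det at hd
  push Not at hd
  obtain ⟨p, q, p', q', a, a', hd⟩ := hd
  by_cases h1 : ρ.r p p' → φ q = φ q' → ρ.r q q'
  · obtain ⟨x, y, t⟩ := hd h1
    exact main p q p' q' p p' a a' y (s.im _ _ x) y (fun u => t u.1) fun ρ' l u => ⟨u, l _ _ x⟩
  · push Not at h1
    obtain ⟨x, y, t⟩ := h1
    exact main p q p' q' q q' a a' (s.im _ _ x) y y (fun u => t u.2) fun ρ' l u => ⟨l _ _ x, u⟩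

/-- Folding terminates, and properties preserved by single folds hold at the end. -/
theorem St.fold_all (hA : Amb H D φ Ar) (hW : IsW W) (s : St φ Ar W ρ I n E c)
    (Pr : IRel H Y → Prop) (h0 : Pr ρ)
    (hPr : ∀ ρ₁ ρ₂ I₂ n₂ E₂, Pr ρ₁ → ρ₁.Merge ρ₂ → St φ Ar W ρ₂ I₂ n₂ E₂ c → Pr ρ₂) :
    ∃ ρ' I' n' E', St φ Ar W ρ' I' n' E' c ∧ Det φ Ar ρ' ∧ Pr ρ' := by
  induction hk : E.card using Nat.strong_induction_on generalizing ρ I n E with
  | _ k ih =>
    by_cases hd : Det φ Ar ρ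
    · exact ⟨ρ, I, n, E, s, hd, h0⟩
    · obtain ⟨ρ', I', n', E', s', m, lt⟩ := s.step hA hW hd
      exact ih _ (hk ▸ lt) s' (hPr _ _ _ _ _ h0 m s') rfl

theorem St.il (hT : IsTree D) (hA : Amb H D φ Ar) (s : St φ Ar W ρ I n E c) (hd : Det φ Ar ρ)
    {p q : Y} (h : ρ.Conn Ar p q) (e : φ p = φ q) : ρ.r p q := by
  refine Pool.Agent.RG.il hT φ ρ.r (fun a b => Ar a b ∨ Ar b a) ρ.eqv s.im (fun a b => Or.symm)
    (fun a b t => t.imp (hA.edge _ _) (hA.edge _ _)) ?_ ?_ e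
  · rintro a b a' b' (t | t) (t' | t') u v
    · exact (hd _ _ _ _ t t').1 u v
    · have := hA.edge _ _ t'
      rw [← v, ← s.im _ _ u] at this
      exact (hT.asymm _ _ (hA.edge _ _ t) this).elim
    · have := hA.edge _ _ t'
      rw [← v, ← s.im _ _ u] at this
      exact (hT.asymm _ _ (hA.edge _ _ t) this).elim
    · exact (hd _ _ _ _ t t').2 u v
  · clear e
    induction h with
    | rel p q e => exact .rel _ _ (e.imp id Or.inl)
    | refl p => exact .refl _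
    | symm p q _ ih => exact .symm _ _ ih
    | trans p q s _ _ ih ih' => exact .trans _ _ _ ih ih'

end Pool.Agent.RG
end

-- part Pool.Agent.Lib.MP_34a149_al.RG.TGood
section

/-!
Gluing folded pieces.
-/

namespace Pool.Agent.RG

open Relation MulAction

variable {H V Y : Type}

variable [Group H] [MulAction H V] {D : V → V → Prop} {W : V → Subgroup H → ℕ → Prop}

/-- The component of `z` in a folded state is a folded piece. -/
theorem St.extract [MulAction H Y] {φ : Y → V} {Ar : Y → Y → Prop} {ρ : IRel H Y} {I : Finset Y}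
    {n : Y → ℕ} {E : Finset (Y × Y)} {c : ℤ} (hT : IsTree D) (hA : Amb H D φ Ar) (hW : IsW W)
    (s : St φ Ar W ρ I n E c) (hd : Det φ Ar ρ) (z : Y) (hz : ∀ p, ∃ h : H, ρ.Conn Ar (h • p) z) :
    ∃ U : Subgroup H, (∀ h, h ∈ U ↔ ρ.Conn Ar (h • z) z) ∧
      Good D W U {v | ∃ p, ρ.Conn Ar p z ∧ φ p = v} c := by
  classical
  have sm : ∀ (h : H) {p q : Y}, ρ.Conn Ar p q → ρ.Conn Ar (h • p) (h • q) :=
    fun h _ _ e => IRel.Conn.smul hA.inv h e
  have tr : ∀ {p q r : Y}, ρ.Conn Ar p q → ρ.Conn Ar q r → ρ.Conn Ar p r :=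
    fun a b => EqvGen.trans _ _ _ a b
  have sy : ∀ {p q : Y}, ρ.Conn Ar p q → ρ.Conn Ar q p := fun a => EqvGen.symm _ _ a
  have ofr : ∀ {p q : Y}, ρ.r p q → ρ.Conn Ar p q := fun a => EqvGen.rel _ _ (Or.inl a)
  have ofa : ∀ {p q : Y}, Ar p q → ρ.Conn Ar p q := fun a => EqvGen.rel _ _ (Or.inr a)
  let U : Subgroup H :=
    { carrier := {h | ρ.Conn Ar (h • z) z}
      one_mem' := by
        show ρ.Conn Ar ((1 : H) • z) z
        rw [one_smul]
        exact EqvGen.refl _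
      mul_mem' := fun {a b} ha hb => by
        show ρ.Conn Ar ((a * b) • z) z
        rw [mul_smul]
        exact tr (sm a hb) ha
      inv_mem' := fun {a} ha => by
        show ρ.Conn Ar (a⁻¹ • z) z
        have := sm a⁻¹ (show ρ.Conn Ar (a • z) z from ha)
        rw [inv_smul_smul] at this
        exact sy this }
  have hU : ∀ (h : H) (p : Y), ρ.Conn Ar p z → (ρ.Conn Ar (h • p) z ↔ h ∈ U) := fun h p hp =>
    ⟨fun a => tr (sy (sm h hp)) a, fun a => tr (sm h hp) a⟩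
  choose t ht using hz
  have hsep : ∀ i ∈ I, ∀ j ∈ I, ∀ u ∈ U, φ (t i • i) = u • φ (t j • j) → i = j := by
    intro i hi j hj u hu e
    have h1 : ρ.r (t i • i) (u • t j • j) :=
      s.il hT hA hd (tr (ht i) (sy ((hU u _ (ht j)).2 hu))) (by rw [e, hA.eqv u])
    refine s.reps.sep i hi j hj ?_
    exact (ρ.orb_smul (t i) i).symm.trans ((IRel.orb_of_r h1).trans
      ((ρ.orb_smul u _).trans (ρ.orb_smul _ _)))
  have hinj : Set.InjOn (fun i => φ (t i • i)) (I : Set Y) := fun i hi j hj e =>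
    hsep i hi j hj 1 U.one_mem (by rw [one_smul]; exact e)
  have hmv : ∀ (h : H) (p : Y), ρ.Conn Ar (h • p) z → h * (t p)⁻¹ ∈ U := fun h p hp =>
    (hU _ _ (ht p)).1 (by rw [mul_smul, inv_smul_smul]; exact hp)
  have hφ : ∀ (h k : H) (p : Y), φ (h • p) = (h * k⁻¹) • φ (k • p) := fun h k p => by
    rw [← hA.eqv, mul_smul, inv_smul_smul]
  let n' : V → ℕ := fun v => if h : ∃ i ∈ I, φ (t i • i) = v then n h.choose else 0
  have hn' : ∀ i ∈ I, n' (φ (t i • i)) = n i := by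
    intro i hi
    have h : ∃ j ∈ I, φ (t j • j) = φ (t i • i) := ⟨i, hi, rfl⟩
    show (if h : ∃ j ∈ I, φ (t j • j) = φ (t i • i) then n h.choose else 0) = n i
    rw [dif_pos h, hinj h.choose_spec.1 hi h.choose_spec.2]
  refine ⟨U, fun h => Iff.rfl, I.image fun i => φ (t i • i), n',
    E.image fun e => (φ (t e.1 • e.1), φ (t e.1 • e.2)), ?_⟩
  refine ⟨⟨φ z, z, EqvGen.refl _, rfl⟩, ?_, ?_, ?_, ?_, ?_, ?_, ?_, ?_⟩
  · rintro u hu _ ⟨p, hp, rfl⟩
    exact ⟨u • p, (hU u p hp).2 hu, hA.eqv u p⟩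
  · intro v hv
    obtain ⟨i, -, rfl⟩ := Finset.mem_image.1 hv
    exact ⟨_, ht i, rfl⟩
  · rintro _ ⟨p, hp, rfl⟩
    obtain ⟨i, hi, h, e⟩ := s.reps.cov p
    refine ⟨_, Finset.mem_image_of_mem _ hi, h * (t i)⁻¹, hmv h i (tr (sy (ofr e)) hp), ?_⟩
    rw [s.im _ _ e, hφ h (t i)]
  · intro v hv w hw u hu e
    obtain ⟨i, hi, rfl⟩ := Finset.mem_image.1 hv
    obtain ⟨j, hj, rfl⟩ := Finset.mem_image.1 hw
    rw [hsep i hi j hj u hu e]
  · intro v hv
    obtain ⟨i, hi, rfl⟩ := Finset.mem_image.1 hv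
    rw [hn' i hi]
    have := hW.conj (t i) (φ i) (ρ.stab i) (U ⊓ stabilizer H (φ (t i • i))) (n i) ?_ (s.wt i hi)
    · rwa [← hA.eqv] at this
    · intro g hg
      refine IRel.mem_stab_smul.1 (IRel.mem_stab.2 ?_)
      refine s.il hT hA hd (tr ((hU g _ (ht i)).2 hg.1) (sy (ht i))) ?_
      rw [hA.eqv g]
      exact hg.2
  · intro v hv
    obtain ⟨e, he, rfl⟩ := Finset.mem_image.1 hv
    have ha := hA.inv (t e.1) _ _ (s.Esub e he)
    refine ⟨hA.edge _ _ ha, ⟨_, ht _, rfl⟩, ⟨_, tr (sy (ofa ha)) (ht _), rfl⟩, fun k h1 h2 => ?_⟩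
    exact (hU k _ (ht _)).1 (tr (ofr (s.est _ _ ha k h1 h2).1) (ht _))
  · have key : ∀ p q, ρ.Conn Ar p q → ρ.Conn Ar p z →
        EqvGen (fun a b => ∃ e ∈ E.image fun e => (φ (t e.1 • e.1), φ (t e.1 • e.2)),
          ∃ u ∈ U, a = u • e.1 ∧ b = u • e.2) (φ p) (φ q) := by
      intro p q h
      induction h with
      | rel x y h =>
        intro hx
        rcases h with h | h
        · rw [s.im _ _ h]
          exact EqvGen.refl _
        · obtain ⟨e, he, g, e1, e2⟩ := s.Ecov _ _ h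
          refine EqvGen.rel _ _ ⟨_, Finset.mem_image_of_mem _ he, g * (t e.1)⁻¹,
            hmv g _ (tr (sy (ofr e1)) hx), ?_, ?_⟩
          · rw [s.im _ _ e1, hφ g (t e.1)]
          · rw [s.im _ _ e2, hφ g (t e.1)]
      | refl x => exact fun _ => EqvGen.refl _
      | symm x y h ih => exact fun hy => EqvGen.symm _ _ (ih (tr h hy))
      | trans x y w h1 _ ih1 ih2 =>
        exact fun hx => EqvGen.trans _ _ _ (ih1 hx) (ih2 (tr (sy h1) hx))
    rintro _ ⟨p, hp, rfl⟩ _ ⟨q, hq, rfl⟩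
    exact key p q (tr hp (sy hq)) hp
  · rw [Finset.sum_image hinj, Finset.card_image_of_injOn hinj,
      Finset.sum_congr rfl fun i hi => by rw [hn' i hi]]
    have h1 : ((E.image fun e => (φ (t e.1 • e.1), φ (t e.1 • e.2))).card : ℤ) ≤ E.card :=
      Int.ofNat_le.2 Finset.card_image_le
    have h2 := s.cost
    omega

/-- Gluing a finite family of pieces (one or two in practice) at a common vertex. -/
theorem glue (hT : IsTree D) (hD : ∀ (h : H) u v, D u v → D (h • u) (h • v)) (hW : IsW W)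
    {ι : Type} [Fintype ι] (U : ι → Subgroup H) (S : ι → Set V) (q : ι → ℤ)
    (hG : ∀ j, Good D W (U j) (S j) (q j)) (j j' : ι) (hj : ∀ k, k = j ∨ k = j') (β : H) {s s' : V}
    (hs : s ∈ S j) (hs' : s' ∈ S j') (e : s = β • s') :
    ∃ U' S', Good D W U' S' (∑ k, q k + 1) ∧ U j ≤ U' ∧ S j ⊆ S' ∧
      (∀ g ∈ U j', β * g * β⁻¹ ∈ U') ∧ (∀ t ∈ S j', β • t ∈ S') ∧ (j = j' → β ∈ U') := by
  classical
  choose I n E hG using hG
  let J := {x : ι × V // x.2 ∈ S x.1}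
  let φ : Fr H J → V := fun p => p.g • p.j.1.2
  let ρ : IRel H (Fr H J) :=
    { r := fun p p' => ∃ k, p.j.1.1 = k ∧ p'.j.1.1 = k ∧ p.g⁻¹ * p'.g ∈ U k ∧ φ p = φ p'
      eqv := by
        refine ⟨fun p => ⟨_, rfl, rfl, by simp, rfl⟩, ?_, ?_⟩
        · rintro p p' ⟨k, a, b, c, d⟩
          exact ⟨k, b, a, by simpa using (U k).inv_mem c, d.symm⟩
        · rintro p p' p'' ⟨k, a, b, c, d⟩ ⟨k', a', b', c', d'⟩
          obtain rfl : k = k' := b.symm.trans a'
          exact ⟨k, a, b', by simpa [mul_assoc] using (U k).mul_mem c c', d.trans d'⟩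
      inv := by
        rintro h ⟨g, x⟩ ⟨g', x'⟩ ⟨k, a, b, c, d⟩
        refine ⟨k, a, b, ?_, ?_⟩
        · show (h * g)⁻¹ * (h * g') ∈ U k
          simpa [mul_assoc] using c
        · show (h * g) • x.1.2 = (h * g') • x'.1.2
          rw [mul_smul, mul_smul]
          exact congrArg (h • ·) d }
  have hρ : ∀ (k : ι) (g g' : H) (a b : V) (ha : a ∈ S k) (hb : b ∈ S k), g⁻¹ * g' ∈ U k →
      g • a = g' • b → ρ.r ⟨g, ⟨(k, a), ha⟩⟩ ⟨g', ⟨(k, b), hb⟩⟩ :=
    fun k g g' a b _ _ h1 h2 => ⟨k, rfl, rfl, h1, h2⟩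
  let Ar : Fr H J → Fr H J → Prop := fun p p' =>
    ∃ k, ∃ e ∈ E k, p.j.1 = (k, e.1) ∧ p'.j.1 = (k, e.2) ∧ p.g = p'.g
  have hA : Amb H D φ Ar := by
    refine ⟨?_, ?_, ?_⟩
    · rintro h ⟨g, x⟩
      exact mul_smul h g _
    · rintro h ⟨g, x⟩ ⟨g', x'⟩ ⟨k, e, he, a, b, c⟩
      exact ⟨k, e, he, a, b, congrArg (h * ·) c⟩
    · rintro p p' ⟨k, e, he, a, b, c⟩
      show D (p.g • p.j.1.2) (p'.g • p'.j.1.2)
      rw [a, b, c]
      exact hD _ _ _ ((hG k).Esub e he).1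
  let fI : {x // x ∈ Finset.univ.sigma I} → Fr H J := fun x =>
    ⟨1, ⟨(x.1.1, x.1.2), (hG _).Isub _ (Finset.mem_sigma.1 x.2).2⟩⟩
  have hfI : Function.Injective fI := by
    rintro ⟨⟨k, a⟩, ha⟩ ⟨⟨k', a'⟩, ha'⟩ h
    have h1 : (k, a) = (k', a') := congrArg (fun p : Fr H J => p.j.1) h
    obtain ⟨rfl, rfl⟩ := Prod.mk.inj h1
    rfl
  let I0 : Finset (Fr H J) := (Finset.univ.sigma I).attach.image fI
  have mI : ∀ (k : ι) (a : V) (ha : a ∈ I k), (⟨1, ⟨(k, a), (hG k).Isub a ha⟩⟩ : Fr H J) ∈ I0 :=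
    fun k a ha => Finset.mem_image.2
      ⟨⟨⟨k, a⟩, Finset.mem_sigma.2 ⟨Finset.mem_univ _, ha⟩⟩, Finset.mem_attach _ _, rfl⟩
  have mI' : ∀ p ∈ I0, ∃ (k : ι) (a : V) (ha : a ∈ I k), p = ⟨1, ⟨(k, a), (hG k).Isub a ha⟩⟩ := by
    intro p hp
    obtain ⟨x, -, rfl⟩ := Finset.mem_image.1 hp
    exact ⟨x.1.1, x.1.2, (Finset.mem_sigma.1 x.2).2, rfl⟩
  have sI : ∀ f : ι → V → ℤ, ∑ p ∈ I0, f p.j.1.1 p.j.1.2 = ∑ k, ∑ a ∈ I k, f k a := by
    intro f
    rw [Finset.sum_image fun _ _ _ _ h => hfI h, Finset.sum_sigma']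
    exact Finset.sum_attach (Finset.univ.sigma I) fun x => f x.1 x.2
  let fE : {x // x ∈ Finset.univ.sigma E} → Fr H J × Fr H J := fun x =>
    (⟨1, ⟨(x.1.1, x.1.2.1), ((hG _).Esub _ (Finset.mem_sigma.1 x.2).2).2.1⟩⟩,
      ⟨1, ⟨(x.1.1, x.1.2.2), ((hG _).Esub _ (Finset.mem_sigma.1 x.2).2).2.2.1⟩⟩)
  let E0 : Finset (Fr H J × Fr H J) := (Finset.univ.sigma E).attach.image fE
  have st : St φ Ar W ρ I0 (fun p => n p.j.1.1 p.j.1.2) E0 (∑ k, q k) := by
    refine ⟨?_, ⟨?_, ?_⟩, ?_, ?_, ?_, ?_, ?_⟩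
    · rintro p p' ⟨k, -, -, -, d⟩
      exact d
    · rintro ⟨g, ⟨k, v⟩, hv⟩
      obtain ⟨i, hi, u, hu, rfl⟩ := (hG k).cov v hv
      refine ⟨_, mI k i hi, g * u, ?_⟩
      rw [Fr.smul_mk]
      exact hρ k _ _ _ _ _ _ (by simpa using hu) (by rw [mul_one, mul_smul])
    · intro p hp p' hp' ⟨h, k0, a0, b0, c, d⟩
      obtain ⟨k, a, ha, rfl⟩ := mI' p hp
      obtain ⟨k', a', ha', rfl⟩ := mI' p' hp'
      obtain rfl : k = k0 := a0
      obtain rfl : k' = k := b0
      have c' : (1 : H)⁻¹ * (h * 1) ∈ U k' := c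
      have d' : (1 : H) • a = (h * 1) • a' := d
      obtain rfl : a = a' :=
        (hG k').sep a ha a' ha' h (by simpa using c') (by simpa using d')
      rfl
    · intro p hp
      obtain ⟨k, a, ha, rfl⟩ := mI' p hp
      show W ((1 : H) • a) _ (n k a)
      rw [one_smul]
      refine hW.mono _ _ _ _ _ ?_ le_rfl ((hG k).wt a ha)
      rintro h ⟨k0, a0, -, c, d⟩
      obtain rfl : k = k0 := a0
      have c' : (h * 1)⁻¹ * 1 ∈ U k := c
      have d' : (h * 1) • a = (1 : H) • a := d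
      exact ⟨by simpa using c', by simpa using d'⟩
    · intro e he
      obtain ⟨x, -, rfl⟩ := Finset.mem_image.1 he
      exact ⟨x.1.1, x.1.2, (Finset.mem_sigma.1 x.2).2, rfl, rfl, rfl⟩
    · rintro ⟨g, x, hx⟩ ⟨g', x', hx'⟩ ⟨k, e, he, a, b, c⟩
      obtain rfl : x = (k, e.1) := a
      obtain rfl : x' = (k, e.2) := b
      obtain rfl : g = g' := c
      refine ⟨fE ⟨⟨k, e⟩, Finset.mem_sigma.2 ⟨Finset.mem_univ _, he⟩⟩,
        Finset.mem_image_of_mem _ (Finset.mem_attach _ _), g, ?_, ?_⟩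
      · exact hρ k g (g * 1) _ _ _ _ (by simp) (by rw [mul_one])
      · exact hρ k g (g * 1) _ _ _ _ (by simp) (by rw [mul_one])
    · rintro ⟨g, x, hx⟩ ⟨g', x', hx'⟩ ⟨k, e, he, a, b, c⟩ h h1 h2
      obtain rfl : x = (k, e.1) := a
      obtain rfl : x' = (k, e.2) := b
      obtain rfl : g = g' := c
      have h1' : h • g • e.1 = g • e.1 := h1
      have h2' : h • g • e.2 = g • e.2 := h2
      have hu : g⁻¹ * h * g ∈ U k := ((hG k).Esub e he).2.2.2 _
        (by rw [mul_smul, mul_smul, h1', inv_smul_smul])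
        (by rw [mul_smul, mul_smul, h2', inv_smul_smul])
      have hu' : (h * g)⁻¹ * g ∈ U k := by simpa [mul_assoc] using (U k).inv_mem hu
      exact ⟨hρ k (h * g) g _ _ _ _ hu' (by rw [mul_smul, h1']),
        hρ k (h * g) g _ _ _ _ hu' (by rw [mul_smul, h2'])⟩
    · have h1 : (E0.card : ℤ) ≤ ∑ k, ((E k).card : ℤ) := by
        have : E0.card ≤ ∑ k, (E k).card := by
          refine Finset.card_image_le.trans (le_of_eq ?_)
          rw [Finset.card_attach, Finset.card_sigma]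
        exact_mod_cast this
      have h2 : (I0.card : ℤ) = ∑ k, ((I k).card : ℤ) := by simpa using sI fun _ _ => 1
      have h3 := sI fun k a => (n k a : ℤ)
      have h4 := Finset.sum_le_sum fun k (_ : k ∈ Finset.univ) => (hG k).cost
      rw [Finset.sum_add_distrib, Finset.sum_add_distrib] at h4
      omega
  have hc : ∀ (k : ι) (h : H) (a b : V) (ha : a ∈ S k) (hb : b ∈ S k),
      ρ.Conn Ar ⟨h, ⟨(k, a), ha⟩⟩ ⟨h, ⟨(k, b), hb⟩⟩ := by
    intro k h
    have key : ∀ a b, EqvGen (fun a b => ∃ e ∈ E k, ∃ u ∈ U k, a = u • e.1 ∧ b = u • e.2) a b →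
        (a ∈ S k ↔ b ∈ S k) ∧ ∀ (ha : a ∈ S k) (hb : b ∈ S k),
          ρ.Conn Ar ⟨h, ⟨(k, a), ha⟩⟩ ⟨h, ⟨(k, b), hb⟩⟩ := by
      intro a b hab
      induction hab with
      | rel x y hxy =>
        obtain ⟨e, he, u, hu, rfl, rfl⟩ := hxy
        obtain ⟨-, e1, e2, -⟩ := (hG k).Esub e he
        refine ⟨iff_of_true ((hG k).inv u hu _ e1) ((hG k).inv u hu _ e2), fun ha hb => ?_⟩
        refine EqvGen.trans _ ⟨h * u, ⟨(k, e.1), e1⟩⟩ _ (EqvGen.rel _ _ (Or.inl ?_))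
          (EqvGen.trans _ ⟨h * u, ⟨(k, e.2), e2⟩⟩ _
            (EqvGen.rel _ _ (Or.inr ⟨k, e, he, rfl, rfl, rfl⟩))
            (EqvGen.symm _ _ (EqvGen.rel _ _ (Or.inl ?_))))
        · exact hρ k _ _ _ _ _ _ (by simpa using hu) (by rw [mul_smul])
        · exact hρ k _ _ _ _ _ _ (by simpa using hu) (by rw [mul_smul])
      | refl x => exact ⟨Iff.rfl, fun _ _ => EqvGen.refl _⟩
      | symm x y _ ih => exact ⟨ih.1.symm, fun ha hb => EqvGen.symm _ _ (ih.2 hb ha)⟩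
      | trans x y w _ _ ih1 ih2 =>
        exact ⟨ih1.1.trans ih2.1, fun ha hb =>
          EqvGen.trans _ _ _ (ih1.2 ha (ih1.1.1 ha)) (ih2.2 _ hb)⟩
    exact fun a b ha hb => (key a b ((hG k).conn a ha b hb)).2 ha hb
  obtain ⟨ρ1, I1, n1, st1, hm, hzz⟩ := st.ident hA hW (z := ⟨1, ⟨(j, s), hs⟩⟩)
    (z' := ⟨β, ⟨(j', s'), hs'⟩⟩) (by show (1 : H) • s = β • s'; rw [one_smul, e])
  obtain ⟨ρ2, I2, n2, E2, st2, hd, hle⟩ := st1.fold_all hA hW
    (fun ρ' => ∀ p p', ρ1.r p p' → ρ'.r p p') (fun _ _ h => h)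
    (fun _ _ _ _ _ h1 h2 _ p p' h => h2.1 _ _ (h1 _ _ h))
  have hle' : ∀ p p', ρ.r p p' → ρ2.r p p' := fun p p' h => hle _ _ (hm.1 _ _ h)
  have tr : ∀ {p p' p'' : Fr H J}, ρ2.Conn Ar p p' → ρ2.Conn Ar p' p'' → ρ2.Conn Ar p p'' :=
    fun a b => EqvGen.trans _ _ _ a b
  have ofr : ∀ {p p' : Fr H J}, ρ2.r p p' → ρ2.Conn Ar p p' := fun a => EqvGen.rel _ _ (Or.inl a)
  have c1 : ∀ (a : V) (ha : a ∈ S j), ρ2.Conn Ar ⟨1, ⟨(j, a), ha⟩⟩ ⟨1, ⟨(j, s), hs⟩⟩ :=
    fun a ha => IRel.Conn.mono hle' (hc j 1 a s ha hs)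
  have c2 : ∀ (a : V) (ha : a ∈ S j'), ρ2.Conn Ar ⟨β, ⟨(j', a), ha⟩⟩ ⟨1, ⟨(j, s), hs⟩⟩ :=
    fun a ha => tr (IRel.Conn.mono hle' (hc j' β a s' ha hs')) (ofr (ρ2.symm (hle _ _ hzz)))
  obtain ⟨U', hU', hg⟩ := st2.extract hT hA hW hd ⟨1, ⟨(j, s), hs⟩⟩ (by
    rintro ⟨g, ⟨k, v⟩, hv⟩
    rcases hj k with rfl | rfl
    · refine ⟨g⁻¹, ?_⟩
      rw [Fr.smul_mk, inv_mul_cancel]
      exact c1 v hv
    · refine ⟨β * g⁻¹, ?_⟩
      rw [Fr.smul_mk, inv_mul_cancel_right]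
      exact c2 v hv)
  refine ⟨U', _, hg, fun u hu => (hU' u).2 ?_, fun a ha => ⟨_, c1 a ha, one_smul H a⟩,
    fun g hg' => (hU' _).2 ?_, fun a ha => ⟨_, c2 a ha, rfl⟩, ?_⟩
  · rw [Fr.smul_mk]
    refine tr (ofr (hle' _ _ (hρ j _ 1 s (u • s) hs ((hG j).inv u hu s hs) ?_ ?_))) (c1 _ _)
    · simpa using hu
    · simp
  · refine tr (ofr (ρ2.inv _ _ _ (hle _ _ hzz))) ?_
    rw [Fr.smul_mk]
    refine tr (ofr (hle' _ _ (hρ j' _ β s' (g • s') hs' ((hG j').inv g hg' s' hs') ?_ ?_)))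
      (c2 _ _)
    · simpa [mul_assoc] using hg'
    · simp [mul_smul]
  · rintro rfl
    refine (hU' β).2 ?_
    rw [Fr.smul_mk, mul_one]
    exact c2 s hs

end Pool.Agent.RG
end

-- part Pool.Agent.Lib.MP_34a149_al.RG.TInit
section

/-!
Subdivided paths joining prescribed pairs of points.
-/

namespace Pool.Agent.RG

open Relation MulAction

variable {H V Y : Type}

variable [Group H] [MulAction H V] [MulAction H Y] {D : V → V → Prop}

theorem tinit_cons {R : V → V → Prop} {u w v : V} (h : R u w)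
    (e : ∃ (n : ℕ) (p : ℕ → V), p 0 = w ∧ p n = v ∧ ∀ i < n, R (p i) (p (i + 1))) :
    ∃ (n : ℕ) (p : ℕ → V), p 0 = u ∧ p (n + 1) = v ∧ ∀ i < n + 1, R (p i) (p (i + 1)) := by
  obtain ⟨n, p, rfl, h1, h2⟩ := e
  refine ⟨n, fun i => Nat.casesOn i u p, rfl, h1, fun i hi => ?_⟩
  cases i with
  | zero => exact h
  | succ i => exact h2 i (by omega)

theorem tinit_walk {R : V → V → Prop} {u v : V} (h : ReflTransGen R u v) :
    ∃ (n : ℕ) (p : ℕ → V), p 0 = u ∧ p n = v ∧ ∀ i < n, R (p i) (p (i + 1)) := by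
  induction h using ReflTransGen.head_induction_on with
  | refl => exact ⟨0, fun _ => v, rfl, rfl, fun i hi => absurd hi (Nat.not_lt_zero i)⟩
  | head h _ ih =>
    obtain ⟨n, p, e⟩ := tinit_cons h ih
    exact ⟨n + 1, p, e⟩

/-- The points of the subdivided paths. -/
def tinit_pt (H : Type) [Group H] {K : Type} (a b : K → Y) (n : K → ℕ) (k : K) :
    ℕ → Y ⊕ Fr H (Σ k, Fin (n k))
  | 0 => Sum.inl (a k)
  | i + 1 => if h : i < n k then Sum.inr ⟨1, ⟨k, ⟨i, h⟩⟩⟩ else Sum.inl (b k)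

/-- Each prescribed pair is joined by a path through new free points, at the cost of one more
arrow than new orbits. -/
theorem paths (hT : IsTree D) (φ : Y → V) (hφ : ∀ (h : H) p, φ (h • p) = h • φ p)
    {K : Type} [Fintype K] (a b : K → Y) :
    ∃ (J : Type) (_ : Fintype J) (pos : J → V) (A : Finset ((Y ⊕ Fr H J) × (Y ⊕ Fr H J))),
      A.card ≤ Fintype.card J + Fintype.card K ∧
      (∀ e ∈ A, D (Sum.elim φ (fun p : Fr H J => p.g • pos p.j) e.1)
        (Sum.elim φ (fun p : Fr H J => p.g • pos p.j) e.2)) ∧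
      (∀ k, EqvGen (Tl H A) (Sum.inl (a k)) (Sum.inl (b k))) ∧
      ∀ j, ∃ y, EqvGen (Tl H A) (Sum.inl y) (Sum.inr ⟨1, j⟩) := by
  classical
  choose w hw using hT.nbr
  choose n p h0 h1 h2 using fun k => tinit_cons (hw (φ (a k))) (tinit_walk (hT.conn _ (φ (b k))))
  let pt := tinit_pt H a b n
  let ar : (Σ k, Fin (n k + 1)) → (Y ⊕ Fr H (Σ k, Fin (n k))) × (Y ⊕ Fr H (Σ k, Fin (n k))) :=
    fun x => if D (p x.1 x.2) (p x.1 (x.2 + 1)) then (pt x.1 x.2, pt x.1 (x.2 + 1))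
      else (pt x.1 (x.2 + 1), pt x.1 x.2)
  have hp : ∀ k i, i ≤ n k + 1 → Sum.elim φ
      (fun q : Fr H (Σ k, Fin (n k)) => q.g • p q.j.1 (q.j.2 + 1)) (pt k i) = p k i := by
    intro k i hi
    cases i with
    | zero => exact (h0 k).symm
    | succ i =>
      simp only [pt, tinit_pt]
      split_ifs with h
      · exact one_smul _ _
      · rw [show i = n k by omega, h1]; rfl
  have hc : ∀ k i, i ≤ n k + 1 →
      EqvGen (Tl H (Finset.univ.image ar)) (Sum.inl (a k)) (pt k i) := by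
    intro k i
    induction i with
    | zero => exact fun _ => EqvGen.refl _
    | succ i ih =>
      intro hi
      have h3 : EqvGen (Tl H (Finset.univ.image ar)) (ar ⟨k, ⟨i, hi⟩⟩).1 (ar ⟨k, ⟨i, hi⟩⟩).2 :=
        EqvGen.rel _ _ ⟨_, Finset.mem_image_of_mem _ (Finset.mem_univ _), 1, (one_smul _ _).symm,
          (one_smul _ _).symm⟩
      refine EqvGen.trans _ _ _ (ih (by omega)) ?_
      simp only [ar] at h3 ⊢
      split_ifs at h3
      · exact h3
      · exact EqvGen.symm _ _ h3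
  refine ⟨Σ k, Fin (n k), inferInstance, fun j => p j.1 (j.2 + 1), Finset.univ.image ar,
    Finset.card_image_le.trans ?_, fun e he => ?_, fun k => ?_, fun j => ⟨a j.1, ?_⟩⟩
  · simp [Finset.sum_add_distrib]
  · obtain ⟨⟨k, i⟩, -, rfl⟩ := Finset.mem_image.1 he
    have h3 := hp k i i.2.le
    have h4 := hp k (i + 1) i.2
    simp only [ar]
    split_ifs with h
    · exact h3 ▸ h4 ▸ h
    · exact h3 ▸ h4 ▸ (h2 k i i.2).resolve_left h
  · have h3 := hc k (n k + 1) le_rfl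
    simpa only [pt, tinit_pt, lt_irrefl, dite_false] using h3
  · have h3 := hc j.1 (j.2 + 1) (by omega)
    simpa only [pt, tinit_pt, j.2.2, dite_true] using h3

end Pool.Agent.RG
end
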